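import Mathlib

/-!
# Abel summation over a block

Sums `∑ f(k) c(k)` where the partial sums of `c` are `κ t + O(P)`.
-/

set_option autoImplicit false

namespace Lnk

open MeasureTheory Set

/-- Abel summation over a block: `c` has partial sums `κ t + O(P)`, `f(t) = O(B/t)`,
`f'(t) = O(B K / t ^ 2)`. -/
theorem abel_block (c : ℕ → ℂ) (κ : ℂ) {P : ℝ}
    (hP : ∀ t : ℝ, 0 ≤ t → ‖∑ k ∈ Finset.Icc 0 ⌊t⌋₊, c k - κ * t‖ ≤ P)
    {a b B K : ℝ} (ha : 0 < a) (hab : a ≤ b) {f f' : ℝ → ℂ}
    (hf : ∀ t ∈ Icc a b, HasDerivAt f (f' t) t) (hf' : ContinuousOn f' (Icc a b))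
    (hB0 : 0 ≤ B) (hK0 : 0 ≤ K)
    (hB : ∀ t ∈ Icc a b, ‖f t‖ ≤ B / t) (hK : ∀ t ∈ Icc a b, ‖f' t‖ ≤ B * K / t ^ 2) :
    ‖∑ k ∈ Finset.Ioc ⌊a⌋₊ ⌊b⌋₊, f k * c k - κ * ∫ t in a..b, f t‖ ≤ P * (B * (2 + K) / a) := by
  have hb : 0 < b := ha.trans_le hab
  have hP0 : 0 ≤ P := (norm_nonneg _).trans (hP 0 le_rfl)
  set S : ℝ → ℂ := fun t => ∑ k ∈ Finset.Icc 0 ⌊t⌋₊, c k with hS
  have hder : ∀ t ∈ Icc a b, deriv f t = f' t := fun t ht => (hf t ht).deriv
  have hint' : IntegrableOn f' (Icc a b) := hf'.integrableOn_Icc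
  have hint : IntegrableOn (deriv f) (Icc a b) :=
    hint'.congr_fun (fun t ht => (hder t ht).symm) measurableSet_Icc
  have habel := sum_mul_eq_sub_sub_integral_mul c ha.le hab
    (fun t ht => (hf t ht).differentiableAt) hint
  have hfS : IntegrableOn (fun t => f' t * S t) (Icc a b) := by
    have := integrableOn_mul_sum_Icc c ha.le hint' (m := 0)
    exact this
  have e1 : ∫ t in Ioc a b, deriv f t * ∑ k ∈ Finset.Icc 0 ⌊t⌋₊, c k = ∫ t in a..b, f' t * S t := by
    rw [intervalIntegral.integral_of_le hab]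
    refine setIntegral_congr_fun measurableSet_Ioc fun t ht => ?_
    simp only [hder t (Ioc_subset_Icc_self ht), hS]
  have hfc : ContinuousOn f (Icc a b) := fun t ht => (hf t ht).continuousAt.continuousWithinAt
  have hu : uIcc a b = Icc a b := uIcc_of_le hab
  -- integration by parts
  have e2 : ∫ t in a..b, (f t + t * f' t) = b * f b - a * f a := by
    have h := intervalIntegral.integral_eq_sub_of_hasDerivAt (a := a) (b := b)
      (f := fun t : ℝ => (t : ℂ) * f t) (f' := fun t : ℝ => f t + t * f' t) (by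
        intro t ht
        rw [hu] at ht
        have h1 : HasDerivAt (fun t : ℝ => (t : ℂ)) 1 t := Complex.ofRealCLM.hasDerivAt
        have h2 : HasDerivAt (fun t : ℝ => (t : ℂ) * f t) (1 * f t + t * f' t) t :=
          h1.mul (hf t ht)
        rwa [one_mul] at h2) (by
        apply ContinuousOn.intervalIntegrable
        rw [hu]
        exact hfc.add (Complex.continuous_ofReal.continuousOn.mul hf'))
    simpa using h
  have i1 : IntervalIntegrable f volume a b := by
    apply ContinuousOn.intervalIntegrable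
    rwa [hu]
  have i2 : IntervalIntegrable (fun t : ℝ => (t : ℂ) * f' t) volume a b := by
    apply ContinuousOn.intervalIntegrable
    rw [hu]
    exact Complex.continuous_ofReal.continuousOn.mul hf'
  have i3 : IntervalIntegrable (fun t : ℝ => f' t * S t) volume a b := by
    rw [intervalIntegrable_iff_integrableOn_Icc_of_le hab]
    exact hfS
  rw [intervalIntegral.integral_add i1 i2] at e2
  have e3 : ∫ t in a..b, f' t * (S t - κ * t) =
      (∫ t in a..b, f' t * S t) - κ * ∫ t in a..b, (t : ℂ) * f' t := by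
    rw [← intervalIntegral.integral_const_mul, ← intervalIntegral.integral_sub i3
      (i2.const_mul κ)]
    congr 1
    ext t
    ring
  have key : ∑ k ∈ Finset.Ioc ⌊a⌋₊ ⌊b⌋₊, f k * c k - κ * ∫ t in a..b, f t =
      f b * (S b - κ * b) - f a * (S a - κ * a) - ∫ t in a..b, f' t * (S t - κ * t) := by
    rw [habel, e1, e3]
    linear_combination (-κ) * e2
  rw [key]
  have n1 : ‖f b * (S b - κ * b)‖ ≤ B / b * P := by
    rw [norm_mul]
    exact mul_le_mul (hB b (right_mem_Icc.2 hab)) (hP b hb.le) (norm_nonneg _) (by positivity)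
  have n2 : ‖f a * (S a - κ * a)‖ ≤ B / a * P := by
    rw [norm_mul]
    exact mul_le_mul (hB a (left_mem_Icc.2 hab)) (hP a ha.le) (norm_nonneg _) (by positivity)
  have n3 : ‖∫ t in a..b, f' t * (S t - κ * t)‖ ≤ ∫ t in a..b, B * K * P * (1 / t ^ 2) := by
    apply intervalIntegral.norm_integral_le_of_norm_le hab
    · refine Filter.Eventually.of_forall fun t ht => ?_
      have ht' := Ioc_subset_Icc_self ht
      have ht0 : 0 < t := ha.trans_le ht'.1
      rw [norm_mul]
      calc ‖f' t‖ * ‖S t - κ * t‖ ≤ (B * K / t ^ 2) * P :=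
            mul_le_mul (hK t ht') (hP t ht0.le) (norm_nonneg _) (by positivity)
        _ = B * K * P * (1 / t ^ 2) := by ring
    · apply ContinuousOn.intervalIntegrable
      rw [hu]
      intro t ht
      have ht0 : t ≠ 0 := (ha.trans_le ht.1).ne'
      apply ContinuousAt.continuousWithinAt
      fun_prop (disch := positivity)
  have e4 : ∫ t in a..b, B * K * P * (1 / t ^ 2) = B * K * P * (1 / a - 1 / b) := by
    rw [intervalIntegral.integral_const_mul]
    congr 1
    have h := intervalIntegral.integral_eq_sub_of_hasDerivAt (a := a) (b := b)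
      (f := fun t : ℝ => -t⁻¹) (f' := fun t : ℝ => 1 / t ^ 2) (by
        intro t ht
        rw [hu] at ht
        have ht0 : t ≠ 0 := (ha.trans_le ht.1).ne'
        have h2 : HasDerivAt (fun t : ℝ => -t⁻¹) (-(-(t ^ 2)⁻¹)) t := (hasDerivAt_inv ht0).neg
        rwa [neg_neg, ← one_div] at h2) (by
        apply ContinuousOn.intervalIntegrable
        rw [hu]
        intro t ht
        have ht0 : t ≠ 0 := (ha.trans_le ht.1).ne'
        apply ContinuousAt.continuousWithinAt
        fun_prop (disch := positivity))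
    rw [h]
    ring
  rw [e4] at n3
  calc ‖f b * (S b - κ * b) - f a * (S a - κ * a) - ∫ t in a..b, f' t * (S t - κ * t)‖
      ≤ ‖f b * (S b - κ * b)‖ + ‖f a * (S a - κ * a)‖ +
        ‖∫ t in a..b, f' t * (S t - κ * t)‖ :=
        (norm_sub_le _ _).trans (add_le_add_left (norm_sub_le _ _) _)
    _ ≤ B / b * P + B / a * P + B * K * P * (1 / a - 1 / b) := by gcongr
    _ ≤ B / a * P + B / a * P + B * K * P * (1 / a) := by
        have h1 : B / b ≤ B / a := by gcongr
        have h2 : B * K * P * (1 / a - 1 / b) ≤ B * K * P * (1 / a) := by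
          have : 0 ≤ 1 / b := by positivity
          gcongr
          linarith
        have h3 : B / b * P ≤ B / a * P := by gcongr
        linarith
    _ = P * (B * (2 + K) / a) := by ring

end Lnk
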