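import Pool.Agent.Lib.Linnik.Defs
import Pool.Agent.Lib.MP_0bb3d8_nt.HohFinal

/-!
# II8: assembly of the Linnik type theorem for non exceptional moduli
-/

set_option autoImplicit false

namespace Lnk

open Finset Real Filter Topology Hoh

theorem rs_apply (q : ℕ) (b : ZMod q) (a : ArithmeticFunction ℝ) (n : ℕ) :
    rs q b a n = if (n : ZMod q) = b then a n else 0 := rfl

theorem rs_add (q : ℕ) (b : ZMod q) (a a' : ArithmeticFunction ℝ) :
    rs q b (a + a') = rs q b a + rs q b a' := by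
  ext n
  simp only [rs_apply, ArithmeticFunction.add_apply]
  split_ifs <;> simp

theorem af_sub_apply (a a' : ArithmeticFunction ℝ) (n : ℕ) : (a - a') n = a n - a' n := by
  have h : (a - a' + a') n = a n := by rw [sub_add_cancel]
  rw [ArithmeticFunction.add_apply] at h
  linarith

theorem rs_sub (q : ℕ) (b : ZMod q) (a a' : ArithmeticFunction ℝ) :
    rs q b (a - a') = rs q b a - rs q b a' := by
  ext n
  simp only [rs_apply, af_sub_apply]
  split_ifs <;> simp

theorem rs_zero (q : ℕ) (b : ZMod q) : rs q b 0 = 0 := by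
  ext n
  simp [rs_apply]

theorem rs_smul (q : ℕ) (b : ZMod q) (c : ℝ) (a : ArithmeticFunction ℝ) :
    rs q b (c • a) = c • rs q b a := by
  ext n
  have h1 : (c • a) n = c * a n := rfl
  have h2 : (c • rs q b a) n = c * rs q b a n := rfl
  rw [h2, rs_apply, rs_apply, h1]
  split_ifs <;> simp

theorem rs_sum {ι : Type*} (q : ℕ) (b : ZMod q) (S : Finset ι) (a : ι → ArithmeticFunction ℝ) :
    rs q b (∑ i ∈ S, a i) = ∑ i ∈ S, rs q b (a i) := by
  classical
  induction S using Finset.induction_on with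
  | empty => simp [rs_zero]
  | insert i S hi ih => rw [Finset.sum_insert hi, Finset.sum_insert hi, rs_add, ih]

theorem rs_one (b : ZMod 1) (a : ArithmeticFunction ℝ) : rs 1 b a = a := by
  ext n
  rw [rs_apply, if_pos (Subsingleton.elim _ _)]

/-- shifting the residue class by a unit -/
theorem rs_dl_mul {q : ℕ} {d : ℕ} (hd : d ≠ 0) (hu : IsUnit (d : ZMod q)) (b : ZMod q)
    (a : ArithmeticFunction ℝ) :
    rs q b (dl d * a) = dl d * rs q (b * (d : ZMod q)⁻¹) a := by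
  ext n
  rcases Nat.eq_zero_or_pos n with rfl | hn
  · simp
  · rw [rs_apply, dl_mul_apply d hd _ n hn.ne', dl_mul_apply d hd _ n hn.ne']
    by_cases h : d ∣ n
    · obtain ⟨m, rfl⟩ := h
      rw [if_pos (Dvd.intro m rfl), if_pos (Dvd.intro m rfl),
        Nat.mul_div_cancel_left m (Nat.pos_of_ne_zero hd), rs_apply]
      have hiff : ((d * m : ℕ) : ZMod q) = b ↔ (m : ZMod q) = b * (d : ZMod q)⁻¹ := by
        have hinv : (d : ZMod q) * (d : ZMod q)⁻¹ = 1 := ZMod.mul_inv_of_unit _ hu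
        push_cast
        constructor
        · intro h1
          calc (m : ZMod q) = (d : ZMod q) * (d : ZMod q)⁻¹ * m := by rw [hinv, one_mul]
            _ = (d : ZMod q) * m * (d : ZMod q)⁻¹ := by ring
            _ = b * (d : ZMod q)⁻¹ := by rw [h1]
        · intro h1
          calc (d : ZMod q) * m = (d : ZMod q) * (b * (d : ZMod q)⁻¹) := by rw [h1]
            _ = b * ((d : ZMod q) * (d : ZMod q)⁻¹) := by ring
            _ = b := by rw [hinv, mul_one]
      by_cases hc : ((d * m : ℕ) : ZMod q) = b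
      · rw [if_pos hc, if_pos (hiff.mp hc)]
      · rw [if_neg hc, if_neg (fun h' => hc (hiff.mpr h'))]
    · rw [if_neg h, if_neg h]
      simp

/-- convolutions restricted to a residue class -/
theorem ST_rs_conv {φ : ℝ → ℝ} (h : Bump φ) {s T X : ℝ} (hT : 0 < T) (hX : 0 < X)
    {q : ℕ} (b : ZMod q) (l a : ArithmeticFunction ℝ) (M : ℕ) (hl : ∀ n, M < n → l n = 0)
    (hc : ∀ n, l n ≠ 0 → IsUnit (n : ZMod q)) :
    ST φ s T X (rs q b (l * a)) = ∑ d ∈ Finset.Icc 1 M,
      l d * (d : ℝ) ^ (-(1 + s)) * ST φ s T (X / d) (rs q (b * (d : ZMod q)⁻¹) a) := by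
  conv_lhs => rw [eq_sum_dl l M hl]
  rw [Finset.sum_mul, rs_sum, ST_sum h hT hX]
  apply Finset.sum_congr rfl
  intro d hd
  have hd0 : d ≠ 0 := by
    have := (Finset.mem_Icc.mp hd).1
    omega
  rw [smul_mul_assoc, rs_smul, ST_smul]
  by_cases h0 : l d = 0
  · rw [h0]; ring
  · rw [rs_dl_mul hd0 (hc d h0), ST_dl_mul d hd0]
    ring

/-- The combinatorial identity in a residue class. -/
theorem comb_rs {φ : ℝ → ℝ} (hφ : Bump φ) {ε : ℝ} {G : ℝ → ℝ} (hG : Cut ε G) {L s X : ℝ} {K : ℕ}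
    (hL : 0 < L) (hX : 1 ≤ X) (hlo : (1 + ε) * L ≤ Real.log X)
    (hup : Real.log X + 4 ≤ (K + 1) * L) {q : ℕ} (b : ZMod q) :
    |ST φ s (1 / 4) X (rs q b primeInd) - ST φ s (1 / 4) X (rs q b (gg G L)) +
      ∑ k ∈ Finset.Icc 2 K, (1 / (k.factorial : ℝ)) * ST φ s (1 / 4) X (rs q b (g1 G L ^ k))| ≤
      ST φ s (1 / 4) X (rs q b (nsq (Real.exp L))) := by
  have hT0 : (0 : ℝ) < 1 / 4 := by norm_num
  have hX0 : 0 < X := by linarith
  have e1 : ST φ s (1 / 4) X (rs q b primeInd) - ST φ s (1 / 4) X (rs q b (gg G L)) +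
      ∑ k ∈ Finset.Icc 2 K, (1 / (k.factorial : ℝ)) * ST φ s (1 / 4) X (rs q b (g1 G L ^ k)) =
      ST φ s (1 / 4) X (rs q b (primeInd - gg G L +
        ∑ k ∈ Finset.Icc 2 K, (1 / (k.factorial : ℝ)) • (g1 G L ^ k))) := by
    rw [rs_add, rs_sub, rs_sum, ST_add' hφ hT0 hX0, ST_sub hφ hT0 hX0, ST_sum hφ hT0 hX0]
    congr 1
    apply Finset.sum_congr rfl
    intro k _
    rw [rs_smul, ST_smul]
  rw [e1]
  apply ST_abs_le_win hφ hT0 hX0
  intro n h1 h2
  rw [rs_apply, rs_apply]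
  split_ifs
  · have hn1 : 1 < n := by
      have : (1 : ℝ) < n := by linarith
      exact_mod_cast this
    have h3 : (∑ k ∈ Finset.Icc 2 K, (1 / (k.factorial : ℝ)) • (g1 G L ^ k)) n =
        ∑ k ∈ Finset.Icc 2 K, (1 / (k.factorial : ℝ)) * (g1 G L ^ k) n := by
      rw [af_sum_apply]
      apply Finset.sum_congr rfl
      intro k _
      rfl
    rw [ArithmeticFunction.add_apply, af_sub_apply, h3]
    apply comb_pointwise hG hL K n hn1
    · exact hlo.trans (Real.log_le_log hX0 h1.le)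
    · have h4 : Real.log n < Real.log (X * Real.exp (1 / (1 / 4))) :=
        Real.log_lt_log (by linarith) h2
      rw [Real.log_mul hX0.ne' (Real.exp_pos _).ne', Real.log_exp] at h4
      norm_num at h4
      linarith
  · simp

/-- The decomposition of the primes in a residue class. -/
theorem decompQ {φ : ℝ → ℝ} (hφ : Bump φ) (hN : NsqQ φ) : ∃ C : ℝ, 0 < C ∧
    ∀ (ε : ℝ) (G : ℝ → ℝ), Cut ε G →
    ∀ (L s x : ℝ) (K : ℕ), 0 < L → 0 < s → s ≤ 1 → 1 ≤ x → 2 ≤ K →
    (1 + ε) * L ≤ Real.log x / 2 → Real.log x + 4 ≤ (K + 1) * L →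
    ∀ q : ℕ, 0 < q → (q : ℝ) ≤ Real.exp L → ∀ b : ZMod q, IsUnit b →
    |(Nat.totient q : ℝ) * ST φ s (1 / 4) x (rs q b primeInd) -
      ((Nat.totient q : ℝ) * ST φ s (1 / 4) x (rs q b (gg G L)) -
        (Nat.totient q : ℝ) * ST φ s (1 / 4) x
          (rs q b (cutLo (Real.sqrt x) (g1 G L) * gg G L)) +
        ∑ k ∈ Finset.Icc 2 K, (1 / (k.factorial : ℝ)) *
          ((Nat.totient q : ℝ) * ST φ s (1 / 4) x
            (rs q b (cutLo (Real.sqrt x) (g1 G L) * g1 G L ^ k))) -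
        ∑ k ∈ Finset.Icc 3 K, (1 / (k.factorial : ℝ)) *
          ((Nat.totient q : ℝ) * ST φ s (1 / 4) x (rs q b (g1 G L ^ k))))| ≤
      C * (1 / Real.exp L + q / x ^ (1 / 4 : ℝ)) *
        (1 + ∑ d ∈ Finset.Icc 1 ⌊Real.sqrt x⌋₊, cutLo (Real.sqrt x) (g1 G L) d / d) +
      (Nat.totient q : ℝ) * |ST φ s (1 / 4) x
        (rs q b (cutHi (Real.sqrt x) (g1 G L) * cutHi (Real.sqrt x) (g1 G L)))| := by
  obtain ⟨C, hC, hnsq⟩ := hN
  refine ⟨C, hC, ?_⟩
  intro ε G hG L s x K hL hs hs1 hx hK hlo hup q hq hqL b hb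
  have hT0 : (0 : ℝ) < 1 / 4 := by norm_num
  have hx0 : 0 < x := by linarith
  have hlx : 0 ≤ Real.log x := Real.log_nonneg hx
  set P := g1 G L with hP
  set l := cutLo (Real.sqrt x) P with hl
  set h := cutHi (Real.sqrt x) P with hh
  set M := ⌊Real.sqrt x⌋₊ with hM
  set F : ℝ := (Nat.totient q : ℝ) with hF
  have hF0 : 0 ≤ F := Nat.cast_nonneg _
  have hsx : 0 < Real.sqrt x := Real.sqrt_pos.mpr hx0
  -- quartic root
  have hqr : Real.sqrt (Real.sqrt x) = x ^ (1 / 4 : ℝ) := by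
    rw [Real.sqrt_eq_rpow, Real.sqrt_eq_rpow, ← Real.rpow_mul hx0.le]
    norm_num
  have hlM : ∀ n, M < n → l n = 0 := by
    intro n hn
    rw [hl, cutLo_apply, if_neg]
    push Not
    exact (Nat.floor_lt hsx.le).mp hn
  have hP0 : ∀ n, 0 ≤ P n := by
    intro n
    rw [hP, g1_apply]
    split_ifs
    · exact hG.nonneg _
    · exact le_rfl
  have hl0 : ∀ n, 0 ≤ l n := by
    intro n
    rw [hl, cutLo_apply]
    split_ifs
    · exact hP0 n
    · exact le_rfl
  have hlunit : ∀ n, l n ≠ 0 → IsUnit (n : ZMod q) := by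
    intro n hn
    rw [hl, cutLo_apply] at hn
    have hn' : P n ≠ 0 := by
      intro h0
      apply hn
      split_ifs
      · exact h0
      · rfl
    rw [hP, g1_apply] at hn'
    by_cases hp : n.Prime
    · rw [if_pos hp] at hn'
      have hn0 : (0 : ℝ) < n := by exact_mod_cast hp.pos
      have h1 : 1 < Real.log n / L := by
        by_contra hcon
        push Not at hcon
        exact hn' (hG.zero _ hcon)
      rw [lt_div_iff₀ hL, one_mul, Real.lt_log_iff_exp_lt hn0] at h1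
      rw [ZMod.isUnit_iff_coprime]
      apply (Nat.Prime.coprime_iff_not_dvd hp).mpr
      intro hdvd
      have h2 : (n : ℝ) ≤ q := by exact_mod_cast Nat.le_of_dvd hq hdvd
      linarith
    · rw [if_neg hp] at hn'
      exact absurd rfl hn'
  -- the error at a general place
  set e : ZMod q → ℝ → ℝ := fun c X => ST φ s (1 / 4) X (rs q c primeInd) -
      ST φ s (1 / 4) X (rs q c (gg G L)) +
      ∑ k ∈ Finset.Icc 2 K, (1 / (k.factorial : ℝ)) * ST φ s (1 / 4) X (rs q c (P ^ k)) with he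
  have hebound : ∀ c, IsUnit c → ∀ X, Real.sqrt x ≤ X → X ≤ x →
      F * |e c X| ≤ C * (1 / Real.exp L + q / x ^ (1 / 4 : ℝ)) := by
    intro c hc X h1 h2
    have hX1 : 1 ≤ X := le_trans (by rw [Real.one_le_sqrt]; exact hx) h1
    have hlogX : Real.log x / 2 ≤ Real.log X := by
      rw [← Real.log_sqrt hx0.le]
      exact Real.log_le_log hsx h1
    have hlogX2 : Real.log X ≤ Real.log x := Real.log_le_log (by linarith) h2
    have h3 := comb_rs hφ hG (s := s) (K := K) hL hX1 (hlo.trans hlogX) (by linarith) c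
    have h4 := hnsq (Real.exp L) s X (Real.one_le_exp hL.le) hs hs1 hX1 q hq hqL c hc
    have h5 : F * |e c X| ≤ F * ST φ s (1 / 4) X (rs q c (nsq (Real.exp L))) :=
      mul_le_mul_of_nonneg_left h3 hF0
    refine h5.trans (h4.trans ?_)
    have : x ^ (1 / 4 : ℝ) ≤ Real.sqrt X := by
      rw [← hqr]
      exact Real.sqrt_le_sqrt h1
    have hqpos : 0 < x ^ (1 / 4 : ℝ) := by positivity
    gcongr
  -- P = primeInd beyond sqrt x
  have hPprime : ∀ c X, Real.sqrt x ≤ X →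
      ST φ s (1 / 4) X (rs q c P) = ST φ s (1 / 4) X (rs q c primeInd) := by
    intro c X hX
    have hX0 : 0 < X := lt_of_lt_of_le hsx hX
    apply ST_congr hφ hT0 hX0
    intro n hn _
    rw [rs_apply, rs_apply]
    split_ifs with hnc
    · rw [hP, g1_apply, primeInd_apply]
      split_ifs with hp
      · apply hG.one
        rw [le_div_iff₀ hL]
        refine hlo.trans ?_
        rw [← Real.log_sqrt hx0.le]
        exact Real.log_le_log hsx (hX.trans hn.le)
      · rfl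
    · rfl
  -- convolution with l
  have hconv : ∀ a : ArithmeticFunction ℝ, ST φ s (1 / 4) x (rs q b (l * a)) =
      ∑ d ∈ Finset.Icc 1 M, l d * (d : ℝ) ^ (-(1 + s)) *
        ST φ s (1 / 4) (x / d) (rs q (b * (d : ZMod q)⁻¹) a) :=
    fun a => ST_rs_conv hφ hT0 hx0 b l a M hlM hlunit
  have hXd : ∀ d ∈ Finset.Icc 1 M, Real.sqrt x ≤ x / d ∧ x / d ≤ x := by
    intro d hd
    rw [Finset.mem_Icc] at hd
    have hd1 : (1 : ℝ) ≤ d := by exact_mod_cast hd.1
    have hd2 : (d : ℝ) ≤ Real.sqrt x := le_trans (by exact_mod_cast hd.2) (Nat.floor_le hsx.le)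
    constructor
    · rw [le_div_iff₀ (by linarith)]
      calc Real.sqrt x * d ≤ Real.sqrt x * Real.sqrt x := by gcongr
        _ = x := Real.mul_self_sqrt hx0.le
    · exact div_le_self hx0.le hd1
  have hkey : ST φ s (1 / 4) x (rs q b (l * P)) = ST φ s (1 / 4) x (rs q b (l * gg G L)) -
      ∑ k ∈ Finset.Icc 2 K, (1 / (k.factorial : ℝ)) * ST φ s (1 / 4) x (rs q b (l * P ^ k)) +
      ∑ d ∈ Finset.Icc 1 M, l d * (d : ℝ) ^ (-(1 + s)) * e (b * (d : ZMod q)⁻¹) (x / d) := by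
    rw [hconv P, hconv (gg G L)]
    simp_rw [hconv (P ^ _), Finset.mul_sum]
    rw [Finset.sum_comm, ← Finset.sum_sub_distrib, ← Finset.sum_add_distrib]
    apply Finset.sum_congr rfl
    intro d hd
    rw [hPprime _ _ (hXd d hd).1]
    have : ∑ k ∈ Finset.Icc 2 K, 1 / (k.factorial : ℝ) *
        (l d * (d : ℝ) ^ (-(1 + s)) *
          ST φ s (1 / 4) (x / d) (rs q (b * (d : ZMod q)⁻¹) (P ^ k))) =
        l d * (d : ℝ) ^ (-(1 + s)) * ∑ k ∈ Finset.Icc 2 K, (1 / (k.factorial : ℝ)) *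
          ST φ s (1 / 4) (x / d) (rs q (b * (d : ZMod q)⁻¹) (P ^ k)) := by
      rw [Finset.mul_sum]
      apply Finset.sum_congr rfl
      intro k _
      ring
    rw [this, he]
    ring
  have hll : ST φ s (1 / 4) x (rs q b (l * l)) = 0 := by
    rw [← ST_zero (φ := φ) (s := s) (T := 1 / 4) (X := x)]
    apply ST_congr hφ hT0 hx0
    intro n hn _
    rw [rs_apply, ArithmeticFunction.zero_apply]
    have h0 : (l * l) n = 0 := by
      rw [ArithmeticFunction.mul_apply]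
      apply Finset.sum_eq_zero
      rintro ⟨u, v⟩ huv
      have huv' := (Nat.mem_divisorsAntidiagonal.mp huv).1
      simp only at huv' ⊢
      rw [hl, cutLo_apply, cutLo_apply]
      by_cases hu : (u : ℝ) ≤ Real.sqrt x
      · by_cases hv : (v : ℝ) ≤ Real.sqrt x
        · exfalso
          have h1 : (n : ℝ) = u * v := by rw [← huv']; push_cast; ring
          have h2 : (u : ℝ) * v ≤ Real.sqrt x * Real.sqrt x := by gcongr
          rw [Real.mul_self_sqrt hx0.le] at h2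
          linarith
        · rw [if_neg hv]; ring
      · rw [if_neg hu]; ring
    rw [h0]
    split_ifs <;> rfl
  have hkey2 : ST φ s (1 / 4) x (rs q b (P ^ 2)) = 2 * ST φ s (1 / 4) x (rs q b (l * P)) +
      ST φ s (1 / 4) x (rs q b (h * h)) := by
    rw [pow_two]
    conv_lhs => rw [mul_self_cut (Real.sqrt x) P]
    rw [rs_add, rs_sub, rs_add, ST_add' hφ hT0 hx0, ST_sub hφ hT0 hx0, ST_add' hφ hT0 hx0,
      ← hl, ← hh, hll]
    ring
  have hsplit : ∑ k ∈ Finset.Icc 2 K, (1 / (k.factorial : ℝ)) *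
      ST φ s (1 / 4) x (rs q b (P ^ k)) =
      (1 / 2) * ST φ s (1 / 4) x (rs q b (P ^ 2)) +
        ∑ k ∈ Finset.Icc 3 K, (1 / (k.factorial : ℝ)) * ST φ s (1 / 4) x (rs q b (P ^ k)) := by
    rw [← Finset.insert_Icc_add_one_left_eq_Icc hK, Finset.sum_insert (by simp)]
    norm_num [Nat.factorial]
  have hex : e b x = ST φ s (1 / 4) x (rs q b primeInd) - ST φ s (1 / 4) x (rs q b (gg G L)) +
      ∑ k ∈ Finset.Icc 2 K, (1 / (k.factorial : ℝ)) *
        ST φ s (1 / 4) x (rs q b (P ^ k)) := rfl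
  have hmulF : ∀ (A : Finset ℕ) (f : ℕ → ℝ),
      ∑ k ∈ A, (1 / (k.factorial : ℝ)) * (F * f k) =
        F * ∑ k ∈ A, (1 / (k.factorial : ℝ)) * f k := by
    intro A f
    rw [Finset.mul_sum]
    apply Finset.sum_congr rfl
    intro k _
    ring
  have htotal : F * ST φ s (1 / 4) x (rs q b primeInd) -
      (F * ST φ s (1 / 4) x (rs q b (gg G L)) - F * ST φ s (1 / 4) x (rs q b (l * gg G L)) +
        ∑ k ∈ Finset.Icc 2 K, (1 / (k.factorial : ℝ)) *
          (F * ST φ s (1 / 4) x (rs q b (l * P ^ k))) -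
        ∑ k ∈ Finset.Icc 3 K, (1 / (k.factorial : ℝ)) *
          (F * ST φ s (1 / 4) x (rs q b (P ^ k)))) =
      F * e b x - F * ∑ d ∈ Finset.Icc 1 M, l d * (d : ℝ) ^ (-(1 + s)) *
          e (b * (d : ZMod q)⁻¹) (x / d) -
        F * ((1 / 2) * ST φ s (1 / 4) x (rs q b (h * h))) := by
    rw [hmulF, hmulF, hex, hsplit, hkey2, hkey]
    ring
  rw [htotal]
  set B := C * (1 / Real.exp L + q / x ^ (1 / 4 : ℝ)) with hB
  have hB0 : 0 ≤ B := by positivity
  have h1 : |F * e b x| ≤ B := by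
    rw [abs_mul, abs_of_nonneg hF0]
    exact hebound b hb x (by
      rw [Real.sqrt_le_left (by linarith)]
      nlinarith) le_rfl
  have h2 : |F * ∑ d ∈ Finset.Icc 1 M, l d * (d : ℝ) ^ (-(1 + s)) *
      e (b * (d : ZMod q)⁻¹) (x / d)| ≤ B * ∑ d ∈ Finset.Icc 1 M, l d / d := by
    rw [Finset.mul_sum]
    refine (Finset.abs_sum_le_sum_abs _ _).trans ?_
    rw [Finset.mul_sum]
    apply Finset.sum_le_sum
    intro d hd
    by_cases hld0 : l d = 0
    · rw [hld0]; simp
    have hd1 : (1 : ℝ) ≤ d := by exact_mod_cast (Finset.mem_Icc.mp hd).1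
    have hun : IsUnit (b * (d : ZMod q)⁻¹) := by
      have hu := hlunit d hld0
      exact hb.mul (IsUnit.of_mul_eq_one (d : ZMod q) (ZMod.inv_mul_of_unit _ hu))
    have h3 := hebound _ hun (x / d) (hXd d hd).1 (hXd d hd).2
    have h4 : (d : ℝ) ^ (-(1 + s)) ≤ 1 / d := by
      rw [Real.rpow_neg (by positivity), one_div]
      apply inv_anti₀ (by positivity)
      calc (d : ℝ) = (d : ℝ) ^ (1 : ℝ) := (Real.rpow_one _).symm
        _ ≤ (d : ℝ) ^ (1 + s) := by
          apply Real.rpow_le_rpow_of_exponent_le hd1 (by linarith)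
    rw [abs_mul, abs_mul, abs_mul, abs_of_nonneg (hl0 d), abs_of_nonneg (by positivity :
      (0 : ℝ) ≤ (d : ℝ) ^ (-(1 + s))), abs_of_nonneg hF0]
    have hld := hl0 d
    calc F * (l d * (d : ℝ) ^ (-(1 + s)) * |e (b * (d : ZMod q)⁻¹) (x / d)|)
        = l d * (d : ℝ) ^ (-(1 + s)) * (F * |e (b * (d : ZMod q)⁻¹) (x / d)|) := by ring
      _ ≤ l d * (1 / d) * B := by gcongr
      _ = B * (l d / d) := by ring
  have h5 : |F * ((1 / 2 : ℝ) * ST φ s (1 / 4) x (rs q b (h * h)))| ≤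
      F * |ST φ s (1 / 4) x (rs q b (h * h))| := by
    rw [abs_mul, abs_mul, abs_of_nonneg hF0, abs_of_pos (by norm_num : (0 : ℝ) < 1 / 2)]
    have := abs_nonneg (ST φ s (1 / 4) x (rs q b (h * h)))
    apply mul_le_mul_of_nonneg_left _ hF0
    linarith
  have h6 := abs_sub (F * e b x - F * ∑ d ∈ Finset.Icc 1 M, l d * (d : ℝ) ^ (-(1 + s)) *
    e (b * (d : ZMod q)⁻¹) (x / d)) (F * ((1 / 2) * ST φ s (1 / 4) x (rs q b (h * h))))
  have h7 := abs_sub (F * e b x) (F * ∑ d ∈ Finset.Icc 1 M, l d * (d : ℝ) ^ (-(1 + s)) *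
    e (b * (d : ZMod q)⁻¹) (x / d))
  calc _ ≤ _ := h6
    _ ≤ B + B * ∑ d ∈ Finset.Icc 1 M, l d / d +
        F * |ST φ s (1 / 4) x (rs q b (h * h))| := by linarith
    _ = _ := by ring

end Lnk
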