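import Pool.Agent.Lib.Linnik.Defs
import Pool.Agent.Lib.MP_0bb3d8_nt.HohFund
import Pool.Agent.Lib.MP_0bb3d8_nt.HohMertens

/-!
Modules II0 and II1 of the Linnik project: divisor sums restricted to integers coprime to `q`, and
the Brun-Titchmarsh inequality in arithmetic progressions (with some constant).
-/

set_option autoImplicit false

namespace Lnk

open Finset Hoh

/-- Exchange of summation for divisor sums over a finite set of positive integers. -/
lemma sum_divisors_finset (lam : ℕ → ℝ) (D : ℕ) (S : Finset ℕ) (hS : ∀ n ∈ S, n ≠ 0)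
    (hsupp : ∀ d, lam d ≠ 0 → 1 ≤ d ∧ d ≤ D) :
    ∑ n ∈ S, ∑ d ∈ n.divisors, lam d =
      ∑ d ∈ Icc 1 D, lam d * ((S.filter (fun n => d ∣ n)).card : ℝ) := by
  have h1 : ∀ n ∈ S, ∑ d ∈ n.divisors, lam d =
      ∑ d ∈ Icc 1 D, if d ∣ n then lam d else 0 := by
    intro n hn
    have hn0 : n ≠ 0 := hS n hn
    rw [← Finset.sum_filter]
    apply Finset.sum_congr_of_eq_on_inter
    · intro d hd hd'
      by_contra h0
      obtain ⟨h1, h2⟩ := hsupp d h0
      apply hd'
      rw [mem_filter, mem_Icc]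
      exact ⟨⟨h1, h2⟩, Nat.dvd_of_mem_divisors hd⟩
    · intro d hd hd'
      exfalso
      apply hd'
      rw [mem_filter] at hd
      exact Nat.mem_divisors.mpr ⟨hd.2, hn0⟩
    · intro d _ _
      rfl
  rw [Finset.sum_congr rfl h1, Finset.sum_comm]
  apply Finset.sum_congr rfl
  intro d _
  rw [← Finset.sum_filter, Finset.sum_const, nsmul_eq_mul, mul_comm]

/-- Integers up to `q * k` coprime to `q`. -/
lemma card_coprime_mul (q k : ℕ) :
    ((Ioc 0 (q * k)).filter (fun n => n.Coprime q)).card = k * q.totient := by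
  induction k with
  | zero => simp
  | succ k ih =>
    have h1 : (Ioc 0 (q * (k + 1))).filter (fun n => n.Coprime q) =
        ((Ioc 0 (q * k)).filter (fun n => n.Coprime q)) ∪
          ((Ico (q * k + 1) (q * k + 1 + q)).filter (fun n => q.Coprime n)) := by
      ext n
      simp only [mem_union, mem_filter, mem_Ioc, mem_Ico, Nat.coprime_comm (m := q)]
      rw [Nat.mul_succ]
      constructor
      · rintro ⟨⟨h1, h2⟩, h3⟩
        by_cases h : n ≤ q * k
        · exact Or.inl ⟨⟨h1, h⟩, h3⟩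
        · exact Or.inr ⟨⟨by omega, by omega⟩, h3⟩
      · rintro (⟨⟨h1, h2⟩, h3⟩ | ⟨⟨h1, h2⟩, h3⟩)
        · exact ⟨⟨h1, by omega⟩, h3⟩
        · exact ⟨⟨by omega, by omega⟩, h3⟩
    rw [h1, card_union_of_disjoint, ih, Nat.filter_coprime_Ico_eq_totient]
    · ring
    · rw [Finset.disjoint_left]
      intro x hx hx'
      simp only [mem_filter, mem_Ioc, mem_Ico] at hx hx'
      omega

/-- Integers up to `q * k * d` coprime to `q` and divisible by `d`. -/
lemma card_coprime_dvd (q k d : ℕ) (hd : 0 < d) (hdq : d.Coprime q) :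
    (((Ioc 0 (q * k * d)).filter (fun n => n.Coprime q)).filter (fun n => d ∣ n)).card =
      k * q.totient := by
  rw [← card_coprime_mul q k]
  symm
  apply Finset.card_bij (fun m _ => d * m)
  · intro m hm
    simp only [mem_filter, mem_Ioc] at hm ⊢
    refine ⟨⟨⟨Nat.mul_pos hd hm.1.1, ?_⟩, Nat.Coprime.mul_left hdq hm.2⟩, dvd_mul_right _ _⟩
    rw [mul_comm d m]
    exact Nat.mul_le_mul_right d hm.1.2
  · intro m _ m' _ h
    exact Nat.eq_of_mul_eq_mul_left hd h
  · intro n hn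
    simp only [mem_filter, mem_Ioc] at hn
    obtain ⟨⟨⟨h1, h2⟩, h3⟩, m, rfl⟩ := hn
    refine ⟨m, ?_, rfl⟩
    simp only [mem_filter, mem_Ioc]
    refine ⟨⟨Nat.pos_of_mul_pos_left h1 |> fun h => ?_, ?_⟩, Nat.Coprime.coprime_mul_left h3⟩
    · exact Nat.pos_of_ne_zero (by rintro rfl; simp at h1)
    · rw [mul_comm d m] at h2
      exact Nat.le_of_mul_le_mul_right h2 hd

/-- II0. -/
theorem copStmt : CopStmt := by
  classical
  intro c D q hq hsupp hnn
  set M : ℕ := q * D.factorial with hM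
  have hMpos : 0 < M := Nat.mul_pos hq D.factorial_pos
  have hMR : (0 : ℝ) < M := by exact_mod_cast hMpos
  have hqR : (0 : ℝ) < q := by exact_mod_cast hq
  have h1 := sum_divisors_finset c D (Ioc 0 M) (fun n hn => by rw [mem_Ioc] at hn; omega) hsupp
  have h2 := sum_divisors_finset c D ((Ioc 0 M).filter (fun n => n.Coprime q))
    (fun n hn => by rw [mem_filter, mem_Ioc] at hn; omega) hsupp
  have hle : ∑ n ∈ (Ioc 0 M).filter (fun n => n.Coprime q), ∑ d ∈ n.divisors, c d ≤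
      ∑ n ∈ Ioc 0 M, ∑ d ∈ n.divisors, c d := by
    apply Finset.sum_le_sum_of_subset_of_nonneg (Finset.filter_subset _ _)
    intro n hn _
    rw [mem_Ioc] at hn
    exact hnn n (by omega)
  rw [h1, h2] at hle
  have h3 : ∑ d ∈ Icc 1 D, c d * (((Ioc 0 M).filter (fun n => d ∣ n)).card : ℝ) =
      M * ∑ d ∈ Icc 1 D, c d / d := by
    rw [Finset.mul_sum]
    apply Finset.sum_congr rfl
    intro d hd
    rw [mem_Icc] at hd
    have hdM : d ∣ M := (Nat.dvd_factorial hd.1 hd.2).mul_left q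
    have hd0 : (d : ℝ) ≠ 0 := by
      have : 0 < d := hd.1
      positivity
    rw [Nat.Ioc_filter_dvd_card_eq_div, Nat.cast_div hdM hd0]
    ring
  have h4 : ∑ d ∈ Icc 1 D,
        c d * ((((Ioc 0 M).filter (fun n => n.Coprime q)).filter (fun n => d ∣ n)).card : ℝ) =
      M * ((Nat.totient q : ℝ) / q * ∑ d ∈ (Icc 1 D).filter (fun d => d.Coprime q), c d / d) := by
    rw [Finset.sum_filter, Finset.mul_sum, Finset.mul_sum]
    apply Finset.sum_congr rfl
    intro d hd
    rw [mem_Icc] at hd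
    split_ifs with hdq
    · obtain ⟨k, hk⟩ := Nat.dvd_factorial hd.1 hd.2
      have hMk : M = q * k * d := by rw [hM, hk]; ring
      have hdR : (0 : ℝ) < d := by exact_mod_cast hd.1
      have hMkR : (M : ℝ) = q * k * d := by rw [hMk]; push_cast; ring
      rw [hMk, card_coprime_dvd q k d hd.1 hdq]
      push_cast
      field_simp
    · have : ((Ioc 0 M).filter (fun n => n.Coprime q)).filter (fun n => d ∣ n) = ∅ := by
        rw [Finset.filter_eq_empty_iff]
        intro n hn hdn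
        rw [mem_filter] at hn
        exact hdq (Nat.Coprime.coprime_dvd_left hdn hn.2)
      rw [this]
      simp
  rw [h3, h4] at hle
  exact le_of_mul_le_mul_left hle hMR

/-- Number of integers in an interval in a residue class. -/
lemma card_modEq_Ioc (a b r v : ℕ) (hr : 0 < r) (hab : a ≤ b) :
    |((((Ioc a b).filter (fun n => n ≡ v [MOD r])).card : ℝ)) - ((b : ℝ) - a) / r| ≤ 1 := by
  have h := Nat.Ioc_filter_modEq_card a b hr v
  have hrQ : (0 : ℚ) < r := by exact_mod_cast hr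
  have hmono : ⌊((a : ℚ) - v) / r⌋ ≤ ⌊((b : ℚ) - v) / r⌋ := by
    apply Int.floor_mono
    have : (a : ℚ) ≤ b := by exact_mod_cast hab
    gcongr
  rw [max_eq_left (by linarith)] at h
  have h2 : ((((Ioc a b).filter (fun n => n ≡ v [MOD r])).card : ℚ)) =
      ⌊((b : ℚ) - v) / r⌋ - ⌊((a : ℚ) - v) / r⌋ := by exact_mod_cast h
  have h3 : |((((Ioc a b).filter (fun n => n ≡ v [MOD r])).card : ℚ)) - ((b : ℚ) - a) / r| ≤ 1 := by
    rw [h2, abs_le]
    have e1 := Int.floor_le (((b : ℚ) - v) / r)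
    have e2 := Int.lt_floor_add_one (((b : ℚ) - v) / r)
    have e3 := Int.floor_le (((a : ℚ) - v) / r)
    have e4 := Int.lt_floor_add_one (((a : ℚ) - v) / r)
    have e5 : ((b : ℚ) - a) / r = ((b : ℚ) - v) / r - ((a : ℚ) - v) / r := by ring
    rw [e5]
    constructor <;> linarith
  have h4 := (Rat.cast_le (K := ℝ)).mpr h3
  rw [Rat.cast_abs] at h4
  push_cast at h4
  exact h4

/-- Number of integers in an interval in a residue class mod `q`, divisible by `d`. -/
lemma card_class_dvd (q : ℕ) (a : ZMod q) (hq : 0 < q) (A B d : ℕ) (hAB : A ≤ B)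
    (hd : 0 < d) (hdq : d.Coprime q) :
    |(((((Ioc A B).filter (fun n : ℕ => (n : ZMod q) = a)).filter (fun n => d ∣ n)).card : ℝ)) -
      ((B : ℝ) - A) / (d * q)| ≤ 1 := by
  have : NeZero q := ⟨hq.ne'⟩
  obtain ⟨k, hk1, hk2⟩ := Nat.chineseRemainder hdq 0 a.val
  have h1 : ((Ioc A B).filter (fun n : ℕ => (n : ZMod q) = a)).filter (fun n => d ∣ n) =
      (Ioc A B).filter (fun n => n ≡ k [MOD (d * q)]) := by
    ext n
    simp only [mem_filter]
    have h3 : ((n : ZMod q) = a) ↔ n ≡ a.val [MOD q] := by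
      conv_lhs => rw [← ZMod.natCast_zmod_val a]
      exact ZMod.natCast_eq_natCast_iff n a.val q
    have h4 : d ∣ n ↔ n ≡ 0 [MOD d] := (Nat.modEq_zero_iff_dvd).symm
    rw [h3, h4, ← Nat.modEq_and_modEq_iff_modEq_mul hdq]
    constructor
    · rintro ⟨⟨h5, h6⟩, h7⟩
      exact ⟨h5, h7.trans hk1.symm, h6.trans hk2.symm⟩
    · rintro ⟨h5, h6, h7⟩
      exact ⟨⟨h5, h7.trans hk2⟩, h6.trans hk1⟩
  rw [h1]
  have := card_modEq_Ioc A B (d * q) k (Nat.mul_pos hd hq) hAB
  push_cast at this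
  exact this

/-- Numbers in a unit class have only divisors coprime to `q`. -/
lemma card_class_dvd_zero (q : ℕ) (a : ZMod q) (ha : IsUnit a) (A B d : ℕ) (hdq : ¬ d.Coprime q) :
    ((Ioc A B).filter (fun n : ℕ => (n : ZMod q) = a)).filter (fun n => d ∣ n) = ∅ := by
  rw [Finset.filter_eq_empty_iff]
  intro n hn hdn
  rw [mem_filter] at hn
  have h1 : IsUnit (n : ZMod q) := by rw [hn.2]; exact ha
  have h2 : n.Coprime q := (ZMod.isUnit_iff_coprime n q).mp h1
  exact hdq (Nat.Coprime.coprime_dvd_left hdn h2)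

/-- The upper bound sieve in a progression: the sum of a nonnegative divisor sum. -/
lemma sum_class_le (q : ℕ) (a : ZMod q) (hq : 0 < q) (ha : IsUnit a) (A B : ℕ) (hAB : A ≤ B)
    (lp : ℕ → ℝ) (D : ℕ) (hsupp : ∀ d, lp d ≠ 0 → 1 ≤ d ∧ d ≤ D) (hb : ∀ d, |lp d| ≤ 1)
    (hnn : ∀ n : ℕ, n ≠ 0 → 0 ≤ ∑ d ∈ n.divisors, lp d) :
    ∑ n ∈ (Ioc A B).filter (fun n : ℕ => (n : ZMod q) = a), ∑ d ∈ n.divisors, lp d ≤
      ((B : ℝ) - A) / Nat.totient q * ∑ d ∈ Icc 1 D, lp d / d + D := by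
  classical
  have hqR : (0 : ℝ) < q := by exact_mod_cast hq
  have hphi : (0 : ℝ) < Nat.totient q := by exact_mod_cast Nat.totient_pos.mpr hq
  rw [sum_divisors_finset lp D _ (fun n hn => by rw [mem_filter, mem_Ioc] at hn; omega) hsupp]
  have h1 : ∀ d ∈ Icc 1 D,
      lp d * ((((Ioc A B).filter (fun n : ℕ => (n : ZMod q) = a)).filter (fun n => d ∣ n)).card : ℝ) ≤
        (if d.Coprime q then ((B : ℝ) - A) / q * (lp d / d) else 0) + 1 := by
    intro d hd
    rw [mem_Icc] at hd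
    split_ifs with hdq
    · have h2 := card_class_dvd q a hq A B d hAB hd.1 hdq
      set N := ((((Ioc A B).filter (fun n : ℕ => (n : ZMod q) = a)).filter (fun n => d ∣ n)).card : ℝ)
      have h3 : lp d * (N - ((B : ℝ) - A) / (d * q)) ≤ 1 := by
        calc _ ≤ |lp d * (N - ((B : ℝ) - A) / (d * q))| := le_abs_self _
          _ = |lp d| * |N - ((B : ℝ) - A) / (d * q)| := abs_mul _ _
          _ ≤ 1 * 1 := mul_le_mul (hb d) h2 (abs_nonneg _) zero_le_one
          _ = 1 := one_mul 1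
      have h4 : lp d * (((B : ℝ) - A) / (d * q)) = ((B : ℝ) - A) / q * (lp d / d) := by
        have : (d : ℝ) ≠ 0 := by
          have : 0 < d := hd.1
          positivity
        field_simp
      linarith [mul_sub (lp d) N (((B : ℝ) - A) / (d * q))]
    · rw [card_class_dvd_zero q a ha A B d hdq]
      simp
  refine (Finset.sum_le_sum h1).trans ?_
  rw [Finset.sum_add_distrib, ← Finset.sum_filter, ← Finset.mul_sum, Finset.sum_const,
    Nat.card_Icc, nsmul_eq_mul, mul_one, Nat.add_sub_cancel]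
  have h5 := copStmt lp D q hq hsupp hnn
  have hBA : (0 : ℝ) ≤ (B : ℝ) - A := by
    rw [sub_nonneg]; exact_mod_cast hAB
  have h6 : ((B : ℝ) - A) / q * ∑ d ∈ (Icc 1 D).filter (fun d => d.Coprime q), lp d / d ≤
      ((B : ℝ) - A) / Nat.totient q * ∑ d ∈ Icc 1 D, lp d / d := by
    calc ((B : ℝ) - A) / q * ∑ d ∈ (Icc 1 D).filter (fun d => d.Coprime q), lp d / d
        = ((B : ℝ) - A) / Nat.totient q *
          ((Nat.totient q : ℝ) / q * ∑ d ∈ (Icc 1 D).filter (fun d => d.Coprime q), lp d / d) := by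
          field_simp
      _ ≤ _ := by gcongr
  linarith

/-- II1. -/
theorem btq_of (hF : FundLemma) (hV : VUpper) : BTq := by
  classical
  obtain ⟨c, C, hc, hC, hF⟩ := hF
  obtain ⟨C', hC', hV⟩ := hV
  refine ⟨68 + 8 + 8 * ((1 + C) * C'), by positivity, ?_⟩
  intro q a u v hq ha hu hv hqv
  have hqR : (1 : ℝ) ≤ q := by exact_mod_cast hq
  have hphi : (0 : ℝ) < Nat.totient q := by exact_mod_cast Nat.totient_pos.mpr hq
  have hphiq : (Nat.totient q : ℝ) ≤ q := by exact_mod_cast Nat.totient_le q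
  have hlogv : 0 < Real.log v := Real.log_pos (by linarith)
  have hN : ((⌊u + v⌋₊ : ℝ)) - ⌊u⌋₊ ≤ v + 1 := by
    have h1 : (⌊u + v⌋₊ : ℝ) ≤ u + v := Nat.floor_le (by linarith)
    have h2 : u < (⌊u⌋₊ : ℝ) + 1 := Nat.lt_floor_add_one u
    linarith
  have hab : ⌊u⌋₊ ≤ ⌊u + v⌋₊ := Nat.floor_mono (by linarith)
  have hlogle : Real.log v ≤ v := (Real.log_le_sub_one_of_pos (by linarith)).trans (by linarith)
  have hK : 0 ≤ (1 + C) * C' := by positivity
  by_cases hv16 : v < 16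
  · have h1 : (((Ioc ⌊u⌋₊ ⌊u + v⌋₊).filter
        (fun p : ℕ => p.Prime ∧ ((p : ℕ) : ZMod q) = a)).card : ℝ) ≤ 17 := by
      have h2 : (((Ioc ⌊u⌋₊ ⌊u + v⌋₊).filter
          (fun p : ℕ => p.Prime ∧ ((p : ℕ) : ZMod q) = a)).card : ℝ) ≤
          ((Ioc ⌊u⌋₊ ⌊u + v⌋₊).card : ℝ) := by
        exact_mod_cast Finset.card_filter_le _ _
      rw [Nat.card_Ioc, Nat.cast_sub hab] at h2
      linarith
    refine h1.trans ?_
    have hq4 : (q : ℝ) ≤ 4 := by nlinarith
    rw [le_div_iff₀ (by positivity)]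
    have h3 : (Nat.totient q : ℝ) * Real.log v ≤ 4 * v := by
      calc _ ≤ 4 * Real.log v := by gcongr; linarith
        _ ≤ 4 * v := by gcongr
    nlinarith
  push Not at hv16
  set w : ℝ := v / q with hw
  have hwv : w * q = v := by rw [hw]; field_simp
  have hw0 : 0 < w := by rw [hw]; positivity
  have hww : v ≤ w ^ 2 := by
    rw [hw, div_pow, le_div_iff₀ (by positivity)]
    nlinarith
  have hw4 : 4 ≤ w := by nlinarith
  have hlogw : Real.log v ≤ 2 * Real.log w := by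
    have h1 := Real.log_le_log (by linarith) hww
    rw [Real.log_pow] at h1
    exact_mod_cast h1
  set y : ℝ := Real.sqrt w with hy
  have hy2 : 2 ≤ y := by
    rw [hy]
    apply Real.le_sqrt_of_sq_le
    linarith
  have hyw : y ^ 2 = w := Real.sq_sqrt (by linarith)
  have hlogy : Real.log w = 2 * Real.log y := by
    rw [← hyw, Real.log_pow]; norm_num
  have hlogy0 : 0 < Real.log y := Real.log_pos (by linarith)
  have hlogvy : Real.log v ≤ 4 * Real.log y := by linarith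
  obtain ⟨lp, lm, hb, hsupp, hsieve, hp, -⟩ := hF y y hy2 le_rfl
  have hVy := hV y hy2
  have hV0 : 0 ≤ V y := (V_pos y).le
  have hexp : Real.exp (-c * (Real.log y / Real.log y)) ≤ 1 := by
    rw [Real.exp_le_one_iff]
    have : 0 ≤ Real.log y / Real.log y := by positivity
    nlinarith
  have hsum : ∑ d ∈ Icc 1 ⌊y⌋₊, lp d / d ≤ (1 + C) * V y := by
    have h1 := (abs_le.mp hp).2
    have h2 : C * Real.exp (-c * (Real.log y / Real.log y)) * V y ≤ C * V y := by
      have := mul_le_mul_of_nonneg_left hexp (mul_nonneg hC.le hV0)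
      nlinarith
    linarith
  have hcount : (((Ioc ⌊u⌋₊ ⌊u + v⌋₊).filter
      (fun p : ℕ => p.Prime ∧ ((p : ℕ) : ZMod q) = a)).card : ℝ) ≤
      y + ∑ n ∈ (Ioc ⌊u⌋₊ ⌊u + v⌋₊).filter (fun n : ℕ => (n : ZMod q) = a), rough y n := by
    have h1 : ((Ioc ⌊u⌋₊ ⌊u + v⌋₊).filter (fun p : ℕ => p.Prime ∧ ((p : ℕ) : ZMod q) = a)) ⊆
        (Ioc 0 ⌊y⌋₊) ∪ (((Ioc ⌊u⌋₊ ⌊u + v⌋₊).filter (fun n : ℕ => (n : ZMod q) = a)).filter
          (fun n => n ≠ 0 ∧ Rough y n)) := by
      intro p hp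
      rw [mem_filter] at hp
      rw [mem_union]
      by_cases h : (p : ℝ) ≤ y
      · left
        rw [mem_Ioc]
        exact ⟨hp.2.1.pos, Nat.le_floor h⟩
      · right
        rw [mem_filter, mem_filter]
        refine ⟨⟨hp.1, hp.2.2⟩, hp.2.1.ne_zero, ?_⟩
        intro r hr hrp
        rw [(Nat.prime_dvd_prime_iff_eq hr hp.2.1).mp hrp]
        linarith
    have h2 : (((Ioc ⌊u⌋₊ ⌊u + v⌋₊).filter
          (fun p : ℕ => p.Prime ∧ ((p : ℕ) : ZMod q) = a)).card : ℝ) ≤
        ((Ioc 0 ⌊y⌋₊).card : ℝ) +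
          ((((Ioc ⌊u⌋₊ ⌊u + v⌋₊).filter (fun n : ℕ => (n : ZMod q) = a)).filter
          (fun n => n ≠ 0 ∧ Rough y n)).card : ℝ) := by
      exact_mod_cast (Finset.card_le_card h1).trans (Finset.card_union_le _ _)
    have h3 : ((Ioc 0 ⌊y⌋₊).card : ℝ) ≤ y := by
      rw [Nat.card_Ioc, Nat.sub_zero]
      exact Nat.floor_le (by linarith)
    have h4 : ((((Ioc ⌊u⌋₊ ⌊u + v⌋₊).filter (fun n : ℕ => (n : ZMod q) = a)).filter
          (fun n => n ≠ 0 ∧ Rough y n)).card : ℝ) =
        ∑ n ∈ (Ioc ⌊u⌋₊ ⌊u + v⌋₊).filter (fun n : ℕ => (n : ZMod q) = a), rough y n := by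
      rw [Finset.card_filter, Nat.cast_sum]
      apply Finset.sum_congr rfl
      intro n _
      rw [rough_apply]
      split_ifs <;> simp
    rw [h4] at h2
    linarith
  have hrough : ∑ n ∈ (Ioc ⌊u⌋₊ ⌊u + v⌋₊).filter (fun n : ℕ => (n : ZMod q) = a), rough y n ≤
      ∑ n ∈ (Ioc ⌊u⌋₊ ⌊u + v⌋₊).filter (fun n : ℕ => (n : ZMod q) = a),
        ∑ d ∈ n.divisors, lp d := by
    apply Finset.sum_le_sum
    intro n hn
    rw [mem_filter, mem_Ioc] at hn
    exact (hsieve n (by omega)).2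
  have hmain := sum_class_le q a hq ha ⌊u⌋₊ ⌊u + v⌋₊ hab lp ⌊y⌋₊
    (fun d hd => ⟨(hsupp d (Or.inl hd)).1, Nat.le_floor (hsupp d (Or.inl hd)).2⟩)
    (fun d => (hb d).1) (fun n hn => (rough_nonneg y n).trans (hsieve n hn).2)
  have hyfl : ((⌊y⌋₊ : ℕ) : ℝ) ≤ y := Nat.floor_le (by linarith)
  have hNn : (0 : ℝ) ≤ ((⌊u + v⌋₊ : ℝ)) - ⌊u⌋₊ := by
    rw [sub_nonneg]; exact_mod_cast hab
  have h5 : (((⌊u + v⌋₊ : ℝ)) - ⌊u⌋₊) / Nat.totient q * ∑ d ∈ Icc 1 ⌊y⌋₊, lp d / d ≤
      (8 * ((1 + C) * C')) * (v / (Nat.totient q * Real.log v)) := by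
    calc _ ≤ (((⌊u + v⌋₊ : ℝ)) - ⌊u⌋₊) / Nat.totient q * ((1 + C) * V y) := by gcongr
      _ ≤ (2 * v) / Nat.totient q * ((1 + C) * (C' / Real.log y)) := by
        gcongr
        linarith
      _ = (2 * ((1 + C) * C')) * (v / Nat.totient q) * (1 / Real.log y) := by ring
      _ ≤ (2 * ((1 + C) * C')) * (v / Nat.totient q) * (4 / Real.log v) := by
        apply mul_le_mul_of_nonneg_left _ (by positivity)
        rw [div_le_div_iff₀ hlogy0 hlogv]
        linarith
      _ = _ := by field_simp; ring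
  have h7 : 2 * y ≤ 8 * (v / (Nat.totient q * Real.log v)) := by
    have h8 : Real.log y ≤ y := (Real.log_le_sub_one_of_pos (by linarith)).trans (by linarith)
    have h9 : v / (Nat.totient q * Real.log v) ≥ w / Real.log v := by
      rw [ge_iff_le, div_le_div_iff₀ hlogv (by positivity)]
      calc w * (Nat.totient q * Real.log v) ≤ w * (q * Real.log v) := by gcongr
        _ = v * Real.log v := by rw [← mul_assoc, hwv]
    have h10 : 2 * y ≤ 8 * (w / Real.log v) := by
      rw [← mul_div_assoc, le_div_iff₀ hlogv, ← hyw]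
      nlinarith
    linarith
  have h8 : (68 + 8 + 8 * ((1 + C) * C')) * v / (Nat.totient q * Real.log v) =
      68 * (v / (Nat.totient q * Real.log v)) + 8 * (v / (Nat.totient q * Real.log v)) +
      (8 * ((1 + C) * C')) * (v / (Nat.totient q * Real.log v)) := by ring
  have h9 : 0 ≤ 68 * (v / (Nat.totient q * Real.log v)) := by positivity
  rw [h8]
  linarith

/-- Brun-Titchmarsh in arithmetic progressions (some constant). -/
theorem btq : BTq := btq_of fundLemma vUpper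

end Lnk
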