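import Mathlib
import Pool.Agent.Lib.MP_0bb3d8_nt.HohComb

/-!
# Interfaces for a Linnik type theorem

Primes in arithmetic progressions `b mod q` with `q ≤ x ^ δ`, away from one exceptional prime.
Each `def ... : Prop` below is the statement of one module. Modules which depend on other modules
take the corresponding `Prop` as a hypothesis.
-/

set_option autoImplicit false

namespace Lnk

open Complex Hoh

/-- Restriction of an arithmetic function to the residue class `b` modulo `q`. -/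
noncomputable def rs (q : ℕ) (b : ZMod q) (a : ArithmeticFunction ℝ) : ArithmeticFunction ℝ :=
  ⟨fun n => if (n : ZMod q) = b then a n else 0, by simp⟩

/-- Number of primes `p ≤ x`, `p ≡ b` modulo `q`. -/
noncomputable def pc (q : ℕ) (b : ZMod q) (x : ℝ) : ℕ :=
  ((Finset.Icc 1 ⌊x⌋₊).filter (fun p : ℕ => p.Prime ∧ ((p : ℕ) : ZMod q) = b)).card

/-- `q` is not exceptional at level `Q` (with constant `C`): all nonprincipal characters mod `q`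
satisfy the expected bound for `L'/L` to the right of the line `Re s = 1`. -/
def NE (C Q : ℝ) (q : ℕ) : Prop :=
  ∀ χ : DirichletCharacter ℂ q, χ ≠ 1 → ∀ σ u : ℝ, 0 < σ → σ ≤ 1 → (q : ℝ) * (4 + |u|) ≤ Q →
    ‖LSeries (fun n => χ n * (ArithmeticFunction.vonMangoldt n : ℂ)) (1 + σ + u * I)‖ ≤
      C * Real.log Q

/-! ## Part I: characters (only sieve and the 3-4-1 inequality) -/

/-- The sifted L-series `∑_{n y-rough} χ(n) n^{-s}`. -/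
noncomputable def Zs {q : ℕ} (χ : DirichletCharacter ℂ q) (y : ℝ) (s : ℂ) : ℂ :=
  LSeries (fun n => χ n * (rough y n : ℂ)) s

/-- I1: bounds for the sifted L-series of a nonprincipal character and its derivative. -/
def ZBound : Prop := ∃ C : ℝ, 0 < C ∧ ∀ (q : ℕ) (χ : DirichletCharacter ℂ q), 0 < q → χ ≠ 1 →
  ∀ U y : ℝ, 1 ≤ U → ((q : ℝ) * (4 + U)) ^ 4 ≤ y → ∀ σ u : ℝ, 0 < σ → σ ≤ 1 → |u| ≤ U →
    ‖Zs χ y (1 + σ + u * I)‖ ≤ C ∧ ‖deriv (Zs χ y) (1 + σ + u * I)‖ ≤ C * Real.log y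

/-- I2: bound for the sifted zeta function. -/
def ZOne : Prop := ∃ C : ℝ, 0 < C ∧ ∀ U y : ℝ, 1 ≤ U → (4 + U) ^ 4 ≤ y →
  ∀ σ u : ℝ, 0 < σ → σ ≤ 1 → |u| ≤ U →
    ‖LSeries (fun n => (rough y n : ℂ)) (1 + σ + u * I)‖ ≤
      C * (1 + 1 / (‖(σ : ℂ) + u * I‖ * Real.log y))

/-- `χ` is an exceptional real character (sifting level `y`). -/
def Exc (ε₀ y : ℝ) {q : ℕ} (χ : DirichletCharacter ℂ q) : Prop :=
  χ ^ 2 = 1 ∧ χ ≠ 1 ∧ ∃ σ : ℝ, 0 < σ ∧ σ ≤ 1 ∧ ‖Zs χ y (1 + σ)‖ < ε₀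

/-- I3: no exceptional real character mod `q` implies the bound for `L'/L`. -/
def NEofNonExc : Prop := ∀ ε₀ : ℝ, 0 < ε₀ → ∃ C : ℝ, 0 < C ∧ ∀ Q : ℝ, 2 ≤ Q → ∀ q : ℕ, 0 < q →
  (∀ χ : DirichletCharacter ℂ q, ¬ Exc ε₀ (Q ^ 8) χ) → NE C Q q

/-- I4: at most one exceptional character modulo `N`. -/
def ExcUnique : Prop := ∃ ε₀ : ℝ, 0 < ε₀ ∧ ε₀ ≤ 1 / 2 ∧ ∀ Q : ℝ, 2 ≤ Q → ∀ N : ℕ, 0 < N →
  8 * (N : ℝ) ≤ Q → ∀ χ χ' : DirichletCharacter ℂ N, Exc ε₀ (Q ^ 8) χ → Exc ε₀ (Q ^ 8) χ' → χ = χ'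

/-- I5: characters modulo `4` are never exceptional for large sifting levels. -/
def NotExcFour : Prop := ∃ y₁ : ℝ, ∀ y : ℝ, y₁ ≤ y → ∀ χ : DirichletCharacter ℂ 4,
  ¬ Exc (1 / 2) y χ

/-- I6 (goal of part I): removing one odd prime from `N` leaves only non exceptional moduli. -/
def NEStmt : Prop := ∃ C Q₀ : ℝ, 0 < C ∧ 2 ≤ Q₀ ∧ ∀ Q : ℝ, Q₀ ≤ Q → ∀ N : ℕ, 0 < N →
  8 * (N : ℝ) ≤ Q → ¬ 8 ∣ N →
    ∃ l : ℕ, l.Prime ∧ l ≠ 2 ∧ ∀ q : ℕ, q ∣ N → ¬ l ∣ q → NE C Q q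

/-! ## Part II: primes (the method of `Hoh`, for progressions instead of short intervals) -/

/-- II0: a nonnegative divisor sum does not get larger when restricted to `n` coprime to `q`. -/
def CopStmt : Prop := ∀ (c : ℕ → ℝ) (D q : ℕ), 0 < q → (∀ d, c d ≠ 0 → 1 ≤ d ∧ d ≤ D) →
  (∀ n : ℕ, n ≠ 0 → 0 ≤ ∑ d ∈ n.divisors, c d) →
    (Nat.totient q : ℝ) / q * ∑ d ∈ (Finset.Icc 1 D).filter (fun d => d.Coprime q), c d / d ≤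
      ∑ d ∈ Finset.Icc 1 D, c d / d

/-- II1: Brun-Titchmarsh in progressions (with some constant). -/
def BTq : Prop := ∃ C : ℝ, 0 < C ∧ ∀ (q : ℕ) (a : ZMod q) (u v : ℝ), 0 < q → IsUnit a → 0 ≤ u →
  2 ≤ v → (q : ℝ) ^ 2 ≤ v →
    (((Finset.Ioc ⌊u⌋₊ ⌊u + v⌋₊).filter (fun p : ℕ => p.Prime ∧ ((p : ℕ) : ZMod q) = a)).card : ℝ) ≤
      C * v / (Nat.totient q * Real.log v)

/-- II2: mean square of prime Dirichlet polynomials over all characters mod `q`. -/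
def MSq : Prop := ∃ C : ℝ, 0 < C ∧ ∀ q : ℕ, 0 < q → ∀ y U s : ℝ, 2 ≤ y → 1 ≤ U →
  (q : ℝ) ^ 2 * U ≤ Real.sqrt y → 0 < s →
    ∀ b : ℕ → ℂ, (∀ n, ‖b n‖ ≤ 1) → (∀ n, b n ≠ 0 → n.Prime ∧ y < n) →
      ∑ χ : DirichletCharacter ℂ q,
        ∫ t in (-U)..U, ‖LSeries (fun n => χ n * b n) (1 + s + t * I)‖ ^ 2 ≤ C / Real.log y

/-- II3: pointwise bound for `∑ χ(p) g1(p) p^{-s}` on `Re s = 1 + 1/log x`, `L = η log x`. -/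
def PBq : Prop := ∀ (η ε : ℝ) (G : ℝ → ℝ), 0 < η → η ≤ 1 → 0 < ε → Cut ε G → ∀ C : ℝ, 0 < C →
  ∃ C' : ℝ, 0 < C' ∧ ∀ x Q : ℝ, Real.exp 1 ≤ x → 1 ≤ η * Real.log x → 3 ≤ Q →
    ∀ q : ℕ, 0 < q → NE C Q q → ∀ χ : DirichletCharacter ℂ q, χ ≠ 1 →
      ∀ t : ℝ, (q : ℝ) * (5 + 2 * |t|) ≤ Q →
        ‖LSeries (fun n => χ n * (g1 G (η * Real.log x) n : ℂ)) (1 + 1 / Real.log x + t * I)‖ ≤
          C' * Real.log Q / Real.log x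

/-- II4: the trilinear estimate for progressions. -/
def TriQ (φ : ℝ → ℝ) : Prop :=
  ∀ (η ε : ℝ) (G : ℝ → ℝ), 0 < η → η ≤ 1 → 0 < ε → Cut ε G → ∀ k : ℕ, 2 ≤ k →
    ∀ C : ℝ, 0 < C → ∀ ε' : ℝ, 0 < ε' → ∃ d₀ : ℝ, 0 < d₀ ∧ ∀ d : ℝ, 0 < d → d ≤ d₀ →
      ∃ x₀ : ℝ, ∀ x : ℝ, x₀ ≤ x → ∀ Q : ℝ, x ^ (d / 3) ≤ Q → Q ≤ x ^ d →
        ∀ q : ℕ, 0 < q → (q : ℝ) ^ 2 ≤ Q → NE C Q q → ∀ b : ZMod q, IsUnit b →
          ∀ β : ArithmeticFunction ℝ, (∀ n, |β n| ≤ 1) → (∀ n, β n ≠ 0 → n.Prime ∧ x ^ η < n) →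
            |(Nat.totient q : ℝ) * ST φ (1 / Real.log x) (1 / 4) x
                (rs q b (β * g1 G (η * Real.log x) ^ k)) -
              ST φ (1 / Real.log x) (1 / 4) x (β * g1 G (η * Real.log x) ^ k)| ≤
              ε' / Real.log x

/-- II5: equidistribution of `gg` in progressions (sieve). -/
def GdiffQ (φ : ℝ → ℝ) : Prop :=
  ∃ C c : ℝ, 0 < C ∧ 0 < c ∧ ∀ η : ℝ, 0 < η → η ≤ 1 / 10 → ∀ G : ℝ → ℝ, Cut (η ^ 2) G →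
    ∃ x₀ : ℝ, ∀ x : ℝ, x₀ ≤ x → ∀ q : ℕ, 0 < q → (q : ℝ) ^ 8 ≤ x → (q : ℝ) ≤ x ^ η →
      ∀ b : ZMod q, IsUnit b → ∀ X : ℝ, Real.sqrt x ≤ X → X ≤ x →
        |(Nat.totient q : ℝ) * ST φ (1 / Real.log x) (1 / 4) X
            (rs q b (gg G (η * Real.log x))) -
          ST φ (1 / Real.log x) (1 / 4) X (gg G (η * Real.log x))| ≤
          C * (η + Real.exp (-c / η) / η) / Real.log x

/-- II6: products of two primes beyond `√x` in a progression are negligible. -/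
def GtgtQ (φ : ℝ → ℝ) : Prop :=
  ∃ C : ℝ, 0 < C ∧ ∃ x₀ : ℝ, ∀ x : ℝ, x₀ ≤ x → ∀ q : ℕ, 0 < q → (q : ℝ) ^ 8 ≤ x →
    ∀ b : ZMod q, IsUnit b →
      ∀ β : ArithmeticFunction ℝ, (∀ n, |β n| ≤ 1) → (∀ n, β n ≠ 0 → n.Prime ∧ Real.sqrt x < n) →
        (Nat.totient q : ℝ) * |ST φ (1 / Real.log x) (1 / 4) x (rs q b (β * β))| ≤
          C / (Real.log x) ^ 2

/-- II7: non-squarefree rough numbers in a progression are negligible. -/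
def NsqQ (φ : ℝ → ℝ) : Prop :=
  ∃ C : ℝ, 0 < C ∧ ∀ y s X : ℝ, 1 ≤ y → 0 < s → s ≤ 1 → 1 ≤ X → ∀ q : ℕ, 0 < q → (q : ℝ) ≤ y →
    ∀ b : ZMod q, IsUnit b →
      (Nat.totient q : ℝ) * ST φ s (1 / 4) X (rs q b (nsq y)) ≤ C * (1 / y + q / Real.sqrt X)

/-- II8 (goal of part II): primes in progressions to non exceptional moduli. -/
def LinnikStmt : Prop := ∀ C : ℝ, 0 < C → ∃ δ c x₀ : ℝ, 0 < δ ∧ δ < 1 ∧ 0 < c ∧ 1 < x₀ ∧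
  ∀ x : ℝ, x₀ ≤ x → ∀ Q : ℝ, x ^ (δ / 2) ≤ Q → Q ≤ x ^ δ → ∀ q : ℕ, 0 < q → (q : ℝ) ^ 2 ≤ Q →
    NE C Q q → ∀ b : ZMod q, IsUnit b →
      c * x / (Nat.totient q * Real.log x) ≤ pc q b x

/-- Goal of parts I and II: a Linnik type theorem. For every `N ≤ x ^ δ` not divisible by `8` there
is an odd prime `l` such that all progressions modulo divisors of `N` not divisible by `l` contain
the expected number of primes up to `x'`, `x ≤ x' ≤ x ^ 2`. -/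
def PrimesAP : Prop := ∃ δ c x₀ : ℝ, 0 < δ ∧ δ < 1 ∧ 0 < c ∧ 1 < x₀ ∧
  ∀ x : ℝ, x₀ ≤ x → ∀ N : ℕ, 0 < N → (N : ℝ) ≤ x ^ δ → ¬ 8 ∣ N →
    ∃ l : ℕ, l.Prime ∧ l ≠ 2 ∧ ∀ q : ℕ, q ∣ N → ¬ l ∣ q → ∀ b : ZMod q, IsUnit b →
      ∀ x' : ℝ, x ≤ x' → x' ≤ x ^ 2 → c * x' / (Nat.totient q * Real.log x') ≤ pc q b x'

end Lnk
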