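import Pool.Agent.Lib.Linnik.SieveBlock
import Pool.Agent.Lib.Linnik.Defs
import Pool.Agent.Lib.MP_0bb3d8_nt.HohFund

/-!
# Rough numbers over a block `(y ^ j, y ^ (j + 1)]`
-/

set_option autoImplicit false

namespace Lnk

open MeasureTheory Set Hoh

/-! ### Partial sums of characters -/

lemma one_partial (t : ℝ) (ht : 0 ≤ t) :
    ‖∑ k ∈ Finset.Icc 0 ⌊t⌋₊, (fun _ : ℕ => (1 : ℂ)) k - 1 * t‖ ≤ 1 := by
  have h1 := Nat.floor_le ht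
  have h2 := Nat.lt_floor_add_one t
  have h3 : ∑ k ∈ Finset.Icc 0 ⌊t⌋₊, (fun _ : ℕ => (1 : ℂ)) k - 1 * t =
      ((⌊t⌋₊ + 1 - t : ℝ) : ℂ) := by
    simp
  rw [h3, Complex.norm_real, Real.norm_eq_abs, abs_le]
  constructor <;> linarith

lemma char_range {q : ℕ} (hq : 0 < q) {χ : DirichletCharacter ℂ q} (hχ : χ ≠ 1) :
    ∑ k ∈ Finset.range q, χ k = 0 := by
  have : NeZero q := ⟨hq.ne'⟩
  rw [← MulChar.sum_eq_zero_of_ne_one hχ]
  refine Finset.sum_bij' (fun k _ => (k : ZMod q)) (fun a _ => a.val) ?_ ?_ ?_ ?_ ?_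
  · intro k _
    exact Finset.mem_univ _
  · intro a _
    exact Finset.mem_range.2 (ZMod.val_lt a)
  · intro k hk
    exact ZMod.val_cast_of_lt (Finset.mem_range.1 hk)
  · intro a _
    exact ZMod.natCast_zmod_val a
  · intro k _
    rfl

lemma char_range_mul {q : ℕ} (hq : 0 < q) {χ : DirichletCharacter ℂ q} (hχ : χ ≠ 1) (M r : ℕ) :
    ∑ k ∈ Finset.range (q * M + r), χ k = ∑ k ∈ Finset.range r, χ k := by
  induction M with
  | zero => simp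
  | succ M ih =>
    have h1 : q * (M + 1) + r = q + (q * M + r) := by ring
    rw [h1, Finset.sum_range_add, char_range hq hχ, zero_add, ← ih]
    refine Finset.sum_congr rfl fun k _ => ?_
    congr 1
    simp

lemma char_partial {q : ℕ} (hq : 0 < q) {χ : DirichletCharacter ℂ q} (hχ : χ ≠ 1) (t : ℝ) :
    ‖∑ k ∈ Finset.Icc 0 ⌊t⌋₊, χ k - 0 * t‖ ≤ q := by
  rw [zero_mul, sub_zero]
  have h1 : Finset.Icc 0 ⌊t⌋₊ = Finset.range (⌊t⌋₊ + 1) := by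
    ext k
    simp
  rw [h1, ← Nat.div_add_mod (⌊t⌋₊ + 1) q, char_range_mul hq hχ]
  refine (norm_sum_le _ _).trans ?_
  calc ∑ k ∈ Finset.range ((⌊t⌋₊ + 1) % q), ‖χ k‖
      ≤ ∑ k ∈ Finset.range ((⌊t⌋₊ + 1) % q), (1 : ℝ) :=
        Finset.sum_le_sum fun k _ => DirichletCharacter.norm_le_one χ _
    _ ≤ q := by
        simp only [Finset.sum_const, Finset.card_range, nsmul_eq_mul, mul_one]
        exact_mod_cast (Nat.mod_lt _ hq).le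

/-! ### Sieve weights -/

/-- The constants of the fundamental lemma. -/
structure FL (c C CV : ℝ) : Prop where
  hc : 0 < c
  hC : 0 < C
  hCV : 0 < CV
  V : ∀ y : ℝ, 2 ≤ y → V y ≤ CV / Real.log y
  H : ∀ y D : ℝ, 2 ≤ y → y ≤ D → ∃ lp lm : ℕ → ℝ,
    (∀ d, |lp d| ≤ 1 ∧ |lm d| ≤ 1) ∧
    (∀ d, (lp d ≠ 0 ∨ lm d ≠ 0) → 1 ≤ d ∧ (d : ℝ) ≤ D) ∧
    (∀ n : ℕ, n ≠ 0 → ∑ d ∈ n.divisors, lm d ≤ rough y n ∧ rough y n ≤ ∑ d ∈ n.divisors, lp d) ∧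
    |∑ d ∈ Finset.Icc 1 ⌊D⌋₊, lp d / d - Hoh.V y| ≤
      C * Real.exp (-c * (Real.log D / Real.log y)) * Hoh.V y ∧
    |∑ d ∈ Finset.Icc 1 ⌊D⌋₊, lm d / d - Hoh.V y| ≤
      C * Real.exp (-c * (Real.log D / Real.log y)) * Hoh.V y

theorem exists_FL : ∃ c C CV : ℝ, FL c C CV := by
  obtain ⟨c, C, hc, hC, H⟩ := fundLemma
  obtain ⟨CV, hCV, hV⟩ := vUpper
  exact ⟨c, C, CV, hc, hC, hCV, hV, H⟩

/-- Real sums against `1 / n`. -/
lemma harm_block {D W : ℝ} (hD : 0 ≤ D) (hW : 0 ≤ W) {w : ℕ → ℝ} (hw : ∀ d, |w d| ≤ W)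
    (hsupp : ∀ d, w d ≠ 0 → 1 ≤ d ∧ (d : ℝ) ≤ D) {Y Y' : ℝ} (hY : 0 < Y) (hYY' : Y ≤ Y') :
    |∑ n ∈ Finset.Ioc ⌊Y⌋₊ ⌊Y'⌋₊, (1 / (n : ℝ)) * (∑ d ∈ n.divisors, w d) -
      (∑ d ∈ Finset.Icc 1 ⌊D⌋₊, w d / d) * Real.log (Y' / Y)| ≤ D * (W * (3 / Y)) := by
  have h := sieve_block (ψ := fun _ => 1) (by simp) (by simp) 1 one_partial hD hW hw hsupp
    (B := 1) (K := 1) hY hYY' (f := fun t : ℝ => ((t⁻¹ : ℝ) : ℂ))
    (f' := fun t : ℝ => ((-(t ^ 2)⁻¹ : ℝ) : ℂ)) (fun t ht => by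
      have ht0 : t ≠ 0 := (hY.trans_le ht.1).ne'
      exact (hasDerivAt_inv ht0).ofReal_comp) (by
      intro t ht
      have ht0 : t ≠ 0 := (hY.trans_le ht.1).ne'
      apply ContinuousAt.continuousWithinAt
      fun_prop (disch := positivity)) zero_le_one zero_le_one
    (fun t ht => by
      have ht0 : 0 < t := hY.trans_le ht.1
      rw [Complex.norm_real, Real.norm_of_nonneg (by positivity), one_div])
    (fun t ht => by
      have ht0 : 0 < t := hY.trans_le ht.1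
      rw [Complex.norm_real, norm_neg, Real.norm_of_nonneg (by positivity), one_mul, one_div])
  have h1 : ∫ t in Y..Y', ((t⁻¹ : ℝ) : ℂ) = ((Real.log (Y' / Y) : ℝ) : ℂ) := by
    rw [intervalIntegral.integral_ofReal, integral_inv_of_pos hY (hY.trans_le hYY')]
  rw [h1] at h
  have h2 : ∑ n ∈ Finset.Ioc ⌊Y⌋₊ ⌊Y'⌋₊, (((n : ℝ)⁻¹ : ℝ) : ℂ) * (fun _ => 1 : ℕ → ℂ) n *
      ((∑ d ∈ n.divisors, w d : ℝ) : ℂ) - 1 * (∑ d ∈ Finset.Icc 1 ⌊D⌋₊, (w d : ℂ) *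
        (fun _ => 1 : ℕ → ℂ) d / d) * ((Real.log (Y' / Y) : ℝ) : ℂ) =
      ((∑ n ∈ Finset.Ioc ⌊Y⌋₊ ⌊Y'⌋₊, (1 / (n : ℝ)) * (∑ d ∈ n.divisors, w d) -
      (∑ d ∈ Finset.Icc 1 ⌊D⌋₊, w d / d) * Real.log (Y' / Y) : ℝ) : ℂ) := by
    push_cast
    simp
  rw [h2, Complex.norm_real, Real.norm_eq_abs] at h
  refine h.trans (le_of_eq ?_)
  ring

lemma V_nonneg (y : ℝ) : 0 ≤ Hoh.V y := (V_pos y).le

/-- The block number one. -/
lemma block_one {c C CV : ℝ} (hFL : FL c C CV) {y : ℝ} (hy : 2 ≤ y) :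
    ∑ n ∈ Finset.Ioc ⌊y ^ 1⌋₊ ⌊y ^ 2⌋₊, (1 / (n : ℝ)) * rough y n ≤ (1 + C) * CV + 3 := by
  obtain ⟨lp, lm, h1, h2, h3, h4, -⟩ := hFL.H y y hy le_rfl
  have hy0 : 0 < y := by linarith
  have hly : 0 < Real.log y := Real.log_pos (by linarith)
  have h5 := harm_block (D := y) (W := 1) hy0.le zero_le_one (w := lp) (fun d => (h1 d).1)
    (fun d hd => h2 d (Or.inl hd)) (Y := y ^ 1) (Y' := y ^ 2) (by positivity)
    (by nlinarith)
  have h6 : Real.log (y ^ 2 / y ^ 1) = Real.log y := by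
    congr 1
    field_simp
  rw [h6] at h5
  have h7 : ∑ n ∈ Finset.Ioc ⌊y ^ 1⌋₊ ⌊y ^ 2⌋₊, (1 / (n : ℝ)) * rough y n ≤
      ∑ n ∈ Finset.Ioc ⌊y ^ 1⌋₊ ⌊y ^ 2⌋₊, (1 / (n : ℝ)) * (∑ d ∈ n.divisors, lp d) := by
    refine Finset.sum_le_sum fun n hn => ?_
    rw [Finset.mem_Ioc] at hn
    exact mul_le_mul_of_nonneg_left (h3 n (by omega)).2 (by positivity)
  have h8 : ∑ d ∈ Finset.Icc 1 ⌊y⌋₊, lp d / d ≤ (1 + C) * Hoh.V y := by
    have := (abs_le.1 h4).2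
    have he : Real.exp (-c * (Real.log y / Real.log y)) ≤ 1 := by
      rw [Real.exp_le_one_iff, div_self hly.ne', mul_one]
      linarith [hFL.hc]
    have h9 : C * Real.exp (-c * (Real.log y / Real.log y)) * Hoh.V y ≤ C * 1 * Hoh.V y := by
      have := V_nonneg y
      have := hFL.hC
      gcongr
    linarith
  have h9 : (∑ d ∈ Finset.Icc 1 ⌊y⌋₊, lp d / d) * Real.log y ≤ (1 + C) * CV := by
    have hV := hFL.V y hy
    have h10 : Hoh.V y * Real.log y ≤ CV := by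
      rwa [← le_div_iff₀ hly]
    calc (∑ d ∈ Finset.Icc 1 ⌊y⌋₊, lp d / d) * Real.log y ≤ (1 + C) * Hoh.V y * Real.log y := by
          gcongr
      _ = (1 + C) * (Hoh.V y * Real.log y) := by ring
      _ ≤ (1 + C) * CV := by
          have := hFL.hC
          gcongr
  have h11 : y * (1 * (3 / y ^ 1)) = 3 := by field_simp
  rw [h11] at h5
  linarith [(abs_le.1 h5).2]

/-- The blocks `j ≥ 2`. -/
theorem block_est {c C CV : ℝ} (hFL : FL c C CV) {y : ℝ} (hy : 2 ≤ y) {j : ℕ} (hj : 2 ≤ j)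
    {ψ : ℕ → ℂ} (hψ : ∀ n, ‖ψ n‖ ≤ 1) (hmul : ∀ m n, ψ (m * n) = ψ m * ψ n)
    (κ : ℂ) {P : ℝ} (hP : ∀ t : ℝ, 0 ≤ t → ‖∑ k ∈ Finset.Icc 0 ⌊t⌋₊, ψ k - κ * t‖ ≤ P)
    {B K : ℝ} {f f' : ℝ → ℂ}
    (hf : ∀ t ∈ Icc (y ^ j) (y ^ (j + 1)), HasDerivAt f (f' t) t)
    (hf' : ContinuousOn f' (Icc (y ^ j) (y ^ (j + 1))))
    (hB0 : 0 ≤ B) (hK0 : 0 ≤ K)
    (hB : ∀ t ∈ Icc (y ^ j) (y ^ (j + 1)), ‖f t‖ ≤ B / t)
    (hK : ∀ t ∈ Icc (y ^ j) (y ^ (j + 1)), ‖f' t‖ ≤ B * K / t ^ 2) :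
    ∃ G : ℂ, (ψ = (fun _ => 1) → ‖G - Hoh.V y‖ ≤ C * Real.exp (-c * (j / 2)) * Hoh.V y) ∧
    ‖∑ n ∈ Finset.Ioc ⌊y ^ j⌋₊ ⌊y ^ (j + 1)⌋₊, f n * ψ n * rough y n -
      κ * G * ∫ t in (y ^ j)..(y ^ (j + 1)), f t‖ ≤
      B * ((P * (2 + K) + 6) * ((Real.sqrt y) ^ j)⁻¹ + 2 * C * CV * Real.exp (-c * (j / 2))) := by
  have hy0 : 0 < y := by linarith
  have hly : 0 < Real.log y := Real.log_pos (by linarith)
  have hs0 : 0 < Real.sqrt y := Real.sqrt_pos.2 hy0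
  have hss : Real.sqrt y * Real.sqrt y = y := Real.mul_self_sqrt hy0.le
  have hs1 : 1 ≤ Real.sqrt y := by
    rw [Real.one_le_sqrt]
    linarith
  set D : ℝ := (Real.sqrt y) ^ j with hD
  have hD0 : 0 < D := by positivity
  have hyD : y ≤ D := by
    calc y = (Real.sqrt y) ^ 2 := by rw [sq, hss]
      _ ≤ D := pow_le_pow_right₀ hs1 hj
  have hDY : D * D = y ^ j := by
    rw [hD, ← mul_pow, hss]
  have hlD : Real.log D / Real.log y = j / 2 := by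
    rw [hD, Real.log_pow, Real.log_sqrt hy0.le]
    field_simp
  obtain ⟨lp, lm, h1, h2, h3, h4, h5⟩ := hFL.H y D hy hyD
  rw [hlD] at h4 h5
  have hYpos : 0 < y ^ j := by positivity
  have hYY' : y ^ j ≤ y ^ (j + 1) := pow_le_pow_right₀ (by linarith) (by omega)
  have hP0 : 0 ≤ P := (norm_nonneg _).trans (hP 0 le_rfl)
  have hlog : Real.log (y ^ (j + 1) / y ^ j) = Real.log y := by
    congr 1
    rw [pow_succ]
    field_simp
  have hDinv : D * (y ^ j)⁻¹ = D⁻¹ := by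
    rw [← hDY]
    field_simp
  refine ⟨∑ d ∈ Finset.Icc 1 ⌊D⌋₊, (lp d : ℂ) * ψ d / d, ?_, ?_⟩
  · intro hψ1
    have h6 : ∑ d ∈ Finset.Icc 1 ⌊D⌋₊, (lp d : ℂ) * ψ d / d - (Hoh.V y : ℂ) =
        ((∑ d ∈ Finset.Icc 1 ⌊D⌋₊, lp d / d - Hoh.V y : ℝ) : ℂ) := by
      rw [hψ1]
      push_cast
      simp
    rw [h6, Complex.norm_real]
    exact h4
  -- the main sum
  have m1 := sieve_block hψ hmul κ hP hD0.le zero_le_one (fun d => (h1 d).1)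
    (fun d hd => h2 d (Or.inl hd)) hYpos hYY' hf hf' hB0 hK0 hB hK
  -- the sum of theta
  have m2 := harm_block (D := D) (W := 2) hD0.le zero_le_two (w := fun d => lp d - lm d)
    (fun d => by
      have := abs_sub (lp d) (lm d)
      have := (h1 d).1
      have := (h1 d).2
      linarith)
    (fun d hd => h2 d (by
      by_contra hcon
      push Not at hcon
      apply hd
      simp only [hcon.1, hcon.2, sub_self])) hYpos hYY'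
  rw [hlog] at m2
  have m3 : ∑ d ∈ Finset.Icc 1 ⌊D⌋₊, (lp d - lm d) / d ≤
      2 * C * Real.exp (-c * (j / 2)) * Hoh.V y := by
    have e1 : ∑ d ∈ Finset.Icc 1 ⌊D⌋₊, (lp d - lm d) / d =
        ∑ d ∈ Finset.Icc 1 ⌊D⌋₊, lp d / d - ∑ d ∈ Finset.Icc 1 ⌊D⌋₊, lm d / d := by
      rw [← Finset.sum_sub_distrib]
      refine Finset.sum_congr rfl fun d _ => ?_
      ring
    rw [e1]
    linarith [(abs_le.1 h4).2, (abs_le.1 h5).1]
  have m4 : (∑ d ∈ Finset.Icc 1 ⌊D⌋₊, (lp d - lm d) / d) * Real.log y ≤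
      2 * C * CV * Real.exp (-c * (j / 2)) := by
    have hV := hFL.V y hy
    have h10 : Hoh.V y * Real.log y ≤ CV := by
      rwa [← le_div_iff₀ hly]
    have hC := hFL.hC
    calc _ ≤ 2 * C * Real.exp (-c * (j / 2)) * Hoh.V y * Real.log y := by gcongr
      _ = 2 * C * Real.exp (-c * (j / 2)) * (Hoh.V y * Real.log y) := by ring
      _ ≤ 2 * C * Real.exp (-c * (j / 2)) * CV := by gcongr
      _ = _ := by ring
  have m5 : ∑ n ∈ Finset.Ioc ⌊y ^ j⌋₊ ⌊y ^ (j + 1)⌋₊, (1 / (n : ℝ)) *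
      (∑ d ∈ n.divisors, (lp d - lm d)) ≤ 2 * C * CV * Real.exp (-c * (j / 2)) + 6 * D⁻¹ := by
    have e2 : D * (2 * (3 / y ^ j)) = 6 * D⁻¹ := by
      rw [← hDinv]
      ring
    rw [e2] at m2
    linarith [(abs_le.1 m2).2]
  -- comparison
  have m6 : ‖∑ n ∈ Finset.Ioc ⌊y ^ j⌋₊ ⌊y ^ (j + 1)⌋₊, f n * ψ n *
        ((∑ d ∈ n.divisors, lp d : ℝ) : ℂ) -
      ∑ n ∈ Finset.Ioc ⌊y ^ j⌋₊ ⌊y ^ (j + 1)⌋₊, f n * ψ n * rough y n‖ ≤
      B * (2 * C * CV * Real.exp (-c * (j / 2)) + 6 * D⁻¹) := by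
    rw [← Finset.sum_sub_distrib]
    refine (norm_sum_le _ _).trans ?_
    refine le_trans (Finset.sum_le_sum (g := fun n : ℕ => B * ((1 / (n : ℝ)) *
      (∑ d ∈ n.divisors, (lp d - lm d)))) ?_) ?_
    · intro n hn
      rw [Finset.mem_Ioc] at hn
      have hn0 : n ≠ 0 := by omega
      have hn1 : (0 : ℝ) < n := by exact_mod_cast Nat.pos_of_ne_zero hn0
      have hnmem : (n : ℝ) ∈ Icc (y ^ j) (y ^ (j + 1)) := by
        constructor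
        · exact ((Nat.floor_lt hYpos.le).1 hn.1).le
        · exact (Nat.le_floor_iff (by positivity)).1 hn.2
      obtain ⟨r1, r2⟩ := h3 n hn0
      rw [← mul_sub, norm_mul, norm_mul, ← Complex.ofReal_sub, Complex.norm_real,
        Real.norm_of_nonneg (by linarith)]
      calc ‖f n‖ * ‖ψ n‖ * (∑ d ∈ n.divisors, lp d - rough y n)
          ≤ (B / n) * 1 * (∑ d ∈ n.divisors, (lp d - lm d)) := by
            have r3 : ∑ d ∈ n.divisors, lp d - rough y n ≤ ∑ d ∈ n.divisors, (lp d - lm d) := by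
              rw [Finset.sum_sub_distrib]
              linarith
            have r4 : 0 ≤ ∑ d ∈ n.divisors, lp d - rough y n := by linarith
            gcongr
            · exact hB _ hnmem
            · exact hψ n
        _ = B * ((1 / (n : ℝ)) * (∑ d ∈ n.divisors, (lp d - lm d))) := by ring
    · rw [← Finset.mul_sum]
      gcongr
  have e3 : D * (1 * (P * (B * (2 + K) / y ^ j))) = B * (P * (2 + K) * D⁻¹) := by
    rw [← hDinv]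
    ring
  rw [e3] at m1
  calc _ = ‖(∑ n ∈ Finset.Ioc ⌊y ^ j⌋₊ ⌊y ^ (j + 1)⌋₊, f n * ψ n *
          ((∑ d ∈ n.divisors, lp d : ℝ) : ℂ) -
          κ * (∑ d ∈ Finset.Icc 1 ⌊D⌋₊, (lp d : ℂ) * ψ d / d) *
            ∫ t in (y ^ j)..(y ^ (j + 1)), f t) -
        (∑ n ∈ Finset.Ioc ⌊y ^ j⌋₊ ⌊y ^ (j + 1)⌋₊, f n * ψ n *
          ((∑ d ∈ n.divisors, lp d : ℝ) : ℂ) -
        ∑ n ∈ Finset.Ioc ⌊y ^ j⌋₊ ⌊y ^ (j + 1)⌋₊, f n * ψ n * rough y n)‖ := by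
        congr 1
        ring
    _ ≤ B * (P * (2 + K) * D⁻¹) + B * (2 * C * CV * Real.exp (-c * (j / 2)) + 6 * D⁻¹) :=
        (norm_sub_le _ _).trans (add_le_add m1 m6)
    _ = _ := by ring

end Lnk
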