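import Mathlib

/-!
# Choosing a residue class `κ` such that many `d κ + 1` are squares
-/

set_option autoImplicit false

namespace Lnk

open Finset

open scoped Classical in
theorem sq_count {q : ℕ} (hq : q.Prime) (h7 : 7 ≤ q) (D : ZMod q) (hD : D ≠ 0) :
    ((q - 1 : ℕ) : ℝ) * (1 / 3) ≤
      (((Finset.Icc 1 (q - 1)).filter
        (fun k : ℕ => D * (k : ZMod q) + 1 ≠ 0 ∧ IsSquare (D * (k : ZMod q) + 1))).card : ℝ) := by
  suffices key : ∀ F : Finset ℕ, (∀ k : ℕ, k ∈ F ↔ (1 ≤ k ∧ k ≤ q - 1) ∧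
      D * (k : ZMod q) + 1 ≠ 0 ∧ IsSquare (D * (k : ZMod q) + 1)) →
      ((q - 1 : ℕ) : ℝ) * (1 / 3) ≤ (F.card : ℝ) by
    apply key
    intro k
    rw [Finset.mem_filter, Finset.mem_Icc]
  intro F hF
  have : Fact q.Prime := ⟨hq⟩
  have hq0 : 0 < q := hq.pos
  have : NeZero q := ⟨hq0.ne'⟩
  have hodd : q % 2 = 1 := by
    rcases hq.eq_two_or_odd with h | h
    · omega
    · exact h
  have hsmall : ∀ u : ℕ, u ∈ Finset.Icc 2 ((q - 1) / 2) → (u : ZMod q) ≠ 0 ∧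
      (u : ZMod q) ≠ 1 ∧ (u : ZMod q) ≠ -1 := by
    intro u hu
    rw [Finset.mem_Icc] at hu
    refine ⟨?_, ?_, ?_⟩
    · intro h
      rw [ZMod.natCast_eq_zero_iff] at h
      have := Nat.le_of_dvd (by omega) h
      omega
    · intro h
      have h1 : ((u - 1 : ℕ) : ZMod q) = 0 := by
        rw [Nat.cast_sub (by omega), h]; simp
      rw [ZMod.natCast_eq_zero_iff] at h1
      have := Nat.le_of_dvd (by omega) h1
      omega
    · intro h
      have h1 : ((u + 1 : ℕ) : ZMod q) = 0 := by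
        push_cast; rw [h]; ring
      rw [ZMod.natCast_eq_zero_iff] at h1
      have := Nat.le_of_dvd (by omega) h1
      omega
  set f : ℕ → ℕ := fun u => ((((u : ZMod q) ^ 2 - 1) * D⁻¹ : ZMod q)).val with hf
  have hval : ∀ u : ℕ, ((f u : ℕ) : ZMod q) = ((u : ZMod q) ^ 2 - 1) * D⁻¹ := by
    intro u
    rw [hf]
    exact ZMod.natCast_zmod_val _
  have hDf : ∀ u : ℕ, D * ((f u : ℕ) : ZMod q) + 1 = (u : ZMod q) ^ 2 := by
    intro u
    rw [hval]
    field_simp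
    ring
  have hmaps : ∀ u ∈ Finset.Icc 2 ((q - 1) / 2), f u ∈ F := by
    intro u hu
    obtain ⟨h0, h1, h2⟩ := hsmall u hu
    rw [hF, hDf]
    refine ⟨⟨?_, ?_⟩, pow_ne_zero 2 h0, ⟨u, by ring⟩⟩
    · rw [Nat.one_le_iff_ne_zero]
      intro h
      have h3 := hval u
      rw [h, Nat.cast_zero] at h3
      have h4 := (mul_eq_zero.1 h3.symm).resolve_right (inv_ne_zero hD)
      have h5 : ((u : ZMod q) - 1) * ((u : ZMod q) + 1) = 0 := by linear_combination h4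
      rcases mul_eq_zero.1 h5 with h6 | h6
      · exact h1 (sub_eq_zero.1 h6)
      · exact h2 (eq_neg_of_add_eq_zero_left h6)
    · have := ZMod.val_lt (((u : ZMod q) ^ 2 - 1) * D⁻¹ : ZMod q)
      have h3 : f u < q := this
      omega
  have hinj : Set.InjOn f (Finset.Icc 2 ((q - 1) / 2) : Finset ℕ) := by
    intro u hu v hv huv
    rw [Finset.mem_coe, Finset.mem_Icc] at hu hv
    have h1 : (u : ZMod q) ^ 2 = (v : ZMod q) ^ 2 := by
      rw [← hDf u, ← hDf v, huv]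
    have h2 : ((u : ZMod q) - v) * ((u : ZMod q) + v) = 0 := by linear_combination h1
    rcases mul_eq_zero.1 h2 with h3 | h3
    · have h4 := (ZMod.natCast_eq_natCast_iff' u v q).1 (sub_eq_zero.1 h3)
      rw [Nat.mod_eq_of_lt (by omega), Nat.mod_eq_of_lt (by omega)] at h4
      exact h4
    · have h4 : ((u + v : ℕ) : ZMod q) = 0 := by push_cast; exact h3
      rw [ZMod.natCast_eq_zero_iff] at h4
      have := Nat.le_of_dvd (by omega) h4
      omega
  have hcard := Finset.card_le_card_of_injOn f hmaps hinj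
  rw [Nat.card_Icc] at hcard
  have h2 : (q - 1) ≤ 3 * ((q - 1) / 2 + 1 - 2) := by omega
  have h3 : ((q - 1 : ℕ) : ℝ) ≤ 3 * (((q - 1) / 2 + 1 - 2 : ℕ) : ℝ) := by exact_mod_cast h2
  have h4 : (((q - 1) / 2 + 1 - 2 : ℕ) : ℝ) ≤ (F.card : ℝ) := by exact_mod_cast hcard
  linarith

/-- `S` is good for the class `κ`: `d κ + 1` is a nonzero square modulo all `q ∈ 𝒬 \ S`, where
`d = ∏ S`. -/
def Good (𝒬 : Finset ℕ) (κ : ℕ → ℕ) (S : Finset ℕ) : Prop :=
  ∀ q ∈ 𝒬, q ∉ S → (((∏ r ∈ S, r) * κ q + 1 : ℕ) : ZMod q) ≠ 0 ∧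
    IsSquare (((∏ r ∈ S, r) * κ q + 1 : ℕ) : ZMod q)

open scoped Classical in
theorem exists_kappa (𝒬 : Finset ℕ) (h𝒬 : ∀ q ∈ 𝒬, q.Prime ∧ 7 ≤ q) :
    ∃ κ : ℕ → ℕ, (∀ q ∈ 𝒬, 1 ≤ κ q ∧ κ q < q) ∧
      (4 / 3 : ℝ) ^ 𝒬.card ≤ ((𝒬.powerset.filter (fun S => Good 𝒬 κ S)).card : ℝ) := by
  set K : ℕ → Finset ℕ := fun q => Finset.Icc 1 (q - 1) with hK
  set f : Finset ℕ → ℕ → ℕ → ℝ := fun S q k => if q ∈ S then 1 else
    if ((((∏ r ∈ S, r) * k + 1 : ℕ) : ZMod q) ≠ 0 ∧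
      IsSquare (((∏ r ∈ S, r) * k + 1 : ℕ) : ZMod q)) then 1 else 0 with hf
  have hKne : ∀ q ∈ 𝒬, (K q).Nonempty := by
    intro q hq
    have := (h𝒬 q hq).2
    exact ⟨1, Finset.mem_Icc.2 ⟨le_rfl, by omega⟩⟩
  have hpine : (𝒬.pi K).Nonempty := Finset.pi_nonempty.2 hKne
  have hsumS : ∀ S ∈ 𝒬.powerset, (∏ q ∈ 𝒬, ((q - 1 : ℕ) : ℝ)) *
      ∏ q ∈ 𝒬, (if q ∈ S then (1 : ℝ) else 1 / 3) ≤
      ∑ p ∈ 𝒬.pi K, ∏ x ∈ 𝒬.attach, f S x.1 (p x.1 x.2) := by
    intro S hS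
    rw [← Finset.prod_sum, ← Finset.prod_mul_distrib]
    apply Finset.prod_le_prod
    · intro q _
      split_ifs <;> positivity
    · intro q hq
      by_cases hqS : q ∈ S
      · simp only [hf, hqS, if_true, Finset.sum_const, hK, Nat.card_Icc, nsmul_eq_mul]
        rw [Nat.add_sub_cancel]
      · simp only [hf, hqS, if_false]
        rw [← Finset.sum_filter, Finset.sum_const, nsmul_eq_mul, mul_one]
        have hD : ((∏ r ∈ S, r : ℕ) : ZMod q) ≠ 0 := by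
          intro h0
          rw [ZMod.natCast_eq_zero_iff] at h0
          obtain ⟨r, hr, hqr⟩ := ((h𝒬 q hq).1.prime.dvd_finsetProd_iff _).1 h0
          have hr2 := (h𝒬 r (Finset.mem_powerset.1 hS hr)).1
          rw [Nat.prime_dvd_prime_iff_eq (h𝒬 q hq).1 hr2] at hqr
          exact hqS (hqr ▸ hr)
        refine (sq_count (h𝒬 q hq).1 (h𝒬 q hq).2 _ hD).trans ?_
        rw [hK]
        apply le_of_eq
        push_cast
        rfl
  have hpow : ∑ S ∈ 𝒬.powerset, ∏ q ∈ 𝒬, (if q ∈ S then (1 : ℝ) else 1 / 3) =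
      (4 / 3 : ℝ) ^ 𝒬.card := by
    have h1 := Finset.prod_add (fun _ : ℕ => (1 : ℝ)) (fun _ => 1 / 3) 𝒬
    rw [Finset.prod_const] at h1
    have h2 : (1 + 1 / 3 : ℝ) = 4 / 3 := by norm_num
    rw [h2] at h1
    rw [h1]
    apply Finset.sum_congr rfl
    intro S hS
    rw [Finset.prod_ite]
    have e1 : 𝒬.filter (fun q => q ∈ S) = S := by
      ext q
      simp only [Finset.mem_filter]
      exact ⟨fun h => h.2, fun h => ⟨Finset.mem_powerset.1 hS h, h⟩⟩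
    have e2 : 𝒬.filter (fun q => q ∉ S) = 𝒬 \ S := by
      ext q
      simp only [Finset.mem_filter, Finset.mem_sdiff]
    rw [e1, e2]
  obtain ⟨p, hp, hpc⟩ : ∃ p ∈ 𝒬.pi K, (4 / 3 : ℝ) ^ 𝒬.card ≤
      ∑ S ∈ 𝒬.powerset, ∏ x ∈ 𝒬.attach, f S x.1 (p x.1 x.2) := by
    by_contra hcon
    push Not at hcon
    have h1 := Finset.sum_lt_sum_of_nonempty hpine hcon
    rw [Finset.sum_const, nsmul_eq_mul, Finset.card_pi, Finset.sum_comm] at h1
    have h2 := Finset.sum_le_sum hsumS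
    rw [← Finset.mul_sum, hpow] at h2
    have h3 : ((∏ q ∈ 𝒬, (K q).card : ℕ) : ℝ) = ∏ q ∈ 𝒬, ((q - 1 : ℕ) : ℝ) := by
      rw [Nat.cast_prod]
      apply Finset.prod_congr rfl
      intro q _
      rw [hK]
      simp
    rw [h3] at h1
    linarith
  refine ⟨fun q => if h : q ∈ 𝒬 then p q h else 1, ?_, ?_⟩
  · intro q hq
    simp only [dif_pos hq]
    have h1 := Finset.mem_pi.1 hp q hq
    rw [hK, Finset.mem_Icc] at h1
    have := (h𝒬 q hq).2
    omega
  · refine hpc.trans ?_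
    rw [Finset.card_filter, Nat.cast_sum]
    apply Finset.sum_le_sum
    intro S _
    by_cases hG : Good 𝒬 (fun q => if h : q ∈ 𝒬 then p q h else 1) S
    · rw [if_pos hG, Nat.cast_one]
      apply Finset.prod_le_one
      · intro x _
        simp only [hf]
        split_ifs <;> norm_num
      · intro x _
        simp only [hf]
        split_ifs <;> norm_num
    · rw [if_neg hG, Nat.cast_zero]
      unfold Good at hG
      push Not at hG
      obtain ⟨q, hq, hqS, hG⟩ := hG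
      apply le_of_eq
      apply Finset.prod_eq_zero (Finset.mem_attach 𝒬 ⟨q, hq⟩)
      simp only [hf, hqS, if_false]
      rw [if_neg]
      rintro ⟨h1, h2⟩
      simp only [dif_pos hq] at hG
      exact hG h1 h2

end Lnk
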