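import Mathlib

/-!
# Strong pseudoprimes with all prime factors `≡ 3 mod 4`
-/

set_option autoImplicit false

namespace Lnk

open Finset NumberTheorySymbols

/-- If `p ≡ 3 mod 4`, `p - 1 ∣ 2^j d` with `d` odd, then `b^d = (b/p)` modulo `p`. -/
theorem pow_odd_part {p : ℕ} (hp : p.Prime) (h4 : p % 4 = 3) {j d : ℕ} (hd : Odd d)
    (hdvd : p - 1 ∣ 2 ^ j * d) (b : ℕ) (hb : ¬ p ∣ b) :
    0 < j ∧ (p : ℤ) ∣ (b : ℤ) ^ d - J(b | p) := by
  have : Fact p.Prime := ⟨hp⟩
  set t := p / 2 with ht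
  have ht1 : p - 1 = 2 * t := by omega
  have htodd : Odd t := by rw [Nat.odd_iff]; omega
  have hj : 0 < j := by
    rcases Nat.eq_zero_or_pos j with h0 | h0
    · rw [h0, pow_zero, one_mul, ht1] at hdvd
      have h2 : 2 ∣ d := dvd_trans (dvd_mul_right 2 t) hdvd
      rw [Nat.odd_iff] at hd
      omega
    · exact h0
  refine ⟨hj, ?_⟩
  have htd : t ∣ d := by
    have h1 : t ∣ 2 ^ j * d := dvd_trans (by rw [ht1]; exact dvd_mul_left t 2) hdvd
    have h2 : Nat.Coprime t (2 ^ j) := Nat.Coprime.pow_right _ (Nat.coprime_two_right.2 htodd)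
    exact h2.dvd_of_dvd_mul_left h1
  obtain ⟨r, hr⟩ := htd
  have hrodd : Odd r := by
    rw [hr, Nat.odd_mul] at hd
    exact hd.2
  have hne : ((b : ℤ) : ZMod p) ≠ 0 := by
    rw [Int.cast_natCast, Ne, ZMod.natCast_eq_zero_iff]
    exact hb
  have hleg : J(b | p) = legendreSym p b := (jacobiSym.legendreSym.to_jacobiSym p b).symm
  have h1 : ((legendreSym p b : ℤ) : ZMod p) = ((b : ℤ) : ZMod p) ^ t := legendreSym.eq_pow p b
  have h2 : (((b : ℤ) ^ d - legendreSym p b : ℤ) : ZMod p) = 0 := by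
    push_cast
    rw [hr, pow_mul]
    have h3 : ((b : ℕ) : ZMod p) ^ t = ((legendreSym p b : ℤ) : ZMod p) := by
      rw [h1]; push_cast; rfl
    rw [h3]
    rcases legendreSym.eq_one_or_neg_one p hne with h | h
    · rw [h]; simp
    · rw [h]
      push_cast
      rw [hrodd.neg_one_pow]
      ring
  rw [hleg]
  exact (ZMod.intCast_zmod_eq_zero_iff_dvd _ p).1 h2

/-- Products of primes `≡ 3 mod 4` with `p - 1 ∣ n - 1` and equal symbols pass the strong test. -/
theorem strong_pass (T : Finset ℕ) (hT : ∀ p ∈ T, p.Prime ∧ p % 4 = 3) (hne : T.Nonempty)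
    (hdvd : ∀ p ∈ T, p - 1 ∣ (∏ p ∈ T, p) - 1) (b : ℕ) (hb : ∀ p ∈ T, ¬ p ∣ b)
    (hsym : ∀ p ∈ T, ∀ p' ∈ T, J(b | p) = J(b | p')) :
    ∀ j d : ℕ, (∏ p ∈ T, p) - 1 = 2 ^ j * d → Odd d →
      ((b : ZMod (∏ p ∈ T, p)) ^ d = 1 ∨
        ∃ i : ℕ, i < j ∧ (b : ZMod (∏ p ∈ T, p)) ^ (2 ^ i * d) = -1) := by
  intro j d hjd hd
  obtain ⟨p₀, hp₀⟩ := hne
  have hall : ((∏ p ∈ T, p : ℕ) : ℤ) ∣ (b : ℤ) ^ d - J(b | p₀) := by
    push_cast
    apply Finset.prod_dvd_of_coprime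
    · intro p hp p' hp' hpp
      show IsCoprime ((p : ℕ) : ℤ) ((p' : ℕ) : ℤ)
      rw [Nat.isCoprime_iff_coprime]
      exact (Nat.coprime_primes (hT p hp).1 (hT p' hp').1).2 hpp
    · intro p hp
      rw [hsym p₀ hp₀ p hp]
      exact (pow_odd_part (hT p hp).1 (hT p hp).2 hd (hjd ▸ hdvd p hp) b (hb p hp)).2
  have hj := (pow_odd_part (hT p₀ hp₀).1 (hT p₀ hp₀).2 hd (hjd ▸ hdvd p₀ hp₀) b (hb p₀ hp₀)).1
  have h2 : (((b : ℤ) ^ d - J(b | p₀) : ℤ) : ZMod (∏ p ∈ T, p)) = 0 :=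
    (ZMod.intCast_zmod_eq_zero_iff_dvd _ _).2 hall
  push_cast at h2
  have hcop : IsCoprime (b : ℤ) (p₀ : ℤ) := by
    rw [Nat.isCoprime_iff_coprime]
    exact ((Nat.Prime.coprime_iff_not_dvd (hT p₀ hp₀).1).2 (hb p₀ hp₀)).symm
  have hJ : J(b | p₀) = 1 ∨ J(b | p₀) = -1 := by
    apply jacobiSym.eq_one_or_neg_one
    rwa [Int.isCoprime_iff_gcd_eq_one] at hcop
  rcases hJ with h | h
  · left
    rw [h] at h2
    push_cast at h2
    exact sub_eq_zero.1 h2
  · right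
    refine ⟨0, hj, ?_⟩
    rw [h] at h2
    push_cast at h2
    rw [pow_zero, one_mul]
    linear_combination h2

/-- Equality of symbols at all prime factors gives equality of symbols. -/
theorem jacobi_eq_of_primes {p p' : ℕ} (b : ℕ) :
    (∀ r : ℕ, r.Prime → r ∣ b → J(r | p) = J(r | p')) → 0 < b → J(b | p) = J(b | p') := by
  induction b using Nat.recOnMul with
  | zero => intro _ h; exact absurd h (lt_irrefl 0)
  | one => intro _ _; simp
  | prime q hq => intro h _; exact h q hq dvd_rfl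
  | mul a c iha ihc =>
    intro h h0
    have ha0 : 0 < a := Nat.pos_of_mul_pos_right h0 |> fun h => by
      rcases Nat.eq_zero_or_pos a with h1 | h1
      · subst h1; simp at h0
      · exact h1
    have hc0 : 0 < c := by
      rcases Nat.eq_zero_or_pos c with h1 | h1
      · subst h1; simp at h0
      · exact h1
    push_cast
    rw [jacobiSym.mul_left, jacobiSym.mul_left,
      iha (fun r hr hra => h r hr (hra.mul_right c)) ha0,
      ihc (fun r hr hrc => h r hr (hrc.mul_left a)) hc0]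

/-- Reciprocity: the symbol `(r/p)` depends only on `r` if `p ≡ 3 mod 4` is a square mod `r`. -/
theorem jacobi_of_square {r p : ℕ} (hr : r.Prime) (hr2 : r ≠ 2) (hp4 : p % 4 = 3)
    (h0 : ((p : ℕ) : ZMod r) ≠ 0) (hsq : IsSquare ((p : ℕ) : ZMod r)) :
    J(r | p) = if r % 4 = 1 then 1 else -1 := by
  have : Fact r.Prime := ⟨hr⟩
  have hodd : r % 2 = 1 := hr.eq_two_or_odd.resolve_left hr2
  have hpodd : Odd p := by rw [Nat.odd_iff]; omega
  have h1 : J(p | r) = 1 := by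
    rw [← jacobiSym.legendreSym.to_jacobiSym]
    rw [legendreSym.eq_one_iff]
    · simpa using hsq
    · simpa using h0
  have hr4 : r % 4 = 1 ∨ r % 4 = 3 := by omega
  rcases hr4 with h | h
  · rw [if_pos h, jacobiSym.quadratic_reciprocity_one_mod_four h hpodd, h1]
  · rw [if_neg (by omega), jacobiSym.quadratic_reciprocity_three_mod_four h hp4, h1]

theorem jacobi_two {p p' : ℕ} (hp : p % 4 = 3) (h8 : p % 8 = p' % 8) : J(2 | p) = J(2 | p') := by
  have hp1 : Odd p := by rw [Nat.odd_iff]; omega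
  have hp2 : Odd p' := by rw [Nat.odd_iff]; omega
  rw [jacobiSym.at_two hp1, jacobiSym.at_two hp2]
  congr 1
  rw [ZMod.natCast_eq_natCast_iff']
  exact h8

end Lnk
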