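import Pool.Agent.Lib.Linnik.Davenport
import Pool.Agent.Lib.Linnik.Kappa
import Pool.Agent.Lib.Linnik.Strong

/-!
# Construction of the strong pseudoprime
-/

set_option autoImplicit false

namespace Lnk

open Finset NumberTheorySymbols

/-- The units modulo a product of distinct primes `q` with `q - 1 ∣ Λ` are killed by `Λ`. -/
theorem pow_Lambda {𝒬 : Finset ℕ} {Λ : ℕ} (h : ∀ q ∈ 𝒬, q.Prime ∧ (q - 1) ∣ Λ)
    (a : ZMod (∏ q ∈ 𝒬, q)) (ha : IsUnit a) : a ^ Λ = 1 := by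
  have hL : 0 < ∏ q ∈ 𝒬, q := Finset.prod_pos fun q hq => (h q hq).1.pos
  have : NeZero (∏ q ∈ 𝒬, q) := ⟨hL.ne'⟩
  have h1 : ((a.val : ℕ) : ZMod (∏ q ∈ 𝒬, q)) = a := ZMod.natCast_zmod_val a
  have hcop : Nat.Coprime a.val (∏ q ∈ 𝒬, q) := by
    rw [← ZMod.isUnit_iff_coprime, h1]; exact ha
  have h2 : ((∏ q ∈ 𝒬, q : ℕ) : ℤ) ∣ ((a.val : ℤ)) ^ Λ - 1 := by
    push_cast
    apply Finset.prod_dvd_of_coprime
    · intro p hp p' hp' hpp
      show IsCoprime ((p : ℕ) : ℤ) ((p' : ℕ) : ℤ)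
      rw [Nat.isCoprime_iff_coprime]
      exact (Nat.coprime_primes (h p hp).1 (h p' hp').1).2 hpp
    · intro q hq
      have : Fact q.Prime := ⟨(h q hq).1⟩
      rw [← ZMod.intCast_zmod_eq_zero_iff_dvd]
      push_cast
      have hne : ((a.val : ℕ) : ZMod q) ≠ 0 := by
        rw [Ne, ZMod.natCast_eq_zero_iff]
        intro hdvd
        have h3 : q ∣ Nat.gcd a.val (∏ q ∈ 𝒬, q) := Nat.dvd_gcd hdvd (Finset.dvd_prod_of_mem _ hq)
        rw [hcop] at h3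
        exact (h q hq).1.one_lt.ne' (Nat.dvd_one.1 h3)
      obtain ⟨c, hc⟩ := (h q hq).2
      rw [hc, pow_mul, ZMod.pow_card_sub_one_eq_one hne, one_pow, sub_self]
  have h3 : (((a.val : ℤ) ^ Λ - 1 : ℤ) : ZMod (∏ q ∈ 𝒬, q)) = 0 :=
    (ZMod.intCast_zmod_eq_zero_iff_dvd _ _).2 h2
  push_cast at h3
  rw [h1] at h3
  exact sub_eq_zero.1 h3

open scoped Classical in
theorem exists_pseudo {z k l Λ m : ℕ} {𝒬 : Finset ℕ}
    (h𝒬 : ∀ q ∈ 𝒬, q.Prime ∧ 7 ≤ q ∧ (q - 1) ∣ Λ) (hk1 : 1 ≤ k) (hk4 : k % 4 = 2)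
    (hdiv : ∀ r : ℕ, r.Prime → r ≠ 2 → r ≤ z → r ≠ l → r ∉ 𝒬 → r ∣ k)
    (hcop : ∀ q ∈ 𝒬.erase l, ¬ q ∣ k) (hl : l.Prime) (hΛ : 0 < Λ)
    (hm : Λ * Real.log (∏ q ∈ 𝒬, q : ℕ) < m)
    (hcount : 4 * m + 2 ≤ ((𝒬.erase l).powerset.filter (fun S => Good (𝒬.erase l) (fun _ => k) S ∧
      ((∏ q ∈ S, q) * k + 1).Prime)).card) :
    ∃ n : ℕ, 1 < n ∧ ¬ n.Prime ∧ n ≤ ((∏ q ∈ 𝒬, q) * k + 1) ^ m ∧ Squarefree n ∧
      (∀ p : ℕ, p.Prime → p ∣ n → p - 1 ∣ n - 1) ∧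
      ∀ b : ℕ, 1 ≤ b → b ≤ z → ∀ j d : ℕ, n - 1 = 2 ^ j * d → Odd d →
        ((b : ZMod n) ^ d = 1 ∨ ∃ i : ℕ, i < j ∧ (b : ZMod n) ^ (2 ^ i * d) = -1) := by
  set 𝒬' := 𝒬.erase l with h𝒬'
  have h𝒬'p : ∀ q ∈ 𝒬', q.Prime ∧ 7 ≤ q ∧ (q - 1) ∣ Λ :=
    fun q hq => h𝒬 q (Finset.mem_of_mem_erase hq)
  set 𝒮 := 𝒬'.powerset.filter (fun S => Good 𝒬' (fun _ => k) S ∧
      ((∏ q ∈ S, q) * k + 1).Prime) with h𝒮
  set P : Finset ℕ → ℕ := fun S => (∏ q ∈ S, q) * k + 1 with hP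
  set L := ∏ q ∈ 𝒬', q with hL
  have hLpos : 0 < L := Finset.prod_pos fun q hq => (h𝒬'p q hq).1.pos
  have : NeZero L := ⟨hLpos.ne'⟩
  have hmem𝒮 : ∀ S ∈ 𝒮, S ⊆ 𝒬' ∧ Good 𝒬' (fun _ => k) S ∧ (P S).Prime := by
    intro S hS
    rw [h𝒮, Finset.mem_filter, Finset.mem_powerset] at hS
    exact ⟨hS.1, hS.2.1, hS.2.2⟩
  -- injectivity of `P`
  have hdinj : ∀ S ⊆ 𝒬', ∀ S' ⊆ 𝒬', (∏ q ∈ S, q) ∣ (∏ q ∈ S', q) → S ⊆ S' := by
    intro S hS S' hS' hdvd q hq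
    have h1 : q ∣ ∏ q ∈ S', q := (Finset.dvd_prod_of_mem _ hq).trans hdvd
    obtain ⟨r, hr, hqr⟩ := ((h𝒬'p q (hS hq)).1.prime.dvd_finsetProd_iff _).1 h1
    rw [Nat.prime_dvd_prime_iff_eq (h𝒬'p q (hS hq)).1 (h𝒬'p r (hS' hr)).1] at hqr
    exact hqr ▸ hr
  have hPinj : ∀ S ⊆ 𝒬', ∀ S' ⊆ 𝒬', P S = P S' → S = S' := by
    intro S hS S' hS' h
    have h1 : (∏ q ∈ S, q) * k = (∏ q ∈ S', q) * k := Nat.add_right_cancel h
    have h2 : (∏ q ∈ S, q) = ∏ q ∈ S', q := Nat.eq_of_mul_eq_mul_right hk1 h1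
    exact Finset.Subset.antisymm (hdinj S hS S' hS' (h2 ▸ dvd_rfl))
      (hdinj S' hS' S hS (h2 ▸ dvd_rfl))
  -- residues modulo 4
  have hP4 : ∀ S ⊆ 𝒬', P S % 4 = 3 := by
    intro S hS
    have hodd : Odd (∏ q ∈ S, q) := by
      rw [← Nat.coprime_two_left]
      apply Nat.Coprime.prod_right
      intro r hr
      rw [Nat.coprime_primes Nat.prime_two (h𝒬'p r (hS hr)).1]
      have := (h𝒬'p r (hS hr)).2.1
      omega
    obtain ⟨t, ht⟩ := hodd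
    show ((∏ q ∈ S, q) * k + 1) % 4 = 3
    rw [ht]
    have h1 : k = 4 * (k / 4) + 2 := by omega
    rw [h1]
    have h2 : (2 * t + 1) * (4 * (k / 4) + 2) + 1 = 4 * ((2 * t + 1) * (k / 4) + t) + 3 := by ring
    rw [h2]
    omega
  -- squares modulo the primes of `𝒬'`
  have hPsq : ∀ S ∈ 𝒮, ∀ q ∈ 𝒬', ((P S : ℕ) : ZMod q) ≠ 0 ∧ IsSquare ((P S : ℕ) : ZMod q) := by
    intro S hS q hq
    obtain ⟨h1, h2, h3⟩ := hmem𝒮 S hS
    by_cases hqS : q ∈ S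
    · have : Fact q.Prime := ⟨(h𝒬'p q hq).1⟩
      have h4 : ((P S : ℕ) : ZMod q) = 1 := by
        show (((∏ q ∈ S, q) * k + 1 : ℕ) : ZMod q) = 1
        have h5 : (((∏ q ∈ S, q) : ℕ) : ZMod q) = 0 :=
          (ZMod.natCast_eq_zero_iff _ _).2 (Finset.dvd_prod_of_mem _ hqS)
        rw [Nat.cast_add, Nat.cast_mul, h5]
        simp
      rw [h4]
      exact ⟨one_ne_zero, ⟨1, by ring⟩⟩
    · exact h2 q hq hqS
  have hPk : ∀ S, ∀ r : ℕ, r ∣ k → ((P S : ℕ) : ZMod r) = 1 := by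
    intro S r hr
    show (((∏ q ∈ S, q) * k + 1 : ℕ) : ZMod r) = 1
    have h5 : ((k : ℕ) : ZMod r) = 0 := (ZMod.natCast_eq_zero_iff _ _).2 hr
    rw [Nat.cast_add, Nat.cast_mul, h5]
    simp
  -- remove two sets
  set 𝒮₁ := 𝒮.filter (fun S => P S ≠ l ∧ S ≠ 𝒬') with h𝒮₁
  have hcard₁ : 4 * m ≤ 𝒮₁.card := by
    have h1 := Finset.card_filter_add_card_filter_not (s := 𝒮) (fun S => P S ≠ l ∧ S ≠ 𝒬')
    have h2 : (𝒮.filter (fun S => ¬ (P S ≠ l ∧ S ≠ 𝒬'))).card ≤ 2 := by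
      have h3 : 𝒮.filter (fun S => ¬ (P S ≠ l ∧ S ≠ 𝒬')) ⊆
          𝒮.filter (fun S => P S = l) ∪ {𝒬'} := by
        intro S hS
        rw [Finset.mem_filter] at hS
        rw [Finset.mem_union, Finset.mem_filter, Finset.mem_singleton]
        by_cases h4 : P S = l
        · exact Or.inl ⟨hS.1, h4⟩
        · right
          by_contra h5
          exact hS.2 ⟨h4, h5⟩
      have h6 : (𝒮.filter (fun S => P S = l)).card ≤ 1 := by
        rw [Finset.card_le_one]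
        intro S hS S' hS'
        rw [Finset.mem_filter] at hS hS'
        exact hPinj S (hmem𝒮 S hS.1).1 S' (hmem𝒮 S' hS'.1).1 (hS.2.trans hS'.2.symm)
      calc _ ≤ _ := Finset.card_le_card h3
        _ ≤ _ := Finset.card_union_le _ _
        _ ≤ 2 := by rw [Finset.card_singleton]; omega
    have h7 : 𝒮₁.card = (𝒮.filter (fun S => P S ≠ l ∧ S ≠ 𝒬')).card := by
      rw [h𝒮₁]
    have h8 : 𝒮₁.card + (𝒮.filter (fun S => ¬ (P S ≠ l ∧ S ≠ 𝒬'))).card = 𝒮.card := by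
      rw [h7]
      convert h1 using 3
    omega
  -- pigeonhole
  set tgt : Finset (ℕ × ℤ) := ({3, 7} : Finset ℕ) ×ˢ ({1, -1} : Finset ℤ) with htgt
  have htgtc : tgt.card = 4 := by
    rw [htgt, Finset.card_product]; rfl
  have hmaps : ∀ S ∈ 𝒮₁, (P S % 8, J(l | P S)) ∈ tgt := by
    intro S hS
    rw [h𝒮₁, Finset.mem_filter] at hS
    obtain ⟨h1, h2, h3⟩ := hmem𝒮 S hS.1
    rw [htgt, Finset.mem_product]
    constructor
    · have := hP4 S h1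
      simp only [Finset.mem_insert, Finset.mem_singleton]
      omega
    · simp only [Finset.mem_insert, Finset.mem_singleton]
      apply jacobiSym.eq_one_or_neg_one
      rw [Int.gcd_natCast_natCast]
      exact (Nat.coprime_primes hl h3).2 (fun h => hS.2.1 h.symm)
  obtain ⟨v, _, hv⟩ := Finset.exists_le_card_fiber_of_mul_le_card_of_maps_to hmaps
    (by rw [← Finset.card_pos, htgtc]; norm_num) (n := m) (by rw [htgtc]; exact hcard₁)
  obtain ⟨U, hU, hUc⟩ := Finset.exists_subset_card_eq hv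
  have hUmem : ∀ S ∈ U, S ∈ 𝒮 ∧ P S ≠ l ∧ S ≠ 𝒬' ∧ (P S % 8, J(l | P S)) = v := by
    intro S hS
    have h1 := hU hS
    rw [Finset.mem_filter, h𝒮₁, Finset.mem_filter] at h1
    exact ⟨h1.1.1, h1.1.2.1, h1.1.2.2, h1.2⟩
  -- Davenport
  have hLle : (L : ℝ) ≤ (∏ q ∈ 𝒬, q : ℕ) := by
    have h1 : L ∣ ∏ q ∈ 𝒬, q := Finset.prod_dvd_prod_of_subset _ _ _ (Finset.erase_subset _ _)
    have h2 : 0 < ∏ q ∈ 𝒬, q := Finset.prod_pos fun q hq => (h𝒬 q hq).1.pos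
    exact_mod_cast Nat.le_of_dvd h2 h1
  have hunitP : ∀ S ∈ U, IsUnit ((P S : ℕ) : ZMod L) := by
    intro S hS
    rw [ZMod.isUnit_iff_coprime, hL]
    apply Nat.Coprime.prod_right
    intro q hq
    rw [Nat.coprime_comm, Nat.Prime.coprime_iff_not_dvd (h𝒬'p q hq).1]
    intro hdvd
    exact (hPsq S (hUmem S hS).1 q hq).1 ((ZMod.natCast_eq_zero_iff _ _).2 hdvd)
  have htotpos : (0 : ℝ) < Nat.totient L := by exact_mod_cast Nat.totient_pos.2 hLpos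
  have hdav : (Λ : ℝ) * Real.log (Nat.totient L) < (U.card : ℝ) := by
    rw [hUc]
    refine lt_of_le_of_lt ?_ hm
    have h1 : Real.log (Nat.totient L) ≤ Real.log (∏ q ∈ 𝒬, q : ℕ) := by
      apply Real.log_le_log htotpos
      refine le_trans ?_ hLle
      exact_mod_cast Nat.totient_le L
    gcongr
  obtain ⟨T, hTU, hTne, hTprod⟩ := davenport hΛ
    (pow_Lambda (𝒬 := 𝒬') (fun q hq => ⟨(h𝒬'p q hq).1, (h𝒬'p q hq).2.2⟩))
    U (fun S => ((P S : ℕ) : ZMod L)) hunitP hdav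
  -- the number
  have hTmem : ∀ S ∈ T, S ⊆ 𝒬' ∧ (P S).Prime := fun S hS =>
    ⟨(hmem𝒮 S (hUmem S (hTU hS)).1).1, (hmem𝒮 S (hUmem S (hTU hS)).1).2.2⟩
  set TP := T.image P with hTP
  have hprod : ∏ p ∈ TP, p = ∏ S ∈ T, P S := by
    rw [hTP, Finset.prod_image]
    intro S hS S' hS' h
    exact hPinj S (hTmem S hS).1 S' (hTmem S' hS').1 h
  set n := ∏ p ∈ TP, p with hn
  have hnL : L ∣ n - 1 := by
    have hn1 : 1 ≤ n := by
      rw [hprod]; exact Finset.prod_pos fun S hS => (hTmem S hS).2.pos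
    rw [← ZMod.natCast_eq_zero_iff, Nat.cast_sub hn1, hprod, Nat.cast_prod, hTprod]
    simp
  have hnk : k ∣ n - 1 := by
    have hn1 : 1 ≤ n := by
      rw [hprod]; exact Finset.prod_pos fun S hS => (hTmem S hS).2.pos
    rw [← ZMod.natCast_eq_zero_iff, Nat.cast_sub hn1, hprod, Nat.cast_prod,
      Finset.prod_congr rfl (fun S _ => hPk S k dvd_rfl)]
    simp
  have hLk : Nat.Coprime L k := by
    rw [hL]
    apply Nat.Coprime.prod_left
    intro q hq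
    rw [Nat.Prime.coprime_iff_not_dvd (h𝒬'p q hq).1]
    exact hcop q hq
  have hLkn : L * k ∣ n - 1 := hLk.mul_dvd_of_dvd_of_dvd hnL hnk
  have hPn : ∀ S ∈ T, P S - 1 ∣ n - 1 := by
    intro S hS
    refine dvd_trans ?_ hLkn
    show (∏ q ∈ S, q) * k + 1 - 1 ∣ L * k
    rw [Nat.add_sub_cancel]
    exact Nat.mul_dvd_mul_right (Finset.prod_dvd_prod_of_subset _ _ _ (hTmem S hS).1) k
  obtain ⟨S₀, hS₀⟩ := hTne
  have hPdvd : ∀ S ∈ T, P S ∣ n := fun S hS => by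
    rw [hprod]; exact Finset.dvd_prod_of_mem _ hS
  have hnpos : 0 < n := by rw [hprod]; exact Finset.prod_pos fun S hS => (hTmem S hS).2.pos
  have hn1 : 1 < n := lt_of_lt_of_le (hTmem S₀ hS₀).2.one_lt (Nat.le_of_dvd hnpos (hPdvd S₀ hS₀))
  refine ⟨n, hn1, ?_, ?_, ?_, ?_, ?_⟩
  · intro hnp
    have h1 : P S₀ = n := (Nat.prime_dvd_prime_iff_eq (hTmem S₀ hS₀).2 hnp).1 (hPdvd S₀ hS₀)
    have h2 : L ∣ (∏ q ∈ S₀, q) * k := by
      have h3 : P S₀ - 1 = (∏ q ∈ S₀, q) * k := by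
        show (∏ q ∈ S₀, q) * k + 1 - 1 = _
        rw [Nat.add_sub_cancel]
      rw [← h3, h1]
      exact hnL
    have h3 : L ∣ ∏ q ∈ S₀, q := hLk.dvd_of_dvd_mul_right h2
    have h4 : 𝒬' ⊆ S₀ := hdinj 𝒬' (Finset.Subset.refl _) S₀ (hTmem S₀ hS₀).1 h3
    exact (hUmem S₀ (hTU hS₀)).2.2.1 (Finset.Subset.antisymm (hTmem S₀ hS₀).1 h4)
  · rw [hprod]
    have hbase : ∀ S ∈ T, P S ≤ (∏ q ∈ 𝒬, q) * k + 1 := by
      intro S hS
      show (∏ q ∈ S, q) * k + 1 ≤ _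
      have h1 : (∏ q ∈ S, q) ∣ ∏ q ∈ 𝒬, q := Finset.prod_dvd_prod_of_subset _ _ _
        ((hTmem S hS).1.trans (Finset.erase_subset _ _))
      have h2 : 0 < ∏ q ∈ 𝒬, q := Finset.prod_pos fun q hq => (h𝒬 q hq).1.pos
      have h3 := Nat.le_of_dvd h2 h1
      have h4 := Nat.mul_le_mul_right k h3
      omega
    calc ∏ S ∈ T, P S ≤ ∏ S ∈ T, ((∏ q ∈ 𝒬, q) * k + 1) := Finset.prod_le_prod' hbase
      _ = ((∏ q ∈ 𝒬, q) * k + 1) ^ T.card := by rw [Finset.prod_const]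
      _ ≤ ((∏ q ∈ 𝒬, q) * k + 1) ^ m := by
        apply Nat.pow_le_pow_right (by omega)
        rw [← hUc]
        exact Finset.card_le_card hTU
  · have hTPp : ∀ p ∈ TP, p.Prime := by
      intro p hp
      obtain ⟨S, hS, rfl⟩ := Finset.mem_image.1 hp
      exact (hTmem S hS).2
    rw [hn]
    refine Finset.squarefree_prod_of_pairwise_isCoprime (fun p hp q hq hpq ↦ ?_)
      (fun p hp => (hTPp p hp).squarefree)
    show IsRelPrime p q
    rw [← Nat.coprime_iff_isRelPrime]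
    exact (Nat.coprime_primes (hTPp p hp) (hTPp q hq)).2 hpq
  · intro p hp hpn
    rw [hprod] at hpn
    obtain ⟨S, hS, hpS⟩ := (hp.prime.dvd_finsetProd_iff _).1 hpn
    rw [Nat.prime_dvd_prime_iff_eq hp (hTmem S hS).2] at hpS
    rw [hpS]
    exact hPn S hS
  · intro b hb1 hbz
    have hTPmem : ∀ p ∈ TP, ∃ S ∈ T, P S = p := fun p hp => Finset.mem_image.1 hp
    have hnotdvd : ∀ S ∈ T, ∀ r : ℕ, r.Prime → r ≤ z → r ≠ P S := by
      intro S hS r hr hrz hrP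
      have hSU := hUmem S (hTU hS)
      have h2 : r ≠ 2 := by
        rintro rfl
        have := hP4 S (hTmem S hS).1
        rw [← hrP] at this
        omega
      have h3 : r ≠ l := fun h => hSU.2.1 (hrP.symm.trans h)
      by_cases h4 : r ∈ 𝒬
      · have h5 : r ∈ 𝒬' := Finset.mem_erase.2 ⟨h3, h4⟩
        apply (hPsq S hSU.1 r h5).1
        rw [ZMod.natCast_eq_zero_iff, ← hrP]
      · have h5 := hPk S r (hdiv r hr h2 hrz h3 h4)
        have : Fact r.Prime := ⟨hr⟩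
        have h6 : ((P S : ℕ) : ZMod r) = 0 := by
          rw [ZMod.natCast_eq_zero_iff, ← hrP]
        rw [h6] at h5
        exact zero_ne_one h5
    have := strong_pass TP (fun p hp => by
        obtain ⟨S, hS, rfl⟩ := hTPmem p hp
        exact ⟨(hTmem S hS).2, hP4 S (hTmem S hS).1⟩)
      ⟨P S₀, Finset.mem_image_of_mem _ hS₀⟩
      (fun p hp => by
        obtain ⟨S, hS, rfl⟩ := hTPmem p hp
        exact hPn S hS) b
      (fun p hp => by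
        obtain ⟨S, hS, rfl⟩ := hTPmem p hp
        intro hdvd
        have h1 : P S ≤ b := Nat.le_of_dvd hb1 hdvd
        exact hnotdvd S hS (P S) (hTmem S hS).2 (h1.trans hbz) rfl)
      (fun p hp p' hp' => by
        obtain ⟨S, hS, rfl⟩ := hTPmem p hp
        obtain ⟨S', hS', rfl⟩ := hTPmem p' hp'
        have hSU := hUmem S (hTU hS)
        have hSU' := hUmem S' (hTU hS')
        have hkey : (P S % 8, J(l | P S)) = (P S' % 8, J(l | P S')) :=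
          hSU.2.2.2.trans hSU'.2.2.2.symm
        rw [Prod.mk.injEq] at hkey
        apply jacobi_eq_of_primes b _ hb1
        intro r hr hrb
        have hrz : r ≤ z := (Nat.le_of_dvd hb1 hrb).trans hbz
        by_cases h2 : r = 2
        · subst h2
          exact_mod_cast jacobi_two (hP4 S (hTmem S hS).1) hkey.1
        by_cases h3 : r = l
        · subst h3
          exact hkey.2
        have hsq : ∀ S ∈ 𝒮, ((P S : ℕ) : ZMod r) ≠ 0 ∧ IsSquare ((P S : ℕ) : ZMod r) := by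
          intro S hS
          by_cases h4 : r ∈ 𝒬
          · exact hPsq S hS r (Finset.mem_erase.2 ⟨h3, h4⟩)
          · have : Fact r.Prime := ⟨hr⟩
            rw [hPk S r (hdiv r hr h2 hrz h3 h4)]
            exact ⟨one_ne_zero, ⟨1, by ring⟩⟩
        rw [jacobi_of_square hr h2 (hP4 S (hTmem S hS).1) (hsq S hSU.1).1 (hsq S hSU.1).2,
          jacobi_of_square hr h2 (hP4 S' (hTmem S' hS').1) (hsq S' hSU'.1).1 (hsq S' hSU'.1).2])
    exact this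

end Lnk
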