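import Mathlib

/-!
# Davenport's constant of `(ZMod L)ˣ`

Any `S` units modulo `L` with `m * log φ(L) < S.card`, where `m` kills the unit group, contain a
nonempty subfamily with product `1`.
-/

set_option autoImplicit false

namespace Lnk

open Finset

open scoped Classical in
theorem davenport_aux {L m : ℕ} [NeZero L] (hm : 0 < m)
    (hexp : ∀ a : ZMod L, IsUnit a → a ^ m = 1) {ι : Type*}
    (g : ι → ZMod L) (X : Finset (DirichletCharacter ℂ L)) (S : Finset ι)
    (hg : ∀ i ∈ S, IsUnit (g i)) :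
    ∃ a : ι → ℂ, (∀ i ∈ S, a i ≠ 0) ∧
      ((X.filter (fun χ => ∀ i ∈ S, χ (g i) ≠ a i)).card : ℝ) ≤
        X.card * (1 - 1 / (m : ℝ)) ^ S.card := by
  induction S using Finset.induction_on with
  | empty => exact ⟨fun _ => 1, by simp, by simp⟩
  | insert i S hi ih =>
    obtain ⟨a, ha0, ha⟩ := ih (fun j hj => hg j (Finset.mem_insert_of_mem hj))
    set X' := X.filter (fun χ => ∀ i ∈ S, χ (g i) ≠ a i) with hX'
    have hm0 : (0 : ℝ) < m := by exact_mod_cast hm
    have hR0 : ∃ R : Finset ℂ, R.card ≤ m ∧ ∀ ζ : ℂ, ζ ∈ R ↔ ζ ^ m = 1 := by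
      refine ⟨(Polynomial.nthRoots m (1 : ℂ)).toFinset,
        (Multiset.toFinset_card_le _).trans (Polynomial.card_nthRoots m 1), fun ζ => ?_⟩
      rw [Multiset.mem_toFinset, Polynomial.mem_nthRoots hm]
    obtain ⟨R, hRc, hR⟩ := hR0
    have hroot : ∀ χ ∈ X', χ (g i) ∈ R := by
      intro χ _
      rw [hR, ← map_pow, hexp _ (hg i (Finset.mem_insert_self i S)), map_one]
    have hcard : (R.card : ℝ) ≤ m := by exact_mod_cast hRc
    have hne : R.Nonempty := ⟨1, by rw [hR, one_pow]⟩
    obtain ⟨ζ, hζ, hζc⟩ : ∃ ζ ∈ R,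
        (X'.card : ℝ) / m ≤ ((X'.filter (fun χ => χ (g i) = ζ)).card : ℝ) := by
      by_contra hcon
      push Not at hcon
      have h1 : (X'.card : ℝ) = ∑ ζ ∈ R,
          ((X'.filter (fun χ => χ (g i) = ζ)).card : ℝ) := by
        exact_mod_cast Finset.card_eq_sum_card_fiberwise hroot
      have h2 : ∑ ζ ∈ R,
          ((X'.filter (fun χ => χ (g i) = ζ)).card : ℝ) <
          ∑ ζ ∈ R, (X'.card : ℝ) / m :=
        Finset.sum_lt_sum_of_nonempty hne hcon
      rw [Finset.sum_const, nsmul_eq_mul] at h2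
      have h3 : (R.card : ℝ) * ((X'.card : ℝ) / m) ≤
          m * ((X'.card : ℝ) / m) := by gcongr
      have h4 : (m : ℝ) * ((X'.card : ℝ) / m) = X'.card := by field_simp
      linarith
    have hζ0 : ζ ≠ 0 := by
      intro h0
      rw [h0, hR, zero_pow hm.ne'] at hζ
      exact zero_ne_one hζ
    refine ⟨Function.update a i ζ, ?_, ?_⟩
    · intro j hj
      rcases Finset.mem_insert.1 hj with rfl | hj
      · simpa using hζ0
      · have hne : j ≠ i := fun h => hi (h ▸ hj)
        rw [Function.update_of_ne hne]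
        exact ha0 j hj
    · have hset : X.filter (fun χ => ∀ j ∈ insert i S, χ (g j) ≠ Function.update a i ζ j) =
          X' \ X'.filter (fun χ => χ (g i) = ζ) := by
        ext χ
        simp only [hX', Finset.mem_filter, Finset.mem_sdiff, Finset.mem_insert, forall_eq_or_imp,
          Function.update_self]
        constructor
        · rintro ⟨h1, h2, h3⟩
          refine ⟨⟨h1, fun j hj => ?_⟩, fun h => h2 h.2⟩
          have hne : j ≠ i := fun h => hi (h ▸ hj)
          have := h3 j hj
          rwa [Function.update_of_ne hne] at this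
        · rintro ⟨⟨h1, h2⟩, h3⟩
          refine ⟨h1, fun h => h3 ⟨⟨h1, h2⟩, h⟩, fun j hj => ?_⟩
          have hne : j ≠ i := fun h => hi (h ▸ hj)
          rw [Function.update_of_ne hne]
          exact h2 j hj
      rw [hset, Finset.card_insert_of_notMem hi, pow_succ]
      have h5 : ((X' \ X'.filter (fun χ => χ (g i) = ζ)).card : ℝ) =
          X'.card - (X'.filter (fun χ => χ (g i) = ζ)).card := by
        rw [Finset.card_sdiff_of_subset (Finset.filter_subset _ _),
          Nat.cast_sub (Finset.card_le_card (Finset.filter_subset _ _))]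
      rw [h5]
      have h6 : (0 : ℝ) ≤ 1 - 1 / (m : ℝ) := by
        have : 1 / (m : ℝ) ≤ 1 := by
          rw [div_le_one hm0]; exact_mod_cast hm
        linarith
      calc (X'.card : ℝ) - (X'.filter (fun χ => χ (g i) = ζ)).card ≤ X'.card - X'.card / m := by
            linarith
        _ = X'.card * (1 - 1 / (m : ℝ)) := by ring
        _ ≤ (X.card * (1 - 1 / (m : ℝ)) ^ S.card) * (1 - 1 / (m : ℝ)) := by gcongr
        _ = _ := by ring

open scoped Classical in
/-- Davenport's constant of the group of units modulo `L`. -/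
theorem davenport {L m : ℕ} [NeZero L] (hm : 0 < m)
    (hexp : ∀ a : ZMod L, IsUnit a → a ^ m = 1) {ι : Type*}
    (S : Finset ι) (g : ι → ZMod L) (hg : ∀ i ∈ S, IsUnit (g i))
    (hS : m * Real.log (Nat.totient L) < S.card) :
    ∃ T ⊆ S, T.Nonempty ∧ ∏ i ∈ T, g i = 1 := by
  obtain ⟨a, ha0, ha⟩ := davenport_aux hm hexp g Finset.univ S hg
  have hm0 : (0 : ℝ) < m := by exact_mod_cast hm
  have htot : (0 : ℝ) < Nat.totient L := by
    exact_mod_cast Nat.totient_pos.2 (Nat.pos_of_ne_zero (NeZero.ne L))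
  have hcardX : ((Finset.univ : Finset (DirichletCharacter ℂ L)).card : ℝ) = Nat.totient L := by
    have := DirichletCharacter.card_eq_totient_of_hasEnoughRootsOfUnity ℂ L
    rw [Nat.card_eq_fintype_card] at this
    rw [Finset.card_univ]
    exact_mod_cast this
  have hlt : (Nat.totient L : ℝ) * (1 - 1 / (m : ℝ)) ^ S.card < 1 := by
    have h1 : (1 - 1 / (m : ℝ)) ≤ Real.exp (-(1 / (m : ℝ))) := by
      have := Real.add_one_le_exp (-(1 / (m : ℝ)))
      linarith
    have h6 : (0 : ℝ) ≤ 1 - 1 / (m : ℝ) := by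
      have : 1 / (m : ℝ) ≤ 1 := by
        rw [div_le_one hm0]; exact_mod_cast hm
      linarith
    have h2 : (1 - 1 / (m : ℝ)) ^ S.card ≤ Real.exp (-(S.card / (m : ℝ))) := by
      calc (1 - 1 / (m : ℝ)) ^ S.card ≤ Real.exp (-(1 / (m : ℝ))) ^ S.card := by gcongr
        _ = Real.exp (-(S.card / (m : ℝ))) := by
          rw [← Real.exp_nat_mul]; congr 1; ring
    have h3 : Real.log (Nat.totient L) < S.card / (m : ℝ) := by
      rw [lt_div_iff₀ hm0]; linarith
    calc (Nat.totient L : ℝ) * (1 - 1 / (m : ℝ)) ^ S.card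
        ≤ Nat.totient L * Real.exp (-(S.card / (m : ℝ))) := by gcongr
      _ < Nat.totient L * Real.exp (-Real.log (Nat.totient L)) := by
          gcongr
      _ = 1 := by
          rw [Real.exp_neg, Real.exp_log htot]
          field_simp
  rw [hcardX] at ha
  have hlt1 := lt_of_le_of_lt ha hlt
  have hempty := Finset.card_eq_zero.1 (Nat.cast_lt_one.1 hlt1)
  have hzero : ∀ χ : DirichletCharacter ℂ L, ∏ i ∈ S, (-(χ (g i)) + a i) = 0 := by
    intro χ
    have := Finset.eq_empty_iff_forall_notMem.1 hempty χ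
    simp only [Finset.mem_filter, Finset.mem_univ, true_and, not_forall, not_not] at this
    obtain ⟨i, hi, h⟩ := this
    apply Finset.prod_eq_zero hi
    rw [h]; ring
  by_contra hcon
  push Not at hcon
  have hsum : ∑ χ : DirichletCharacter ℂ L, ∏ i ∈ S, (-(χ (g i)) + a i) = 0 :=
    Finset.sum_eq_zero fun χ _ => hzero χ
  simp_rw [Finset.prod_add] at hsum
  rw [Finset.sum_comm] at hsum
  have hterm : ∀ t ∈ S.powerset, ∑ χ : DirichletCharacter ℂ L,
      (∏ i ∈ t, -(χ (g i))) * ∏ i ∈ S \ t, a i =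
      if t = ∅ then (Nat.totient L : ℂ) * ∏ i ∈ S, a i else 0 := by
    intro t ht
    have hts := Finset.mem_powerset.1 ht
    have h1 : ∀ χ : DirichletCharacter ℂ L, (∏ i ∈ t, -(χ (g i))) * ∏ i ∈ S \ t, a i =
        χ (∏ i ∈ t, g i) * ((-1) ^ t.card * ∏ i ∈ S \ t, a i) := by
      intro χ
      rw [Finset.prod_neg, map_prod]
      ring
    rw [Finset.sum_congr rfl (fun χ _ => h1 χ), ← Finset.sum_mul,
      DirichletCharacter.sum_characters_eq]
    split_ifs with h2 h3 h3
    · subst h3
      simp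
    · exfalso
      exact hcon t hts (Finset.nonempty_iff_ne_empty.2 h3) h2
    · exfalso
      apply h2
      rw [h3]; simp
    · ring
  rw [Finset.sum_congr rfl hterm, Finset.sum_ite_eq' S.powerset ∅,
    if_pos (Finset.empty_mem_powerset S)] at hsum
  rcases mul_eq_zero.1 hsum with h | h
  · have : (Nat.totient L : ℝ) = 0 := by exact_mod_cast h
    linarith
  · obtain ⟨i, hi, h0⟩ := Finset.prod_eq_zero_iff.1 h
    exact ha0 i hi h0

end Lnk
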