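import Pool.Agent.Lib.Linnik.NENonExc

/-!
# Module I4: at most one exceptional character
-/

set_option autoImplicit false

namespace Lnk

open Complex Hoh

lemma term_re {e a : ℝ} : (-Complex.log (1 - (e : ℂ) * (a : ℂ))).re = -Real.log (1 - e * a) := by
  have h1 : (1 - (e : ℂ) * (a : ℂ)) = ((1 - e * a : ℝ) : ℂ) := by push_cast; ring
  rw [h1, Complex.neg_re, Complex.log_ofReal_re]

lemma prod4_term {M : ℕ} (χ χ' : DirichletCharacter ℂ M) (h : χ ^ 2 = 1) (h' : χ' ^ 2 = 1)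
    {x : ℝ} (hx : 0 < x) {p : ℕ} (hp : p.Prime) :
    0 ≤ (-Complex.log (1 - (1 : DirichletCharacter ℂ M) p * (p : ℂ) ^ (-(1 + x : ℂ)))).re +
      (-Complex.log (1 - χ p * (p : ℂ) ^ (-(1 + x : ℂ)))).re +
      (-Complex.log (1 - χ' p * (p : ℂ) ^ (-(1 + x : ℂ)))).re +
      (-Complex.log (1 - (χ * χ') p * (p : ℂ) ^ (-(1 + x : ℂ)))).re := by
  by_cases hu : IsUnit (p : ZMod M)
  · have hp1 : (1 : ℝ) < p := by exact_mod_cast hp.one_lt
    obtain ⟨a, ha0, ha1, hpa⟩ : ∃ a : ℝ, 0 < a ∧ a < 1 ∧ (p : ℂ) ^ (-(1 + x : ℂ)) = (a : ℂ) := by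
      refine ⟨(p : ℝ) ^ (-(1 + x)), by positivity, ?_, ?_⟩
      · exact Real.rpow_lt_one_of_one_lt_of_neg hp1 (by linarith)
      · rw [Complex.ofReal_cpow (by linarith)]
        push_cast
        rfl
    have hsq : ∀ ψ : DirichletCharacter ℂ M, ψ ^ 2 = 1 →
        ∃ e : ℝ, (e = 1 ∨ e = -1) ∧ ψ p = (e : ℂ) := by
      intro ψ hψ
      have h1 : ψ p ^ 2 = 1 := by
        rw [← MulChar.pow_apply' ψ two_ne_zero, hψ, MulChar.one_apply hu]
      rcases sq_eq_one_iff.mp h1 with h2 | h2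
      · exact ⟨1, Or.inl rfl, by rw [h2]; simp⟩
      · exact ⟨-1, Or.inr rfl, by rw [h2]; simp⟩
    have hl1 : Real.log (1 - a) ≤ 0 := Real.log_nonpos (by linarith) (by linarith)
    have hl2 : Real.log (1 - a) + Real.log (1 + a) ≤ 0 := by
      rw [← Real.log_mul (by linarith) (by linarith)]
      exact Real.log_nonpos (by nlinarith) (by nlinarith)
    have h1 : (1 : DirichletCharacter ℂ M) p = ((1 : ℝ) : ℂ) := by
      rw [MulChar.one_apply hu]; simp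
    have hm : (χ * χ') p = χ p * χ' p := rfl
    obtain ⟨e, he, hχe⟩ := hsq χ h
    obtain ⟨e', he', hχe'⟩ := hsq χ' h'
    rw [hm, hpa, h1, hχe, hχe', ← Complex.ofReal_mul e e', term_re, term_re, term_re, term_re]
    rcases he with rfl | rfl <;> rcases he' with rfl | rfl <;> norm_num <;> linarith
  · simp only [MulChar.map_nonunit _ hu, zero_mul, sub_zero, Complex.log_one, neg_zero,
      Complex.zero_re, add_zero, le_refl]

/-- `ζ(s) L(s, χ) L(s, χ') L(s, χ χ') ≥ 1` for `s > 1`. -/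
lemma prod4 {M : ℕ} (χ χ' : DirichletCharacter ℂ M) (h : χ ^ 2 = 1) (h' : χ' ^ 2 = 1)
    {x : ℝ} (hx : 0 < x) :
    1 ≤ ‖LSeries (fun n => (1 : DirichletCharacter ℂ M) n) (1 + x)‖ *
      ‖LSeries (fun n => χ n) (1 + x)‖ * ‖LSeries (fun n => χ' n) (1 + x)‖ *
      ‖LSeries (fun n => (χ * χ') n) (1 + x)‖ := by
  have hs : 1 < (1 + x : ℂ).re := by simp; exact hx
  have H₀ := DirichletCharacter.summable_neg_log_one_sub_mul_prime_cpow
    (1 : DirichletCharacter ℂ M) hs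
  have H₁ := DirichletCharacter.summable_neg_log_one_sub_mul_prime_cpow χ hs
  have H₂ := DirichletCharacter.summable_neg_log_one_sub_mul_prime_cpow χ' hs
  have H₃ := DirichletCharacter.summable_neg_log_one_sub_mul_prime_cpow (χ * χ') hs
  have hsum₀ := (hasSum_re H₀.hasSum).summable
  have hsum₁ := (hasSum_re H₁.hasSum).summable
  have hsum₂ := (hasSum_re H₂.hasSum).summable
  have hsum₃ := (hasSum_re H₃.hasSum).summable
  rw [← DirichletCharacter.LSeries_eulerProduct_exp_log _ hs,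
    ← DirichletCharacter.LSeries_eulerProduct_exp_log χ hs,
    ← DirichletCharacter.LSeries_eulerProduct_exp_log χ' hs,
    ← DirichletCharacter.LSeries_eulerProduct_exp_log (χ * χ') hs]
  rw [Complex.norm_exp, Complex.norm_exp, Complex.norm_exp, Complex.norm_exp, ← Real.exp_add,
    ← Real.exp_add, ← Real.exp_add, Real.one_le_exp_iff]
  rw [re_tsum H₀, re_tsum H₁, re_tsum H₂, re_tsum H₃, ← hsum₀.tsum_add hsum₁,
    ← (hsum₀.add hsum₁).tsum_add hsum₂, ← ((hsum₀.add hsum₁).add hsum₂).tsum_add hsum₃]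
  exact tsum_nonneg fun (p : Nat.Primes) => prod4_term χ χ' h h' hx p.prop

lemma prod2 {M : ℕ} (χ : DirichletCharacter ℂ M) (h : χ ^ 2 = 1) {x : ℝ} (hx : 0 < x) :
    1 ≤ ‖LSeries (fun n => (1 : DirichletCharacter ℂ M) n) (1 + x)‖ *
      ‖LSeries (fun n => χ n) (1 + x)‖ := by
  have h1 := prod4 χ 1 h (one_pow 2) hx
  rw [mul_one] at h1
  by_contra hc
  push Not at hc
  have h0 : 0 ≤ ‖LSeries (fun n => (1 : DirichletCharacter ℂ M) n) (1 + x)‖ *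
      ‖LSeries (fun n => χ n) (1 + x)‖ := by positivity
  nlinarith

/-- I4. -/
theorem excUnique (h1 : ZBound) (h2 : ZOne) : ExcUnique := by
  obtain ⟨A1, hA1, hZ⟩ := h1
  obtain ⟨A2, hA2, hO⟩ := h2
  obtain ⟨A, hA, hAA1, hAA2⟩ : ∃ A : ℝ, 1 ≤ A ∧ A1 ≤ A ∧ A2 ≤ A :=
    ⟨max 1 (max A1 A2), le_max_left _ _, (le_max_left _ _).trans (le_max_right _ _),
      (le_max_right _ _).trans (le_max_right _ _)⟩
  have hA0 : 0 < A := by linarith
  set ε₀ : ℝ := 1 / (2 * A * (1 + 2 * A ^ 2) ^ 2) with hε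
  have hε0 : 0 < ε₀ := by positivity
  have hA2' : 1 ≤ A ^ 2 := one_le_pow₀ hA
  have hεA : ε₀ ≤ 1 / (2 * A) := by
    rw [hε]
    apply one_div_le_one_div_of_le (by positivity)
    have : 1 ≤ (1 + 2 * A ^ 2) ^ 2 := one_le_pow₀ (by nlinarith)
    nlinarith
  have hεhalf : ε₀ ≤ 1 / 2 := by
    refine hεA.trans ?_
    apply one_div_le_one_div_of_le (by norm_num)
    linarith
  refine ⟨ε₀, hε0, hεhalf, fun Q hQ N hN hNQ χ χ' hχ hχ' => ?_⟩
  set y : ℝ := Q ^ 8 with hy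
  set l : ℝ := Real.log y with hl
  have hlQ : l = 8 * Real.log Q := by
    rw [hl, hy, Real.log_pow]; norm_num
  have hlog2 : 1 / 2 ≤ Real.log Q := by
    have h1 : Real.log 2 ≤ Real.log Q := Real.log_le_log (by norm_num) hQ
    have := Real.log_two_gt_d9
    linarith
  have hl1 : 1 ≤ l := by rw [hlQ]; linarith
  have hl0 : 0 < l := by linarith
  have hQ1 : 1 ≤ Q := by linarith
  have hQy : Q ≤ y := by
    rw [hy]
    calc Q = Q ^ 1 := (pow_one Q).symm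
      _ ≤ Q ^ 8 := pow_le_pow_right₀ hQ1 (by norm_num)
  have hN1 : (1 : ℝ) ≤ N := by exact_mod_cast hN
  have hNy : (N : ℝ) ≤ y := by linarith
  have hNU4 : ((N : ℝ) * (4 + 1)) ^ 4 ≤ y := by
    calc ((N : ℝ) * (4 + 1)) ^ 4 ≤ (Q ^ 2) ^ 4 := by
          gcongr
          nlinarith
      _ = y := by rw [hy]; ring
  have hU4 : ((4 : ℝ) + 1) ^ 4 ≤ y := by
    refine le_trans ?_ hNU4
    gcongr
    nlinarith
  have hF : ∀ ψ : DirichletCharacter ℂ N, ψ ≠ 1 → ∀ τ : ℝ, 0 < τ → τ ≤ 1 →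
      ‖Zs ψ y (1 + τ)‖ ≤ A ∧ ‖deriv (Zs ψ y) (1 + τ)‖ ≤ A * l := by
    intro ψ hψ τ h0 h1
    obtain ⟨h3, h4⟩ := hZ N ψ hN hψ 1 y le_rfl hNU4 τ 0 h0 h1 (by rw [abs_zero]; norm_num)
    rw [Complex.ofReal_zero, zero_mul, add_zero] at h3 h4
    exact ⟨h3.trans hAA1, h4.trans (by gcongr)⟩
  have hG : ∀ τ : ℝ, 0 < τ → τ ≤ 1 →
      ‖Zs (1 : DirichletCharacter ℂ N) y (1 + τ)‖ ≤ A * (1 + 1 / (τ * l)) := by
    intro τ h0 h1
    have h3 := hO 1 y le_rfl hU4 τ 0 h0 h1 (by rw [abs_zero]; norm_num)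
    rw [Complex.ofReal_zero, zero_mul, add_zero, add_zero, Complex.norm_real,
      Real.norm_of_nonneg h0.le] at h3
    rw [Zs_one_eq hN hNy]
    refine h3.trans ?_
    have : 0 ≤ 1 / (τ * Real.log y) := by positivity
    gcongr
  have hP4 : ∀ τ : ℝ, 0 < τ → 1 ≤ ‖Zs (1 : DirichletCharacter ℂ N) y (1 + τ)‖ *
      ‖Zs χ y (1 + τ)‖ * ‖Zs χ' y (1 + τ)‖ * ‖Zs (χ * χ') y (1 + τ)‖ := by
    intro τ h0
    have h3 := prod4 (sft χ y) (sft χ' y) (by rw [← sft_pow, hχ.1, sft_one])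
      (by rw [← sft_pow, hχ'.1, sft_one]) h0
    rw [← sft_mul, ← sft_one N y, ← Zs_eq, ← Zs_eq, ← Zs_eq, ← Zs_eq] at h3
    exact h3
  have hP2 : ∀ ψ : DirichletCharacter ℂ N, ψ ^ 2 = 1 → ∀ τ : ℝ, 0 < τ →
      1 ≤ ‖Zs (1 : DirichletCharacter ℂ N) y (1 + τ)‖ * ‖Zs ψ y (1 + τ)‖ := by
    intro ψ hψ τ h0
    have h3 := prod2 (sft ψ y) (by rw [← sft_pow, hψ, sft_one]) h0
    rw [← sft_one N y, ← Zs_eq, ← Zs_eq] at h3
    exact h3
  set σs : ℝ := 2 * A * ε₀ / l with hσs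
  have hAε : 2 * A * ε₀ ≤ 1 := by
    rw [le_div_iff₀ (by positivity)] at hεA
    linarith
  have hσs0 : 0 < σs := by positivity
  have hσs1 : σs ≤ 1 := by
    rw [hσs, div_le_one hl0]; linarith
  -- an exceptional character is small at `σs`
  have hsmall : ∀ ψ : DirichletCharacter ℂ N, Exc ε₀ y ψ →
      ‖Zs ψ y (1 + σs)‖ ≤ (1 + 2 * A ^ 2) * ε₀ := by
    rintro ψ ⟨hψ2, hψ1, σ, hσ0, hσ1, hσ⟩
    have h3 := hP2 ψ hψ2 σ hσ0
    have h4 := hG σ hσ0 hσ1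
    have h5 : 1 ≤ A * (1 + 1 / (σ * l)) * ε₀ := by
      refine h3.trans ?_
      gcongr
    have hσl : 0 < σ * l := by positivity
    have h6 : σ * l ≤ 2 * A * ε₀ := by
      have h7 : A * (1 + 1 / (σ * l)) * ε₀ = A * ε₀ + A * ε₀ / (σ * l) := by
        field_simp
      rw [h7] at h5
      have h8 : 1 / 2 ≤ A * ε₀ / (σ * l) := by linarith
      rw [le_div_iff₀ hσl] at h8
      linarith
    have h7 : σ ≤ σs := by
      rw [hσs, le_div_iff₀ hl0]; exact h6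
    have h8 := Zs_sub_le hN ψ y (K := A * l) (a := 1 + σ + ((0 : ℝ) : ℂ) * I)
      (b := 1 + σs + ((0 : ℝ) : ℂ) * I) (by simp; exact hσ0) (by simp; exact hσs0) (fun z hz => by
        obtain ⟨τ, h5, h6, rfl⟩ := seg_horiz h7 hz
        rw [Complex.ofReal_zero, zero_mul, add_zero]
        exact (hF ψ hψ1 τ (by linarith) (by linarith)).2)
    simp only [Complex.ofReal_zero, zero_mul, add_zero] at h8
    have h9 : ‖(1 + σs : ℂ) - (1 + σ)‖ ≤ σs := by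
      have : (1 + σs : ℂ) - (1 + σ) = ((σs - σ : ℝ) : ℂ) := by push_cast; ring
      rw [this, Complex.norm_real, Real.norm_of_nonneg (by linarith)]
      linarith
    have h10 : A * l * ‖(1 + σs : ℂ) - (1 + σ)‖ ≤ 2 * A ^ 2 * ε₀ := by
      calc A * l * ‖(1 + σs : ℂ) - (1 + σ)‖ ≤ A * l * σs := by gcongr
        _ = 2 * A ^ 2 * ε₀ := by rw [hσs]; field_simp
    have h11 := norm_le_norm_add_norm_sub' (Zs ψ y (1 + σs)) (Zs ψ y (1 + σ))
    linarith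
  by_contra hne
  have hψ1 : χ * χ' ≠ 1 := by
    intro h3
    apply hne
    have h4 : χ * (χ' * χ') = χ' := by rw [← mul_assoc, h3, one_mul]
    rw [← sq, hχ'.1, mul_one] at h4
    exact h4
  have h3 := hP4 σs hσs0
  have h4 := hsmall χ hχ
  have h5 := hsmall χ' hχ'
  have h6 := (hF (χ * χ') hψ1 σs hσs0 hσs1).1
  have h7 : ‖Zs (1 : DirichletCharacter ℂ N) y (1 + σs)‖ ≤ 1 / ε₀ := by
    refine (hG σs hσs0 hσs1).trans ?_
    have h8 : σs * l = 2 * A * ε₀ := by rw [hσs]; field_simp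
    rw [h8]
    have h9 : A * (1 + 1 / (2 * A * ε₀)) = A + 1 / (2 * ε₀) := by field_simp
    rw [h9]
    have h10 : A ≤ 1 / (2 * ε₀) := by
      rw [le_div_iff₀ (by positivity)]; linarith
    have h11 : 1 / ε₀ = 1 / (2 * ε₀) + 1 / (2 * ε₀) := by field_simp; norm_num
    linarith
  have h8 : ‖Zs (1 : DirichletCharacter ℂ N) y (1 + σs)‖ *
      ‖Zs χ y (1 + σs)‖ * ‖Zs χ' y (1 + σs)‖ * ‖Zs (χ * χ') y (1 + σs)‖ ≤
      (1 / ε₀) * ((1 + 2 * A ^ 2) * ε₀) * ((1 + 2 * A ^ 2) * ε₀) * A := by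
    gcongr
  have h9 : (1 / ε₀) * ((1 + 2 * A ^ 2) * ε₀) * ((1 + 2 * A ^ 2) * ε₀) * A = 1 / 2 := by
    have : (1 / ε₀) * ((1 + 2 * A ^ 2) * ε₀) * ((1 + 2 * A ^ 2) * ε₀) * A =
        (1 + 2 * A ^ 2) ^ 2 * A * ε₀ := by field_simp
    rw [this, hε]
    field_simp
  rw [h9] at h8
  linarith

end Lnk
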