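import Mathlib

/-!
# Choice of the parameters
-/

set_option autoImplicit false

namespace Lnk

open Filter Real

theorem ev_exp (A : ℝ) (n : ℕ) (c : ℝ) (hc : 0 < c) :
    ∀ᶠ t : ℝ in atTop, A * t ^ n ≤ Real.exp (c * t) := by
  have h := isLittleO_pow_exp_pos_mul_atTop (k := n) hc
  have h1 := h.bound (show (0 : ℝ) < 1 / (|A| + 1) by positivity)
  filter_upwards [h1, eventually_ge_atTop 0] with t ht ht0
  rw [Real.norm_eq_abs, Real.norm_eq_abs, abs_of_nonneg (by positivity : (0 : ℝ) ≤ t ^ n),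
    abs_of_pos (Real.exp_pos _)] at ht
  have h2 : (|A| + 1) * t ^ n ≤ Real.exp (c * t) := by
    have h3 : (|A| + 1) * t ^ n ≤ (|A| + 1) * (1 / (|A| + 1) * Real.exp (c * t)) := by gcongr
    have h4 : (|A| + 1) * (1 / (|A| + 1) * Real.exp (c * t)) = Real.exp (c * t) := by
      have : |A| + 1 ≠ 0 := by positivity
      field_simp
    linarith
  have h5 : A * t ^ n ≤ (|A| + 1) * t ^ n := by
    have : A ≤ |A| + 1 := by linarith [le_abs_self A]
    gcongr
  linarith

theorem final_num (B c₁ δ c₂ x₁ : ℝ) (y₀ : ℕ) (hB : 0 < B) (hc₁ : 0 < c₁) (hδ : 0 < δ)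
    (hc₂ : 0 < c₂) : ∃ C₃ : ℝ, 0 < C₃ ∧ ∀ᶠ R : ℝ in atTop, ∃ y s : ℕ,
      0 < Real.log (Real.log (Real.log R)) ∧ y₀ ≤ y ∧ 1 ≤ s ∧
      (s : ℝ) ≤ Real.exp (c₁ * y / Real.log y) ∧
      (s : ℝ) * (B * y + 1) ≤ (Real.log R) ^ 2 ∧
      Real.exp (B * y) * (Real.log R) ^ 2 + 1 ≤
        Real.exp (C₃ * (Real.log (Real.log R) * Real.log (Real.log (Real.log R)))) / 3 ∧
      2 + 2 * (Real.log R) ^ 2 ≤
        δ * (R / Real.exp (C₃ * (Real.log (Real.log R) * Real.log (Real.log (Real.log R))))) / 2 ∧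
      2 + 2 * (Real.log R) ^ 2 ≤
        R / Real.exp (C₃ * (Real.log (Real.log R) * Real.log (Real.log (Real.log R)))) ∧
      Real.log x₁ ≤
        R / Real.exp (C₃ * (Real.log (Real.log R) * Real.log (Real.log (Real.log R)))) ∧
      Real.exp (-(Real.log (Real.log R) * Real.log (Real.log (Real.log R)))) ≤ δ / 8 ∧
      4 * (Real.exp (C₃ * (Real.log (Real.log R) * Real.log (Real.log (Real.log R)))) / 3) + 2 ≤
        c₂ * (4 / 3 : ℝ) ^ (s - 1) /
          (R / Real.exp (C₃ * (Real.log (Real.log R) * Real.log (Real.log (Real.log R))))) := by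
  set C₂ : ℝ := 4 / c₁ with hC₂
  have hC₂0 : 0 < C₂ := by positivity
  set C₃ : ℝ := B * C₂ + B + 3 with hC₃
  have hC₃0 : 0 < C₃ := by positivity
  refine ⟨C₃, hC₃0, ?_⟩
  -- limits
  have tu : Tendsto (fun R : ℝ => Real.log R) atTop atTop := Real.tendsto_log_atTop
  have tv : Tendsto (fun R : ℝ => Real.log (Real.log R)) atTop atTop :=
    Real.tendsto_log_atTop.comp tu
  have tw : Tendsto (fun R : ℝ => Real.log (Real.log (Real.log R))) atTop atTop :=
    Real.tendsto_log_atTop.comp tv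
  have e1 := tw.eventually (eventually_ge_atTop (max (max 2 (((y₀ + 2 : ℕ) : ℝ) / C₂)) (Real.log (8 / δ))))
  have e2 := tw.eventually (ev_exp (C₂ + 1) 1 1 one_pos)
  have e3 := tv.eventually (ev_exp (13 * (B + 1)) 2 1 one_pos)
  have e4 := tv.eventually (ev_exp (2 * C₃) 2 1 one_pos)
  have e5 := tu.eventually (ev_exp (8 / δ + 4) 2 (1 / 2) (by norm_num))
  have e6 := tu.eventually (ev_exp (|Real.log x₁|) 0 (1 / 2) (by norm_num))
  have e7 := tu.eventually (ev_exp (4 / c₂) 0 1 one_pos)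
  have e8 := tu.eventually (eventually_ge_atTop 1)
  filter_upwards [e1, e2, e3, e4, e5, e6, e7, e8, eventually_gt_atTop 0]
    with R h1 h2 h3 h4 h5 h6 h7 h8 hR
  set u : ℝ := Real.log R with hu
  set v : ℝ := Real.log u with hv
  set w : ℝ := Real.log v with hw
  have hw2 : 2 ≤ w := (le_max_left _ _).trans ((le_max_left _ _).trans h1)
  have hwy : ((y₀ + 2 : ℕ) : ℝ) / C₂ ≤ w := (le_max_right _ _).trans ((le_max_left _ _).trans h1)
  have hwδ : Real.log (8 / δ) ≤ w := (le_max_right _ _).trans h1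
  have hu0 : 0 < u := by linarith
  have hv0 : 0 < v := by
    by_contra hcon
    push Not at hcon
    have h9 : Real.log u ≤ 0 := hcon
    have h10 : v = 0 ∨ v < 0 := by
      rcases hcon.lt_or_eq with h | h
      · exact Or.inr h
      · exact Or.inl h
    have h11 : 0 ≤ Real.log u := Real.log_nonneg h8
    have h12 : v = 0 := le_antisymm hcon h11
    rw [h12, Real.log_zero] at hw
    linarith
  have hRe : Real.exp u = R := Real.exp_log hR
  have hue : Real.exp v = u := Real.exp_log hu0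
  have hve : Real.exp w = v := Real.exp_log hv0
  have hvw1 : w ≤ v := by
    rw [← hve]
    have := Real.add_one_le_exp w
    linarith
  have hv2 : 2 ≤ v := by linarith
  have hvw : 4 ≤ v * w := by nlinarith
  simp only [one_mul] at h2 h3 h4 h7
  rw [hve, pow_one] at h2
  rw [hue] at h3 h4
  rw [pow_zero, mul_one] at h6 h7
  set y : ℕ := ⌈C₂ * (v * w)⌉₊ with hy
  have hy1 : C₂ * (v * w) ≤ y := Nat.le_ceil _
  have hy2 : (y : ℝ) ≤ C₂ * (v * w) + 1 := (Nat.ceil_lt_add_one (by positivity)).le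
  have hyv : C₂ * (v * w) + 1 ≤ v ^ 2 := by nlinarith
  have hy3 : (y : ℝ) ≤ v ^ 2 := hy2.trans hyv
  set s : ℕ := ⌈11 * u⌉₊ + 1 with hs
  have hs1 : 11 * u ≤ ((s - 1 : ℕ) : ℝ) := by
    rw [hs, Nat.add_sub_cancel]; exact Nat.le_ceil _
  have hs2 : (s : ℝ) ≤ 11 * u + 2 := by
    rw [hs]; push_cast
    have := (Nat.ceil_lt_add_one (show 0 ≤ 11 * u by positivity)).le
    linarith
  have hs3 : (s : ℝ) ≤ 13 * u := by linarith
  have hsB : (s : ℝ) * (B * y + 1) ≤ u ^ 2 := by
    have h9 : B * y + 1 ≤ (B + 1) * v ^ 2 := by nlinarith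
    calc (s : ℝ) * (B * y + 1) ≤ 13 * u * ((B + 1) * v ^ 2) := by
          apply mul_le_mul hs3 h9 (by positivity) (by positivity)
      _ = u * (13 * (B + 1) * v ^ 2) := by ring
      _ ≤ u * u := by gcongr
      _ = u ^ 2 := by ring
  have hsu : (s : ℝ) ≤ u ^ 2 := by
    refine le_trans ?_ hsB
    have h9 : (0 : ℝ) ≤ (s : ℝ) * (B * y) := by positivity
    nlinarith
  have hyy₀' : ((y₀ + 2 : ℕ) : ℝ) ≤ y := by
    rw [div_le_iff₀ hC₂0] at hwy
    have : w ≤ v * w := by nlinarith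
    nlinarith
  have hyy₀ : y₀ + 2 ≤ y := by exact_mod_cast hyy₀'
  have hE : Real.exp (C₃ * (v * w)) ≤ Real.exp (1 / 2 * u) := by
    apply Real.exp_le_exp.2
    have h9 : v * w ≤ v ^ 2 := by nlinarith
    nlinarith
  have hT : Real.exp (1 / 2 * u) ≤ R / Real.exp (C₃ * (v * w)) := by
    rw [le_div_iff₀ (Real.exp_pos _), ← hRe]
    calc Real.exp (1 / 2 * u) * Real.exp (C₃ * (v * w)) ≤
        Real.exp (1 / 2 * u) * Real.exp (1 / 2 * u) := by gcongr
      _ = Real.exp u := by rw [← Real.exp_add]; congr 1; ring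
  have hT2 : 8 / δ * u ^ 2 + 4 * u ^ 2 ≤ Real.exp (1 / 2 * u) := by linarith
  have hu21 : 1 ≤ u ^ 2 := by nlinarith
  refine ⟨y, s, by linarith, by omega, by omega, ?_, hsB, ?_, ?_, ?_, ?_, ?_, ?_⟩
  · refine hsu.trans ?_
    have h9 : u ^ 2 = Real.exp (2 * v) := by
      rw [two_mul, Real.exp_add, hue]; ring
    rw [h9]
    apply Real.exp_le_exp.2
    have hC₂1 : c₁ * C₂ = 4 := by rw [hC₂]; field_simp
    have hypos : 0 < C₂ * (v * w) := by positivity
    have hy0 : (0 : ℝ) < y := lt_of_lt_of_le hypos hy1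
    have hy2' : 2 ≤ y := by omega
    have hly : 0 < Real.log y := by
      apply Real.log_pos
      have : (2 : ℝ) ≤ y := by exact_mod_cast hy2'
      linarith
    have hly2 : Real.log y ≤ 2 * w := by
      have h10 := Real.log_le_log hy0 hy3
      rw [Real.log_pow] at h10
      push_cast at h10
      exact h10
    rw [le_div_iff₀ hly]
    calc 2 * v * Real.log y ≤ 2 * v * (2 * w) := by gcongr
      _ = c₁ * C₂ * (v * w) := by rw [hC₂1]; ring
      _ = c₁ * (C₂ * (v * w)) := by ring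
      _ ≤ c₁ * y := by gcongr
  · have h9 : u ^ 2 = Real.exp (2 * v) := by
      rw [two_mul, Real.exp_add, hue]; ring
    rw [h9, ← Real.exp_add]
    have h10 : B * y + 2 * v ≤ C₃ * (v * w) - 2 * (v * w) := by
      rw [hC₃]
      nlinarith
    have h11 : Real.exp (B * y + 2 * v) ≤ Real.exp (C₃ * (v * w)) * Real.exp (-8) := by
      rw [← Real.exp_add]
      apply Real.exp_le_exp.2
      linarith
    have h12 : Real.exp (-8) ≤ 1 / 9 := by
      rw [Real.exp_neg, ← one_div]
      apply one_div_le_one_div_of_le (by norm_num)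
      have := Real.add_one_le_exp 8
      linarith
    have h13 : 9 ≤ Real.exp (C₃ * (v * w)) := by
      have := Real.add_one_le_exp (C₃ * (v * w))
      have h14 : 3 ≤ C₃ := by rw [hC₃]; linarith [mul_pos hB hC₂0]
      nlinarith
    nlinarith
  · have h9 : 2 + 2 * u ^ 2 ≤ δ * (8 / δ * u ^ 2 + 4 * u ^ 2) / 2 := by
      have h10 : δ * (8 / δ * u ^ 2 + 4 * u ^ 2) / 2 = 4 * u ^ 2 + 2 * δ * u ^ 2 := by
        field_simp; ring
      rw [h10]
      have : 0 ≤ 2 * δ * u ^ 2 := by positivity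
      linarith
    refine h9.trans ?_
    have := hT2.trans hT
    gcongr
  · have h9 : 0 ≤ 8 / δ * u ^ 2 := by positivity
    linarith
  · exact (le_abs_self _).trans (h6.trans hT)
  · have h9 : w ≤ v * w := by nlinarith
    have h10 : Real.log (8 / δ) ≤ v * w := hwδ.trans h9
    rw [Real.log_le_iff_le_exp (by positivity)] at h10
    rw [Real.exp_neg, inv_le_comm₀ (Real.exp_pos _) (by positivity)]
    rwa [inv_div]
  · have h9 : (4 / 3 : ℝ) ^ (s - 1) = Real.exp (Real.log (4 / 3) * ((s - 1 : ℕ) : ℝ)) := by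
      rw [Real.exp_mul, Real.exp_log (by norm_num), Real.rpow_natCast]
    have h10 : 3 ≤ 11 * Real.log (4 / 3) := by
      have h11 : (11 : ℝ) * Real.log (4 / 3) = Real.log ((4 / 3) ^ 11) := by
        rw [Real.log_pow]; norm_num
      rw [h11, Real.le_log_iff_exp_le (by positivity)]
      have h12 := Real.exp_one_lt_d9
      have h13 : Real.exp 3 = Real.exp 1 ^ 3 := by
        rw [← Real.exp_nat_mul]; norm_num
      rw [h13]
      calc Real.exp 1 ^ 3 ≤ 2.7182818286 ^ 3 := by gcongr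
        _ ≤ (4 / 3) ^ 11 := by norm_num
    have hlog0 : 0 < Real.log (4 / 3) := Real.log_pos (by norm_num)
    have h14 : Real.exp (3 * u) ≤ (4 / 3 : ℝ) ^ (s - 1) := by
      rw [h9]
      apply Real.exp_le_exp.2
      calc 3 * u ≤ 11 * Real.log (4 / 3) * u := by gcongr
        _ = Real.log (4 / 3) * (11 * u) := by ring
        _ ≤ _ := by gcongr
    rw [le_div_iff₀ (by positivity)]
    have hEu : Real.exp (C₃ * (v * w)) ≤ Real.exp u := by
      refine hE.trans (Real.exp_le_exp.2 (by linarith))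
    have hE1 : 1 ≤ Real.exp (C₃ * (v * w)) := Real.one_le_exp (by positivity)
    have h15 : R / Real.exp (C₃ * (v * w)) ≤ Real.exp u := by
      rw [div_le_iff₀ (Real.exp_pos _), hRe]
      nlinarith
    have h16 : 0 < R / Real.exp (C₃ * (v * w)) := by positivity
    have h17 : 4 * (Real.exp (C₃ * (v * w)) / 3) + 2 ≤ 4 * Real.exp u := by
      have h18 : 1 ≤ Real.exp u := Real.one_le_exp hu0.le
      linarith
    have h19 : 4 ≤ c₂ * Real.exp u := by
      rw [div_le_iff₀ hc₂] at h7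
      linarith
    calc (4 * (Real.exp (C₃ * (v * w)) / 3) + 2) * (R / Real.exp (C₃ * (v * w))) ≤
        4 * Real.exp u * Real.exp u := by gcongr
      _ ≤ c₂ * Real.exp u * Real.exp u * Real.exp u := by
          have h20 : 0 < Real.exp u := Real.exp_pos _
          gcongr
      _ = c₂ * Real.exp (3 * u) := by
          have : 3 * u = u + u + u := by ring
          rw [this, Real.exp_add, Real.exp_add]; ring
      _ ≤ _ := by gcongr

end Lnk
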