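import Pool.Agent.Lib.Linnik.Lambda

/-!
# Prachar's theorem: very many primes `q` with `q - 1 ∣ Λ`
-/

set_option autoImplicit false

namespace Lnk

open Finset

theorem prod_dvd_subset {P : Finset ℕ} (hP : ∀ p ∈ P, p.Prime) {S S' : Finset ℕ} (hS : S ⊆ P)
    (hS' : S' ⊆ P) (hdvd : (∏ q ∈ S, q) ∣ (∏ q ∈ S', q)) : S ⊆ S' := by
  intro q hq
  have h1 : q ∣ ∏ q ∈ S', q := (Finset.dvd_prod_of_mem _ hq).trans hdvd
  obtain ⟨r, hr, hqr⟩ := ((hP q (hS hq)).prime.dvd_finsetProd_iff _).1 h1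
  rw [Nat.prime_dvd_prime_iff_eq (hP q (hS hq)) (hP r (hS' hr))] at hqr
  exact hqr ▸ hr

/-- The averaging argument. -/
theorem average {δ c : ℝ} (hδ1 : δ < 1) (hc : 0 < c) {x : ℝ} (hx1 : 1 < x) {N l : ℕ}
    (hN0 : 0 < N) (hN : (N : ℝ) ≤ x ^ δ)
    (hq : ∀ q : ℕ, q ∣ N → ¬ l ∣ q → ∀ b : ZMod q, IsUnit b →
      ∀ x' : ℝ, x ≤ x' → x' ≤ x ^ 2 → c * x' / (Nat.totient q * Real.log x') ≤ pc q b x')
    (D : Finset ℕ) (hD : ∀ d ∈ D, d ∣ N ∧ ¬ l ∣ d) :
    ∃ j : ℕ, 1 ≤ j ∧ (j : ℝ) ≤ x ∧ (D.card : ℝ) * c / (2 * Real.log x) ≤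
      ((D.filter (fun d => (d * j + 1).Prime)).card : ℝ) := by
  have hx0 : 0 < x := by linarith
  have hlx : 0 < Real.log x := Real.log_pos hx1
  have hxN : (N : ℝ) ≤ x := by
    refine hN.trans ?_
    calc x ^ δ ≤ x ^ (1 : ℝ) := Real.rpow_le_rpow_of_exponent_le hx1.le hδ1.le
      _ = x := Real.rpow_one x
  have hcount : ∀ d ∈ D, c * x / (2 * Real.log x) ≤
      (((Finset.Icc 1 ⌊x⌋₊).filter (fun j => (d * j + 1).Prime)).card : ℝ) := by
    intro d hd
    have hdN : d ∣ N := (hD d hd).1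
    have hd0 : 0 < d := Nat.pos_of_dvd_of_pos hdN hN0
    have hdl : ¬ l ∣ d := (hD d hd).2
    have hd0' : (0 : ℝ) < d := by exact_mod_cast hd0
    have hd1' : (1 : ℝ) ≤ d := by exact_mod_cast hd0
    have hdx : (d : ℝ) ≤ x := by
      refine le_trans ?_ hxN
      exact_mod_cast Nat.le_of_dvd hN0 hdN
    have h1 := hq d hdN hdl 1 isUnit_one (d * x) (by nlinarith) (by nlinarith)
    refine le_trans ?_ (h1.trans (by exact_mod_cast pc_one_le hd0 hx0.le))
    have hdxpos : 1 < d * x := by nlinarith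
    have hlog2 : Real.log (d * x) ≤ 2 * Real.log x := by
      rw [Real.log_mul hd0'.ne' hx0.ne']
      have := Real.log_le_log hd0' hdx
      linarith
    have hlogpos : 0 < Real.log (d * x) := Real.log_pos hdxpos
    have htot : (0 : ℝ) < Nat.totient d := by exact_mod_cast Nat.totient_pos.2 hd0
    have htot2 : (Nat.totient d : ℝ) ≤ d := by exact_mod_cast Nat.totient_le d
    rw [div_le_div_iff₀ (by positivity) (by positivity)]
    calc c * x * (Nat.totient d * Real.log (d * x)) ≤ c * x * (d * (2 * Real.log x)) := by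
          gcongr
      _ = c * (d * x) * (2 * Real.log x) := by ring
  obtain ⟨j, hj, hjc⟩ : ∃ j ∈ Finset.Icc 1 ⌊x⌋₊, (D.card : ℝ) * c / (2 * Real.log x) ≤
      ((D.filter (fun d => (d * j + 1).Prime)).card : ℝ) := by
    by_contra hcon
    push Not at hcon
    have hfl : 1 ≤ ⌊x⌋₊ := Nat.le_floor (by simpa using hx1.le)
    have hne : (Finset.Icc 1 ⌊x⌋₊).Nonempty := ⟨1, Finset.mem_Icc.2 ⟨le_rfl, hfl⟩⟩
    have h1 := Finset.sum_lt_sum_of_nonempty hne hcon
    rw [Finset.sum_const, nsmul_eq_mul, Nat.card_Icc, Nat.add_sub_cancel] at h1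
    have h2 : ∑ j ∈ Finset.Icc 1 ⌊x⌋₊, ((D.filter (fun d => (d * j + 1).Prime)).card : ℝ) =
        ∑ d ∈ D, (((Finset.Icc 1 ⌊x⌋₊).filter (fun j => (d * j + 1).Prime)).card : ℝ) := by
      simp_rw [Finset.card_filter, Nat.cast_sum]
      rw [Finset.sum_comm]
    rw [h2] at h1
    have h3 := Finset.sum_le_sum hcount
    rw [Finset.sum_const, nsmul_eq_mul] at h3
    have h4 : (⌊x⌋₊ : ℝ) ≤ x := Nat.floor_le hx0.le
    have h5 : (⌊x⌋₊ : ℝ) * ((D.card : ℝ) * c / (2 * Real.log x)) ≤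
        x * ((D.card : ℝ) * c / (2 * Real.log x)) := by
      gcongr
    have h6 : x * ((D.card : ℝ) * c / (2 * Real.log x)) =
        (D.card : ℝ) * (c * x / (2 * Real.log x)) := by ring
    linarith
  rw [Finset.mem_Icc] at hj
  exact ⟨j, hj.1, (Nat.le_floor_iff hx0.le).1 hj.2, hjc⟩

/-- numerical part of Prachar's theorem -/
theorem prachar_num (A : ℝ) (hA : 0 < A) : ∃ y₀ : ℕ, 3 ≤ y₀ ∧ ∀ y : ℕ, y₀ ≤ y → ∀ r : ℕ,
    Nat.primeCounting y ≤ r + 2 →
      Real.exp ((Real.log 2) ^ 2 / 2 * y / Real.log y) + 6 ≤ (2 : ℝ) ^ r * (A / y) := by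
  have hl2 : 0 < Real.log 2 := Real.log_pos (by norm_num)
  set a : ℝ := (Real.log 2) ^ 2 with ha
  have ha0 : 0 < a := by positivity
  have hl2' : Real.log 2 ≤ 1 := by
    have := Real.log_two_lt_d9; linarith
  -- (log y)^2 ≤ (a/6) y
  have h1 : ∀ᶠ y : ℕ in Filter.atTop, (Real.log y) ^ 2 ≤ a / 6 * y := by
    have h := (Real.isLittleO_pow_log_id_atTop (n := 2)).bound (show (0 : ℝ) < a / 6 by positivity)
    have h' := (tendsto_natCast_atTop_atTop (R := ℝ)).eventually h
    filter_upwards [h'] with y hy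
    have h2 : ‖Real.log (y : ℝ) ^ 2‖ = Real.log (y : ℝ) ^ 2 := by
      rw [Real.norm_eq_abs, abs_of_nonneg (by positivity)]
    have h3 : ‖id (y : ℝ)‖ = y := by
      rw [id, Real.norm_eq_abs, abs_of_nonneg (by positivity)]
    rw [h2, h3] at hy
    exact hy
  have h2 : ∀ᶠ y : ℕ in Filter.atTop, 56 / A ≤ (y : ℝ) :=
    (tendsto_natCast_atTop_atTop (R := ℝ)).eventually_ge_atTop _
  obtain ⟨y₁, hy₁⟩ := Filter.eventually_atTop.1 (h1.and h2)
  refine ⟨max y₁ 3, le_max_right _ _, ?_⟩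
  intro y hy r hr
  obtain ⟨g1, g2⟩ := hy₁ y (le_trans (le_max_left _ _) hy)
  have hy3 : 3 ≤ y := le_trans (le_max_right _ _) hy
  have hy3' : (3 : ℝ) ≤ y := by exact_mod_cast hy3
  have hly : 0 < Real.log y := Real.log_pos (by linarith)
  have hly1 : 1 ≤ Real.log y := by
    rw [Real.le_log_iff_exp_le (by linarith)]
    have := Real.exp_one_lt_d9
    linarith
  set t : ℝ := y / Real.log y with ht
  have ht0 : 0 < t := by positivity
  have hpi := Chebyshev.pi_ge y
  -- pi ≥ log 2 * t - 2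
  have hlog1 : Real.log (y + 1) ≤ 2 * Real.log y := by
    rw [← Real.log_rpow (by linarith)]
    apply Real.log_le_log (by linarith)
    norm_num
    nlinarith
  have hpi2 : Real.log 2 * t - 2 ≤ (Nat.primeCounting y : ℝ) := by
    refine le_trans ?_ hpi
    rw [le_div_iff₀ hly]
    have h3 : (Real.log 2 * t - 2) * Real.log y = y * Real.log 2 - 2 * Real.log y := by
      rw [ht]; field_simp
    rw [h3]
    linarith
  have hr' : (Nat.primeCounting y : ℝ) ≤ r + 2 := by exact_mod_cast hr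
  have hr2 : Real.log 2 * t - 4 ≤ r := by linarith
  have h2r : Real.exp (a * t) / 16 ≤ (2 : ℝ) ^ r := by
    have h3 : (2 : ℝ) ^ r = Real.exp (Real.log 2 * r) := by
      rw [Real.exp_mul, Real.exp_log (by norm_num), Real.rpow_natCast]
    rw [h3, div_le_iff₀ (by norm_num)]
    have h4 : (16 : ℝ) = Real.exp (Real.log 2 * 4) := by
      rw [Real.exp_mul, Real.exp_log (by norm_num)]
      norm_num
    rw [h4, ← Real.exp_add]
    apply Real.exp_le_exp.2
    rw [ha]
    nlinarith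
  have hat : 3 * Real.log y ≤ a * t / 2 := by
    rw [ht]
    have h3 : a * (y / Real.log y) / 2 = a * y / (2 * Real.log y) := by field_simp
    rw [h3, le_div_iff₀ (by positivity)]
    nlinarith
  have hy3e : (y : ℝ) ^ 3 ≤ Real.exp (a * t / 2) := by
    calc (y : ℝ) ^ 3 = Real.exp (3 * Real.log y) := by
          rw [mul_comm, Real.exp_mul, Real.exp_log (by linarith)]
          norm_num
      _ ≤ _ := Real.exp_le_exp.2 hat
  have hE1 : 1 ≤ Real.exp (a * t / 2) := Real.one_le_exp (by positivity)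
  have hsq : Real.exp (a * t) = Real.exp (a * t / 2) * Real.exp (a * t / 2) := by
    rw [← Real.exp_add]; congr 1; ring
  have hgoal : (Real.log 2) ^ 2 / 2 * y / Real.log y = a * t / 2 := by
    rw [ht, ha]; ring
  rw [hgoal]
  have hyA : 56 ≤ A * y := by
    rw [div_le_iff₀ hA] at g2
    linarith
  have h5 : Real.exp (a * t / 2) * 7 ≤ (2 : ℝ) ^ r * (A / y) := by
    calc Real.exp (a * t / 2) * 7 ≤ Real.exp (a * t / 2) * ((y : ℝ) ^ 3 / 16 * (A / y)) := by
          apply mul_le_mul_of_nonneg_left _ (by positivity)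
          have h6 : (y : ℝ) ^ 3 / 16 * (A / y) = A * y * y / 16 := by
            field_simp
          rw [h6]
          nlinarith
      _ ≤ Real.exp (a * t / 2) * (Real.exp (a * t / 2) / 16 * (A / y)) := by gcongr
      _ = Real.exp (a * t) / 16 * (A / y) := by rw [hsq]; ring
      _ ≤ _ := by gcongr
  linarith

theorem exists_Lambda2 (h : PrimesAP) : ∃ (B c : ℝ) (y₀ : ℕ), 0 < B ∧ 0 < c ∧ ∀ y : ℕ, y₀ ≤ y →
    ∃ (Λ : ℕ) (𝒬 : Finset ℕ), 0 < Λ ∧ (Λ : ℝ) ≤ Real.exp (B * y) ∧
      (∀ q ∈ 𝒬, q.Prime ∧ 7 ≤ q ∧ (q - 1) ∣ Λ) ∧ Real.exp (c * y / Real.log y) ≤ 𝒬.card := by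
  classical
  obtain ⟨δ, c, x₀, hδ0, hδ1, hc, hx₀, hP⟩ := h
  set W : ℝ := Real.log 4 with hW
  have hW0 : 0 < W := Real.log_pos (by norm_num)
  have hl2 : 0 < Real.log 2 := Real.log_pos (by norm_num)
  obtain ⟨a₁, ha₁⟩ := exists_nat_ge (Real.log x₀ * δ / W)
  obtain ⟨y₀, hy₀, hnum⟩ := prachar_num (c * δ / (2 * W)) (by positivity)
  refine ⟨2 * W / δ, (Real.log 2) ^ 2 / 2, max a₁ y₀, by positivity, by positivity, ?_⟩
  intro y hy
  have hya : a₁ ≤ y := le_trans (le_max_left _ _) hy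
  have hyy : y₀ ≤ y := le_trans (le_max_right _ _) hy
  have hy3 : 3 ≤ y := hy₀.trans hyy
  have hy3' : (3 : ℝ) ≤ y := by exact_mod_cast hy3
  set x : ℝ := Real.exp (y * W / δ) with hx
  have hlogx : Real.log x = y * W / δ := Real.log_exp _
  have hx0 : 0 < x := Real.exp_pos _
  have hxx : x₀ ≤ x := by
    rw [← Real.exp_log (show 0 < x₀ by linarith), hx]
    apply Real.exp_le_exp.2
    rw [le_div_iff₀ hδ0]
    have h1 : Real.log x₀ * δ / W ≤ y := ha₁.trans (by exact_mod_cast hya)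
    rw [div_le_iff₀ hW0] at h1
    linarith
  have hx1 : 1 < x := lt_of_lt_of_le hx₀ hxx
  set P : Finset ℕ := (Finset.Icc 3 y).filter Nat.Prime with hPdef
  have hPp : ∀ p ∈ P, p.Prime := fun p hp => (Finset.mem_filter.1 hp).2
  set N : ℕ := ∏ p ∈ P, p with hNdef
  have hN0 : 0 < N := Finset.prod_pos fun p hp => (hPp p hp).pos
  have hN4 : N ≤ 4 ^ y := by
    have h1 : N ∣ primorial y := by
      rw [primorial, hNdef]
      apply Finset.prod_dvd_prod_of_subset
      intro p hp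
      rw [hPdef, Finset.mem_filter, Finset.mem_Icc] at hp
      simp only [Finset.mem_filter, Finset.mem_range]
      exact ⟨by omega, hp.2⟩
    exact (Nat.le_of_dvd (primorial_pos y) h1).trans (primorial_le_four_pow y)
  have hN : (N : ℝ) ≤ x ^ δ := by
    rw [hx, ← Real.exp_mul]
    have h1 : (N : ℝ) ≤ Real.exp (y * W) := by
      rw [hW, mul_comm, Real.exp_mul, Real.exp_log (by norm_num), Real.rpow_natCast]
      exact_mod_cast hN4
    refine h1.trans (Real.exp_le_exp.2 ?_)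
    rw [div_mul_cancel₀ _ hδ0.ne']
  have hN8 : ¬ 8 ∣ N := by
    intro h8
    have h2 : 2 ∣ N := dvd_trans (by norm_num) h8
    obtain ⟨r, hr, h2r⟩ := (Nat.prime_two.prime.dvd_finsetProd_iff _).1 h2
    rw [Nat.prime_dvd_prime_iff_eq Nat.prime_two (hPp r hr)] at h2r
    rw [hPdef, Finset.mem_filter, Finset.mem_Icc] at hr
    omega
  obtain ⟨l, hl, hl2', hq⟩ := hP x hxx N hN0 hN hN8
  set P' := P.erase l with hP'
  have hP'P : P' ⊆ P := Finset.erase_subset _ _
  set D := P'.powerset.image (fun S => ∏ p ∈ S, p) with hD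
  have hinj : Set.InjOn (fun S : Finset ℕ => ∏ p ∈ S, p) (P'.powerset : Set (Finset ℕ)) := by
    intro S hS S' hS' h
    rw [Finset.mem_coe, Finset.mem_powerset] at hS hS'
    have h' : (∏ p ∈ S, p) = ∏ p ∈ S', p := h
    exact Finset.Subset.antisymm
      (prod_dvd_subset hPp (hS.trans hP'P) (hS'.trans hP'P) (h' ▸ dvd_rfl))
      (prod_dvd_subset hPp (hS'.trans hP'P) (hS.trans hP'P) (h' ▸ dvd_rfl))
  have hDc : D.card = 2 ^ P'.card := by
    rw [hD, Finset.card_image_of_injOn hinj, Finset.card_powerset]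
  have hDN : ∀ d ∈ D, d ∣ N ∧ ¬ l ∣ d := by
    intro d hd
    rw [hD, Finset.mem_image] at hd
    obtain ⟨S, hS, rfl⟩ := hd
    rw [Finset.mem_powerset] at hS
    refine ⟨Finset.prod_dvd_prod_of_subset _ _ _ (hS.trans hP'P), ?_⟩
    intro hld
    obtain ⟨r, hr, hlr⟩ := (hl.prime.dvd_finsetProd_iff _).1 hld
    rw [Nat.prime_dvd_prime_iff_eq hl (hPp r (hP'P (hS hr)))] at hlr
    have := hS hr
    rw [← hlr, hP', Finset.mem_erase] at this
    exact this.1 rfl
  obtain ⟨j, hj1, hjx, hjc⟩ := average hδ1 hc hx1 hN0 hN hq D hDN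
  have hpc : Nat.primeCounting y ≤ P'.card + 2 := by
    have h1 : Nat.primeCounting y ≤ P.card + 1 := by
      have h2 : Nat.primeCounting y = ((Finset.range (y + 1)).filter Nat.Prime).card := by
        rw [Nat.primeCounting, Nat.primeCounting', Nat.count_eq_card_filter_range]
      rw [h2]
      have h3 : (Finset.range (y + 1)).filter Nat.Prime ⊆ insert 2 P := by
        intro p hp
        rw [Finset.mem_filter, Finset.mem_range] at hp
        rw [Finset.mem_insert, hPdef, Finset.mem_filter, Finset.mem_Icc]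
        have := hp.2.two_le
        by_cases h2 : p = 2
        · exact Or.inl h2
        · exact Or.inr ⟨⟨by omega, by omega⟩, hp.2⟩
      exact (Finset.card_le_card h3).trans (Finset.card_insert_le _ _)
    have h2 : P.card ≤ P'.card + 1 := by
      rw [hP']
      have := Finset.pred_card_le_card_erase (s := P) (a := l)
      omega
    omega
  have hfin := hnum y hyy P'.card hpc
  have hj0 : 0 < j := hj1
  refine ⟨N * j, ((D.filter (fun d => (d * j + 1).Prime)).filter (fun d => 7 ≤ d)).image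
    (fun d => d * j + 1), Nat.mul_pos hN0 hj0, ?_, ?_, ?_⟩
  · push_cast
    have hexp2 : x * x = Real.exp (2 * W / δ * y) := by
      rw [hx, ← Real.exp_add]; congr 1; ring
    rw [← hexp2]
    have h0 : (0 : ℝ) ≤ j := by positivity
    have hxN : (N : ℝ) ≤ x := by
      refine hN.trans ?_
      calc x ^ δ ≤ x ^ (1 : ℝ) := Real.rpow_le_rpow_of_exponent_le hx1.le hδ1.le
        _ = x := Real.rpow_one x
    exact mul_le_mul hxN hjx h0 hx0.le
  · intro q hq'
    rw [Finset.mem_image] at hq'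
    obtain ⟨d, hd, rfl⟩ := hq'
    rw [Finset.mem_filter, Finset.mem_filter] at hd
    refine ⟨hd.1.2, ?_, ?_⟩
    · have := Nat.mul_le_mul hd.2 hj0
      omega
    · rw [Nat.add_sub_cancel]
      exact Nat.mul_dvd_mul_right (hDN d hd.1.1).1 j
  · rw [Finset.card_image_of_injective]
    · have hd0 : ∀ d ∈ D, 0 < d := fun d hd => Nat.pos_of_dvd_of_pos (hDN d hd).1 hN0
      have h1 : (D.filter (fun d => (d * j + 1).Prime)).card ≤
          ((D.filter (fun d => (d * j + 1).Prime)).filter (fun d => 7 ≤ d)).card + 6 := by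
        have h2 := Finset.card_filter_add_card_filter_not
          (s := D.filter (fun d => (d * j + 1).Prime)) (fun d => 7 ≤ d)
        have h3 : ((D.filter (fun d => (d * j + 1).Prime)).filter (fun d => ¬ 7 ≤ d)).card ≤ 6 := by
          calc _ ≤ (Finset.Icc 1 6).card := by
                apply Finset.card_le_card
                intro d hd
                rw [Finset.mem_filter, Finset.mem_filter] at hd
                have := hd0 d hd.1.1
                rw [Finset.mem_Icc]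
                omega
            _ = 6 := by simp
        omega
      have h1' : ((D.filter (fun d => (d * j + 1).Prime)).card : ℝ) ≤
          (((D.filter (fun d => (d * j + 1).Prime)).filter (fun d => 7 ≤ d)).card : ℝ) + 6 := by
        exact_mod_cast h1
      rw [hDc, hlogx] at hjc
      push_cast at hjc
      have h4 : (2 : ℝ) ^ P'.card * c / (2 * (y * W / δ)) =
          (2 : ℝ) ^ P'.card * (c * δ / (2 * W) / y) := by
        field_simp
      rw [h4] at hjc
      linarith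
    · intro d₁ d₂ h12
      have h13 : d₁ * j + 1 = d₂ * j + 1 := h12
      exact Nat.eq_of_mul_eq_mul_right hj0 (by omega)

end Lnk
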