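import Pool.Agent.Lib.Linnik.Defs
import Pool.Agent.Lib.Linnik.Kappa

/-!
# Selection of `k`
-/

set_option autoImplicit false

namespace Lnk

open Finset

/-- odd primes `≤ z` together with `𝒬` -/
noncomputable def RR (z : ℕ) (𝒬 : Finset ℕ) : Finset ℕ :=
  ((Finset.Icc 3 z).filter Nat.Prime) ∪ 𝒬

theorem mem_RR {z : ℕ} {𝒬 : Finset ℕ} {r : ℕ} :
    r ∈ RR z 𝒬 ↔ ((3 ≤ r ∧ r ≤ z) ∧ r.Prime) ∨ r ∈ 𝒬 := by
  unfold RR
  rw [Finset.mem_union, Finset.mem_filter, Finset.mem_Icc]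

theorem RR_prime {z : ℕ} {𝒬 : Finset ℕ} (h𝒬 : ∀ q ∈ 𝒬, q.Prime ∧ 7 ≤ q) {r : ℕ}
    (hr : r ∈ RR z 𝒬) : r.Prime ∧ 3 ≤ r := by
  rcases mem_RR.1 hr with h | h
  · exact ⟨h.2, h.1.1⟩
  · exact ⟨(h𝒬 r h).1, by have := (h𝒬 r h).2; omega⟩

theorem class_count {K : ℝ} (hK : 0 ≤ K) {M k₀ : ℕ} (hM : 0 < M) :
    (((Finset.Icc 1 ⌊K⌋₊).filter (fun j => j ≡ k₀ [MOD M])).card : ℝ) ≤ K / M + 1 := by
  have h1 : ((Finset.Icc 1 ⌊K⌋₊).filter (fun j => j ≡ k₀ [MOD M])).card ≤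
      (Finset.range (⌊K⌋₊ / M + 1)).card := by
    apply Finset.card_le_card_of_injOn (fun j => j / M)
    · intro j hj
      simp only [Finset.coe_filter, Finset.mem_Icc, Set.mem_ofPred_eq] at hj
      simp only [Finset.coe_range, Set.mem_Iio]
      exact Nat.lt_succ_of_le (Nat.div_le_div_right hj.1.2)
    · intro i hi j hj hij
      simp only [Finset.coe_filter, Finset.mem_Icc, Set.mem_ofPred_eq] at hi hj
      have h2 : i % M = j % M := hi.2.trans hj.2.symm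
      have h3 : i / M = j / M := hij
      rw [← Nat.div_add_mod i M, ← Nat.div_add_mod j M, h2, h3]
  rw [Finset.card_range] at h1
  have h2 : ((⌊K⌋₊ / M : ℕ) : ℝ) ≤ K / M := by
    refine Nat.cast_div_le.trans ?_
    have := Nat.floor_le hK
    gcongr
  have h3 : (((Finset.Icc 1 ⌊K⌋₊).filter (fun j => j ≡ k₀ [MOD M])).card : ℝ) ≤
      ((⌊K⌋₊ / M + 1 : ℕ) : ℝ) := by exact_mod_cast h1
  push_cast at h3
  linarith

theorem pc_class_le {d M k₀ : ℕ} (hd : 0 < d) (hM : 0 < M) (hk4 : 4 ∣ M) (hk : k₀ % 4 = 2)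
    {K : ℝ} (hK : 0 ≤ K) :
    pc (d * M) ((d * k₀ + 1 : ℕ) : ZMod (d * M)) (d * K) ≤
      (((Finset.Icc 1 ⌊K⌋₊).filter (fun j => j ≡ k₀ [MOD M])).filter
        (fun j => (d * j + 1).Prime)).card := by
  classical
  unfold pc
  have hsub : (Finset.Icc 1 ⌊(d : ℝ) * K⌋₊).filter
      (fun p : ℕ => p.Prime ∧ ((p : ℕ) : ZMod (d * M)) = ((d * k₀ + 1 : ℕ) : ZMod (d * M))) ⊆
      (((Finset.Icc 1 ⌊K⌋₊).filter (fun j => j ≡ k₀ [MOD M])).filter
        (fun j => (d * j + 1).Prime)).image (fun j => d * j + 1) := by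
    intro p hp
    rw [Finset.mem_filter, Finset.mem_Icc] at hp
    obtain ⟨⟨h1, h2⟩, h3, h4⟩ := hp
    have h5 : (p : ℝ) ≤ d * K := (Nat.le_floor_iff (by positivity)).1 h2
    have h6 : p ≡ d * k₀ + 1 [MOD d * M] := (ZMod.natCast_eq_natCast_iff _ _ _).1 h4
    have h7 : p ≡ 1 [MOD d] := by
      have := Nat.ModEq.of_mul_right M h6
      refine this.trans ?_
      show (d * k₀ + 1) % d = 1 % d
      rw [Nat.mul_add_mod]
    have h8 : d ∣ p - 1 := (Nat.modEq_iff_dvd' h1).1 h7.symm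
    obtain ⟨j, hj⟩ := h8
    have h9 : p = d * j + 1 := by omega
    have h10 : j ≡ k₀ [MOD M] := by
      rw [h9] at h6
      have h11 : d * j ≡ d * k₀ [MOD d * M] := Nat.ModEq.add_right_cancel' 1 h6
      exact Nat.ModEq.mul_left_cancel' hd.ne' h11
    have h12 : j % 4 = 2 := by
      have := h10.of_dvd hk4
      have h13 : j % 4 = k₀ % 4 := this
      omega
    rw [Finset.mem_image]
    refine ⟨j, ?_, h9.symm⟩
    rw [Finset.mem_filter, Finset.mem_filter, Finset.mem_Icc]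
    refine ⟨⟨⟨by omega, ?_⟩, h10⟩, h9 ▸ h3⟩
    rw [Nat.le_floor_iff hK]
    have hd0 : (0 : ℝ) < d := by exact_mod_cast hd
    have h14 : (d : ℝ) * j ≤ d * K := by
      have : (p : ℝ) = d * j + 1 := by rw [h9]; push_cast; ring
      linarith
    exact le_of_mul_le_mul_left h14 hd0
  exact (Finset.card_le_card hsub).trans Finset.card_image_le

open scoped Classical in
theorem exists_k (h : PrimesAP) : ∃ δ c x₀ : ℝ, 0 < δ ∧ δ < 1 ∧ 0 < c ∧ 1 < x₀ ∧
    ∀ K : ℝ, x₀ ≤ K → ∀ (z : ℕ) (𝒬 : Finset ℕ), (∀ q ∈ 𝒬, q.Prime ∧ 7 ≤ q) →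
      ((4 * (∏ r ∈ RR z 𝒬, r) * ∏ q ∈ 𝒬, q : ℕ) : ℝ) ≤ K ^ δ →
      ∃ l k : ℕ, l.Prime ∧ l ≠ 2 ∧ 1 ≤ k ∧ (k : ℝ) ≤ K ∧ k % 4 = 2 ∧
        (∀ r : ℕ, r.Prime → r ≠ 2 → r ≤ z → r ≠ l → r ∉ 𝒬 → r ∣ k) ∧
        (∀ q ∈ 𝒬.erase l, ¬ q ∣ k) ∧
        c * (4 / 3 : ℝ) ^ (𝒬.card - 1) / Real.log K ≤
          (((𝒬.erase l).powerset.filter (fun S => Good (𝒬.erase l) (fun _ => k) S ∧
            ((∏ q ∈ S, q) * k + 1).Prime)).card : ℝ) := by
  obtain ⟨δ, c, x₀, hδ0, hδ1, hc, hx₀, hP⟩ := h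
  refine ⟨δ, c / 8, x₀, hδ0, hδ1, by positivity, hx₀, ?_⟩
  intro K hK z 𝒬 h𝒬 hN
  have hK1 : 1 < K := lt_of_lt_of_le hx₀ hK
  have hK0 : 0 < K := by linarith
  have hlK : 0 < Real.log K := Real.log_pos hK1
  set R := RR z 𝒬 with hR
  have hRp : ∀ r ∈ R, r.Prime ∧ 3 ≤ r := fun r hr => RR_prime h𝒬 hr
  have hodd : ∀ (A : Finset ℕ), (∀ r ∈ A, r.Prime ∧ 3 ≤ r) → Nat.Coprime 2 (∏ r ∈ A, r) := by
    intro A hA
    apply Nat.Coprime.prod_right
    intro r hr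
    rw [Nat.coprime_primes Nat.prime_two (hA r hr).1]
    have := (hA r hr).2
    omega
  have h𝒬3 : ∀ q ∈ 𝒬, q.Prime ∧ 3 ≤ q := fun q hq => ⟨(h𝒬 q hq).1, by have := (h𝒬 q hq).2; omega⟩
  set N : ℕ := 4 * (∏ r ∈ R, r) * ∏ q ∈ 𝒬, q with hNdef
  have hprodpos : ∀ (A : Finset ℕ), (∀ r ∈ A, r.Prime ∧ 3 ≤ r) → 0 < ∏ r ∈ A, r :=
    fun A hA => Finset.prod_pos fun r hr => (hA r hr).1.pos
  have hNpos : 0 < N := by
    have h1 := hprodpos R hRp
    have h2 := hprodpos 𝒬 h𝒬3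
    positivity
  have hN8 : ¬ 8 ∣ N := by
    intro h8
    have h1 : 2 ∣ (∏ r ∈ R, r) * ∏ q ∈ 𝒬, q := by
      have : 4 * 2 ∣ 4 * ((∏ r ∈ R, r) * ∏ q ∈ 𝒬, q) := by
        rw [← mul_assoc]; exact h8
      exact Nat.dvd_of_mul_dvd_mul_left (by norm_num) this
    have h2 : Nat.Coprime 2 ((∏ r ∈ R, r) * ∏ q ∈ 𝒬, q) :=
      Nat.Coprime.mul_right (hodd R hRp) (hodd 𝒬 h𝒬3)
    have := Nat.eq_one_of_dvd_coprimes h2 dvd_rfl h1
    omega
  obtain ⟨l, hl, hl2, hq⟩ := hP K hK N hNpos hN hN8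
  set 𝒬' := 𝒬.erase l with h𝒬'
  set R' := R.erase l with hR'
  have h𝒬'R' : 𝒬' ⊆ R' := by
    apply Finset.erase_subset_erase
    intro q hq
    exact mem_RR.2 (Or.inr hq)
  have hR'p : ∀ r ∈ R', r.Prime ∧ 3 ≤ r := fun r hr => hRp r (Finset.mem_of_mem_erase hr)
  have h𝒬'p : ∀ q ∈ 𝒬', q.Prime ∧ 7 ≤ q := fun r hr => h𝒬 r (Finset.mem_of_mem_erase hr)
  obtain ⟨κ, hκ, hκc⟩ := exists_kappa 𝒬' h𝒬'p
  set M : ℕ := 4 * ∏ r ∈ R', r with hM
  have hMpos : 0 < M := by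
    have h1 := hprodpos R' hR'p
    positivity
  -- the residue class
  have h4R' : 4 ∉ R' := by
    intro h4
    have := (hR'p 4 h4).1
    norm_num at this
  obtain ⟨k₀, hk₀⟩ := Nat.chineseRemainderOfFinset
    (fun r => if r = 4 then 2 else if r ∈ 𝒬' then κ r else 0) (fun r => r) (insert 4 R')
    (by
      intro r hr
      rcases Finset.mem_insert.1 hr with rfl | hr
      · norm_num
      · exact (hR'p r hr).1.ne_zero)
    (by
      intro r hr s hs hrs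
      rw [Finset.mem_coe, Finset.mem_insert] at hr hs
      show Nat.Coprime r s
      have hc4 : ∀ r ∈ R', Nat.Coprime 4 r := by
        intro r hr
        have h1 : Nat.Coprime 2 r := by
          rw [Nat.coprime_primes Nat.prime_two (hR'p r hr).1]
          have := (hR'p r hr).2
          omega
        exact Nat.Coprime.pow_left 2 h1
      rcases hr with rfl | hr <;> rcases hs with rfl | hs
      · exact absurd rfl hrs
      · exact hc4 s hs
      · exact (hc4 r hr).symm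
      · exact (Nat.coprime_primes (hR'p r hr).1 (hR'p s hs).1).2 hrs)
  have hk4 : k₀ % 4 = 2 := by
    have := hk₀ 4 (Finset.mem_insert_self _ _)
    simp only [if_true] at this
    have h1 : k₀ % 4 = 2 % 4 := this
    omega
  have hkQ : ∀ q ∈ 𝒬', k₀ ≡ κ q [MOD q] := by
    intro q hq'
    have h1 := hk₀ q (Finset.mem_insert_of_mem (h𝒬'R' hq'))
    have h2 : q ≠ 4 := fun h => h4R' (h ▸ h𝒬'R' hq')
    simp only [if_neg h2, if_pos hq'] at h1
    exact h1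
  have hkR : ∀ r ∈ R', r ∉ 𝒬' → r ∣ k₀ := by
    intro r hr hr2
    have h1 := hk₀ r (Finset.mem_insert_of_mem hr)
    have h2 : r ≠ 4 := fun h => h4R' (h ▸ hr)
    simp only [if_neg h2, if_neg hr2] at h1
    exact (Nat.modEq_zero_iff_dvd).1 h1
  -- facts for `j ≡ k₀ [MOD M]`
  have hjM : ∀ j : ℕ, j ≡ k₀ [MOD M] → j % 4 = 2 ∧ (∀ q ∈ 𝒬', j ≡ κ q [MOD q]) ∧
      (∀ r ∈ R', r ∉ 𝒬' → r ∣ j) := by
    intro j hj
    have hrM : ∀ r ∈ R', r ∣ M := fun r hr =>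
      dvd_mul_of_dvd_right (Finset.dvd_prod_of_mem _ hr) 4
    refine ⟨?_, fun q hq' => (hj.of_dvd (hrM q (h𝒬'R' hq'))).trans (hkQ q hq'), ?_⟩
    · have h1 : j % 4 = k₀ % 4 := hj.of_dvd (dvd_mul_right 4 _)
      omega
    · intro r hr hr2
      have h1 := hj.of_dvd (hrM r hr)
      exact (Nat.modEq_zero_iff_dvd).1 (h1.trans ((Nat.modEq_zero_iff_dvd).2 (hkR r hr hr2)))
  have hgood : ∀ j : ℕ, j ≡ k₀ [MOD M] → ∀ S, Good 𝒬' κ S ↔ Good 𝒬' (fun _ => j) S := by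
    intro j hj S
    have h1 : ∀ q ∈ 𝒬', (((∏ r ∈ S, r) * κ q + 1 : ℕ) : ZMod q) =
        (((∏ r ∈ S, r) * j + 1 : ℕ) : ZMod q) := by
      intro q hq'
      have h2 : ((κ q : ℕ) : ZMod q) = ((j : ℕ) : ZMod q) :=
        ((ZMod.natCast_eq_natCast_iff _ _ _).2 ((hjM j hj).2.1 q hq')).symm
      push_cast
      rw [h2]
    unfold Good
    constructor
    · intro h q hq' hqS
      have := h q hq' hqS
      rwa [h1 q hq'] at this
    · intro h q hq' hqS
      have := h q hq' hqS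
      rwa [← h1 q hq'] at this
  set 𝒢 := 𝒬'.powerset.filter (fun S => Good 𝒬' κ S) with h𝒢
  set J := (Finset.Icc 1 ⌊K⌋₊).filter (fun j => j ≡ k₀ [MOD M]) with hJ
  have hKδ : K ^ δ ≤ K := by
    calc K ^ δ ≤ K ^ (1 : ℝ) := Real.rpow_le_rpow_of_exponent_le hK1.le hδ1.le
      _ = K := Real.rpow_one K
  have hNK : (N : ℝ) ≤ K := hN.trans hKδ
  have hMN : M ∣ N := by
    rw [hM, hNdef, mul_assoc]
    apply Nat.mul_dvd_mul_left
    exact (Finset.prod_dvd_prod_of_subset _ _ _ (Finset.erase_subset _ _)).mul_right _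
  have hMK : (M : ℝ) ≤ K := le_trans (by exact_mod_cast Nat.le_of_dvd hNpos hMN) hNK
  have hM0' : (0 : ℝ) < M := by exact_mod_cast hMpos
  -- lower bound for each `S`
  have hcount : ∀ S ∈ 𝒢, c * K / (2 * M * Real.log K) ≤
      ((J.filter (fun j => ((∏ q ∈ S, q) * j + 1).Prime)).card : ℝ) := by
    intro S hS
    rw [h𝒢, Finset.mem_filter, Finset.mem_powerset] at hS
    obtain ⟨hSQ, hSG⟩ := hS
    set d := ∏ q ∈ S, q with hd
    have hSp : ∀ q ∈ S, q.Prime ∧ 3 ≤ q := fun q hq' => hR'p q (h𝒬'R' (hSQ hq'))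
    have hd0 : 0 < d := hprodpos S hSp
    have hd0' : (0 : ℝ) < d := by exact_mod_cast hd0
    have hd1' : (1 : ℝ) ≤ d := by exact_mod_cast hd0
    have hdM : d * M ∣ N := by
      have h1 : d ∣ ∏ q ∈ 𝒬, q := Finset.prod_dvd_prod_of_subset _ _ _
        (hSQ.trans (Finset.erase_subset _ _))
      have h2 : M ∣ 4 * ∏ r ∈ R, r := by
        rw [hM]
        exact Nat.mul_dvd_mul_left 4 (Finset.prod_dvd_prod_of_subset _ _ _ (Finset.erase_subset _ _))
      rw [hNdef, mul_comm d M]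
      exact Nat.mul_dvd_mul h2 h1
    have hldM : ¬ l ∣ d * M := by
      intro hdvd
      rcases (Nat.Prime.dvd_mul hl).1 hdvd with h1 | h1
      · obtain ⟨r, hr, hlr⟩ := (hl.prime.dvd_finsetProd_iff _).1 h1
        rw [Nat.prime_dvd_prime_iff_eq hl (hSp r hr).1] at hlr
        exact (Finset.ne_of_mem_erase (hSQ hr)) hlr.symm
      · rcases (Nat.Prime.dvd_mul hl).1 h1 with h2 | h2
        · have h3 : l ∣ 2 := hl.dvd_of_dvd_pow (n := 2) (by norm_num; exact h2)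
          exact hl2 ((Nat.prime_dvd_prime_iff_eq hl Nat.prime_two).1 h3)
        · obtain ⟨r, hr, hlr⟩ := (hl.prime.dvd_finsetProd_iff _).1 h2
          rw [Nat.prime_dvd_prime_iff_eq hl (hR'p r hr).1] at hlr
          exact (Finset.ne_of_mem_erase hr) hlr.symm
    have hunit : IsUnit ((d * k₀ + 1 : ℕ) : ZMod (d * M)) := by
      rw [ZMod.isUnit_iff_coprime]
      apply Nat.Coprime.mul_right
      · rw [mul_comm d k₀, Nat.coprime_mul_right_add_left]
        exact Nat.coprime_one_left d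
      · rw [hM]
        apply Nat.Coprime.mul_right
        · have h1 : Nat.Coprime (d * k₀ + 1) 2 := by
            rw [Nat.coprime_two_right, Nat.odd_iff]
            have h2 : 2 ∣ d * k₀ := dvd_mul_of_dvd_right (by omega) d
            omega
          exact Nat.Coprime.pow_right 2 h1
        · apply Nat.Coprime.prod_right
          intro r hr
          rw [Nat.coprime_comm, Nat.Prime.coprime_iff_not_dvd (hR'p r hr).1]
          intro hdvd
          by_cases hr2 : r ∈ 𝒬'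
          · by_cases hr3 : r ∈ S
            · have h1 : r ∣ d * k₀ := dvd_mul_of_dvd_left (Finset.dvd_prod_of_mem _ hr3) _
              have h2 := (Nat.dvd_add_right h1).1 hdvd
              exact (hR'p r hr).1.one_lt.ne' (Nat.dvd_one.1 h2)
            · have h1 := ((hgood k₀ rfl S).1 hSG r hr2 hr3).1
              apply h1
              rw [ZMod.natCast_eq_zero_iff]
              exact hdvd
          · have h1 : r ∣ d * k₀ := dvd_mul_of_dvd_right (hkR r hr hr2) _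
            have h2 := (Nat.dvd_add_right h1).1 hdvd
            exact (hR'p r hr).1.one_lt.ne' (Nat.dvd_one.1 h2)
    have hdK : (d : ℝ) ≤ K := by
      refine le_trans ?_ hNK
      exact_mod_cast Nat.le_of_dvd hNpos ((dvd_mul_right d M).trans hdM)
    have h1 := hq (d * M) hdM hldM _ hunit (d * K) (by nlinarith) (by nlinarith)
    have h2 := pc_class_le hd0 hMpos (dvd_mul_right 4 _) hk4 hK0.le (K := K)
    refine le_trans ?_ (h1.trans (by exact_mod_cast h2))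
    have hdxpos : 1 < d * K := by nlinarith
    have hlog2 : Real.log (d * K) ≤ 2 * Real.log K := by
      rw [Real.log_mul hd0'.ne' hK0.ne']
      have := Real.log_le_log hd0' hdK
      linarith
    have hlogpos : 0 < Real.log (d * K) := Real.log_pos hdxpos
    have htot : (0 : ℝ) < Nat.totient (d * M) := by
      exact_mod_cast Nat.totient_pos.2 (Nat.mul_pos hd0 hMpos)
    have htot2 : (Nat.totient (d * M) : ℝ) ≤ d * M := by exact_mod_cast Nat.totient_le (d * M)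
    rw [div_le_div_iff₀ (by positivity) (by positivity)]
    calc c * K * (Nat.totient (d * M) * Real.log (d * K)) ≤
        c * K * ((d * M) * (2 * Real.log K)) := by gcongr
      _ = c * (d * K) * (2 * M * Real.log K) := by ring
  have hJc : (J.card : ℝ) ≤ 2 * K / M := by
    refine (class_count hK0.le hMpos).trans ?_
    have : 1 ≤ K / M := by rw [le_div_iff₀ hM0']; linarith
    have h2 : 2 * K / M = K / M + K / M := by ring
    linarith
  have h𝒢pos : (0 : ℝ) < 𝒢.card := lt_of_lt_of_le (by positivity) hκc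
  obtain ⟨k, hkJ, hkc⟩ : ∃ k ∈ J, (𝒢.card : ℝ) * c / (8 * Real.log K) ≤
      ((𝒢.filter (fun S => ((∏ q ∈ S, q) * k + 1).Prime)).card : ℝ) := by
    by_contra hcon
    push Not at hcon
    have h1 : ∑ j ∈ J, ((𝒢.filter (fun S => ((∏ q ∈ S, q) * j + 1).Prime)).card : ℝ) ≤
        ∑ j ∈ J, (𝒢.card : ℝ) * c / (8 * Real.log K) :=
      Finset.sum_le_sum fun j hj => (hcon j hj).le
    rw [Finset.sum_const, nsmul_eq_mul] at h1
    have h2 : ∑ j ∈ J, ((𝒢.filter (fun S => ((∏ q ∈ S, q) * j + 1).Prime)).card : ℝ) =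
        ∑ S ∈ 𝒢, ((J.filter (fun j => ((∏ q ∈ S, q) * j + 1).Prime)).card : ℝ) := by
      simp_rw [Finset.card_filter, Nat.cast_sum]
      rw [Finset.sum_comm]
    rw [h2] at h1
    have h3 := Finset.sum_le_sum hcount
    rw [Finset.sum_const, nsmul_eq_mul] at h3
    have h4 : (J.card : ℝ) * ((𝒢.card : ℝ) * c / (8 * Real.log K)) ≤
        (2 * K / M) * ((𝒢.card : ℝ) * c / (8 * Real.log K)) := by
      gcongr
    have h5 : (2 * K / M) * ((𝒢.card : ℝ) * c / (8 * Real.log K)) =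
        (1 / 2) * ((𝒢.card : ℝ) * (c * K / (2 * M * Real.log K))) := by
      field_simp
      ring
    have h6 : 0 < (𝒢.card : ℝ) * (c * K / (2 * M * Real.log K)) := by positivity
    linarith
  rw [hJ, Finset.mem_filter, Finset.mem_Icc] at hkJ
  obtain ⟨⟨hk1, hk2⟩, hk3⟩ := hkJ
  obtain ⟨hk5, hk6, hk7⟩ := hjM k hk3
  refine ⟨l, k, hl, hl2, hk1, (Nat.le_floor_iff hK0.le).1 hk2, hk5, ?_, ?_, ?_⟩
  · intro r hr hr2 hrz hrl hrQ
    apply hk7 r
    · rw [hR', Finset.mem_erase]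
      refine ⟨hrl, mem_RR.2 (Or.inl ⟨⟨?_, hrz⟩, hr⟩)⟩
      have := hr.two_le
      omega
    · intro h
      exact hrQ (Finset.mem_of_mem_erase h)
  · intro q hq' hdvd
    have h1 := hk6 q hq'
    have h2 : κ q ≡ 0 [MOD q] := h1.symm.trans ((Nat.modEq_zero_iff_dvd).2 hdvd)
    have h3 := (Nat.modEq_zero_iff_dvd).1 h2
    have h4 := hκ q hq'
    have := Nat.le_of_dvd (by omega) h3
    omega
  · have h1 : c / 8 * (4 / 3 : ℝ) ^ (𝒬.card - 1) / Real.log K ≤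
        (𝒢.card : ℝ) * c / (8 * Real.log K) := by
      have h2 : (4 / 3 : ℝ) ^ (𝒬.card - 1) ≤ (4 / 3 : ℝ) ^ 𝒬'.card := by
        apply pow_le_pow_right₀ (by norm_num)
        exact Finset.pred_card_le_card_erase
      have h3 : (4 / 3 : ℝ) ^ (𝒬.card - 1) ≤ 𝒢.card := h2.trans hκc
      rw [div_le_div_iff₀ hlK (by positivity)]
      calc c / 8 * (4 / 3 : ℝ) ^ (𝒬.card - 1) * (8 * Real.log K) =
          c * Real.log K * (4 / 3 : ℝ) ^ (𝒬.card - 1) := by ring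
        _ ≤ c * Real.log K * 𝒢.card := by gcongr
        _ = _ := by ring
    refine h1.trans (hkc.trans ?_)
    have h2 : 𝒢.filter (fun S => ((∏ q ∈ S, q) * k + 1).Prime) ⊆
        𝒬'.powerset.filter (fun S => Good 𝒬' (fun _ => k) S ∧ ((∏ q ∈ S, q) * k + 1).Prime) := by
      intro S hS
      rw [Finset.mem_filter, h𝒢, Finset.mem_filter] at hS
      rw [Finset.mem_filter]
      exact ⟨hS.1.1, (hgood k hk3 S).1 hS.1.2, hS.2⟩
    exact_mod_cast Finset.card_le_card h2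

end Lnk
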