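import Pool.Agent.Lib.Linnik.Compose
import Pool.Agent.Lib.Linnik.Select
import Pool.Agent.Lib.Linnik.Lambda2
import Pool.Agent.Lib.Linnik.FinalNum

/-!
# Strong pseudoprimes to very many bases, from `PrimesAP`
-/

set_option autoImplicit false

namespace Lnk

open Finset Filter

theorem prod_RR_le {z : ℕ} {𝒬 : Finset ℕ} (h𝒬 : ∀ q ∈ 𝒬, q.Prime ∧ 7 ≤ q) :
    ∏ r ∈ RR z 𝒬, r ≤ 4 ^ z * ∏ q ∈ 𝒬, q := by
  set A := (Finset.Icc 3 z).filter Nat.Prime with hA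
  have h1 : (∏ r ∈ A ∪ 𝒬, r) * ∏ r ∈ A ∩ 𝒬, r = (∏ r ∈ A, r) * ∏ r ∈ 𝒬, r :=
    Finset.prod_union_inter
  have h2 : 1 ≤ ∏ r ∈ A ∩ 𝒬, r := Finset.prod_pos fun r hr =>
    (h𝒬 r (Finset.mem_inter.1 hr).2).1.pos
  have h3 : ∏ r ∈ A, r ≤ 4 ^ z := by
    have h4 : ∏ r ∈ A, r ∣ primorial z := by
      rw [primorial]
      apply Finset.prod_dvd_prod_of_subset
      intro p hp
      rw [hA, Finset.mem_filter, Finset.mem_Icc] at hp
      simp only [Finset.mem_filter, Finset.mem_range]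
      exact ⟨by omega, hp.2⟩
    exact (Nat.le_of_dvd (primorial_pos z) h4).trans (primorial_le_four_pow z)
  calc ∏ r ∈ RR z 𝒬, r = ∏ r ∈ A ∪ 𝒬, r := rfl
    _ ≤ (∏ r ∈ A ∪ 𝒬, r) * ∏ r ∈ A ∩ 𝒬, r := Nat.le_mul_of_pos_right _ h2
    _ = (∏ r ∈ A, r) * ∏ r ∈ 𝒬, r := h1
    _ ≤ 4 ^ z * ∏ q ∈ 𝒬, q := Nat.mul_le_mul_right _ h3

theorem final (h : PrimesAP) : ∃ C : ℝ, 0 < C ∧ ∀ᶠ X : ℝ in atTop, ∃ n : ℕ, 1 < n ∧ ¬ n.Prime ∧
    (n : ℝ) ≤ X ∧ Squarefree n ∧ (∀ p : ℕ, p.Prime → p ∣ n → p - 1 ∣ n - 1) ∧ ∀ b : ℕ, 1 ≤ b → (b : ℝ) ≤ Real.log X * Real.exp (-(C *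
      (Real.log (Real.log (Real.log X)) * Real.log (Real.log (Real.log (Real.log X)))))) →
      ∀ j d : ℕ, n - 1 = 2 ^ j * d → Odd d →
        ((b : ZMod n) ^ d = 1 ∨ ∃ i : ℕ, i < j ∧ (b : ZMod n) ^ (2 ^ i * d) = -1) := by
  classical
  obtain ⟨δ, c₂, x₁, hδ0, hδ1, hc₂, hx₁, hk⟩ := exists_k h
  obtain ⟨B, c₁, y₀, hB, hc₁, hΛ⟩ := exists_Lambda2 h
  obtain ⟨C₃, hC₃, hnum⟩ := final_num B c₁ δ c₂ x₁ y₀ hB hc₁ hδ0 hc₂
  refine ⟨C₃ + 1, by positivity, ?_⟩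
  filter_upwards [Real.tendsto_log_atTop.eventually hnum, eventually_gt_atTop 0] with X hX hX0
  set R : ℝ := Real.log X with hR
  set u : ℝ := Real.log R with hu
  set v : ℝ := Real.log u with hv
  set w : ℝ := Real.log v with hw
  obtain ⟨y, s, -, hy, hs1, hs, hsB, hm, hδT, hT, hx₁T, hvw, hcount⟩ := hX
  obtain ⟨Λ, 𝒬, hΛ0, hΛB, h𝒬, h𝒬c⟩ := hΛ y hy
  -- the set `𝒬'`
  have hsQ : s ≤ 𝒬.card := by exact_mod_cast hs.trans h𝒬c
  obtain ⟨𝒬', h𝒬', h𝒬'c⟩ := Finset.exists_subset_card_eq hsQ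
  have h𝒬'p : ∀ q ∈ 𝒬', q.Prime ∧ 7 ≤ q ∧ (q - 1) ∣ Λ := fun q hq => h𝒬 q (h𝒬' hq)
  have h𝒬'7 : ∀ q ∈ 𝒬', q.Prime ∧ 7 ≤ q := fun q hq => ⟨(h𝒬'p q hq).1, (h𝒬'p q hq).2.1⟩
  set PQ : ℕ := ∏ q ∈ 𝒬', q with hPQ
  have hPQ0 : 0 < PQ := Finset.prod_pos fun q hq => (h𝒬'7 q hq).1.pos
  have hPQ0' : (0 : ℝ) < PQ := by exact_mod_cast hPQ0
  have hPQu : (PQ : ℝ) ≤ Real.exp (u ^ 2) := by
    have h1 : (PQ : ℝ) ≤ Real.exp (B * y + 1) ^ s := by
      rw [hPQ, ← h𝒬'c, ← Finset.prod_const]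
      push_cast
      apply Finset.prod_le_prod
      · intro q hq; positivity
      · intro q hq
        have h2 : q ≤ Λ + 1 := by
          have := Nat.le_of_dvd hΛ0 (h𝒬'p q hq).2.2
          omega
        have h3 : (q : ℝ) ≤ Λ + 1 := by exact_mod_cast h2
        have h4 : Real.exp (B * y + 1) = Real.exp (B * y) * Real.exp 1 := Real.exp_add _ _
        have h5 : 1 ≤ Real.exp (B * y) := Real.one_le_exp (by positivity)
        have h6 : 2 ≤ Real.exp 1 := by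
          have := Real.add_one_le_exp 1
          linarith
        rw [h4]
        nlinarith
    refine h1.trans ?_
    rw [← Real.exp_nat_mul]
    exact Real.exp_le_exp.2 hsB
  have hlogPQ : Real.log PQ ≤ u ^ 2 := by
    rw [Real.log_le_iff_le_exp hPQ0']; exact hPQu
  have hlogPQ0 : 0 ≤ Real.log PQ := Real.log_nonneg (by exact_mod_cast hPQ0)
  -- `K` and `z`
  set E : ℝ := Real.exp (C₃ * (v * w)) with hE
  have hE0 : 0 < E := Real.exp_pos _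
  set T : ℝ := R / E with hTdef
  have hu2 : 0 ≤ u ^ 2 := by positivity
  have hT2 : 2 ≤ T := by linarith
  have hT0 : 0 < T := by linarith
  set K : ℝ := Real.exp T with hK
  have hlogK : Real.log K = T := Real.log_exp _
  have hKx : x₁ ≤ K := by
    rw [hK, ← Real.log_le_iff_le_exp (by linarith)]
    exact hx₁T
  set z : ℕ := ⌊δ * T / 4⌋₊ with hz
  have hz1 : (z : ℝ) ≤ δ * T / 4 := Nat.floor_le (by positivity)
  have hNK : ((4 * (∏ r ∈ RR z 𝒬', r) * ∏ q ∈ 𝒬', q : ℕ) : ℝ) ≤ K ^ δ := by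
    have h1 : 4 * (∏ r ∈ RR z 𝒬', r) * ∏ q ∈ 𝒬', q ≤ 4 * (4 ^ z * PQ) * PQ := by
      have := prod_RR_le (z := z) h𝒬'7
      gcongr
    have h2 : ((4 * (∏ r ∈ RR z 𝒬', r) * ∏ q ∈ 𝒬', q : ℕ) : ℝ) ≤
        ((4 * (4 ^ z * PQ) * PQ : ℕ) : ℝ) := by exact_mod_cast h1
    refine h2.trans ?_
    push_cast
    have h3 : (4 : ℝ) ≤ Real.exp 2 := by
      have h4 : Real.exp 2 = Real.exp 1 * Real.exp 1 := by rw [← Real.exp_add]; norm_num
      have h5 : 2 ≤ Real.exp 1 := by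
        have := Real.add_one_le_exp 1
        linarith
      rw [h4]; nlinarith
    have h4 : (4 : ℝ) ^ z ≤ Real.exp (2 * z) := by
      rw [mul_comm, Real.exp_nat_mul]
      gcongr
    calc (4 : ℝ) * (4 ^ z * PQ) * PQ ≤
        Real.exp 2 * (Real.exp (2 * z) * Real.exp (u ^ 2)) * Real.exp (u ^ 2) := by gcongr
      _ = Real.exp (2 + 2 * z + 2 * u ^ 2) := by
          rw [← Real.exp_add, ← Real.exp_add, ← Real.exp_add]; congr 1; ring
      _ ≤ Real.exp (δ * T) := by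
          apply Real.exp_le_exp.2
          linarith
      _ = K ^ δ := by rw [hK, ← Real.exp_mul, mul_comm]
  obtain ⟨l, k, hl, -, hk1, hkK, hk4, hkdiv, hkcop, hkcount⟩ := hk K hKx z 𝒬' h𝒬'7 hNK
  rw [h𝒬'c, hlogK] at hkcount
  -- `m`
  set m : ℕ := ⌊(Λ : ℝ) * Real.log PQ⌋₊ + 1 with hmdef
  have hm1 : (Λ : ℝ) * Real.log PQ < m := by
    rw [hmdef]; push_cast; exact Nat.lt_floor_add_one _
  have hm2 : (m : ℝ) ≤ E / 3 := by
    refine le_trans ?_ hm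
    rw [hmdef]
    push_cast
    have h1 : (⌊(Λ : ℝ) * Real.log PQ⌋₊ : ℝ) ≤ Λ * Real.log PQ := Nat.floor_le (by positivity)
    have h2 : (Λ : ℝ) * Real.log PQ ≤ Real.exp (B * y) * u ^ 2 := by gcongr
    linarith
  have hcount' : 4 * m + 2 ≤ (((𝒬'.erase l).powerset.filter (fun S =>
      Good (𝒬'.erase l) (fun _ => k) S ∧ ((∏ q ∈ S, q) * k + 1).Prime)).card) := by
    have h1 : 4 * (m : ℝ) + 2 ≤ (((𝒬'.erase l).powerset.filter (fun S =>
      Good (𝒬'.erase l) (fun _ => k) S ∧ ((∏ q ∈ S, q) * k + 1).Prime)).card : ℝ) := by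
      refine le_trans ?_ (hcount.trans hkcount)
      linarith
    exact_mod_cast h1
  obtain ⟨n, hn1, hnp, hnle, hnsq, hnK, hn⟩ := exists_pseudo (z := z) h𝒬'p hk1 hk4 hkdiv hkcop hl hΛ0 hm1
    hcount'
  refine ⟨n, hn1, hnp, ?_, hnsq, hnK, ?_⟩
  · have h1 : (n : ℝ) ≤ ((PQ : ℝ) * k + 1) ^ m := by exact_mod_cast hnle
    refine h1.trans ?_
    have h2 : (PQ : ℝ) * k + 1 ≤ Real.exp (u ^ 2 + T + 1) := by
      have h3 : (PQ : ℝ) * k ≤ Real.exp (u ^ 2) * K := by gcongr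
      have h4 : Real.exp (u ^ 2 + T + 1) = Real.exp (u ^ 2) * K * Real.exp 1 := by
        rw [Real.exp_add, Real.exp_add]
      have h5 : 2 ≤ Real.exp 1 := by
        have := Real.add_one_le_exp 1
        linarith
      have h6 : 1 ≤ Real.exp (u ^ 2) := Real.one_le_exp hu2
      have h7 : 1 ≤ K := Real.one_le_exp hT0.le
      have h8 : 1 ≤ Real.exp (u ^ 2) * K := by nlinarith
      rw [h4]
      nlinarith
    calc ((PQ : ℝ) * k + 1) ^ m ≤ Real.exp (u ^ 2 + T + 1) ^ m := by gcongr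
      _ = Real.exp (m * (u ^ 2 + T + 1)) := by rw [← Real.exp_nat_mul]
      _ ≤ Real.exp (E / 3 * (3 * T)) := by
          apply Real.exp_le_exp.2
          have : u ^ 2 + T + 1 ≤ 3 * T := by linarith
          gcongr
      _ = X := by
          have h3 : E / 3 * (3 * T) = R := by
            rw [hTdef]; field_simp
          rw [h3, hR, Real.exp_log hX0]
  · intro b hb1 hb
    apply hn b hb1
    rw [hz]
    apply Nat.le_floor
    refine hb.trans ?_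
    have h1 : Real.exp (-((C₃ + 1) * (v * w))) = Real.exp (-(v * w)) / E := by
      rw [hE, ← Real.exp_sub]; congr 1; ring
    rw [h1]
    have h2 : R * (Real.exp (-(v * w)) / E) = T * Real.exp (-(v * w)) := by
      rw [hTdef]; field_simp
    rw [h2]
    calc T * Real.exp (-(v * w)) ≤ T * (δ / 8) := by gcongr
      _ ≤ δ * T / 4 := by nlinarith [mul_pos hδ0 hT0]

end Lnk
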