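import Pool.Agent.Lib.Linnik.Defs
import Pool.Agent.Lib.MP_0bb3d8_nt.HohGdiff

/-!
# II5: equidistribution of `gg` in progressions (`GdiffQ`)
-/

set_option autoImplicit false

namespace Lnk

open Finset Hoh

/-- Comparison of a sum over an arithmetic progression with an integral. -/
lemma sum_sub_integral_shift (F : ℝ → ℝ) (A A' B : ℝ) (hA : 0 ≤ A) (hAA' : A ≤ A') (hB : 0 ≤ B)
    (hlip : ∀ a ∈ Set.Icc A A', ∀ b ∈ Set.Icc A A', |F b - F a| ≤ B * |b - a|)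
    (hz : ∀ w, 0 ≤ w → (w ≤ A ∨ A' ≤ w) → F w = 0) (hcont : ContinuousOn F (Set.Ici 0))
    (e : ℕ) (he : 1 ≤ e) (r : ℕ) (hr : r < e) (N : ℕ) (hN1 : 1 ≤ N) (hN : A' ≤ N) :
    |∑ m ∈ Finset.Icc 1 N, F (e * m - r) - (1 / e) * ∫ w in A..A', F w| ≤ B * (A' - A) := by
  have he' : (1 : ℝ) ≤ e := by exact_mod_cast he
  have hr' : (r : ℝ) ≤ e - 1 := by
    have : r + 1 ≤ e := hr
    have : (r : ℝ) + 1 ≤ e := by exact_mod_cast this
    linarith
  have hr0 : (0 : ℝ) ≤ r := Nat.cast_nonneg r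
  have hN1' : (1 : ℝ) ≤ N := by exact_mod_cast hN1
  have h := sum_sub_integral (fun w => F (max (w - r) 0)) (A + r) (A' + r) B (by linarith)
    (by linarith) hB (by
      intro a ha b hb
      have ha0 : 0 ≤ a - r := by linarith [ha.1]
      have hb0 : 0 ≤ b - r := by linarith [hb.1]
      simp only [max_eq_left ha0, max_eq_left hb0]
      have := hlip (a - r) ⟨by linarith [ha.1], by linarith [ha.2]⟩ (b - r)
        ⟨by linarith [hb.1], by linarith [hb.2]⟩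
      have e1 : b - r - (a - r) = b - a := by ring
      rwa [e1] at this) (by
      intro w _ hw
      apply hz _ (le_max_right _ _)
      rcases hw with hw | hw
      · left
        exact max_le (by linarith) hA
      · right
        exact le_max_of_le_left (by linarith)) (by
      apply hcont.comp (by fun_prop)
      intro w _
      exact Set.mem_Ici.mpr (le_max_right (w - r) 0)) e he N (by nlinarith)
  have e1 : ∑ m ∈ Finset.Icc 1 N, F (max ((e : ℝ) * m - r) 0) =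
      ∑ m ∈ Finset.Icc 1 N, F (e * m - r) := by
    apply Finset.sum_congr rfl
    intro m hm
    have hm1 : (1 : ℝ) ≤ m := by exact_mod_cast (Finset.mem_Icc.mp hm).1
    rw [max_eq_left (by nlinarith)]
  have e2 : ∫ w in (A + r)..(A' + r), F (max (w - r) 0) = ∫ w in A..A', F w := by
    rw [intervalIntegral.integral_congr (g := fun w => F (w - r))]
    · rw [intervalIntegral.integral_comp_sub_right]
      simp
    · intro w hw
      rw [Set.uIcc_of_le (by linarith)] at hw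
      have : 0 ≤ w - r := by linarith [hw.1]
      simp only [max_eq_left this]
  simp only [e1, e2] at h
  have e3 : A' + r - (A + r) = A' - A := by ring
  rwa [e3] at h

/-- The numbers in a residue class. -/
lemma sum_class_eq (F : ℝ → ℝ) (N : ℕ) (hF : ∀ w : ℝ, (N : ℝ) < w → F w = 0) (e : ℕ) (he : 1 ≤ e)
    (k : ℕ) : ∃ r : ℕ, r < e ∧
      ∑ n ∈ (Finset.Icc 1 N).filter (fun n => n ≡ k [MOD e]), F n =
        ∑ m ∈ Finset.Icc 1 N, F (e * m - r) := by
  have hk : k % e < e := Nat.mod_lt _ he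
  refine ⟨if k % e = 0 then 0 else e - k % e, ?_, ?_⟩
  · split_ifs <;> omega
  set r := if k % e = 0 then 0 else e - k % e with hr
  have hre : r < e := by rw [hr]; split_ifs <;> omega
  have hrk : (k + r) % e = 0 := by
    rw [Nat.add_mod, hr]
    split_ifs with h
    · simp [h]
    · have h1 : (e - k % e) % e = e - k % e := Nat.mod_eq_of_lt (by omega)
      rw [h1]
      have h2 : k % e + (e - k % e) = e := by omega
      rw [h2, Nat.mod_self]
  have hcast : ∀ m ∈ Finset.Icc 1 N, F ((e : ℝ) * m - r) = F ((e * m - r : ℕ) : ℝ) := by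
    intro m hm
    have hm1 := (Finset.mem_Icc.mp hm).1
    have : r ≤ e * m := hre.le.trans (Nat.le_mul_of_pos_right e hm1)
    rw [Nat.cast_sub this]
    push_cast
    rfl
  rw [Finset.sum_congr rfl hcast]
  have h2 : ∑ m ∈ Finset.Icc 1 N, F ((e * m - r : ℕ) : ℝ) =
      ∑ m ∈ (Finset.Icc 1 N).filter (fun m => e * m - r ≤ N), F ((e * m - r : ℕ) : ℝ) := by
    symm
    apply Finset.sum_subset (Finset.filter_subset _ _)
    intro m hm hm'
    have : N < e * m - r := by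
      by_contra hcon
      exact hm' (Finset.mem_filter.mpr ⟨hm, by omega⟩)
    exact hF _ (by exact_mod_cast this)
  rw [h2]
  symm
  apply Finset.sum_bij (fun m _ => e * m - r)
  · intro m hm
    rw [Finset.mem_filter, Finset.mem_Icc] at hm
    obtain ⟨⟨hm1, hm2⟩, hm3⟩ := hm
    have h3 : r < e * m := lt_of_lt_of_le hre (Nat.le_mul_of_pos_right e hm1)
    rw [Finset.mem_filter, Finset.mem_Icc]
    refine ⟨⟨by omega, hm3⟩, ?_⟩
    have h4 : (e * m - r) + r ≡ k + r [MOD e] := by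
      rw [Nat.sub_add_cancel h3.le]
      unfold Nat.ModEq
      rw [hrk, Nat.mul_mod_right]
    exact Nat.ModEq.add_right_cancel' r h4
  · intro a ha b hb hab
    rw [Finset.mem_filter, Finset.mem_Icc] at ha hb
    have h3 : r < e * a := lt_of_lt_of_le hre (Nat.le_mul_of_pos_right e ha.1.1)
    have h4 : r < e * b := lt_of_lt_of_le hre (Nat.le_mul_of_pos_right e hb.1.1)
    have h5 : e * a = e * b := by
      omega
    exact Nat.eq_of_mul_eq_mul_left he h5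
  · intro n hn
    rw [Finset.mem_filter, Finset.mem_Icc] at hn
    obtain ⟨⟨hn1, hnN⟩, hnk⟩ := hn
    have h3 : (n + r) % e = 0 := by
      have : n + r ≡ k + r [MOD e] := hnk.add_right r
      unfold Nat.ModEq at this
      rw [this, hrk]
    obtain ⟨m, hm⟩ := Nat.dvd_of_mod_eq_zero h3
    have hm0 : 1 ≤ m := by
      rcases Nat.eq_zero_or_pos m with rfl | h
      · simp at hm; omega
      · exact h
    refine ⟨m, ?_, by omega⟩
    rw [Finset.mem_filter, Finset.mem_Icc]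
    refine ⟨⟨hm0, ?_⟩, by omega⟩
    by_contra hcon
    push Not at hcon
    have h4 : e * (N + 1) ≤ e * m := Nat.mul_le_mul_left e hcon
    have h5 : e * (N + 1) = e * N + e := by ring
    have h6 : N ≤ e * N := Nat.le_mul_of_pos_left N he
    omega
  · intro m _
    rfl

/-- The numbers `n ≡ b` modulo `q` divisible by `d` form a residue class modulo `d * q`. -/
lemma class_eq (q d : ℕ) (hq : 0 < q) (hdq : d.Coprime q) (b : ZMod q) :
    ∃ k : ℕ, ∀ n : ℕ, (((n : ZMod q) = b ∧ d ∣ n) ↔ n ≡ k [MOD d * q]) := by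
  have : NeZero q := ⟨hq.ne'⟩
  obtain ⟨k, hk1, hk2⟩ := Nat.chineseRemainder hdq 0 b.val
  refine ⟨k, fun n => ?_⟩
  rw [← Nat.modEq_and_modEq_iff_modEq_mul hdq]
  have h1 : ((n : ZMod q) = b) ↔ n ≡ b.val [MOD q] := by
    rw [← ZMod.natCast_eq_natCast_iff, ZMod.natCast_zmod_val]
  rw [h1, ← Nat.modEq_zero_iff_dvd]
  constructor
  · rintro ⟨h2, h3⟩
    exact ⟨h3.trans hk1.symm, h2.trans hk2.symm⟩
  · rintro ⟨h2, h3⟩
    exact ⟨h3.trans hk2, h2.trans hk1⟩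

/-- Sum over the numbers `n ≡ b` modulo `q` divisible by `d`. -/
noncomputable def Sd (F : ℝ → ℝ) (N q : ℕ) (b : ZMod q) (d : ℕ) : ℝ :=
  ∑ n ∈ (Finset.Icc 1 N).filter (fun n : ℕ => (n : ZMod q) = b ∧ d ∣ n), F n

lemma Sd_bound {φ : ℝ → ℝ} (hφ : Bump φ) {s T X : ℝ} (M : ℝ) (hM : ∀ v, |deriv φ v| ≤ M)
    (hs : 0 < s) (hs1 : s ≤ 1) (hT : 1 / 4 ≤ T) (hX : 1 ≤ X) (N : ℕ)
    (hN : X * Real.exp (1 / T) ≤ N) (q : ℕ) (hq : 0 < q) (b : ZMod q) (d : ℕ) (hd : 1 ≤ d)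
    (hdq : d.Coprime q) :
    |Sd (Fw φ s T X) N q b d - (1 / (d * q)) * ∫ w in X..(X * Real.exp (1 / T)), Fw φ s T X w| ≤
      (8 + M) * Real.exp 4 * T / X := by
  have hT0 : 0 < T := by linarith
  have hX0 : 0 < X := by linarith
  have hM0 : 0 ≤ M := (abs_nonneg _).trans (hM 0)
  have hAA' : X ≤ X * Real.exp (1 / T) := by
    have : 1 ≤ Real.exp (1 / T) := Real.one_le_exp (by positivity)
    nlinarith
  have hN1 : 1 ≤ N := by
    have : (1 : ℝ) ≤ N := by linarith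
    exact_mod_cast this
  have hFN : ∀ w : ℝ, (N : ℝ) < w → Fw φ s T X w = 0 := by
    intro w hw
    exact Fw_zero hφ hT0 hX0 w ((Nat.cast_nonneg N).trans hw.le) (Or.inr (hN.trans hw.le))
  obtain ⟨k, hk⟩ := class_eq q d hq hdq b
  have he : 1 ≤ d * q := Nat.mul_pos hd hq
  obtain ⟨r, hr, hsum⟩ := sum_class_eq (Fw φ s T X) N hFN (d * q) he k
  have h1 : Sd (Fw φ s T X) N q b d =
      ∑ m ∈ Finset.Icc 1 N, Fw φ s T X ((d * q : ℕ) * m - r) := by
    rw [← hsum]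
    unfold Sd
    congr 1
    apply Finset.filter_congr
    intro n _
    exact hk n
  rw [h1]
  have h2 := sum_sub_integral_shift (Fw φ s T X) X (X * Real.exp (1 / T))
    ((8 + M) * T ^ 2 / X ^ 2) hX0.le hAA' (by positivity) (Fw_lip hφ M hM hs hs1 hT hX)
    (fun w hw h => Fw_zero hφ hT0 hX0 w hw h) (Fw_continuousOn hφ hT0 hX0) (d * q) he r hr N hN1 hN
  have e1 : (((d * q : ℕ) : ℝ)) = (d : ℝ) * q := by push_cast; rfl
  rw [e1] at h2 ⊢
  refine h2.trans ?_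
  have h1 : Real.exp (1 / T) - 1 ≤ (1 / T) * Real.exp 4 := by
    have h2 := Real.add_one_le_exp (-(1 / T))
    have h3 : Real.exp (1 / T) ≤ Real.exp 4 := by
      apply Real.exp_le_exp.mpr
      rw [div_le_iff₀ hT0]
      linarith
    have h4 : Real.exp (1 / T) * Real.exp (-(1 / T)) = 1 := by
      rw [← Real.exp_add]; simp
    have h5 : Real.exp (1 / T) - 1 ≤ (1 / T) * Real.exp (1 / T) := by
      have := Real.exp_pos (1 / T)
      nlinarith
    refine h5.trans ?_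
    exact mul_le_mul_of_nonneg_left h3 (by positivity)
  calc (8 + M) * T ^ 2 / X ^ 2 * (X * Real.exp (1 / T) - X) =
      (8 + M) * T ^ 2 / X * (Real.exp (1 / T) - 1) := by field_simp
    _ ≤ (8 + M) * T ^ 2 / X * ((1 / T) * Real.exp 4) := by
        apply mul_le_mul_of_nonneg_left h1
        positivity
    _ = (8 + M) * Real.exp 4 * T / X := by field_simp

/-- Summation over multiples inside a residue class. -/
lemma sum_divisor_swapQ (F : ℝ → ℝ) (N q : ℕ) (b : ZMod q) (hb : IsUnit b) (D : ℝ)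
    (l : ℕ → ℝ) (hl : ∀ d, l d ≠ 0 → 1 ≤ d ∧ (d : ℝ) ≤ D) :
    ∑ n ∈ (Finset.Icc 1 N).filter (fun n : ℕ => (n : ZMod q) = b), F n * ∑ d ∈ n.divisors, l d =
      ∑ d ∈ (Finset.Icc 1 ⌊D⌋₊).filter (fun d => d.Coprime q), l d * Sd F N q b d := by
  have h1 : ∀ n ∈ (Finset.Icc 1 N).filter (fun n : ℕ => (n : ZMod q) = b),
      F n * ∑ d ∈ n.divisors, l d =
      ∑ d ∈ (Finset.Icc 1 ⌊D⌋₊).filter (fun d => d.Coprime q), if d ∣ n then F n * l d else 0 := by
    intro n hn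
    have hn1 : 1 ≤ n := (Finset.mem_Icc.mp (Finset.mem_filter.mp hn).1).1
    have hnb : (n : ZMod q) = b := (Finset.mem_filter.mp hn).2
    have hnq : n.Coprime q := by
      rw [← hnb] at hb
      exact (ZMod.isUnit_iff_coprime n q).mp hb
    rw [← Finset.sum_filter, ← Finset.mul_sum]
    congr 1
    rw [← Finset.sum_subset (s₁ := (n.divisors).filter (fun d => l d ≠ 0))
      (s₂ := n.divisors) (Finset.filter_subset _ _)]
    · apply Finset.sum_subset
      · intro d hd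
        rw [Finset.mem_filter, Nat.mem_divisors] at hd
        obtain ⟨hd1, hd2⟩ := hl d hd.2
        rw [Finset.mem_filter, Finset.mem_filter, Finset.mem_Icc]
        exact ⟨⟨⟨hd1, Nat.le_floor hd2⟩, Nat.Coprime.coprime_dvd_left hd.1.1 hnq⟩, hd.1.1⟩
      · intro d hd hd'
        rw [Finset.mem_filter, Nat.mem_divisors] at hd'
        by_contra hne
        exact hd' ⟨⟨(Finset.mem_filter.mp hd).2, by omega⟩, hne⟩
    · intro d hd hd'
      by_contra hne
      exact hd' (Finset.mem_filter.mpr ⟨hd, hne⟩)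
  rw [Finset.sum_congr rfl h1, Finset.sum_comm]
  apply Finset.sum_congr rfl
  intro d _
  unfold Sd
  rw [← Finset.sum_filter, Finset.filter_filter, Finset.mul_sum]
  apply Finset.sum_congr rfl
  intro n _
  ring

/-- `ST` of a function restricted to a residue class as a finite sum. -/
lemma ST_rs_eq {φ : ℝ → ℝ} (hφ : Bump φ) {s T X : ℝ} (hT : 0 < T) (hX : 0 < X) (N : ℕ)
    (hN : X * Real.exp (1 / T) ≤ N) (q : ℕ) (b : ZMod q) (a : ArithmeticFunction ℝ) :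
    ST φ s T X (rs q b a) =
      ∑ n ∈ (Finset.Icc 1 N).filter (fun n : ℕ => (n : ZMod q) = b), Fw φ s T X n * a n := by
  have hFN : ∀ w : ℝ, (N : ℝ) < w → Fw φ s T X w = 0 := by
    intro w hw
    exact Fw_zero hφ hT hX w ((Nat.cast_nonneg N).trans hw.le) (Or.inr (hN.trans hw.le))
  unfold Hoh.ST
  rw [tsum_eq_sum (s := (Finset.Icc 1 N).filter (fun n : ℕ => (n : ZMod q) = b))]
  · apply Finset.sum_congr rfl
    intro n hn
    have : rs q b a n = a n := by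
      show (if (n : ZMod q) = b then a n else 0) = a n
      rw [if_pos (Finset.mem_filter.mp hn).2]
    rw [this]
    unfold Fw
    ring
  · intro n hn
    rw [Finset.mem_filter, Finset.mem_Icc] at hn
    rcases Nat.eq_zero_or_pos n with rfl | hn0
    · simp
    · by_cases hnb : (n : ZMod q) = b
      · have hnN : N < n := by
          by_contra hcon
          exact hn ⟨⟨hn0, by omega⟩, hnb⟩
        have := hFN n (by exact_mod_cast hnN)
        unfold Fw at this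
        rw [mul_assoc, this, mul_zero]
      · have : rs q b a n = 0 := by
          show (if (n : ZMod q) = b then a n else 0) = 0
          rw [if_neg hnb]
        rw [this, zero_mul, zero_mul]

/-- `ST` as a finite sum. -/
lemma ST_eq_sum {φ : ℝ → ℝ} (hφ : Bump φ) {s T X : ℝ} (hT : 0 < T) (hX : 0 < X) (N : ℕ)
    (hN : X * Real.exp (1 / T) ≤ N) (a : ArithmeticFunction ℝ) :
    ST φ s T X a = ∑ n ∈ Finset.Icc 1 N, Fw φ s T X n * a n := by
  have hFN : ∀ w : ℝ, (N : ℝ) < w → Fw φ s T X w = 0 := by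
    intro w hw
    exact Fw_zero hφ hT hX w ((Nat.cast_nonneg N).trans hw.le) (Or.inr (hN.trans hw.le))
  unfold Hoh.ST
  rw [tsum_eq_sum (s := Finset.Icc 1 N)]
  · apply Finset.sum_congr rfl
    intro n _
    unfold Fw
    ring
  · intro n hn
    rw [Finset.mem_Icc] at hn
    rcases Nat.eq_zero_or_pos n with rfl | hn0
    · simp
    · have hnN : N < n := by
        by_contra hcon
        exact hn ⟨hn0, by omega⟩
      have := hFN n (by exact_mod_cast hnN)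
      unfold Fw at this
      rw [mul_assoc, this, mul_zero]

/-- A function supported on numbers coprime to `q` is the sum of its restrictions. -/
lemma ST_eq_sum_rs {φ : ℝ → ℝ} (hφ : Bump φ) {s T X : ℝ} (hT : 0 < T) (hX : 0 < X) (q : ℕ)
    [NeZero q] (a : ArithmeticFunction ℝ) (ha : ∀ n, a n ≠ 0 → n.Coprime q) :
    ST φ s T X a = ∑ u : (ZMod q)ˣ, ST φ s T X (rs q u a) := by
  classical
  have hN : X * Real.exp (1 / T) ≤ (⌈X * Real.exp (1 / T)⌉₊ : ℝ) := Nat.le_ceil _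
  rw [ST_eq_sum hφ hT hX _ hN]
  have h1 : ∀ u : (ZMod q)ˣ, ST φ s T X (rs q u a) =
      ∑ n ∈ Finset.Icc 1 ⌈X * Real.exp (1 / T)⌉₊,
        if (n : ZMod q) = u then Fw φ s T X n * a n else 0 := by
    intro u
    rw [ST_rs_eq hφ hT hX _ hN, Finset.sum_filter]
  rw [Finset.sum_congr rfl (fun u _ => h1 u), Finset.sum_comm]
  apply Finset.sum_congr rfl
  intro n _
  by_cases han : a n = 0
  · simp [han]
  · have hc := ha n han
    rw [Finset.sum_eq_single (ZMod.unitOfCoprime n hc)]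
    · rw [if_pos (by simp)]
    · intro u _ hu
      rw [if_neg]
      intro h
      apply hu
      ext
      rw [← h]
      simp
    · intro h
      exact absurd (Finset.mem_univ _) h

/-- Sieve bounds for rough numbers in a residue class. -/
lemma rough_class_bounds {φ : ℝ → ℝ} (hφ : Bump φ) {s T X : ℝ} (M : ℝ)
    (hM : ∀ v, |deriv φ v| ≤ M) (hs : 0 < s) (hs1 : s ≤ 1) (hT : 1 / 4 ≤ T) (hX : 1 ≤ X) (y D : ℝ)
    (hD : 0 ≤ D) (q : ℕ) (hq : 0 < q) (b : ZMod q) (hb : IsUnit b) (lp lm : ℕ → ℝ)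
    (hl1 : ∀ d, |lp d| ≤ 1 ∧ |lm d| ≤ 1)
    (hls : ∀ d, (lp d ≠ 0 ∨ lm d ≠ 0) → 1 ≤ d ∧ (d : ℝ) ≤ D)
    (hln : ∀ n : ℕ, n ≠ 0 → ∑ d ∈ n.divisors, lm d ≤ rough y n ∧
      rough y n ≤ ∑ d ∈ n.divisors, lp d) :
    (∫ w in X..(X * Real.exp (1 / T)), Fw φ s T X w) / q *
        ∑ d ∈ (Finset.Icc 1 ⌊D⌋₊).filter (fun d => d.Coprime q), lm d / d -
        D * ((8 + M) * Real.exp 4 * T / X) ≤ Hoh.ST φ s T X (rs q b (rough y)) ∧
    Hoh.ST φ s T X (rs q b (rough y)) ≤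
      (∫ w in X..(X * Real.exp (1 / T)), Fw φ s T X w) / q *
        ∑ d ∈ (Finset.Icc 1 ⌊D⌋₊).filter (fun d => d.Coprime q), lp d / d +
        D * ((8 + M) * Real.exp 4 * T / X) := by
  have hT0 : 0 < T := by linarith
  have hX0 : 0 < X := by linarith
  have hM0 : 0 ≤ M := (abs_nonneg _).trans (hM 0)
  have hq0 : (0 : ℝ) < q := by exact_mod_cast hq
  set I := ∫ w in X..(X * Real.exp (1 / T)), Fw φ s T X w with hI
  set E := (8 + M) * Real.exp 4 * T / X with hE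
  have hE0 : 0 ≤ E := by positivity
  set N := ⌈X * Real.exp (1 / T)⌉₊ with hN
  have hNle : X * Real.exp (1 / T) ≤ N := Nat.le_ceil _
  have hgen : ∀ l : ℕ → ℝ, (∀ d, |l d| ≤ 1) → (∀ d, l d ≠ 0 → 1 ≤ d ∧ (d : ℝ) ≤ D) →
      |∑ n ∈ (Finset.Icc 1 N).filter (fun n : ℕ => (n : ZMod q) = b),
          Fw φ s T X n * ∑ d ∈ n.divisors, l d -
        I / q * ∑ d ∈ (Finset.Icc 1 ⌊D⌋₊).filter (fun d => d.Coprime q), l d / d| ≤ D * E := by
    intro l hl1 hls
    rw [sum_divisor_swapQ (Fw φ s T X) N q b hb D l hls, Finset.mul_sum, ← Finset.sum_sub_distrib]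
    have h1 : ∀ d ∈ (Finset.Icc 1 ⌊D⌋₊).filter (fun d => d.Coprime q),
        |l d * Sd (Fw φ s T X) N q b d - I / q * (l d / d)| ≤ E := by
      intro d hd
      rw [Finset.mem_filter] at hd
      have hd1 : 1 ≤ d := (Finset.mem_Icc.mp hd.1).1
      have hd0 : (0 : ℝ) < d := by exact_mod_cast hd1
      have h2 := Sd_bound hφ M hM hs hs1 hT hX N hNle q hq b d hd1 hd.2
      have e : l d * Sd (Fw φ s T X) N q b d - I / q * (l d / d) =
          l d * (Sd (Fw φ s T X) N q b d - (1 / (d * q)) * I) := by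
        field_simp
      rw [e, abs_mul]
      calc _ ≤ 1 * E := mul_le_mul (hl1 d) h2 (abs_nonneg _) zero_le_one
        _ = E := one_mul _
    refine (Finset.abs_sum_le_sum_abs _ _).trans ((Finset.sum_le_sum h1).trans ?_)
    rw [Finset.sum_const, nsmul_eq_mul]
    apply mul_le_mul_of_nonneg_right _ hE0
    calc (((Finset.Icc 1 ⌊D⌋₊).filter (fun d => d.Coprime q)).card : ℝ)
        ≤ ((Finset.Icc 1 ⌊D⌋₊).card : ℝ) := by exact_mod_cast Finset.card_filter_le _ _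
      _ = (⌊D⌋₊ : ℝ) := by rw [Nat.card_Icc]; simp
      _ ≤ D := Nat.floor_le hD
  have hst := ST_rs_eq (s := s) hφ hT0 hX0 N hNle q b (rough y)
  have hup : Hoh.ST φ s T X (rs q b (rough y)) ≤
      ∑ n ∈ (Finset.Icc 1 N).filter (fun n : ℕ => (n : ZMod q) = b),
        Fw φ s T X n * ∑ d ∈ n.divisors, lp d := by
    rw [hst]
    apply Finset.sum_le_sum
    intro n hn
    have hn1 : 1 ≤ n := (Finset.mem_Icc.mp (Finset.mem_filter.mp hn).1).1
    exact mul_le_mul_of_nonneg_left (hln n (by omega)).2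
      (Fw_nonneg hφ hT0 n (Nat.cast_nonneg n))
  have hlow : ∑ n ∈ (Finset.Icc 1 N).filter (fun n : ℕ => (n : ZMod q) = b),
        Fw φ s T X n * ∑ d ∈ n.divisors, lm d ≤ Hoh.ST φ s T X (rs q b (rough y)) := by
    rw [hst]
    apply Finset.sum_le_sum
    intro n hn
    have hn1 : 1 ≤ n := (Finset.mem_Icc.mp (Finset.mem_filter.mp hn).1).1
    exact mul_le_mul_of_nonneg_left (hln n (by omega)).1
      (Fw_nonneg hφ hT0 n (Nat.cast_nonneg n))
  have hp := hgen lp (fun d => (hl1 d).1) (fun d hd => hls d (Or.inl hd))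
  have hm := hgen lm (fun d => (hl1 d).2) (fun d hd => hls d (Or.inr hd))
  rw [abs_le] at hp hm
  constructor
  · linarith [hm.1, hlow]
  · linarith [hp.2, hup]

lemma rough_coprime {y : ℝ} {q : ℕ} (hq : 0 < q) (hqy : (q : ℝ) ≤ y) (n : ℕ)
    (hn : rough y n ≠ 0) : n.Coprime q := by
  rw [rough_apply] at hn
  by_cases h : n ≠ 0 ∧ Rough y n
  · by_contra hcon
    obtain ⟨p, hp, hpn, hpq⟩ := Nat.Prime.not_coprime_iff_dvd.mp hcon
    have h1 := h.2 p hp hpn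
    have h2 : (p : ℝ) ≤ q := by exact_mod_cast Nat.le_of_dvd hq hpq
    linarith
  · rw [if_neg h] at hn
    exact absurd rfl hn

/-- Rough numbers are equidistributed in residue classes, up to the sieve error. -/
lemma rough_class_diff (hCop : CopStmt) {C₀ c : ℝ} (hFL : ∀ y D : ℝ, 2 ≤ y → y ≤ D →
    ∃ lp lm : ℕ → ℝ,
    (∀ d, |lp d| ≤ 1 ∧ |lm d| ≤ 1) ∧
    (∀ d, (lp d ≠ 0 ∨ lm d ≠ 0) → 1 ≤ d ∧ (d : ℝ) ≤ D) ∧
    (∀ n : ℕ, n ≠ 0 → ∑ d ∈ n.divisors, lm d ≤ rough y n ∧ rough y n ≤ ∑ d ∈ n.divisors, lp d) ∧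
    |∑ d ∈ Finset.Icc 1 ⌊D⌋₊, lp d / d - V y| ≤ C₀ * Real.exp (-c * (Real.log D / Real.log y)) * V y ∧
    |∑ d ∈ Finset.Icc 1 ⌊D⌋₊, lm d / d - V y| ≤ C₀ * Real.exp (-c * (Real.log D / Real.log y)) * V y)
    {φ : ℝ → ℝ} (hφ : Bump φ) {s T X : ℝ} (M : ℝ)
    (hM : ∀ v, |deriv φ v| ≤ M) (hs : 0 < s) (hs1 : s ≤ 1) (hT : 1 / 4 ≤ T) (hX : 1 ≤ X) (y D : ℝ)
    (hy : 2 ≤ y) (hD : y ≤ D) (q : ℕ) (hq : 0 < q) (hqy : (q : ℝ) ≤ y) (b : ZMod q)
    (hb : IsUnit b) :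
    |(Nat.totient q : ℝ) * Hoh.ST φ s T X (rs q b (rough y)) - Hoh.ST φ s T X (rough y)| ≤
      2 * (C₀ * Real.exp (-c * (Real.log D / Real.log y)) * V y) +
        2 * (q * (D * ((8 + M) * Real.exp 4 * T / X))) := by
  have hne : NeZero q := ⟨hq.ne'⟩
  have hT0 : 0 < T := by linarith
  have hX0 : 0 < X := by linarith
  have hM0 : 0 ≤ M := (abs_nonneg _).trans (hM 0)
  have hq0 : (0 : ℝ) < q := by exact_mod_cast hq
  have hφ0 : (0 : ℝ) < Nat.totient q := by exact_mod_cast Nat.totient_pos.mpr hq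
  have hφq : (Nat.totient q : ℝ) ≤ q := by exact_mod_cast Nat.totient_le q
  obtain ⟨lp, lm, hl1, hls, hln, hlp, hlm⟩ := hFL y D hy hD
  have hbd := fun (u : ZMod q) (hu : IsUnit u) =>
    rough_class_bounds hφ M hM hs hs1 hT hX y D (by linarith) q hq u hu lp lm hl1 hls hln
  obtain ⟨hI0, hI1, -⟩ := Fw_integral_bounds hφ hs hT hX
  set I := ∫ w in X..(X * Real.exp (1 / T)), Fw φ s T X w with hI
  set E := D * ((8 + M) * Real.exp 4 * T / X) with hE
  have hE0 : 0 ≤ E := by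
    have : 0 ≤ D := by linarith
    positivity
  set Sp := ∑ d ∈ (Finset.Icc 1 ⌊D⌋₊).filter (fun d => d.Coprime q), lp d / d with hSp
  set Sm := ∑ d ∈ (Finset.Icc 1 ⌊D⌋₊).filter (fun d => d.Coprime q), lm d / d with hSm
  have hcop := hCop (fun d => lp d - lm d) ⌊D⌋₊ q hq (by
    intro d hd
    have : lp d ≠ 0 ∨ lm d ≠ 0 := by
      by_contra hcon
      push Not at hcon
      exact hd (by simp [hcon.1, hcon.2])
    obtain ⟨h1, h2⟩ := hls d this
    exact ⟨h1, Nat.le_floor h2⟩) (by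
    intro n hn
    rw [Finset.sum_sub_distrib]
    linarith [(hln n hn).1, (hln n hn).2])
  have hc1 : ∑ d ∈ (Finset.Icc 1 ⌊D⌋₊).filter (fun d => d.Coprime q), (lp d - lm d) / d =
      Sp - Sm := by
    rw [hSp, hSm, ← Finset.sum_sub_distrib]
    exact Finset.sum_congr rfl (fun d _ => by ring)
  have hc2 : ∑ d ∈ Finset.Icc 1 ⌊D⌋₊, (lp d - lm d) / d =
      ∑ d ∈ Finset.Icc 1 ⌊D⌋₊, lp d / d - ∑ d ∈ Finset.Icc 1 ⌊D⌋₊, lm d / d := by
    rw [← Finset.sum_sub_distrib]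
    exact Finset.sum_congr rfl (fun d _ => by ring)
  rw [hc1, hc2] at hcop
  have hcard : Fintype.card (ZMod q)ˣ = Nat.totient q := ZMod.card_units_eq_totient q
  -- bounds for the full sum
  have hfull := ST_eq_sum_rs (s := s) hφ hT0 hX0 q (rough y) (rough_coprime hq hqy)
  have hfu : Hoh.ST φ s T X (rough y) ≤ Nat.totient q * (I / q * Sp + E) := by
    rw [hfull, ← hcard, ← nsmul_eq_mul, ← Finset.card_univ, ← Finset.sum_const]
    exact Finset.sum_le_sum (fun u _ => (hbd u u.isUnit).2)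
  have hfl : Nat.totient q * (I / q * Sm - E) ≤ Hoh.ST φ s T X (rough y) := by
    rw [hfull, ← hcard, ← nsmul_eq_mul, ← Finset.card_univ, ← Finset.sum_const]
    exact Finset.sum_le_sum (fun u _ => (hbd u u.isUnit).1)
  have hbu : Nat.totient q * Hoh.ST φ s T X (rs q b (rough y)) ≤
      Nat.totient q * (I / q * Sp + E) := mul_le_mul_of_nonneg_left (hbd b hb).2 hφ0.le
  have hbl : Nat.totient q * (I / q * Sm - E) ≤
      Nat.totient q * Hoh.ST φ s T X (rs q b (rough y)) :=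
    mul_le_mul_of_nonneg_left (hbd b hb).1 hφ0.le
  set B := C₀ * Real.exp (-c * (Real.log D / Real.log y)) * V y with hB
  have hS : ∑ d ∈ Finset.Icc 1 ⌊D⌋₊, lp d / d - ∑ d ∈ Finset.Icc 1 ⌊D⌋₊, lm d / d ≤ 2 * B := by
    rw [abs_le] at hlp hlm
    linarith [hlp.2, hlm.1]
  have hB0 : 0 ≤ B := (abs_nonneg _).trans hlp
  have hkey : Nat.totient q * (I / q * Sp + E) - Nat.totient q * (I / q * Sm - E) ≤
      2 * B + 2 * (q * E) := by
    have e1 : Nat.totient q * (I / q * Sp + E) - Nat.totient q * (I / q * Sm - E) =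
        I * ((Nat.totient q : ℝ) / q * (Sp - Sm)) + 2 * (Nat.totient q * E) := by
      field_simp
      ring
    rw [e1]
    have h1 : (Nat.totient q : ℝ) / q * (Sp - Sm) ≤ 2 * B := hcop.trans hS
    have h2 : I * ((Nat.totient q : ℝ) / q * (Sp - Sm)) ≤ 2 * B := by
      calc I * ((Nat.totient q : ℝ) / q * (Sp - Sm)) ≤ I * (2 * B) :=
            mul_le_mul_of_nonneg_left h1 hI0
        _ ≤ 1 * (2 * B) := mul_le_mul_of_nonneg_right hI1 (by linarith)
        _ = 2 * B := one_mul _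
    have h3 : (Nat.totient q : ℝ) * E ≤ q * E := mul_le_mul_of_nonneg_right hφq hE0
    linarith
  rw [abs_le]
  constructor
  · linarith
  · linarith

theorem gdiffQ (hCop : CopStmt) (hFL : FundLemma) (hV : VUpper) (hR : RecipPrimes)
    (φ : ℝ → ℝ) (hφ : Bump φ) : GdiffQ φ := by
  obtain ⟨c0, C0, hc0, hC0, hF⟩ := fundAsymp hFL φ hφ
  obtain ⟨c3, C3, hc3, hC3, hFL⟩ := hFL
  obtain ⟨C1, hC1, hV⟩ := hV
  obtain ⟨C2, hC2, hR⟩ := hR
  obtain ⟨M, hM0, hM⟩ := Bump.deriv_bdd hφ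
  have hFL' : ∀ y D : ℝ, 2 ≤ y → y ≤ D →
    ∃ lp lm : ℕ → ℝ,
    (∀ d, |lp d| ≤ 1 ∧ |lm d| ≤ 1) ∧
    (∀ d, (lp d ≠ 0 ∨ lm d ≠ 0) → 1 ≤ d ∧ (d : ℝ) ≤ D) ∧
    (∀ n : ℕ, n ≠ 0 → ∑ d ∈ n.divisors, lm d ≤ rough y n ∧ rough y n ≤ ∑ d ∈ n.divisors, lp d) ∧
    |∑ d ∈ Finset.Icc 1 ⌊D⌋₊, lp d / d - V y| ≤ C3 * Real.exp (-c3 * (Real.log D / Real.log y)) * V y ∧
    |∑ d ∈ Finset.Icc 1 ⌊D⌋₊, lm d / d - V y| ≤ C3 * Real.exp (-c3 * (Real.log D / Real.log y)) * V y :=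
    hFL
  set K := 2 * ((8 + M) * Real.exp 4) with hK
  have hK0 : 0 < K := by positivity
  set c := min c0 c3 / 8 with hc
  have hc0' : 0 < c := by positivity
  have hcc0 : 8 * c ≤ c0 := by
    rw [hc]; linarith [min_le_left c0 c3]
  have hcc3 : 8 * c ≤ c3 := by
    rw [hc]; linarith [min_le_right c0 c3]
  refine ⟨2 * (C0 * C1 + C1 * C2 + 3) + 2 * C3 * C1 + K, c, by positivity, hc0', ?_⟩
  intro η hη hη1 G hG
  refine ⟨Real.exp (1 + 1 / η + C0 * C1 / η ^ 2 + C1 * C2 / η ^ 3 + 128 * C0 / η + 128 / η), ?_⟩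
  intro x hx q hq hq8 hqη b hb X hX hXx
  set ℓ := Real.log x with hℓ
  have hx0 : 0 < x := lt_of_lt_of_le (Real.exp_pos _) hx
  have hℓbig : 1 + 1 / η + C0 * C1 / η ^ 2 + C1 * C2 / η ^ 3 + 128 * C0 / η + 128 / η ≤ ℓ := by
    rw [hℓ]
    exact (Real.le_log_iff_exp_le hx0).mpr hx
  have p1 : 0 < 1 / η := by positivity
  have p2 : 0 < C0 * C1 / η ^ 2 := by positivity
  have p3 : 0 < C1 * C2 / η ^ 3 := by positivity
  have p4 : 0 < 128 * C0 / η := by positivity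
  have p5 : 0 < 128 / η := by positivity
  have hℓ1 : 1 ≤ ℓ := by linarith
  have hℓ0 : 0 < ℓ := by linarith
  have hxexp : x = Real.exp ℓ := by rw [hℓ, Real.exp_log hx0]
  have hL : 0 < η * ℓ := by positivity
  have hL1 : 1 ≤ η * ℓ := by
    have : 1 / η ≤ ℓ := by linarith
    rw [div_le_iff₀ hη] at this
    linarith
  have hs0 : 0 < 1 / ℓ := by positivity
  have hs1 : 1 / ℓ ≤ 1 := by rw [div_le_one hℓ0]; exact hℓ1
  -- parameters
  set y := Real.exp (η * ℓ) with hy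
  set y' := Real.exp ((1 + η ^ 2) * (η * ℓ)) with hy'
  set D := Real.exp (ℓ / 4) with hD
  have hy2 : 2 ≤ y := by
    have h1 : Real.exp 1 ≤ y := Real.exp_le_exp.mpr hL1
    have h2 := Real.add_one_le_exp (1 : ℝ)
    linarith
  have hyy : y ≤ y' := by
    apply Real.exp_le_exp.mpr
    have h1 : 0 ≤ η ^ 2 * (η * ℓ) := by positivity
    linarith only [h1]
  have hη3 : (1 + η ^ 2) * η ≤ 1 / 4 := by
    have h7 : η ^ 2 ≤ 1 := pow_le_one₀ hη.le (by linarith only [hη1])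
    have h8 : (1 + η ^ 2) * η ≤ 2 * η :=
      mul_le_mul_of_nonneg_right (by linarith only [h7]) hη.le
    linarith only [h8, hη1]
  have hyD' : y' ≤ D := by
    apply Real.exp_le_exp.mpr
    have h1 : (1 + η ^ 2) * (η * ℓ) = ((1 + η ^ 2) * η) * ℓ := by ring
    rw [h1]
    have h2 := mul_le_mul_of_nonneg_right hη3 hℓ0.le
    linarith only [h2]
  have hyD : y ≤ D := hyy.trans hyD'
  have hlogy : Real.log y = η * ℓ := Real.log_exp _
  have hlogy' : Real.log y' = (1 + η ^ 2) * (η * ℓ) := Real.log_exp _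
  have hlogD : Real.log D = ℓ / 4 := Real.log_exp _
  have hsqrt : Real.sqrt x = Real.exp (ℓ / 2) := by
    rw [Real.sqrt_eq_rpow, hxexp, ← Real.exp_mul]
    ring_nf
  rw [hsqrt] at hX
  have hX1 : 1 ≤ X := (Real.one_le_exp (by positivity)).trans hX
  have hX0 : 0 < X := by linarith
  have hqy : (q : ℝ) ≤ y := by
    refine hqη.trans (le_of_eq ?_)
    rw [hy, hxexp, ← Real.exp_mul]
    ring_nf
  have hqy' : (q : ℝ) ≤ y' := hqy.trans hyy
  have hq0 : (0 : ℝ) ≤ q := Nat.cast_nonneg q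
  have hq8' : (q : ℝ) ≤ Real.exp (ℓ / 8) := by
    have h1 : (q : ℝ) ^ 8 ≤ Real.exp (ℓ / 8) ^ 8 := by
      refine hq8.trans (le_of_eq ?_)
      rw [hxexp, ← Real.exp_nat_mul]
      ring_nf
    exact le_of_pow_le_pow_left₀ (by norm_num) (Real.exp_pos _).le h1
  set e0 := Real.exp (-c / η) with he0
  have he0p : 0 < e0 := Real.exp_pos _
  have hVy : V y ≤ C1 / (η * ℓ) := by
    have := hV y hy2
    rwa [hlogy] at this
  have hVy0 : 0 ≤ V y := V_nonneg y
  obtain ⟨hVV1, hVV2⟩ := V_sub_le y y' hyy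
  have hrec := hR y y' hy2 hyy
  rw [hlogy, hlogy'] at hrec
  have hratio : (1 + η ^ 2) * (η * ℓ) / (η * ℓ) = 1 + η ^ 2 := by field_simp
  rw [hratio] at hrec
  have hlog1 : Real.log (1 + η ^ 2) ≤ η ^ 2 := by
    have := Real.log_le_sub_one_of_pos (by positivity : 0 < 1 + η ^ 2)
    linarith
  have hrec2 : ∑ p ∈ (Finset.Ioc ⌊y⌋₊ ⌊y'⌋₊).filter Nat.Prime, 1 / (p : ℝ) ≤
      C2 * (η ^ 2 + 1 / (η * ℓ)) := by
    refine hrec.trans (mul_le_mul_of_nonneg_left (by linarith) hC2.le)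
  have hE1 : ∀ c' : ℝ, 8 * c ≤ c' → Real.exp (-c' * (Real.log D / Real.log y)) ≤ e0 := by
    intro c' hc'
    apply Real.exp_le_exp.mpr
    rw [hlogD, hlogy]
    have h4 : ℓ / 4 / (η * ℓ) = 1 / (4 * η) := by field_simp
    rw [h4]
    have h5 : -c / η = -(8 * c) * (1 / (8 * η)) := by field_simp
    rw [h5]
    have h6 : 1 / (8 * η) ≤ 1 / (4 * η) :=
      one_div_le_one_div_of_le (by positivity) (by linarith only [hη])
    have h7 : 0 < 1 / (8 * η) := by positivity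
    have h8 := mul_le_mul hc' h6 h7.le (by linarith only [hc', hc0'])
    linarith only [h8]
  have hE2 : ∀ c' : ℝ, 8 * c ≤ c' → Real.exp (-c' * (Real.log D / Real.log y')) ≤ e0 := by
    intro c' hc'
    apply Real.exp_le_exp.mpr
    rw [hlogD, hlogy']
    have h4 : ℓ / 4 / ((1 + η ^ 2) * (η * ℓ)) = 1 / (4 * ((1 + η ^ 2) * η)) := by field_simp
    rw [h4]
    have h5 : -c / η = -(8 * c) * (1 / (8 * η)) := by field_simp
    rw [h5]
    have h6 : 1 / (8 * η) ≤ 1 / (4 * ((1 + η ^ 2) * η)) := by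
      apply one_div_le_one_div_of_le (by positivity)
      have h7 : η ^ 2 ≤ 1 := pow_le_one₀ hη.le (by linarith only [hη1])
      have h8 : (1 + η ^ 2) * η ≤ 2 * η :=
        mul_le_mul_of_nonneg_right (by linarith only [h7]) hη.le
      linarith only [h8]
    have h7 : 0 < 1 / (8 * η) := by positivity
    have h8 := mul_le_mul hc' h6 h7.le (by linarith only [hc', hc0'])
    linarith only [h8]
  have h1 := hF y D (1 / 4) X (1 / ℓ) hy2 hyD le_rfl hX1 hs0 hs1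
  have h2 := hF y' D (1 / 4) X (1 / ℓ) (hy2.trans hyy) hyD' le_rfl hX1 hs0 hs1
  have hDTX : C0 * D * (1 / 4) / X ≤ C0 * Real.exp (-(ℓ / 8)) := by
    have h3 : D * (1 / 4) / X ≤ Real.exp (-(ℓ / 8)) := by
      rw [div_le_iff₀ hX0]
      calc D * (1 / 4) ≤ Real.exp (ℓ / 4) * Real.exp (ℓ / 8) := by
            have : 1 ≤ Real.exp (ℓ / 8) := Real.one_le_exp (by positivity)
            exact mul_le_mul_of_nonneg_left (by linarith) (Real.exp_pos _).le
        _ = Real.exp (-(ℓ / 8)) * Real.exp (ℓ / 2) := by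
            rw [← Real.exp_add, ← Real.exp_add]
            ring_nf
        _ ≤ Real.exp (-(ℓ / 8)) * X := mul_le_mul_of_nonneg_left hX (Real.exp_pos _).le
    calc C0 * D * (1 / 4) / X = C0 * (D * (1 / 4) / X) := by ring
      _ ≤ _ := mul_le_mul_of_nonneg_left h3 hC0.le
  have hVy'0 : 0 ≤ V y' := V_nonneg y'
  have hb1 : C0 * (Real.exp (-c0 * (Real.log D / Real.log y)) + 1 / ℓ) * V y ≤
      C0 * (e0 + 1 / ℓ) * V y := by
    have := hE1 c0 hcc0
    gcongr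
  have hb2 : C0 * (Real.exp (-c0 * (Real.log D / Real.log y')) + 1 / ℓ) * V y' ≤
      C0 * (e0 + 1 / ℓ) * V y := by
    have := hE2 c0 hcc0
    gcongr
  have hφ0 : 0 ≤ ∫ v, φ v := MeasureTheory.integral_nonneg hφ.nonneg
  have hφ1 : ∫ v, φ v ≤ 1 := by
    rw [Bump.integral_eq hφ]
    calc ∫ v in (0 : ℝ)..1, φ v ≤ ∫ _ in (0 : ℝ)..1, (1 : ℝ) := by
          apply intervalIntegral.integral_mono_on zero_le_one
          · exact hφ.smooth.continuous.intervalIntegrable _ _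
          · simp
          · intro v _
            exact hφ.le_one v
      _ = 1 := by simp
  have hXs1 : X ^ (-(1 / ℓ)) ≤ 1 := Real.rpow_le_one_of_one_le_of_nonpos hX1 (by linarith)
  have hXs0 : 0 ≤ X ^ (-(1 / ℓ)) := by positivity
  have hMV : V y * X ^ (-(1 / ℓ)) * (∫ v, φ v) - V y' * X ^ (-(1 / ℓ)) * (∫ v, φ v) ≤
      V y * (C2 * (η ^ 2 + 1 / (η * ℓ))) := by
    have e1 : V y * X ^ (-(1 / ℓ)) * (∫ v, φ v) - V y' * X ^ (-(1 / ℓ)) * (∫ v, φ v) =
        (V y - V y') * (X ^ (-(1 / ℓ)) * ∫ v, φ v) := by ring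
    rw [e1]
    have e2 : X ^ (-(1 / ℓ)) * (∫ v, φ v) ≤ 1 := mul_le_one₀ hXs1 hφ0 hφ1
    have e3 : 0 ≤ V y - V y' := by linarith
    calc (V y - V y') * (X ^ (-(1 / ℓ)) * ∫ v, φ v) ≤ (V y - V y') * 1 :=
          mul_le_mul_of_nonneg_left e2 e3
      _ = V y - V y' := mul_one _
      _ ≤ V y * ∑ p ∈ (Finset.Ioc ⌊y⌋₊ ⌊y'⌋₊).filter Nat.Prime, 1 / (p : ℝ) := hVV2
      _ ≤ V y * (C2 * (η ^ 2 + 1 / (η * ℓ))) := mul_le_mul_of_nonneg_left hrec2 hVy0
  -- difference between the two rough functions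
  have hTq : (0 : ℝ) < 1 / 4 := by norm_num
  have hrr : Hoh.ST φ (1 / ℓ) (1 / 4) X (rough y) - Hoh.ST φ (1 / ℓ) (1 / 4) X (rough y') ≤
      2 * (C0 * (e0 + 1 / ℓ) * V y + C0 * Real.exp (-(ℓ / 8))) +
        V y * (C2 * (η ^ 2 + 1 / (η * ℓ))) := by
    rw [abs_le] at h1 h2
    linarith [h1.2, h2.1]
  -- equidistribution
  have hK2 : 2 * (q * (D * ((8 + M) * Real.exp 4 * (1 / 4) / X))) ≤
      K * Real.exp (-(ℓ / 8)) := by
    have h3 : (q : ℝ) * D / X ≤ Real.exp (-(ℓ / 8)) := by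
      rw [div_le_iff₀ hX0]
      calc (q : ℝ) * D ≤ Real.exp (ℓ / 8) * Real.exp (ℓ / 4) :=
            mul_le_mul_of_nonneg_right hq8' (Real.exp_pos _).le
        _ = Real.exp (-(ℓ / 8)) * Real.exp (ℓ / 2) := by
            rw [← Real.exp_add, ← Real.exp_add]
            ring_nf
        _ ≤ Real.exp (-(ℓ / 8)) * X := mul_le_mul_of_nonneg_left hX (Real.exp_pos _).le
    calc 2 * (q * (D * ((8 + M) * Real.exp 4 * (1 / 4) / X))) = K * (1 / 4) * (q * D / X) := by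
          rw [hK]; ring
      _ ≤ K * (1 / 4) * Real.exp (-(ℓ / 8)) := by gcongr
      _ ≤ K * Real.exp (-(ℓ / 8)) := by
          have := mul_pos hK0 (Real.exp_pos (-(ℓ / 8)))
          linarith only [this]
  have hq1 := rough_class_diff hCop hFL' hφ M hM hs0 hs1 le_rfl hX1 y D hy2 hyD q hq hqy b hb
  have hq2 := rough_class_diff hCop hFL' hφ M hM hs0 hs1 le_rfl hX1 y' D (hy2.trans hyy) hyD' q hq
    hqy' b hb
  have hB1 : 2 * (C3 * Real.exp (-c3 * (Real.log D / Real.log y)) * V y) ≤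
      2 * (C3 * e0 * V y) := by
    have := hE1 c3 hcc3
    gcongr
  have hB2 : 2 * (C3 * Real.exp (-c3 * (Real.log D / Real.log y')) * V y') ≤
      2 * (C3 * e0 * V y) := by
    have := hE2 c3 hcc3
    gcongr
  have htot : (0 : ℝ) ≤ Nat.totient q := Nat.cast_nonneg _
  -- monotonicity
  have hup : Hoh.ST φ (1 / ℓ) (1 / 4) X (gg G (η * ℓ)) ≤ Hoh.ST φ (1 / ℓ) (1 / 4) X (rough y) :=
    ST_mono_win hφ hTq hX0 _ _ (fun n _ _ => gg_le_rough hG.nonneg hG.le_one hG.zero hL n)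
  have hlo : Hoh.ST φ (1 / ℓ) (1 / 4) X (rough y') ≤ Hoh.ST φ (1 / ℓ) (1 / 4) X (gg G (η * ℓ)) :=
    ST_mono_win hφ hTq hX0 _ _ (fun n _ _ => rough_le_gg hG hL n)
  have hupq : Hoh.ST φ (1 / ℓ) (1 / 4) X (rs q b (gg G (η * ℓ))) ≤
      Hoh.ST φ (1 / ℓ) (1 / 4) X (rs q b (rough y)) := by
    refine ST_mono_win hφ hTq hX0 _ _ (fun n _ _ => ?_)
    show (if (n : ZMod q) = b then gg G (η * ℓ) n else 0) ≤
      (if (n : ZMod q) = b then rough y n else 0)
    split_ifs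
    · exact gg_le_rough hG.nonneg hG.le_one hG.zero hL n
    · exact le_rfl
  have hloq : Hoh.ST φ (1 / ℓ) (1 / 4) X (rs q b (rough y')) ≤
      Hoh.ST φ (1 / ℓ) (1 / 4) X (rs q b (gg G (η * ℓ))) := by
    refine ST_mono_win hφ hTq hX0 _ _ (fun n _ _ => ?_)
    show (if (n : ZMod q) = b then rough y' n else 0) ≤
      (if (n : ZMod q) = b then gg G (η * ℓ) n else 0)
    split_ifs
    · exact rough_le_gg hG hL n
    · exact le_rfl
  have hupq' := mul_le_mul_of_nonneg_left hupq htot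
  have hloq' := mul_le_mul_of_nonneg_left hloq htot
  -- final bookkeeping
  have hexp8 : Real.exp (-(ℓ / 8)) ≤ 128 / ℓ ^ 2 := by
    have h1 : (ℓ / 8) ^ 2 / 2 ≤ Real.exp (ℓ / 8) := by
      have h3 := Real.quadratic_le_exp_of_nonneg (by positivity : 0 ≤ ℓ / 8)
      linarith only [h3, hℓ0]
    rw [Real.exp_neg, inv_le_comm₀ (Real.exp_pos _) (by positivity)]
    calc (128 / ℓ ^ 2)⁻¹ = (ℓ / 8) ^ 2 / 2 := by
          rw [inv_div]; ring
      _ ≤ _ := h1
  have hB : C0 * (e0 + 1 / ℓ) * V y + C0 * Real.exp (-(ℓ / 8)) +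
      V y * (C2 * (η ^ 2 + 1 / (η * ℓ))) ≤
      (C0 * C1 + C1 * C2 + 3) * (η + e0 / η) / ℓ := by
    have q1 : C0 * (e0 + 1 / ℓ) * V y ≤ C0 * (e0 + 1 / ℓ) * (C1 / (η * ℓ)) := by gcongr
    have q2 : V y * (C2 * (η ^ 2 + 1 / (η * ℓ))) ≤
        (C1 / (η * ℓ)) * (C2 * (η ^ 2 + 1 / (η * ℓ))) := by gcongr
    have q3 : C0 * (e0 + 1 / ℓ) * (C1 / (η * ℓ)) = C0 * C1 * (e0 / η) / ℓ +
        (C0 * C1 / η ^ 2) * (η / ℓ) / ℓ := by
      field_simp
    have q4 : (C1 / (η * ℓ)) * (C2 * (η ^ 2 + 1 / (η * ℓ))) = C1 * C2 * η / ℓ +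
        (C1 * C2 / η ^ 3) * (η / ℓ) / ℓ := by
      field_simp
    have q5 : (C0 * C1 / η ^ 2) * (η / ℓ) / ℓ ≤ η / ℓ := by
      have h1 : C0 * C1 / η ^ 2 ≤ ℓ := by linarith
      calc (C0 * C1 / η ^ 2) * (η / ℓ) / ℓ ≤ ℓ * (η / ℓ) / ℓ := by gcongr
        _ = η / ℓ := by field_simp
    have q6 : (C1 * C2 / η ^ 3) * (η / ℓ) / ℓ ≤ η / ℓ := by
      have h1 : C1 * C2 / η ^ 3 ≤ ℓ := by linarith
      calc (C1 * C2 / η ^ 3) * (η / ℓ) / ℓ ≤ ℓ * (η / ℓ) / ℓ := by gcongr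
        _ = η / ℓ := by field_simp
    have q7 : C0 * Real.exp (-(ℓ / 8)) ≤ η / ℓ := by
      have h1 : 128 * C0 / η ≤ ℓ := by linarith
      calc C0 * Real.exp (-(ℓ / 8)) ≤ C0 * (128 / ℓ ^ 2) := by gcongr
        _ = (128 * C0 / η) * (η / ℓ) / ℓ := by field_simp
        _ ≤ ℓ * (η / ℓ) / ℓ := by gcongr
        _ = η / ℓ := by field_simp
    have q8 : (C0 * C1 + C1 * C2 + 3) * (η + e0 / η) / ℓ =
        C0 * C1 * (e0 / η) / ℓ + C1 * C2 * η / ℓ + 3 * (η / ℓ) +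
        (C0 * C1 * η / ℓ + C1 * C2 * (e0 / η) / ℓ + 3 * (e0 / η) / ℓ) := by
      ring
    have q9 : 0 ≤ C0 * C1 * η / ℓ + C1 * C2 * (e0 / η) / ℓ + 3 * (e0 / η) / ℓ := by positivity
    rw [q8]
    linarith
  have hB' : 2 * (C3 * e0 * V y) ≤ 2 * C3 * C1 * (η + e0 / η) / ℓ := by
    have q1 : 2 * (C3 * e0 * V y) ≤ 2 * (C3 * e0 * (C1 / (η * ℓ))) := by gcongr
    have q2 : 2 * (C3 * e0 * (C1 / (η * ℓ))) = 2 * C3 * C1 * (e0 / η) / ℓ := by field_simp
    have q3 : 2 * C3 * C1 * (η + e0 / η) / ℓ = 2 * C3 * C1 * (e0 / η) / ℓ +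
        2 * C3 * C1 * η / ℓ := by ring
    have q4 : 0 ≤ 2 * C3 * C1 * η / ℓ := by positivity
    linarith
  have hK3 : K * Real.exp (-(ℓ / 8)) ≤ K * (η + e0 / η) / ℓ := by
    have h1 : 128 / η ≤ ℓ := by linarith
    have q7 : K * Real.exp (-(ℓ / 8)) ≤ K * (η / ℓ) := by
      apply mul_le_mul_of_nonneg_left _ hK0.le
      calc Real.exp (-(ℓ / 8)) ≤ 128 / ℓ ^ 2 := hexp8
        _ = (128 / η) * (η / ℓ) / ℓ := by field_simp
        _ ≤ ℓ * (η / ℓ) / ℓ := by gcongr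
        _ = η / ℓ := by field_simp
    have q8 : K * (η + e0 / η) / ℓ = K * (η / ℓ) + K * (e0 / η) / ℓ := by ring
    have q9 : 0 ≤ K * (e0 / η) / ℓ := by positivity
    linarith
  have hM00 : 0 ≤ V y * (C2 * (η ^ 2 + 1 / (η * ℓ))) := by positivity
  have hsum : 2 * ((C0 * C1 + C1 * C2 + 3) * (η + e0 / η) / ℓ) +
      2 * C3 * C1 * (η + e0 / η) / ℓ + K * (η + e0 / η) / ℓ =
      (2 * (C0 * C1 + C1 * C2 + 3) + 2 * C3 * C1 + K) * (η + e0 / η) / ℓ := by ring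
  rw [← hsum]
  rw [abs_le] at hq1 hq2 ⊢
  constructor
  · linarith only [hq2.1, hloq', hup, hrr, hB2, hK2, hB, hB', hK3, hM00]
  · linarith only [hq1.2, hupq', hlo, hrr, hB1, hK2, hB, hB', hK3, hM00]

end Lnk
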