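import Pool.Agent.Lib.Linnik.Blocks

/-!
# Modules I1 and I2: bounds for sifted L-series
-/

set_option autoImplicit false

namespace Lnk

open MeasureTheory Set Hoh Filter Topology

/-- The majorant of block number `j`. -/
noncomputable def Aj (c C CV : ℝ) (j : ℕ) : ℝ :=
  ((j : ℝ) + 1) * (8 * (1 / 5) ^ j + 3 * C * CV * Real.exp (-c / 2) ^ j)

lemma Aj_nonneg {c C CV : ℝ} (hC : 0 < C) (hCV : 0 < CV) (j : ℕ) : 0 ≤ Aj c C CV j := by
  unfold Aj
  positivity

lemma Aj_summable {c C CV : ℝ} (hc : 0 < c) : Summable (Aj c C CV) := by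
  have h1 : ∀ r : ℝ, 0 ≤ r → r < 1 → Summable fun j : ℕ => ((j : ℝ) + 1) * r ^ j := by
    intro r hr0 hr1
    have h2 := summable_pow_mul_geometric_of_norm_lt_one 1 (r := r)
      (by rwa [Real.norm_of_nonneg hr0])
    have h3 := summable_geometric_of_lt_one hr0 hr1
    simpa [add_mul] using h2.add h3
  have h2 : Real.exp (-c / 2) < 1 := by
    rw [Real.exp_lt_one_iff]
    linarith
  have h3 := (h1 (1 / 5) (by norm_num) (by norm_num)).mul_left 8
  have h4 := (h1 _ (Real.exp_nonneg _) h2).mul_left (3 * C * CV)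
  refine (h3.add h4).congr fun j => ?_
  unfold Aj
  ring

/-- The constant. -/
noncomputable def C0 (c C CV : ℝ) : ℝ := 2 * ((1 + C) * CV + 3) + ∑' j, Aj c C CV j

lemma rough_small {y : ℝ} {n : ℕ} (hn : 2 ≤ n) (hny : (n : ℝ) ≤ y) : rough y n = 0 := by
  rw [rough_apply, if_neg]
  rintro ⟨-, h⟩
  have h1 := h _ (Nat.minFac_prime (by omega : n ≠ 1)) (Nat.minFac_dvd n)
  have h2 : (n.minFac : ℝ) ≤ n := by exact_mod_cast Nat.minFac_le (by omega)
  linarith

lemma rough_one {y : ℝ} : rough y 1 = 1 := by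
  rw [rough_apply, if_pos]
  refine ⟨one_ne_zero, fun p hp h => ?_⟩
  exact absurd (Nat.dvd_one.1 h) hp.ne_one

/-- Bound for partial sums. -/
theorem partial_sum {c C CV : ℝ} (hFL : FL c C CV) {y : ℝ} (hy : 5 ≤ Real.sqrt (Real.sqrt y))
    {ψ : ℕ → ℂ} (hψ : ∀ n, ‖ψ n‖ ≤ 1) (hmul : ∀ m n, ψ (m * n) = ψ m * ψ n)
    (κ : ℂ) (hκ : κ = 0 ∨ (κ = 1 ∧ ψ = fun _ => 1))
    {P : ℝ} (hP : ∀ t : ℝ, 0 ≤ t → ‖∑ k ∈ Finset.Icc 0 ⌊t⌋₊, ψ k - κ * t‖ ≤ P)
    {b K : ℝ} {f f' : ℝ → ℂ} (hPK : P * (2 + K) ≤ 2 * Real.sqrt (Real.sqrt y))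
    (hf : ∀ t : ℝ, 1 ≤ t → HasDerivAt f (f' t) t)
    (hf' : ContinuousOn f' (Ici 1)) (hb0 : 0 ≤ b) (hK0 : 0 ≤ K)
    (hB : ∀ j : ℕ, ∀ t ∈ Icc (y ^ j) (y ^ (j + 1)), ‖f t‖ ≤ b * (j + 1) / t)
    (hK : ∀ j : ℕ, ∀ t ∈ Icc (y ^ j) (y ^ (j + 1)), ‖f' t‖ ≤ b * (j + 1) * K / t ^ 2)
    (J : ℕ) (hJ : 1 ≤ J) :
    ‖∑ n ∈ Finset.Ioc 0 ⌊y ^ J⌋₊, f n * ψ n * rough y n -
      κ * Hoh.V y * ∑ j ∈ Finset.Ico 2 J, ∫ t in (y ^ j)..(y ^ (j + 1)), f t‖ ≤
      ‖f 1‖ + b * C0 c C CV := by
  have hz0 : 0 < Real.sqrt (Real.sqrt y) := by linarith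
  have hzz : Real.sqrt (Real.sqrt y) * Real.sqrt (Real.sqrt y) = Real.sqrt y :=
    Real.mul_self_sqrt (Real.sqrt_nonneg _)
  set z : ℝ := Real.sqrt (Real.sqrt y) with hz
  have hsy : 25 ≤ Real.sqrt y := by nlinarith
  have hy0' : 0 < y := by
    by_contra hcon
    push Not at hcon
    rw [Real.sqrt_eq_zero_of_nonpos hcon] at hsy
    linarith
  have hyy : Real.sqrt y * Real.sqrt y = y := Real.mul_self_sqrt hy0'.le
  have hy2 : 2 ≤ y := by nlinarith
  have hy1 : 1 ≤ y := by linarith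
  have hly : 0 < Real.log y := Real.log_pos (by linarith)
  have hC := hFL.hC
  have hCV := hFL.hCV
  -- the block sums
  set T : ℕ → ℂ := fun j => ∑ n ∈ Finset.Ioc ⌊y ^ j⌋₊ ⌊y ^ (j + 1)⌋₊, f n * ψ n * rough y n
    with hT
  have hsplit : ∀ J : ℕ, 1 ≤ J → ∑ n ∈ Finset.Ioc 0 ⌊y ^ J⌋₊, f n * ψ n * rough y n =
      f 1 * ψ 1 + ∑ j ∈ Finset.Ico 1 J, T j := by
    intro J hJ
    induction J, hJ using Nat.le_induction with
    | base =>
      simp only [pow_one, Finset.Ico_self, Finset.sum_empty, add_zero]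
      rw [Finset.sum_eq_single 1]
      · rw [rough_one]
        simp
      · intro n hn hn1
        rw [Finset.mem_Ioc] at hn
        rw [rough_small (by omega) ((Nat.le_floor_iff hy0'.le).1 hn.2)]
        simp
      · intro h
        exfalso
        apply h
        rw [Finset.mem_Ioc]
        exact ⟨one_pos, Nat.le_floor (by simpa using hy1)⟩
    | succ J hJ ih =>
      rw [Finset.sum_Ico_succ_top hJ, ← add_assoc, ← ih, hT]
      simp only
      rw [← Finset.sum_union]
      · congr 1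
        ext n
        have : ⌊y ^ J⌋₊ ≤ ⌊y ^ (J + 1)⌋₊ :=
          Nat.floor_le_floor (pow_le_pow_right₀ hy1 (by omega))
        simp only [Finset.mem_union, Finset.mem_Ioc]
        omega
      · rw [Finset.disjoint_left]
        intro n hn hn'
        rw [Finset.mem_Ioc] at hn hn'
        omega
  -- block one
  have hT1 : ‖T 1‖ ≤ b * (2 * ((1 + C) * CV + 3)) := by
    have h1 := block_one hFL hy2
    simp only [hT]
    refine (norm_sum_le _ _).trans ?_
    have h2 : ∀ n ∈ Finset.Ioc ⌊y ^ 1⌋₊ ⌊y ^ (1 + 1)⌋₊, ‖f n * ψ n * rough y n‖ ≤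
        2 * b * ((1 / (n : ℝ)) * rough y n) := by
      intro n hn
      rw [Finset.mem_Ioc] at hn
      have hn1 : (0 : ℝ) < n := by exact_mod_cast (by omega : 0 < n)
      have hnmem : (n : ℝ) ∈ Icc (y ^ 1) (y ^ (1 + 1)) := by
        constructor
        · exact ((Nat.floor_lt (by positivity)).1 hn.1).le
        · exact (Nat.le_floor_iff (by positivity)).1 hn.2
      have h3 := hB 1 n hnmem
      have h4 := rough_nonneg y n
      rw [norm_mul, norm_mul, Complex.norm_real, Real.norm_of_nonneg h4]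
      calc ‖f n‖ * ‖ψ n‖ * rough y n ≤ (b * ((1 : ℕ) + 1) / n) * 1 * rough y n := by
            gcongr
            exact hψ n
        _ = 2 * b * ((1 / (n : ℝ)) * rough y n) := by
            push_cast
            ring
    refine (Finset.sum_le_sum h2).trans ?_
    rw [← Finset.mul_sum]
    calc 2 * b * _ ≤ 2 * b * ((1 + C) * CV + 3) := by gcongr
      _ = _ := by ring
  -- the other blocks
  have hTj : ∀ j : ℕ, 2 ≤ j →
      ‖T j - κ * Hoh.V y * ∫ t in (y ^ j)..(y ^ (j + 1)), f t‖ ≤ b * Aj c C CV j := by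
    intro j hj
    have hYpos : 0 < y ^ j := by positivity
    have hY1 : 1 ≤ y ^ j := one_le_pow₀ hy1
    have hYY' : y ^ j ≤ y ^ (j + 1) := pow_le_pow_right₀ hy1 (by omega)
    have hB0 : 0 ≤ b * ((j : ℝ) + 1) := by positivity
    obtain ⟨G, hG1, hG2⟩ := block_est hFL hy2 hj hψ hmul κ hP (B := b * (j + 1)) (K := K)
      (f := f) (f' := f') (fun t ht => hf t (hY1.trans ht.1))
      (hf'.mono fun t ht => hY1.trans ht.1) hB0 hK0 (hB j) (hK j)
    -- the integral
    have hI : ‖∫ t in (y ^ j)..(y ^ (j + 1)), f t‖ ≤ b * (j + 1) * Real.log y := by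
      have h1 : ‖∫ t in (y ^ j)..(y ^ (j + 1)), f t‖ ≤
          ∫ t in (y ^ j)..(y ^ (j + 1)), b * (j + 1) * t⁻¹ := by
        apply intervalIntegral.norm_integral_le_of_norm_le hYY'
        · refine Filter.Eventually.of_forall fun t ht => ?_
          rw [← div_eq_mul_inv]
          exact hB j t (Ioc_subset_Icc_self ht)
        · apply ContinuousOn.intervalIntegrable
          rw [uIcc_of_le hYY']
          intro t ht
          have ht0 : t ≠ 0 := (hYpos.trans_le ht.1).ne'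
          apply ContinuousAt.continuousWithinAt
          fun_prop (disch := positivity)
      rw [intervalIntegral.integral_const_mul, integral_inv_of_pos hYpos
        (hYpos.trans_le hYY')] at h1
      have hlog : Real.log (y ^ (j + 1) / y ^ j) = Real.log y := by
        congr 1
        rw [pow_succ]
        field_simp
      rwa [hlog] at h1
    have hexp : Real.exp (-c * (j / 2)) = Real.exp (-c / 2) ^ j := by
      rw [← Real.exp_nat_mul]
      congr 1
      ring
    have h2 : ‖κ * (G - Hoh.V y) * ∫ t in (y ^ j)..(y ^ (j + 1)), f t‖ ≤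
        b * (j + 1) * (C * CV * Real.exp (-c / 2) ^ j) := by
      rcases hκ with h0 | ⟨h0, h0'⟩
      · rw [h0]
        simp only [zero_mul, norm_zero]
        positivity
      · rw [h0, one_mul, norm_mul]
        have h3 := hG1 h0'
        have h10 : Hoh.V y * Real.log y ≤ CV := by
          rw [← le_div_iff₀ hly]
          exact hFL.V y hy2
        have hVn := V_nonneg y
        rw [hexp] at h3
        calc _ ≤ (C * Real.exp (-c / 2) ^ j * Hoh.V y) * (b * (j + 1) * Real.log y) := by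
              gcongr
          _ = b * (j + 1) * (C * Real.exp (-c / 2) ^ j * (Hoh.V y * Real.log y)) := by ring
          _ ≤ b * (j + 1) * (C * Real.exp (-c / 2) ^ j * CV) := by gcongr
          _ = _ := by ring
    have h4 : (P * (2 + K) + 6) * ((Real.sqrt y) ^ j)⁻¹ ≤ 8 * (1 / 5) ^ j := by
      have e1 : (Real.sqrt y) ^ j = z ^ j * z ^ j := by rw [← hzz, mul_pow]
      have e2 : z ≤ z ^ j := by
        calc z = z ^ 1 := (pow_one z).symm
          _ ≤ z ^ j := pow_le_pow_right₀ (by linarith) (by omega)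
      have e3 : (5 : ℝ) ^ j ≤ z ^ j := by gcongr
      have e4 : 0 < z ^ j := by positivity
      calc (P * (2 + K) + 6) * ((Real.sqrt y) ^ j)⁻¹ ≤ (8 * z ^ j) * (z ^ j * z ^ j)⁻¹ := by
            rw [e1]
            gcongr
            linarith
        _ = 8 * (z ^ j)⁻¹ := by field_simp
        _ ≤ 8 * (5 ^ j)⁻¹ := by gcongr
        _ = 8 * (1 / 5) ^ j := by rw [one_div, inv_pow]
    calc ‖T j - κ * Hoh.V y * ∫ t in (y ^ j)..(y ^ (j + 1)), f t‖
        = ‖(T j - κ * G * ∫ t in (y ^ j)..(y ^ (j + 1)), f t) +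
            κ * (G - Hoh.V y) * ∫ t in (y ^ j)..(y ^ (j + 1)), f t‖ := by
          congr 1
          ring
      _ ≤ b * (j + 1) * (8 * (1 / 5) ^ j + 2 * C * CV * Real.exp (-c / 2) ^ j) +
          b * (j + 1) * (C * CV * Real.exp (-c / 2) ^ j) := by
          refine (norm_add_le _ _).trans (add_le_add ?_ h2)
          rw [hexp] at hG2
          refine hG2.trans ?_
          gcongr
      _ = b * Aj c C CV j := by
          unfold Aj
          ring
  -- assembly
  rcases Nat.eq_or_lt_of_le hJ with rfl | hJ2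
  · rw [hsplit 1 le_rfl]
    have hS : 0 ≤ ∑' j, Aj c C CV j := tsum_nonneg (fun j => Aj_nonneg (c := c) hC hCV j)
    have h5 : 0 ≤ b * C0 c C CV := by
      unfold C0
      positivity
    simp only [Finset.Ico_self, Finset.sum_empty, add_zero]
    rw [Finset.Ico_eq_empty (by omega), Finset.sum_empty, mul_zero, sub_zero, norm_mul]
    have h6 : ‖f 1‖ * ‖ψ 1‖ ≤ ‖f 1‖ * 1 := by
      gcongr
      exact hψ 1
    linarith
  · rw [hsplit J hJ, Finset.sum_eq_sum_Ico_succ_bot hJ2]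
    have h7 : f 1 * ψ 1 + (T 1 + ∑ j ∈ Finset.Ico (1 + 1) J, T j) -
        κ * Hoh.V y * ∑ j ∈ Finset.Ico 2 J, ∫ t in (y ^ j)..(y ^ (j + 1)), f t =
        f 1 * ψ 1 + T 1 + ∑ j ∈ Finset.Ico 2 J,
          (T j - κ * Hoh.V y * ∫ t in (y ^ j)..(y ^ (j + 1)), f t) := by
      rw [Finset.sum_sub_distrib, ← Finset.mul_sum]
      ring
    rw [h7]
    have h8 : ‖∑ j ∈ Finset.Ico 2 J,
        (T j - κ * Hoh.V y * ∫ t in (y ^ j)..(y ^ (j + 1)), f t)‖ ≤ b * ∑' j, Aj c C CV j := by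
      refine (norm_sum_le _ _).trans ?_
      refine (Finset.sum_le_sum fun j hj => hTj j (Finset.mem_Ico.1 hj).1).trans ?_
      rw [← Finset.mul_sum]
      gcongr
      exact (Aj_summable hFL.hc).sum_le_tsum _ fun j _ => Aj_nonneg hC hCV j
    have h9 : ‖f 1 * ψ 1‖ ≤ ‖f 1‖ := by
      rw [norm_mul]
      calc ‖f 1‖ * ‖ψ 1‖ ≤ ‖f 1‖ * 1 := by
            gcongr
            exact hψ 1
        _ = _ := mul_one _
    calc _ ≤ ‖f 1 * ψ 1‖ + ‖T 1‖ + ‖∑ j ∈ Finset.Ico 2 J,
          (T j - κ * Hoh.V y * ∫ t in (y ^ j)..(y ^ (j + 1)), f t)‖ := norm_add₃_le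
      _ ≤ ‖f 1‖ + b * (2 * ((1 + C) * CV + 3)) + b * ∑' j, Aj c C CV j := by gcongr
      _ = ‖f 1‖ + b * C0 c C CV := by
          unfold C0
          ring

/-- Passing to the limit along `y ^ J`. -/
lemma le_of_partial {y : ℝ} (hy : 1 < y) {a : ℕ → ℂ} (ha0 : a 0 = 0) {S : ℂ} (hS : HasSum a S)
    {R : ℕ → ℂ} {M : ℝ}
    (h : ∀ J : ℕ, 1 ≤ J → ‖∑ n ∈ Finset.Ioc 0 ⌊y ^ J⌋₊, a n - R J‖ ≤ M) {M' : ℝ}
    (hR : ∀ J, ‖R J‖ ≤ M') : ‖S‖ ≤ M + M' := by
  have h1 : Tendsto (fun J : ℕ => ∑ n ∈ Finset.range (⌊y ^ J⌋₊ + 1), a n) atTop (𝓝 S) := by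
    refine hS.tendsto_sum_nat.comp ?_
    refine (tendsto_add_atTop_nat 1).comp ?_
    exact tendsto_nat_floor_atTop.comp (tendsto_pow_atTop_atTop_of_one_lt hy)
  refine le_of_tendsto h1.norm ?_
  filter_upwards [eventually_ge_atTop 1] with J hJ
  have h2 : ∑ n ∈ Finset.range (⌊y ^ J⌋₊ + 1), a n = ∑ n ∈ Finset.Ioc 0 ⌊y ^ J⌋₊, a n := by
    rw [Finset.range_eq_Ico, Finset.sum_eq_sum_Ico_succ_bot (by omega), ha0, zero_add]
    rfl
  rw [h2]
  calc ‖∑ n ∈ Finset.Ioc 0 ⌊y ^ J⌋₊, a n‖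
      = ‖(∑ n ∈ Finset.Ioc 0 ⌊y ^ J⌋₊, a n - R J) + R J‖ := by rw [sub_add_cancel]
    _ ≤ M + M' := (norm_add_le _ _).trans (add_le_add (h J hJ) (hR J))

/-! ### The functions `t ^ (-s)` and `t ^ (-s) log t` -/

lemma norm_cpow_neg {s : ℂ} {t : ℝ} (ht : 0 < t) : ‖(t : ℂ) ^ (-s)‖ = t ^ (-s.re) := by
  rw [Complex.norm_cpow_eq_rpow_re_of_pos ht, Complex.neg_re]

lemma norm_cpow_le {s : ℂ} (hs : 1 ≤ s.re) {t : ℝ} (ht : 1 ≤ t) : ‖(t : ℂ) ^ (-s)‖ ≤ 1 / t := by
  rw [norm_cpow_neg (by linarith)]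
  calc t ^ (-s.re) ≤ t ^ (-1 : ℝ) := Real.rpow_le_rpow_of_exponent_le ht (by linarith)
    _ = 1 / t := by rw [Real.rpow_neg_one, one_div]

lemma hasDerivAt_cpow {s : ℂ} {t : ℝ} (ht : 1 ≤ t) :
    HasDerivAt (fun t : ℝ => (t : ℂ) ^ (-s)) (-s * (t : ℂ) ^ (-(s + 1))) t := by
  have h1 : HasDerivAt (fun z : ℂ => z ^ (-s)) (-s * (t : ℂ) ^ (-s - 1) * 1) (t : ℂ) :=
    (hasDerivAt_id (t : ℂ)).cpow_const (Complex.ofReal_mem_slitPlane.2 (by linarith))
  have h2 := h1.comp_ofReal
  rw [mul_one] at h2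
  convert h2 using 3
  ring

lemma continuousOn_cpow (s : ℂ) : ContinuousOn (fun t : ℝ => (t : ℂ) ^ (-s)) (Ici 1) :=
  fun _ ht => (hasDerivAt_cpow ht).continuousAt.continuousWithinAt

lemma hasDerivAt_cpow_log {s : ℂ} {t : ℝ} (ht : 1 ≤ t) :
    HasDerivAt (fun t : ℝ => (t : ℂ) ^ (-s) * (Real.log t : ℂ))
      (-s * (t : ℂ) ^ (-(s + 1)) * (Real.log t : ℂ) + (t : ℂ) ^ (-s) * ((t⁻¹ : ℝ) : ℂ)) t := by
  have h1 := (Real.hasDerivAt_log (by linarith : t ≠ 0)).ofReal_comp
  exact (hasDerivAt_cpow ht).mul h1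

lemma log_le_block {y : ℝ} (hy : 1 ≤ y) {j : ℕ} {t : ℝ} (ht : t ∈ Icc (y ^ j) (y ^ (j + 1))) :
    0 ≤ Real.log t ∧ Real.log t ≤ (j + 1) * Real.log y := by
  have h1 : 1 ≤ t := (one_le_pow₀ hy).trans ht.1
  refine ⟨Real.log_nonneg h1, ?_⟩
  have h2 := Real.log_le_log (by linarith) ht.2
  rw [Real.log_pow] at h2
  push_cast at h2
  exact h2

lemma quarter {a y : ℝ} (h : a ^ 4 ≤ y) : a ≤ Real.sqrt (Real.sqrt y) := by
  apply Real.le_sqrt_of_sq_le
  apply Real.le_sqrt_of_sq_le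
  calc (a ^ 2) ^ 2 = a ^ 4 := by ring
    _ ≤ y := h

/-- I1 -/
theorem zBound : ZBound := by
  obtain ⟨c, C, CV, hFL⟩ := exists_FL
  have hC := hFL.hC
  have hCV := hFL.hCV
  have hS : 0 ≤ ∑' j, Aj c C CV j := tsum_nonneg (fun j => Aj_nonneg (c := c) hC hCV j)
  have hC0 : 0 ≤ C0 c C CV := by
    unfold C0
    positivity
  refine ⟨1 + C0 c C CV, by positivity, ?_⟩
  intro q χ hq hχ U y hU hy σ u hσ hσ1 hu
  have hq1 : (1 : ℝ) ≤ q := by exact_mod_cast hq
  have hz1 := quarter hy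
  have hz : 5 ≤ Real.sqrt (Real.sqrt y) := by nlinarith
  have hy1 : 1 < y := by
    have : (5 : ℝ) ^ 4 ≤ ((q : ℝ) * (4 + U)) ^ 4 := by
      gcongr
      nlinarith
    linarith
  have hly : 0 < Real.log y := Real.log_pos hy1
  have hly1 : 1 ≤ Real.log y := by
    have : (5 : ℝ) ^ 4 ≤ ((q : ℝ) * (4 + U)) ^ 4 := by
      gcongr
      nlinarith
    have h2 : Real.exp 1 ≤ y := by
      have := Real.exp_one_lt_d9
      linarith
    rwa [Real.le_log_iff_exp_le (by linarith)]
  set s : ℂ := 1 + σ + u * Complex.I with hs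
  have hre : s.re = 1 + σ := by simp [hs]
  have hre1 : 1 ≤ s.re := by linarith
  have hns : ‖s‖ ≤ 2 + U := by
    calc ‖s‖ ≤ ‖(1 : ℂ)‖ + ‖(σ : ℂ)‖ + ‖(u : ℂ) * Complex.I‖ := norm_add₃_le
      _ = 1 + |σ| + |u| := by simp
      _ ≤ 2 + U := by
        rw [abs_of_pos hσ]
        linarith
  have hPK : (q : ℝ) * (2 + (3 + U)) ≤ 2 * Real.sqrt (Real.sqrt y) := by nlinarith
  have hψ : ∀ n : ℕ, ‖χ n‖ ≤ 1 := fun n => DirichletCharacter.norm_le_one χ _
  have hmul : ∀ m n : ℕ, χ ((m * n : ℕ) : ZMod q) = χ m * χ n := by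
    intro m n
    push_cast
    exact map_mul χ _ _
  have hbd : ∀ n : ℕ, n ≠ 0 → ‖χ n * (rough y n : ℂ)‖ ≤ 1 := by
    intro n _
    rw [norm_mul, Complex.norm_real, Real.norm_of_nonneg (rough_nonneg y n)]
    exact mul_le_one₀ (hψ n) (rough_nonneg y n) (rough_le_one y n)
  have hsum : LSeriesSummable (fun n => χ n * (rough y n : ℂ)) s :=
    LSeriesSummable_of_bounded_of_one_lt_re hbd (by linarith)
  have hterm : ∀ n : ℕ, n ≠ 0 → (1 : ℂ) / (n : ℂ) ^ s = ((n : ℝ) : ℂ) ^ (-s) := by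
    intro n hn
    rw [Complex.cpow_neg, one_div]
    simp
  have hcont : ContinuousOn (fun t : ℝ => -s * (t : ℂ) ^ (-(s + 1))) (Ici 1) :=
    continuousOn_const.mul (continuousOn_cpow _)
  have hre2 : (s + 1).re = s.re + 1 := by simp
  have hpow2 : ∀ t : ℝ, 1 ≤ t → ‖(t : ℂ) ^ (-(s + 1))‖ ≤ 1 / t ^ 2 := by
    intro t ht
    rw [norm_cpow_neg (by linarith), hre2]
    calc t ^ (-(s.re + 1)) ≤ t ^ (-2 : ℝ) :=
          Real.rpow_le_rpow_of_exponent_le ht (by linarith)
      _ = 1 / t ^ 2 := by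
          rw [Real.rpow_neg (by linarith), one_div]
          norm_num
  have hone : ∀ j : ℕ, ∀ t ∈ Icc (y ^ j) (y ^ (j + 1)), 1 ≤ t := fun j t ht =>
    (one_le_pow₀ hy1.le).trans ht.1
  constructor
  · -- the function
    have hpart := partial_sum hFL hz hψ hmul 0 (Or.inl rfl)
      (fun t _ => char_partial hq hχ t) (b := 1) (K := 3 + U) (f := fun t : ℝ => (t : ℂ) ^ (-s))
      (f' := fun t : ℝ => -s * (t : ℂ) ^ (-(s + 1))) hPK (fun t ht => hasDerivAt_cpow ht)
      hcont zero_le_one (by linarith)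
      (fun j t ht => by
        have h1 := hone j t ht
        refine (norm_cpow_le hre1 h1).trans ?_
        gcongr
        have : (0 : ℝ) ≤ j := Nat.cast_nonneg j
        linarith)
      (fun j t ht => by
        have h1 := hone j t ht
        rw [norm_mul, norm_neg]
        have h2 := hpow2 t h1
        calc ‖s‖ * ‖(t : ℂ) ^ (-(s + 1))‖ ≤ (3 + U) * (1 / t ^ 2) := by
              gcongr
              linarith
          _ = (1 * (0 + 1)) * (3 + U) / t ^ 2 := by ring
          _ ≤ _ := by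
              gcongr
              exact Nat.cast_nonneg j)
    have h3 := le_of_partial hy1 (a := LSeries.term (fun n => χ n * (rough y n : ℂ)) s)
      (LSeries.term_zero _ _) hsum.hasSum (R := fun _ => 0) (M := 1 + 1 * C0 c C CV) (M' := 0)
      (fun J hJ => by
        have h4 := hpart J hJ
        simp only [zero_mul, sub_zero] at h4 ⊢
        have h5 : ‖((1 : ℝ) : ℂ) ^ (-s)‖ = 1 := by simp
        rw [h5] at h4
        refine le_trans (le_of_eq ?_) h4
        congr 1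
        refine Finset.sum_congr rfl fun n hn => ?_
        have hn0 : n ≠ 0 := by
          rw [Finset.mem_Ioc] at hn
          omega
        rw [LSeries.term_of_ne_zero hn0, ← hterm n hn0]
        ring) (fun J => by simp)
    rw [one_mul, add_zero] at h3
    exact h3
  · -- the derivative
    have habs : LSeries.abscissaOfAbsConv (fun n => χ n * (rough y n : ℂ)) < s.re := by
      refine lt_of_le_of_lt (LSeries.abscissaOfAbsConv_le_of_le_const ⟨1, hbd⟩) ?_
      rw [hre]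
      exact_mod_cast (by linarith : (1 : ℝ) < 1 + σ)
    have hder : deriv (Zs χ y) s = -LSeries (LSeries.logMul fun n => χ n * (rough y n : ℂ)) s :=
      LSeries_deriv habs
    have hsum2 := LSeriesSummable_logMul_of_lt_re habs
    rw [hder, norm_neg]
    have hpart := partial_sum hFL hz hψ hmul 0 (Or.inl rfl)
      (fun t _ => char_partial hq hχ t) (b := Real.log y) (K := 3 + U)
      (f := fun t : ℝ => (t : ℂ) ^ (-s) * (Real.log t : ℂ))
      (f' := fun t : ℝ => -s * (t : ℂ) ^ (-(s + 1)) * (Real.log t : ℂ) +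
        (t : ℂ) ^ (-s) * ((t⁻¹ : ℝ) : ℂ)) hPK (fun t ht => hasDerivAt_cpow_log ht)
      (by
        have hlogc : ContinuousOn (fun t : ℝ => (Real.log t : ℂ)) (Ici 1) := by
          intro t ht
          have ht0 : t ≠ 0 := by
            have : (1 : ℝ) ≤ t := ht
            linarith
          exact (Complex.continuous_ofReal.continuousAt.comp
            (Real.continuousAt_log ht0)).continuousWithinAt
        have hinvc : ContinuousOn (fun t : ℝ => ((t⁻¹ : ℝ) : ℂ)) (Ici 1) := by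
          intro t ht
          have ht0 : t ≠ 0 := by
            have : (1 : ℝ) ≤ t := ht
            linarith
          exact (Complex.continuous_ofReal.continuousAt.comp
            (continuousAt_inv₀ ht0)).continuousWithinAt
        exact (hcont.mul hlogc).add ((continuousOn_cpow s).mul hinvc)) hly.le (by linarith)
      (fun j t ht => by
        have h1 := hone j t ht
        obtain ⟨l0, l1⟩ := log_le_block hy1.le ht
        rw [norm_mul, Complex.norm_real, Real.norm_of_nonneg l0]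
        calc ‖(t : ℂ) ^ (-s)‖ * Real.log t ≤ (1 / t) * ((j + 1) * Real.log y) := by
              gcongr
              exact norm_cpow_le hre1 h1
          _ = _ := by ring)
      (fun j t ht => by
        have h1 := hone j t ht
        have ht0 : 0 < t := by linarith
        obtain ⟨l0, l1⟩ := log_le_block hy1.le ht
        have hj0 : (0 : ℝ) ≤ j := Nat.cast_nonneg j
        have n1 : ‖-s * (t : ℂ) ^ (-(s + 1)) * (Real.log t : ℂ)‖ ≤
            (2 + U) * (1 / t ^ 2) * ((j + 1) * Real.log y) := by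
          rw [norm_mul, norm_mul, norm_neg, Complex.norm_real, Real.norm_of_nonneg l0]
          have h2 := hpow2 t h1
          gcongr
        have n2 : ‖(t : ℂ) ^ (-s) * ((t⁻¹ : ℝ) : ℂ)‖ ≤ 1 / t ^ 2 := by
          rw [norm_mul, Complex.norm_real, Real.norm_of_nonneg (by positivity)]
          calc ‖(t : ℂ) ^ (-s)‖ * t⁻¹ ≤ (1 / t) * t⁻¹ := by
                gcongr
                exact norm_cpow_le hre1 h1
            _ = 1 / t ^ 2 := by
                field_simp
        refine (norm_add_le _ _).trans ((add_le_add n1 n2).trans ?_)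
        have h6 : 1 ≤ ((j : ℝ) + 1) * Real.log y := by nlinarith
        calc (2 + U) * (1 / t ^ 2) * ((j + 1) * Real.log y) + 1 / t ^ 2
            = ((2 + U) * ((j + 1) * Real.log y) + 1) / t ^ 2 := by ring
          _ ≤ (Real.log y * (j + 1) * (3 + U)) / t ^ 2 := by
              gcongr
              nlinarith
          _ = _ := by ring)
    have h3 := le_of_partial hy1
      (a := LSeries.term (LSeries.logMul fun n => χ n * (rough y n : ℂ)) s)
      (LSeries.term_zero _ _) hsum2.hasSum (R := fun _ => 0)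
      (M := Real.log y * C0 c C CV) (M' := 0)
      (fun J hJ => by
        have h4 := hpart J hJ
        simp only [zero_mul, sub_zero] at h4 ⊢
        have h5 : ‖((1 : ℝ) : ℂ) ^ (-s) * (Real.log 1 : ℂ)‖ = 0 := by simp
        rw [h5, zero_add] at h4
        refine le_trans (le_of_eq ?_) h4
        congr 1
        refine Finset.sum_congr rfl fun n hn => ?_
        have hn0 : n ≠ 0 := by
          rw [Finset.mem_Ioc] at hn
          omega
        rw [LSeries.term_of_ne_zero hn0, ← hterm n hn0]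
        simp only [LSeries.logMul, Complex.natCast_log]
        ring) (fun J => by simp)
    rw [add_zero] at h3
    refine h3.trans ?_
    nlinarith

/-- I2 -/
theorem zOne : ZOne := by
  obtain ⟨c, C, CV, hFL⟩ := exists_FL
  have hC := hFL.hC
  have hCV := hFL.hCV
  have hS : 0 ≤ ∑' j, Aj c C CV j := tsum_nonneg (fun j => Aj_nonneg (c := c) hC hCV j)
  have hC0 : 0 ≤ C0 c C CV := by
    unfold C0
    positivity
  refine ⟨1 + C0 c C CV + 2 * CV, by positivity, ?_⟩
  intro U y hU hy σ u hσ hσ1 hu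
  have hz1 := quarter hy
  have hz : 5 ≤ Real.sqrt (Real.sqrt y) := by linarith
  have hy1 : 1 < y := by
    have : (5 : ℝ) ^ 4 ≤ (4 + U) ^ 4 := by
      gcongr
      linarith
    linarith
  have hy2 : 2 ≤ y := by
    have : (5 : ℝ) ^ 4 ≤ (4 + U) ^ 4 := by
      gcongr
      linarith
    linarith
  have hly : 0 < Real.log y := Real.log_pos hy1
  set s : ℂ := 1 + σ + u * Complex.I with hs
  have hre : s.re = 1 + σ := by simp [hs]
  have hre1 : 1 ≤ s.re := by linarith
  have hns : ‖s‖ ≤ 2 + U := by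
    calc ‖s‖ ≤ ‖(1 : ℂ)‖ + ‖(σ : ℂ)‖ + ‖(u : ℂ) * Complex.I‖ := norm_add₃_le
      _ = 1 + |σ| + |u| := by simp
      _ ≤ 2 + U := by
        rw [abs_of_pos hσ]
        linarith
  have hPK : (1 : ℝ) * (2 + (3 + U)) ≤ 2 * Real.sqrt (Real.sqrt y) := by linarith
  have hbd : ∀ n : ℕ, n ≠ 0 → ‖(rough y n : ℂ)‖ ≤ 1 := by
    intro n _
    rw [Complex.norm_real, Real.norm_of_nonneg (rough_nonneg y n)]
    exact rough_le_one y n
  have hsum : LSeriesSummable (fun n => (rough y n : ℂ)) s :=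
    LSeriesSummable_of_bounded_of_one_lt_re hbd (by linarith)
  have hterm : ∀ n : ℕ, n ≠ 0 → (1 : ℂ) / (n : ℂ) ^ s = ((n : ℝ) : ℂ) ^ (-s) := by
    intro n hn
    rw [Complex.cpow_neg, one_div]
    simp
  have hcont : ContinuousOn (fun t : ℝ => -s * (t : ℂ) ^ (-(s + 1))) (Ici 1) :=
    continuousOn_const.mul (continuousOn_cpow _)
  have hre2 : (s + 1).re = s.re + 1 := by simp
  have hpow2 : ∀ t : ℝ, 1 ≤ t → ‖(t : ℂ) ^ (-(s + 1))‖ ≤ 1 / t ^ 2 := by
    intro t ht
    rw [norm_cpow_neg (by linarith), hre2]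
    calc t ^ (-(s.re + 1)) ≤ t ^ (-2 : ℝ) :=
          Real.rpow_le_rpow_of_exponent_le ht (by linarith)
      _ = 1 / t ^ 2 := by
          rw [Real.rpow_neg (by linarith), one_div]
          norm_num
  have hone : ∀ j : ℕ, ∀ t ∈ Icc (y ^ j) (y ^ (j + 1)), 1 ≤ t := fun j t ht =>
    (one_le_pow₀ hy1.le).trans ht.1
  have hpart := partial_sum hFL hz (ψ := fun _ => 1) (by simp) (by simp) 1 (Or.inr ⟨rfl, rfl⟩)
    one_partial (b := 1) (K := 3 + U) (f := fun t : ℝ => (t : ℂ) ^ (-s))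
    (f' := fun t : ℝ => -s * (t : ℂ) ^ (-(s + 1))) hPK (fun t ht => hasDerivAt_cpow ht)
    hcont zero_le_one (by linarith)
    (fun j t ht => by
      have h1 := hone j t ht
      refine (norm_cpow_le hre1 h1).trans ?_
      gcongr
      have : (0 : ℝ) ≤ j := Nat.cast_nonneg j
      linarith)
    (fun j t ht => by
      have h1 := hone j t ht
      rw [norm_mul, norm_neg]
      have h2 := hpow2 t h1
      calc ‖s‖ * ‖(t : ℂ) ^ (-(s + 1))‖ ≤ (3 + U) * (1 / t ^ 2) := by
            gcongr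
            linarith
        _ = (1 * (0 + 1)) * (3 + U) / t ^ 2 := by ring
        _ ≤ _ := by
            gcongr
            exact Nat.cast_nonneg j)
  -- the main term
  have hσu : (σ : ℂ) + u * Complex.I ≠ 0 := by
    intro h
    have := congrArg Complex.re h
    simp at this
    linarith
  have hnpos : 0 < ‖(σ : ℂ) + u * Complex.I‖ := norm_pos_iff.2 hσu
  have hs1 : -s + 1 = -((σ : ℂ) + u * Complex.I) := by
    rw [hs]
    ring
  have hV : Hoh.V y ≤ CV / Real.log y := hFL.V y hy2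
  have hmain : ∀ J : ℕ, ‖(1 : ℂ) * Hoh.V y * ∑ j ∈ Finset.Ico 2 J,
      ∫ t in (y ^ j)..(y ^ (j + 1)), (t : ℂ) ^ (-s)‖ ≤
      2 * CV * (1 / (‖(σ : ℂ) + u * Complex.I‖ * Real.log y)) := by
    intro J
    have hVn := V_nonneg y
    have key : ‖∑ j ∈ Finset.Ico 2 J, ∫ t in (y ^ j)..(y ^ (j + 1)), (t : ℂ) ^ (-s)‖ ≤
        2 / ‖(σ : ℂ) + u * Complex.I‖ := by
      rcases lt_or_ge J 2 with hJ | hJ
      · rw [Finset.Ico_eq_empty (by omega), Finset.sum_empty, norm_zero]
        positivity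
      have hint : ∀ j : ℕ, IntervalIntegrable (fun t : ℝ => (t : ℂ) ^ (-s)) volume (y ^ j)
          (y ^ (j + 1)) := by
        intro j
        apply ContinuousOn.intervalIntegrable
        refine (continuousOn_cpow s).mono ?_
        rw [uIcc_of_le (pow_le_pow_right₀ hy1.le (by omega))]
        exact fun t ht => hone j t ht
      rw [intervalIntegral.sum_integral_adjacent_intervals_Ico hJ (fun j _ => hint j)]
      have h2J : y ^ 2 ≤ y ^ J := pow_le_pow_right₀ hy1.le hJ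
      have h1y : 1 ≤ y ^ 2 := one_le_pow₀ hy1.le
      have h1J : 1 ≤ y ^ J := one_le_pow₀ hy1.le
      rw [integral_cpow (Or.inr ⟨by
        intro h
        have := congrArg Complex.re h
        rw [Complex.neg_re, hre] at this
        simp at this
        linarith, by
        rw [uIcc_of_le h2J]
        intro h
        linarith [h.1]⟩)]
      rw [norm_div, hs1, norm_neg]
      gcongr
      have hn : ∀ t : ℝ, 1 ≤ t → ‖(t : ℂ) ^ (-((σ : ℂ) + u * Complex.I))‖ ≤ 1 := by
        intro t ht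
        rw [norm_cpow_neg (by linarith)]
        apply Real.rpow_le_one_of_one_le_of_nonpos ht
        simp
        linarith
      refine (norm_sub_le _ _).trans ?_
      have := hn _ h1J
      have := hn _ h1y
      linarith
    rw [one_mul, norm_mul, Complex.norm_real, Real.norm_of_nonneg hVn]
    calc Hoh.V y * _ ≤ (CV / Real.log y) * (2 / ‖(σ : ℂ) + u * Complex.I‖) := by gcongr
      _ = 2 * CV * (1 / (‖(σ : ℂ) + u * Complex.I‖ * Real.log y)) := by
          field_simp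
  have h3 := le_of_partial hy1 (a := LSeries.term (fun n => (rough y n : ℂ)) s)
    (LSeries.term_zero _ _) hsum.hasSum (R := fun J => (1 : ℂ) * Hoh.V y *
      ∑ j ∈ Finset.Ico 2 J, ∫ t in (y ^ j)..(y ^ (j + 1)), (t : ℂ) ^ (-s))
    (M := 1 + 1 * C0 c C CV) (fun J hJ => by
      have h4 := hpart J hJ
      have h5 : ‖((1 : ℝ) : ℂ) ^ (-s)‖ = 1 := by simp
      rw [h5] at h4
      refine le_trans (le_of_eq ?_) h4
      congr 2
      refine Finset.sum_congr rfl fun n hn => ?_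
      have hn0 : n ≠ 0 := by
        rw [Finset.mem_Ioc] at hn
        omega
      rw [LSeries.term_of_ne_zero hn0, ← hterm n hn0]
      ring) hmain
  refine h3.trans ?_
  have hpos : 0 ≤ 1 / (‖(σ : ℂ) + u * Complex.I‖ * Real.log y) := by positivity
  nlinarith

end Lnk
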