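import Pool.Agent.Lib.Linnik.Defs
import Pool.Agent.Lib.MP_0bb3d8_nt.HohGtgt

/-!
# Modules II6 and II7: negligible terms in progressions
-/

set_option autoImplicit false

namespace Lnk

open Hoh Finset
open Pool.Agent.Lib.MP_0bb3d8_nt (pr mem_pr sum_pr_le)

lemma rs_apply_7 (q : ℕ) (b : ZMod q) (a : ArithmeticFunction ℝ) (n : ℕ) :
    rs q b a n = if (n : ZMod q) = b then a n else 0 := rfl

lemma rs_sum_7 {q : ℕ} (b : ZMod q) {ι : Type*} (S : Finset ι) (a : ι → ArithmeticFunction ℝ) :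
    rs q b (∑ i ∈ S, a i) = ∑ i ∈ S, rs q b (a i) := by
  ext n
  rw [af_sum_apply, rs_apply_7, af_sum_apply]
  simp_rw [rs_apply_7]
  split_ifs with h
  · rfl
  · simp

lemma rs_smul_7 {q : ℕ} (b : ZMod q) (c : ℝ) (a : ArithmeticFunction ℝ) :
    rs q b (c • a) = c • rs q b a := by
  ext n
  have h1 : (c • a) n = c * a n := rfl
  have h2 : (c • rs q b a) n = c * rs q b a n := rfl
  rw [h2, rs_apply_7, rs_apply_7, h1]
  split_ifs <;> simp

lemma rs_dl_mul_7 {q : ℕ} (b : ZMod q) {d : ℕ} (hd : d ≠ 0) (hu : IsUnit (d : ZMod q))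
    (a : ArithmeticFunction ℝ) :
    rs q b (dl d * a) = dl d * rs q (b * (d : ZMod q)⁻¹) a := by
  ext n
  rcases Nat.eq_zero_or_pos n with rfl | hn
  · simp
  rw [rs_apply_7, dl_mul_apply d hd a n hn.ne', dl_mul_apply d hd _ n hn.ne', rs_apply_7]
  by_cases hdn : d ∣ n
  · rw [if_pos hdn, if_pos hdn]
    obtain ⟨m, rfl⟩ := hdn
    rw [Nat.mul_div_cancel_left m (Nat.pos_of_ne_zero hd)]
    have h1 := ZMod.mul_inv_of_unit (d : ZMod q) hu
    have : (((d * m : ℕ) : ZMod q) = b) ↔ ((m : ZMod q) = b * (d : ZMod q)⁻¹) := by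
      push_cast
      constructor
      · rintro rfl
        calc (m : ZMod q) = ((d : ZMod q) * (d : ZMod q)⁻¹) * m := by rw [h1, one_mul]
          _ = _ := by ring
      · intro h
        rw [h]
        calc (d : ZMod q) * (b * (d : ZMod q)⁻¹) = ((d : ZMod q) * (d : ZMod q)⁻¹) * b := by ring
          _ = b := by rw [h1, one_mul]
    by_cases h : ((d * m : ℕ) : ZMod q) = b
    · rw [if_pos h, if_pos (this.1 h)]
    · rw [if_neg h, if_neg (fun h' => h (this.2 h'))]
  · rw [if_neg hdn, if_neg hdn]; simp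

lemma rs_dl_mul_zero {q : ℕ} {b : ZMod q} (hb : IsUnit b) {d : ℕ} (hd : d ≠ 0)
    (hu : ¬ IsUnit (d : ZMod q)) (a : ArithmeticFunction ℝ) : rs q b (dl d * a) = 0 := by
  ext n
  rcases Nat.eq_zero_or_pos n with rfl | hn
  · simp
  rw [rs_apply_7, dl_mul_apply d hd a n hn.ne']
  split_ifs with h1 h2
  · exfalso
    obtain ⟨m, rfl⟩ := h2
    apply hu
    rw [← h1] at hb
    push_cast at hb
    exact isUnit_of_mul_isUnit_left hb
  · rfl
  · rfl

open scoped Classical in
/-- convolution inside a residue class -/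
lemma ST_rs_conv_7 {φ : ℝ → ℝ} (h : Bump φ) {s T X : ℝ} (hT : 0 < T) (hX : 0 < X) {q : ℕ}
    {b : ZMod q} (hb : IsUnit b) (β a : ArithmeticFunction ℝ) (M : ℕ)
    (hβ : ∀ n, M < n → β n = 0) :
    ST φ s T X (rs q b (β * a)) = ∑ d ∈ Finset.Icc 1 M, if IsUnit (d : ZMod q) then
      β d * (d : ℝ) ^ (-(1 + s)) * ST φ s T (X / d) (rs q (b * (d : ZMod q)⁻¹) a) else 0 := by
  conv_lhs => rw [eq_sum_dl β M hβ]
  rw [Finset.sum_mul, rs_sum_7, ST_sum h hT hX]
  apply Finset.sum_congr rfl
  intro d hd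
  have hd0 : d ≠ 0 := by
    have := (Finset.mem_Icc.mp hd).1
    omega
  rw [smul_mul_assoc, rs_smul_7, ST_smul]
  split_ifs with hu
  · rw [rs_dl_mul_7 b hd0 hu, ST_dl_mul d hd0]
    ring
  · rw [rs_dl_mul_zero hb hd0 hu, ST_zero, mul_zero]

lemma ST_rs_congr {φ : ℝ → ℝ} (h : Bump φ) {s T X : ℝ} (hT : 0 < T) (hX : 0 < X) {q : ℕ}
    {b : ZMod q} {β β' : ArithmeticFunction ℝ}
    (hab : ∀ n : ℕ, X < n → (n : ℝ) < X * Real.exp (1 / T) → β n = β' n) :
    ST φ s T X (rs q b β) = ST φ s T X (rs q b β') := by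
  apply ST_congr h hT hX
  intro n h1 h2
  rw [rs_apply_7, rs_apply_7, hab n h1 h2]

theorem gtgtQ (hBT : BTq) (φ : ℝ → ℝ) (hφ : Bump φ) : GtgtQ φ := by
  classical
  obtain ⟨C₀, hC₀, hBT⟩ := hBT
  refine ⟨(4 * C₀ * Real.exp 4) * (8 * (4 + Real.log 2)), by
    have := Real.log_pos (show (1 : ℝ) < 2 by norm_num); positivity, Real.exp 64, ?_⟩
  intro x hx q hq hqx b hb β hβ1 hβ2
  have hx0 : 0 < x := (Real.exp_pos _).trans_le hx
  have hlogx : 64 ≤ Real.log x := by rw [Real.le_log_iff_exp_le hx0]; exact hx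
  have hx1 : 1 < x := by
    have : (1 : ℝ) < Real.exp 64 := Real.one_lt_exp_iff.2 (by norm_num)
    linarith
  set T : ℝ := 1 / 4 with hT
  have hT0 : 0 < T := by norm_num [hT]
  set s := 1 / Real.log x with hs
  have hs0 : 0 ≤ s := by positivity
  set E := Real.exp (1 / T) with hE
  have hE4 : E = Real.exp 4 := by rw [hE, hT]; norm_num
  have he4 : (5 : ℝ) ≤ Real.exp 4 := by
    have := Real.add_one_le_exp (4 : ℝ); linarith
  have hE1 : 1 ≤ E := by rw [hE4]; linarith
  have hφq : 0 < (Nat.totient q : ℝ) := by exact_mod_cast Nat.totient_pos.2 hq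
  set w := Real.sqrt x with hw
  have hw0 : 0 < w := Real.sqrt_pos.2 hx0
  have hww : w * w = x := Real.mul_self_sqrt hx0.le
  have hlogw : Real.log w = Real.log x / 2 := by
    rw [hw, Real.log_sqrt hx0.le]
  have hwe : Real.exp 4 ≤ w := by
    rw [← Real.le_log_iff_exp_le hw0, hlogw]; linarith
  have hw1 : 1 < w := by linarith
  have hq4 : (q : ℝ) ^ 2 ≤ x ^ (1 / 4 : ℝ) := by
    have h1 : ((q : ℝ) ^ 2) ^ (4 : ℝ) ≤ (x ^ (1 / 4 : ℝ)) ^ (4 : ℝ) := by
      rw [← Real.rpow_mul hx0.le]
      norm_num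
      calc ((q : ℝ) ^ 2) ^ 4 = (q : ℝ) ^ 8 := by ring
        _ ≤ x := hqx
    exact (Real.rpow_le_rpow_iff (by positivity) (by positivity) (by norm_num)).1 h1
  obtain ⟨N, hN⟩ := exists_nat_ge (x * Real.exp 4)
  have hNE : x * E ≤ N := by rw [hE4]; exact hN
  set b' := trunc N β with hb'
  have hb'1 : ∀ n, |b' n| ≤ 1 := by
    intro n
    rw [hb', trunc_apply]
    split_ifs
    · exact hβ1 n
    · simp
  have hb'2 : ∀ n, b' n ≠ 0 → n.Prime ∧ w < n := by
    intro n hn
    rw [hb', trunc_apply] at hn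
    split_ifs at hn with h
    · exact hβ2 n hn
    · exact absurd rfl hn
  have e1 : ST φ s T x (rs q b (β * β)) = ST φ s T x (rs q b (b' * b')) := by
    apply ST_rs_congr hφ hT0 hx0
    intro n _ hn
    have hnN : n ≤ N := by
      have : (n : ℝ) < N := hn.trans_le hNE
      exact_mod_cast this.le
    exact (trunc_mul_trunc β hnN).symm
  have e2 := ST_rs_conv_7 hφ (s := s) hT0 hx0 hb b' b' N (by
    intro n hn
    rw [hb', trunc_apply, if_neg (by omega)])
  rw [e1, e2]
  have hsum : ∀ d ∈ Finset.Icc 1 N, |if IsUnit (d : ZMod q) then b' d * (d : ℝ) ^ (-(1 + s)) *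
      ST φ s T (x / d) (rs q (b * (d : ZMod q)⁻¹) b') else 0|
      ≤ if d ∈ pr w (Real.exp 4 * w) then
        (1 / (d : ℝ)) * ((4 * C₀ * Real.exp 4) / (Nat.totient q * Real.log x)) else 0 := by
    intro d hd
    have hd1 : 1 ≤ d := (Finset.mem_Icc.1 hd).1
    have hdR : (1 : ℝ) ≤ d := by exact_mod_cast hd1
    have hd0 : (0 : ℝ) < d := by linarith
    have hrhs : 0 ≤ if d ∈ pr w (Real.exp 4 * w) then
        (1 / (d : ℝ)) * ((4 * C₀ * Real.exp 4) / (Nat.totient q * Real.log x)) else 0 := by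
      split_ifs
      · positivity
      · exact le_rfl
    by_cases hu : IsUnit (d : ZMod q)
    swap
    · rw [if_neg hu, abs_zero]; exact hrhs
    rw [if_pos hu]
    by_cases hbd : b' d = 0
    · rw [hbd, zero_mul, zero_mul, abs_zero]; exact hrhs
    obtain ⟨hdp, hdw⟩ := hb'2 d hbd
    have hbu : IsUnit (b * (d : ZMod q)⁻¹) := by
      refine hb.mul ?_
      have h1 := ZMod.mul_inv_of_unit (d : ZMod q) hu
      exact IsUnit.of_mul_eq_one (d : ZMod q) (by rw [mul_comm]; exact h1)
    by_cases hdu : (d : ℝ) ≤ Real.exp 4 * w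
    · rw [if_pos ((mem_pr hw0.le).2 ⟨hdw, hdu, hdp⟩)]
      -- main case
      have hX1 : 1 ≤ x / d := by
        rw [one_le_div hd0]
        calc (d : ℝ) ≤ Real.exp 4 * w := hdu
          _ ≤ w * w := mul_le_mul_of_nonneg_right hwe hw0.le
          _ = x := hww
      have hX0 : 0 < x / d := by linarith
      have h1 : |(d : ℝ) ^ (-(1 + s))| ≤ 1 / d := by
        rw [abs_of_nonneg (by positivity), Real.rpow_neg hd0.le, one_div]
        apply inv_anti₀ hd0
        calc (d : ℝ) = (d : ℝ) ^ (1 : ℝ) := (Real.rpow_one _).symm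
          _ ≤ (d : ℝ) ^ (1 + s) := Real.rpow_le_rpow_of_exponent_le hdR (by linarith)
      have hN' : x / d * E ≤ N := by
        calc x / d * E ≤ x * E := by
              apply mul_le_mul_of_nonneg_right _ (by linarith)
              exact div_le_self hx0.le hdR
          _ ≤ N := hNE
      have h2 : |ST φ s T (x / d) (rs q (b * (d : ZMod q)⁻¹) b')| ≤ T / (x / d) *
          ∑ n ∈ (Finset.Icc 1 N).filter (fun n : ℕ => x / d < n ∧ (n : ℝ) < x / d * E),
            absAF (rs q (b * (d : ZMod q)⁻¹) b') n :=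
        (abs_ST_le hφ hT0 hX0 _).trans (ST_le_sum hφ hs0 hT0 hX1 hN'
          (fun n _ _ => by rw [absAF_apply]; exact abs_nonneg _))
      set h := x / d * (E - 1) with hh
      set cls := b * (d : ZMod q)⁻¹ with hcls
      have hsub : ∑ n ∈ (Finset.Icc 1 N).filter (fun n : ℕ => x / d < n ∧ (n : ℝ) < x / d * E),
          absAF (rs q cls b') n
          ≤ (((Finset.Ioc ⌊x / d⌋₊ ⌊x / d + h⌋₊).filter
            (fun p : ℕ => p.Prime ∧ ((p : ℕ) : ZMod q) = cls)).card : ℝ) := by
        have s1 : ∀ n ∈ (Finset.Icc 1 N).filter (fun n : ℕ => x / d < n ∧ (n : ℝ) < x / d * E),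
            absAF (rs q cls b') n ≤ if n ∈ (Finset.Ioc ⌊x / d⌋₊ ⌊x / d + h⌋₊).filter
              (fun p : ℕ => p.Prime ∧ ((p : ℕ) : ZMod q) = cls) then 1 else 0 := by
          intro n hn
          rw [Finset.mem_filter] at hn
          rw [absAF_apply, rs_apply_7]
          by_cases hcl : (n : ZMod q) = cls
          swap
          · rw [if_neg hcl, abs_zero]; split_ifs <;> norm_num
          rw [if_pos hcl]
          by_cases hbn : b' n = 0
          · rw [hbn, abs_zero]; split_ifs <;> norm_num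
          · have hnp := (hb'2 n hbn).1
            rw [if_pos]
            · exact hb'1 n
            · rw [Finset.mem_filter, Finset.mem_Ioc]
              refine ⟨⟨(Nat.floor_lt hX0.le).2 hn.2.1, ?_⟩, hnp, hcl⟩
              rw [Nat.le_floor_iff' hnp.ne_zero, hh]
              have := hn.2.2
              nlinarith
        refine (Finset.sum_le_sum s1).trans ?_
        rw [← Finset.sum_filter, Finset.sum_const, nsmul_eq_mul, mul_one]
        exact_mod_cast Finset.card_le_card (fun n hn => (Finset.mem_filter.1 hn).2)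
      have hhlow : x ^ (1 / 4 : ℝ) ≤ h := by
        have k1 : w / Real.exp 4 ≤ x / d := by
          rw [div_le_div_iff₀ (Real.exp_pos _) hd0]
          calc w * d ≤ w * (Real.exp 4 * w) := mul_le_mul_of_nonneg_left hdu hw0.le
            _ = x * Real.exp 4 := by rw [← hww]; ring
        have k2 : 1 ≤ E - 1 := by rw [hE4]; linarith
        have k3 : w = x ^ (1 / 2 : ℝ) := by rw [hw, Real.sqrt_eq_rpow]
        have k4 : Real.exp 4 ≤ x ^ (1 / 4 : ℝ) := by
          rw [← Real.le_log_iff_exp_le (by positivity), Real.log_rpow hx0]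
          linarith
        have k5 : 0 < x ^ (1 / 4 : ℝ) := by positivity
        have k7 : x ^ (1 / 4 : ℝ) * x ^ (1 / 4 : ℝ) = x ^ (1 / 2 : ℝ) := by
          rw [← Real.rpow_add hx0]; norm_num
        calc x ^ (1 / 4 : ℝ) = x ^ (1 / 2 : ℝ) / x ^ (1 / 4 : ℝ) * 1 := by
              rw [← k7]; field_simp
          _ ≤ w / Real.exp 4 * 1 := by
              apply mul_le_mul_of_nonneg_right _ (by positivity)
              rw [k3]
              exact div_le_div_of_nonneg_left (by positivity) (Real.exp_pos _) k4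
          _ ≤ x / d * (E - 1) := mul_le_mul k1 k2 (by positivity) hX0.le
      have hx4 : 1 < x ^ (1 / 4 : ℝ) := Real.one_lt_rpow hx1 (by norm_num)
      have hh2 : 2 ≤ h := by
        refine le_trans ?_ hhlow
        rw [← Real.log_le_log_iff (by norm_num) (by positivity), Real.log_rpow hx0]
        have : Real.log 2 ≤ 1 := by
          have := Real.log_two_lt_d9; linarith
        linarith
      have hlogh : Real.log x / 4 ≤ Real.log h := by
        have := Real.log_le_log (by positivity) hhlow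
        rw [Real.log_rpow hx0] at this
        linarith
      have hBT' := hBT q cls (x / d) h hq hbu hX0.le hh2 (hq4.trans hhlow)
      have hup : h ≤ x / d * (Real.exp 4 / (4 * T)) := by
        rw [hh]
        apply mul_le_mul_of_nonneg_left _ hX0.le
        rw [hE4, hT]; norm_num
      have h3 : |ST φ s T (x / d) (rs q cls b')| ≤
          (4 * C₀ * Real.exp 4) / (Nat.totient q * Real.log x) := by
        refine h2.trans ?_
        have hTx : 0 ≤ T / (x / d) := by positivity
        refine (mul_le_mul_of_nonneg_left (hsub.trans hBT') hTx).trans ?_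
        have k6 : C₀ * h / (Nat.totient q * Real.log h) ≤
            C₀ * (x / d * (Real.exp 4 / (4 * T))) / (Nat.totient q * (Real.log x / 4)) := by
          apply div_le_div₀ (by positivity) _ (by positivity)
            (mul_le_mul_of_nonneg_left hlogh hφq.le)
          exact mul_le_mul_of_nonneg_left hup hC₀.le
        refine (mul_le_mul_of_nonneg_left k6 hTx).trans ?_
        have : Real.log x ≠ 0 := by positivity
        have e : T / (x / d) * (C₀ * (x / d * (Real.exp 4 / (4 * T))) /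
            (Nat.totient q * (Real.log x / 4))) =
            (C₀ * Real.exp 4) / (Nat.totient q * Real.log x) := by
          field_simp
        rw [e]
        apply div_le_div_of_nonneg_right _ (by positivity)
        nlinarith [mul_pos hC₀ (Real.exp_pos 4)]
      rw [abs_mul, abs_mul]
      calc |b' d| * |(d : ℝ) ^ (-(1 + s))| * |ST φ s T (x / d) (rs q cls b')|
          ≤ 1 * (1 / d) * ((4 * C₀ * Real.exp 4) / (Nat.totient q * Real.log x)) := by
            apply mul_le_mul _ h3 (abs_nonneg _) (by positivity)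
            exact mul_le_mul (hb'1 d) h1 (abs_nonneg _) zero_le_one
        _ = (1 / (d : ℝ)) * ((4 * C₀ * Real.exp 4) / (Nat.totient q * Real.log x)) := by ring
    · push Not at hdu
      have hX0 : 0 < x / d := by positivity
      have : ST φ s T (x / d) (rs q (b * (d : ZMod q)⁻¹) b') = 0 := by
        have h0 := ST_congr (s := s) hφ hT0 hX0 (a := rs q (b * (d : ZMod q)⁻¹) b') (b := 0) (by
          intro n _ hn
          rw [rs_apply_7]
          split_ifs
          · by_contra hne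
            have h1 := (hb'2 n (by simpa using hne)).2
            have h2 : x / d * E ≤ w := by
              rw [div_mul_eq_mul_div, div_le_iff₀ hd0, hE4]
              calc x * Real.exp 4 = w * (Real.exp 4 * w) := by rw [← hww]; ring
                _ ≤ w * d := mul_le_mul_of_nonneg_left hdu.le hw0.le
            have h3 : x / d * Real.exp (1 / T) ≤ w := h2
            linarith
          · rfl)
        rw [h0, ST_zero]
      rw [this, mul_zero, abs_zero]
      exact hrhs
  have hwz : w ≤ Real.exp 4 * w := by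
    have := mul_le_mul_of_nonneg_right (show (1 : ℝ) ≤ Real.exp 4 by linarith) hw0.le
    linarith
  have hfin : |∑ d ∈ Finset.Icc 1 N, if IsUnit (d : ZMod q) then b' d * (d : ℝ) ^ (-(1 + s)) *
      ST φ s T (x / d) (rs q (b * (d : ZMod q)⁻¹) b') else 0|
      ≤ (8 * (4 + Real.log 2) / Real.log x) *
        ((4 * C₀ * Real.exp 4) / (Nat.totient q * Real.log x)) := by
    calc _ ≤ ∑ d ∈ Finset.Icc 1 N, |if IsUnit (d : ZMod q) then b' d * (d : ℝ) ^ (-(1 + s)) *
            ST φ s T (x / d) (rs q (b * (d : ZMod q)⁻¹) b') else 0| :=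
          Finset.abs_sum_le_sum_abs _ _
      _ ≤ ∑ d ∈ Finset.Icc 1 N, (if d ∈ pr w (Real.exp 4 * w) then
            (1 / (d : ℝ)) * ((4 * C₀ * Real.exp 4) / (Nat.totient q * Real.log x)) else 0) :=
          Finset.sum_le_sum hsum
      _ ≤ ∑ d ∈ pr w (Real.exp 4 * w),
            (1 / (d : ℝ)) * ((4 * C₀ * Real.exp 4) / (Nat.totient q * Real.log x)) := by
          rw [← Finset.sum_filter]
          apply Finset.sum_le_sum_of_subset_of_nonneg
          · intro d hd
            exact (Finset.mem_filter.1 hd).2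
          · intro d _ _; positivity
      _ = (∑ d ∈ pr w (Real.exp 4 * w), (1 / (d : ℝ))) *
            ((4 * C₀ * Real.exp 4) / (Nat.totient q * Real.log x)) := by
          rw [Finset.sum_mul]
      _ ≤ _ := by
          apply mul_le_mul_of_nonneg_right _ (by positivity)
          have h1 := sum_pr_le hw1 (z := Real.exp 4 * w) hwz
          refine h1.trans (le_of_eq ?_)
          rw [Real.log_mul (Real.exp_pos _).ne' hw0.ne', Real.log_exp, hlogw]
          have : Real.log x ≠ 0 := by positivity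
          field_simp
          ring
  refine (mul_le_mul_of_nonneg_left hfin hφq.le).trans (le_of_eq ?_)
  have : Real.log x ≠ 0 := by positivity
  field_simp

/-- number of elements of a residue class up to `M` -/
lemma card_class_le {q : ℕ} (hq : 0 < q) (c : ZMod q) (M : ℕ) :
    (((Finset.Ioc 0 M).filter (fun m : ℕ => (m : ZMod q) = c)).card : ℝ) ≤ M / q + 1 := by
  have : NeZero q := ⟨hq.ne'⟩
  have e : (Finset.Ioc 0 M).filter (fun m : ℕ => (m : ZMod q) = c) =
      (Finset.Ioc 0 M).filter (fun m : ℕ => m ≡ c.val [MOD q]) := by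
    apply Finset.filter_congr
    intro m _
    rw [← ZMod.natCast_eq_natCast_iff, ZMod.natCast_zmod_val]
  have hq' : (0 : ℚ) < q := by exact_mod_cast hq
  have h := Nat.Ioc_filter_modEq_card 0 M hq c.val
  rw [e]
  have h1 : (((Finset.Ioc 0 M).filter (fun m : ℕ => m ≡ c.val [MOD q])).card : ℚ) ≤ M / q + 1 := by
    have h2 : ((((Finset.Ioc 0 M).filter (fun m : ℕ => m ≡ c.val [MOD q])).card : ℤ) : ℚ) ≤
        M / q + 1 := by
      rw [h]
      push_cast
      apply max_le
      · have f1 := Int.floor_le (((M : ℚ) - c.val) / q)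
        have f2 := Int.lt_floor_add_one (((0 : ℚ) - c.val) / q)
        have e1 : ((M : ℚ) - c.val) / q = M / q + ((0 : ℚ) - c.val) / q := by ring
        rw [e1] at f1
        rw [e1]
        linarith
      · positivity
    exact_mod_cast h2
  have h3 := (Rat.cast_le (K := ℝ)).2 h1
  push_cast at h3
  exact h3

theorem nsqQ (φ : ℝ → ℝ) (hφ : Bump φ) : NsqQ φ := by
  classical
  refine ⟨Real.exp 4, Real.exp_pos _, ?_⟩
  intro y s X hy hs hs1 hX q hq hqy b hb
  have hX0 : 0 < X := by linarith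
  have hT0 : (0 : ℝ) < 1 / 4 := by norm_num
  have hqR : (0 : ℝ) < q := by exact_mod_cast hq
  have hE : Real.exp (1 / (1 / 4 : ℝ)) = Real.exp 4 := by norm_num
  set N := ⌈X * Real.exp 4⌉₊ with hN
  have hNle : X * Real.exp 4 ≤ N := Nat.le_ceil _
  set Z := ⌊Real.sqrt X * Real.exp 2⌋₊ with hZ
  set a := rs q b (nsq y) with ha
  have ha0 : ∀ n, 0 ≤ a n := by
    intro n
    rw [ha, rs_apply_7]
    split_ifs
    · exact nsq_nonneg y n
    · exact le_rfl
  have h1 := ST_le_sum hφ hs.le hT0 hX (a := a) (N := N) (by rw [hE]; exact hNle)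
    (fun n _ _ => ha0 n)
  rw [hE] at h1
  -- pointwise majorant
  have hpt : ∀ n ∈ (Finset.Icc 1 N).filter (fun n : ℕ => X < n ∧ (n : ℝ) < X * Real.exp 4),
      a n ≤ ∑ d ∈ Finset.Ioo ⌊y⌋₊ (Z + 1),
        if IsUnit (d : ZMod q) ∧ d ^ 2 ∣ n ∧ (n : ZMod q) = b ∧ (n : ℝ) < X * Real.exp 4
          then (1 : ℝ) else 0 := by
    intro n hn
    obtain ⟨hn1, hn2, hn3⟩ := Finset.mem_filter.1 hn
    have hsum0 : 0 ≤ ∑ d ∈ Finset.Ioo ⌊y⌋₊ (Z + 1),
        if IsUnit (d : ZMod q) ∧ d ^ 2 ∣ n ∧ (n : ZMod q) = b ∧ (n : ℝ) < X * Real.exp 4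
          then (1 : ℝ) else 0 := by
      apply Finset.sum_nonneg
      intro d _
      split_ifs <;> norm_num
    rw [ha, rs_apply_7]
    by_cases hnb : (n : ZMod q) = b
    swap
    · rw [if_neg hnb]; exact hsum0
    rw [if_pos hnb, nsq_apply]
    by_cases hc : n ≠ 0 ∧ Rough y n ∧ ¬ Squarefree n
    swap
    · rw [if_neg hc]; exact hsum0
    rw [if_pos hc]
    obtain ⟨hn0, hr, hsq⟩ := hc
    rw [Nat.squarefree_iff_prime_squarefree] at hsq
    push Not at hsq
    obtain ⟨p, hp, hpp⟩ := hsq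
    have hyp : y < p := hr p hp (dvd_trans (dvd_mul_right p p) hpp)
    have hmem : p ∈ Finset.Ioo ⌊y⌋₊ (Z + 1) := by
      rw [Finset.mem_Ioo]
      constructor
      · exact (Nat.floor_lt (by linarith)).mpr hyp
      · rw [Nat.lt_succ_iff, hZ]
        apply Nat.le_floor
        have h2 : (p * p : ℝ) ≤ n := by exact_mod_cast Nat.le_of_dvd (Nat.pos_of_ne_zero hn0) hpp
        have h3 : (p * p : ℝ) ≤ X * Real.exp 4 := h2.trans hn3.le
        have h4 : (Real.sqrt X * Real.exp 2) * (Real.sqrt X * Real.exp 2) = X * Real.exp 4 := by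
          have h5 := Real.mul_self_sqrt hX0.le
          have h6 : Real.exp 4 = Real.exp 2 * Real.exp 2 := by
            rw [← Real.exp_add]; norm_num
          calc _ = (Real.sqrt X * Real.sqrt X) * (Real.exp 2 * Real.exp 2) := by ring
            _ = _ := by rw [h5, h6]
        rw [← h4] at h3
        exact (mul_self_le_mul_self_iff (by positivity) (by positivity)).mpr h3
    have hpu : IsUnit (p : ZMod q) := by
      rw [ZMod.isUnit_iff_coprime]
      rw [Nat.Prime.coprime_iff_not_dvd hp]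
      intro hdvd
      have h2 : p ≤ q := Nat.le_of_dvd hq hdvd
      have h3 : (p : ℝ) ≤ q := by exact_mod_cast h2
      linarith
    have h5 : (1 : ℝ) = if IsUnit (p : ZMod q) ∧ p ^ 2 ∣ n ∧ (n : ZMod q) = b ∧
        (n : ℝ) < X * Real.exp 4 then (1 : ℝ) else 0 := by
      rw [if_pos ⟨hpu, by rwa [pow_two], hnb, hn3⟩]
    calc (1 : ℝ) = _ := h5
      _ ≤ _ := Finset.single_le_sum (f := fun d : ℕ => if IsUnit (d : ZMod q) ∧ d ^ 2 ∣ n ∧
          (n : ZMod q) = b ∧ (n : ℝ) < X * Real.exp 4 then (1 : ℝ) else 0)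
          (fun d _ => by split_ifs <;> norm_num) hmem
  have h2 : ∑ n ∈ (Finset.Icc 1 N).filter (fun n : ℕ => X < n ∧ (n : ℝ) < X * Real.exp 4), a n ≤
      ∑ d ∈ Finset.Ioo ⌊y⌋₊ (Z + 1), (X * Real.exp 4 / q * ((d : ℝ) ^ 2)⁻¹ + 1) := by
    refine (Finset.sum_le_sum hpt).trans ?_
    rw [Finset.sum_comm]
    apply Finset.sum_le_sum
    intro d hd
    have hd1 : 1 ≤ d := by
      have := (Finset.mem_Ioo.mp hd).1
      omega
    have hd2 : 0 < d ^ 2 := by positivity
    have hdR : (0 : ℝ) < (d : ℝ) ^ 2 := by positivity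
    by_cases hu : IsUnit (d : ZMod q)
    swap
    · rw [Finset.sum_eq_zero]
      · positivity
      · intro n _
        rw [if_neg]
        rintro ⟨h, _⟩
        exact hu h
    rw [← Finset.sum_filter, Finset.sum_const, nsmul_eq_mul, mul_one]
    set M := ⌊X * Real.exp 4 / (d : ℝ) ^ 2⌋₊ with hM
    set c := b * ((d : ZMod q)⁻¹ * (d : ZMod q)⁻¹) with hc
    have hinv := ZMod.mul_inv_of_unit (d : ZMod q) hu
    have hcard : (((Finset.Icc 1 N).filter (fun n : ℕ => X < n ∧ (n : ℝ) < X * Real.exp 4)).filter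
        (fun n : ℕ => IsUnit (d : ZMod q) ∧ d ^ 2 ∣ n ∧ (n : ZMod q) = b ∧
          (n : ℝ) < X * Real.exp 4)).card ≤
        ((Finset.Ioc 0 M).filter (fun m : ℕ => (m : ZMod q) = c)).card := by
      apply Finset.card_le_card_of_injOn (fun n => n / d ^ 2)
      · intro n hn
        simp only [Finset.coe_filter, Finset.mem_filter, Finset.mem_Icc, Set.mem_ofPred_eq] at hn
        obtain ⟨⟨⟨hn1, hnN⟩, hn2, hn3⟩, -, ⟨m, rfl⟩, hn5, hn6⟩ := hn
        simp only [Finset.coe_filter, Finset.mem_Ioc, Set.mem_ofPred_eq]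
        rw [Nat.mul_div_cancel_left m hd2]
        have hm0 : 0 < m := by
          rcases Nat.eq_zero_or_pos m with h | h
          · rw [h] at hn1; simp at hn1
          · exact h
        refine ⟨⟨hm0, ?_⟩, ?_⟩
        · apply Nat.le_floor
          rw [le_div_iff₀ hdR]
          push_cast at hn6
          linarith
        · rw [hc, ← hn5]
          push_cast
          calc (m : ZMod q) = ((d : ZMod q) * (d : ZMod q)⁻¹) * ((d : ZMod q) * (d : ZMod q)⁻¹) *
                m := by rw [hinv]; ring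
            _ = _ := by ring
      · intro n hn n' hn' hnn
        simp only [Finset.coe_filter, Finset.mem_filter, Set.mem_ofPred_eq] at hn hn'
        obtain ⟨m, rfl⟩ := hn.2.2.1
        obtain ⟨m', rfl⟩ := hn'.2.2.1
        simp only at hnn
        rw [Nat.mul_div_cancel_left m hd2, Nat.mul_div_cancel_left m' hd2] at hnn
        rw [hnn]
    have hcl := card_class_le hq c M
    have hMle : (M : ℝ) ≤ X * Real.exp 4 / (d : ℝ) ^ 2 := Nat.floor_le (by positivity)
    have hcard' : ((((Finset.Icc 1 N).filter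
        (fun n : ℕ => X < n ∧ (n : ℝ) < X * Real.exp 4)).filter
        (fun n : ℕ => IsUnit (d : ZMod q) ∧ d ^ 2 ∣ n ∧ (n : ZMod q) = b ∧
          (n : ℝ) < X * Real.exp 4)).card : ℝ) ≤
        (((Finset.Ioc 0 M).filter (fun m : ℕ => (m : ZMod q) = c)).card : ℝ) := by
      exact_mod_cast hcard
    refine hcard'.trans (hcl.trans ?_)
    have h7 : (M : ℝ) / q ≤ X * Real.exp 4 / (d : ℝ) ^ 2 / q :=
      div_le_div_of_nonneg_right hMle hqR.le
    have h8 : X * Real.exp 4 / (d : ℝ) ^ 2 / q = X * Real.exp 4 / q * ((d : ℝ) ^ 2)⁻¹ := by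
      field_simp
    linarith
  have h3 : ∑ d ∈ Finset.Ioo ⌊y⌋₊ (Z + 1), ((d : ℝ) ^ 2)⁻¹ ≤ 2 / y := by
    refine (sum_Ioo_inv_sq_le ⌊y⌋₊ (Z + 1)).trans ?_
    apply div_le_div_of_nonneg_left (by norm_num) (by linarith)
    exact (Nat.lt_floor_add_one y).le
  have h4 : ((Z + 1 - ⌊y⌋₊ - 1 : ℕ) : ℝ) ≤ Real.sqrt X * Real.exp 2 := by
    have h3 : ((Z + 1 - ⌊y⌋₊ - 1 : ℕ) : ℝ) ≤ Z := by
      have : Z + 1 - ⌊y⌋₊ - 1 ≤ Z := by omega
      exact_mod_cast this
    exact h3.trans (Nat.floor_le (by positivity))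
  rw [Finset.sum_add_distrib, ← Finset.mul_sum, Finset.sum_const, nsmul_eq_mul, Nat.card_Ioo,
    mul_one] at h2
  have h5 : ST φ s (1 / 4) X a ≤ 1 / 4 / X * (X * Real.exp 4 / q * (2 / y) +
      Real.sqrt X * Real.exp 2) := by
    refine h1.trans (mul_le_mul_of_nonneg_left (h2.trans (add_le_add ?_ h4)) (by positivity))
    exact mul_le_mul_of_nonneg_left h3 (by positivity)
  have hφq : (Nat.totient q : ℝ) ≤ q := by exact_mod_cast Nat.totient_le q
  have hy0 : (0 : ℝ) < y := by linarith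
  have h6 : (Nat.totient q : ℝ) * ST φ s (1 / 4) X a ≤
      q * (1 / 4 / X * (X * Real.exp 4 / q * (2 / y) + Real.sqrt X * Real.exp 2)) := by
    refine (mul_le_mul_of_nonneg_left h5 (Nat.cast_nonneg _)).trans ?_
    exact mul_le_mul_of_nonneg_right hφq (by positivity)
  refine h6.trans ?_
  have hsX : 0 < Real.sqrt X := Real.sqrt_pos.2 hX0
  have hXX : X = Real.sqrt X * Real.sqrt X := (Real.mul_self_sqrt hX0.le).symm
  have e1 : (q : ℝ) * (1 / 4 / X * (X * Real.exp 4 / q * (2 / y) + Real.sqrt X * Real.exp 2)) =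
      (1 / 2) * Real.exp 4 * (1 / y) + (1 / 4) * Real.exp 2 * (q / Real.sqrt X) := by
    have : Real.sqrt X / X = 1 / Real.sqrt X := by
      rw [div_eq_div_iff hX0.ne' hsX.ne', one_mul, ← hXX]
    calc _ = (1 / 2) * Real.exp 4 * (1 / y) * (X / X) * (q / q) +
          (1 / 4) * Real.exp 2 * (q * (Real.sqrt X / X)) := by field_simp; ring
      _ = _ := by rw [this, div_self hX0.ne', div_self hqR.ne']; ring
  rw [e1, mul_add]
  have e24 : Real.exp 2 ≤ Real.exp 4 := Real.exp_le_exp.2 (by norm_num)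
  have p1 : 0 < 1 / y := by positivity
  have p2 : 0 < (q : ℝ) / Real.sqrt X := by positivity
  have p3 := Real.exp_pos 4
  have p4 := Real.exp_pos 2
  nlinarith [mul_pos p3 p1, mul_pos p3 p2, mul_pos p4 p2, mul_le_mul_of_nonneg_right e24 p2.le]

end Lnk
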