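import Pool.Agent.Lib.Linnik.Defs

/-!
# Many primes `q` with `q - 1 ∣ Λ`
-/

set_option autoImplicit false

namespace Lnk

open Finset

theorem card_div_three {p₁ p₂ p₃ : ℕ} (h₁ : p₁.Prime) (h₂ : p₂.Prime) (h₃ : p₃.Prime)
    (h12 : p₁ ≠ p₂) (h13 : p₁ ≠ p₃) (h23 : p₂ ≠ p₃) (a : ℕ) :
    ((p₁ * p₂ * p₃) ^ a).divisors.card = (a + 1) ^ 3 := by
  have c12 : Nat.Coprime p₁ p₂ := (Nat.coprime_primes h₁ h₂).2 h12
  have c13 : Nat.Coprime p₁ p₃ := (Nat.coprime_primes h₁ h₃).2 h13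
  have c23 : Nat.Coprime p₂ p₃ := (Nat.coprime_primes h₂ h₃).2 h23
  have hp : ∀ p : ℕ, p.Prime → (p ^ a).divisors.card = a + 1 := by
    intro p hp
    rw [Nat.divisors_prime_pow hp, Finset.card_map, Finset.card_range]
  rw [mul_pow, mul_pow, Nat.Coprime.card_divisors_mul, Nat.Coprime.card_divisors_mul, hp _ h₁,
    hp _ h₂, hp _ h₃]
  · ring
  · exact Nat.Coprime.pow _ _ c12
  · exact Nat.Coprime.mul_left (Nat.Coprime.pow _ _ c13) (Nat.Coprime.pow _ _ c23)

theorem exists_three {l : ℕ} (hl : l.Prime) : ∃ m : ℕ, 0 < m ∧ m ∣ 1155 ∧ (∀ a : ℕ, ¬ l ∣ m ^ a) ∧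
    ∀ a : ℕ, (m ^ a).divisors.card = (a + 1) ^ 3 := by
  have h3 : Nat.Prime 3 := by norm_num
  have h5 : Nat.Prime 5 := by norm_num
  have h7 : Nat.Prime 7 := by norm_num
  have h11 : Nat.Prime 11 := by norm_num
  by_cases e3 : l = 3
  · subst e3
    refine ⟨5 * 7 * 11, by norm_num, by norm_num, fun a h => ?_,
      fun a => card_div_three h5 h7 h11 (by norm_num) (by norm_num) (by norm_num) a⟩
    have := h3.dvd_of_dvd_pow h
    norm_num at this
  by_cases e5 : l = 5
  · subst e5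
    refine ⟨3 * 7 * 11, by norm_num, by norm_num, fun a h => ?_,
      fun a => card_div_three h3 h7 h11 (by norm_num) (by norm_num) (by norm_num) a⟩
    have := h5.dvd_of_dvd_pow h
    norm_num at this
  by_cases e7 : l = 7
  · subst e7
    refine ⟨3 * 5 * 11, by norm_num, by norm_num, fun a h => ?_,
      fun a => card_div_three h3 h5 h11 (by norm_num) (by norm_num) (by norm_num) a⟩
    have := h7.dvd_of_dvd_pow h
    norm_num at this
  · refine ⟨3 * 5 * 7, by norm_num, by norm_num, fun a h => ?_,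
      fun a => card_div_three h3 h5 h7 (by norm_num) (by norm_num) (by norm_num) a⟩
    have h1 := hl.dvd_of_dvd_pow h
    rcases (Nat.Prime.dvd_mul hl).1 h1 with h2 | h2
    · rcases (Nat.Prime.dvd_mul hl).1 h2 with h4 | h4
      · exact e3 ((Nat.prime_dvd_prime_iff_eq hl h3).1 h4)
      · exact e5 ((Nat.prime_dvd_prime_iff_eq hl h5).1 h4)
    · exact e7 ((Nat.prime_dvd_prime_iff_eq hl h7).1 h2)

/-- Primes `≡ 1 mod d` up to `d x` are of the form `d j + 1` with `1 ≤ j ≤ x`. -/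
theorem pc_one_le {d : ℕ} (hd : 0 < d) {x : ℝ} (hx : 0 ≤ x) :
    pc d 1 (d * x) ≤ ((Finset.Icc 1 ⌊x⌋₊).filter (fun j => (d * j + 1).Prime)).card := by
  classical
  unfold pc
  have hsub : (Finset.Icc 1 ⌊(d : ℝ) * x⌋₊).filter
      (fun p : ℕ => p.Prime ∧ ((p : ℕ) : ZMod d) = 1) ⊆
      ((Finset.Icc 1 ⌊x⌋₊).filter (fun j => (d * j + 1).Prime)).image (fun j => d * j + 1) := by
    intro p hp
    rw [Finset.mem_filter, Finset.mem_Icc] at hp
    obtain ⟨⟨h1, h2⟩, h3, h4⟩ := hp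
    have h5 : (p : ℝ) ≤ d * x := (Nat.le_floor_iff (by positivity)).1 h2
    have h6 : d ∣ p - 1 := by
      rw [← ZMod.natCast_eq_zero_iff, Nat.cast_sub h1, h4]
      simp
    obtain ⟨j, hj⟩ := h6
    have h7 : p = d * j + 1 := by omega
    have hj1 : 1 ≤ j := by
      rcases Nat.eq_zero_or_pos j with h0 | h0
      · rw [h0] at h7
        simp at h7
        exact absurd h3 (by rw [h7]; norm_num)
      · exact h0
    rw [Finset.mem_image]
    refine ⟨j, ?_, h7.symm⟩
    rw [Finset.mem_filter, Finset.mem_Icc]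
    refine ⟨⟨hj1, ?_⟩, h7 ▸ h3⟩
    rw [Nat.le_floor_iff hx]
    have hd0 : (0 : ℝ) < d := by exact_mod_cast hd
    have h8 : (d : ℝ) * j ≤ d * x := by
      have : (p : ℝ) = d * j + 1 := by rw [h7]; push_cast; ring
      linarith
    exact le_of_mul_le_mul_left h8 hd0
  exact (Finset.card_le_card hsub).trans Finset.card_image_le

theorem exists_Lambda (h : PrimesAP) : ∃ (B c : ℝ) (a₀ : ℕ), 0 < B ∧ 0 < c ∧ ∀ a : ℕ, a₀ ≤ a →
    ∃ (Λ : ℕ) (𝒬 : Finset ℕ), 0 < Λ ∧ (Λ : ℝ) ≤ Real.exp (B * a) ∧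
      (∀ q ∈ 𝒬, q.Prime ∧ 7 ≤ q ∧ (q - 1) ∣ Λ) ∧ c * (a : ℝ) ^ 2 ≤ 𝒬.card := by
  classical
  obtain ⟨δ, c, x₀, hδ0, hδ1, hc, hx₀, hP⟩ := h
  set W : ℝ := Real.log 1155 with hW
  have hW0 : 0 < W := Real.log_pos (by norm_num)
  -- choose a₀
  obtain ⟨a₁, ha₁⟩ := exists_nat_ge (Real.log x₀ * δ / W)
  obtain ⟨a₂, ha₂⟩ := exists_nat_ge (24 * W / (c * δ))
  refine ⟨2 * W / δ, c * δ / (4 * W), max (max a₁ a₂) 1, by positivity, by positivity, ?_⟩
  intro a ha
  have ha1 : a₁ ≤ a := le_trans (le_trans (le_max_left _ _) (le_max_left _ _)) ha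
  have ha2 : a₂ ≤ a := le_trans (le_trans (le_max_right _ _) (le_max_left _ _)) ha
  have ha3 : 1 ≤ a := le_trans (le_max_right _ _) ha
  have ha3' : (1 : ℝ) ≤ a := by exact_mod_cast ha3
  set x : ℝ := Real.exp (a * W / δ) with hx
  have hlogx : Real.log x = a * W / δ := Real.log_exp _
  have hx0 : 0 < x := Real.exp_pos _
  have hxx : x₀ ≤ x := by
    rw [← Real.exp_log (show 0 < x₀ by linarith), hx]
    apply Real.exp_le_exp.2
    rw [le_div_iff₀ hδ0]
    have h1 : Real.log x₀ * δ / W ≤ a := ha₁.trans (by exact_mod_cast ha1)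
    rw [div_le_iff₀ hW0] at h1
    linarith
  have hx1 : 1 < x := lt_of_lt_of_le hx₀ hxx
  have hN : ((1155 ^ a : ℕ) : ℝ) ≤ x ^ δ := by
    rw [hx, ← Real.exp_mul]
    have h1 : ((1155 ^ a : ℕ) : ℝ) = Real.exp (a * W) := by
      push_cast
      rw [hW, mul_comm, Real.exp_mul, Real.exp_log (by norm_num)]
      simp
    rw [h1]
    apply Real.exp_le_exp.2
    rw [div_mul_cancel₀ _ hδ0.ne']
  have hN8 : ¬ 8 ∣ 1155 ^ a := by
    intro h8
    have h2 : 2 ∣ 1155 ^ a := dvd_trans (by norm_num) h8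
    have := Nat.prime_two.dvd_of_dvd_pow h2
    norm_num at this
  obtain ⟨l, hl, hl2, hq⟩ := hP x hxx (1155 ^ a) (by positivity) hN hN8
  obtain ⟨m, hm0, hm, hlm, hmc⟩ := exists_three hl
  set D := (m ^ a).divisors with hD
  have hlx : 0 < Real.log x := Real.log_pos hx1
  have hxN : ((1155 ^ a : ℕ) : ℝ) ≤ x := by
    refine hN.trans ?_
    calc x ^ δ ≤ x ^ (1 : ℝ) := Real.rpow_le_rpow_of_exponent_le hx1.le hδ1.le
      _ = x := Real.rpow_one x
  -- lower bound for each d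
  have hcount : ∀ d ∈ D, c * x / (2 * Real.log x) ≤
      (((Finset.Icc 1 ⌊x⌋₊).filter (fun j => (d * j + 1).Prime)).card : ℝ) := by
    intro d hd
    have hdm : d ∣ m ^ a := Nat.dvd_of_mem_divisors hd
    have hdN : d ∣ 1155 ^ a := hdm.trans (pow_dvd_pow_of_dvd hm a)
    have hd0 : 0 < d := Nat.pos_of_dvd_of_pos hdm (by positivity)
    have hdl : ¬ l ∣ d := fun h => hlm a (h.trans hdm)
    have hd0' : (0 : ℝ) < d := by exact_mod_cast hd0
    have hd1' : (1 : ℝ) ≤ d := by exact_mod_cast hd0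
    have hdx : (d : ℝ) ≤ x := by
      refine le_trans ?_ hxN
      exact_mod_cast Nat.le_of_dvd (by positivity) hdN
    have h1 := hq d hdN hdl 1 isUnit_one (d * x) (by nlinarith) (by nlinarith)
    refine le_trans ?_ (h1.trans (by exact_mod_cast pc_one_le hd0 hx0.le))
    have hdxpos : 1 < d * x := by nlinarith
    have hlog2 : Real.log (d * x) ≤ 2 * Real.log x := by
      rw [Real.log_mul hd0'.ne' hx0.ne']
      have := Real.log_le_log hd0' hdx
      linarith
    have hlogpos : 0 < Real.log (d * x) := Real.log_pos hdxpos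
    have htot : (0 : ℝ) < Nat.totient d := by exact_mod_cast Nat.totient_pos.2 hd0
    have htot2 : (Nat.totient d : ℝ) ≤ d := by exact_mod_cast Nat.totient_le d
    rw [div_le_div_iff₀ (by positivity) (by positivity)]
    calc c * x * (Nat.totient d * Real.log (d * x)) ≤ c * x * (d * (2 * Real.log x)) := by
          gcongr
      _ = c * (d * x) * (2 * Real.log x) := by ring
  -- averaging over j
  obtain ⟨j, hj, hjc⟩ : ∃ j ∈ Finset.Icc 1 ⌊x⌋₊, (D.card : ℝ) * c / (2 * Real.log x) ≤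
      ((D.filter (fun d => (d * j + 1).Prime)).card : ℝ) := by
    by_contra hcon
    push Not at hcon
    have hfl : 1 ≤ ⌊x⌋₊ := Nat.le_floor (by simpa using hx1.le)
    have hne : (Finset.Icc 1 ⌊x⌋₊).Nonempty := ⟨1, Finset.mem_Icc.2 ⟨le_rfl, hfl⟩⟩
    have h1 := Finset.sum_lt_sum_of_nonempty hne hcon
    rw [Finset.sum_const, nsmul_eq_mul, Nat.card_Icc, Nat.add_sub_cancel] at h1
    have h2 : ∑ j ∈ Finset.Icc 1 ⌊x⌋₊, ((D.filter (fun d => (d * j + 1).Prime)).card : ℝ) =
        ∑ d ∈ D, (((Finset.Icc 1 ⌊x⌋₊).filter (fun j => (d * j + 1).Prime)).card : ℝ) := by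
      simp_rw [Finset.card_filter, Nat.cast_sum]
      rw [Finset.sum_comm]
    rw [h2] at h1
    have h3 := Finset.sum_le_sum hcount
    rw [Finset.sum_const, nsmul_eq_mul] at h3
    have h4 : (⌊x⌋₊ : ℝ) ≤ x := Nat.floor_le hx0.le
    have h5 : (⌊x⌋₊ : ℝ) * ((D.card : ℝ) * c / (2 * Real.log x)) ≤
        x * ((D.card : ℝ) * c / (2 * Real.log x)) := by
      gcongr
    have h6 : x * ((D.card : ℝ) * c / (2 * Real.log x)) =
        (D.card : ℝ) * (c * x / (2 * Real.log x)) := by ring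
    linarith
  rw [Finset.mem_Icc] at hj
  have hj0 : 0 < j := hj.1
  have hjx : (j : ℝ) ≤ x := (Nat.le_floor_iff hx0.le).1 hj.2
  refine ⟨1155 ^ a * j, ((D.filter (fun d => (d * j + 1).Prime)).filter (fun d => 7 ≤ d)).image
    (fun d => d * j + 1), by positivity, ?_, ?_, ?_⟩
  · push_cast
    push_cast at hxN
    have hexp2 : x * x = Real.exp (2 * W / δ * a) := by
      rw [hx, ← Real.exp_add]; congr 1; ring
    rw [← hexp2]
    have h0 : (0 : ℝ) ≤ j := by positivity
    exact mul_le_mul hxN hjx h0 hx0.le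
  · intro q hq'
    rw [Finset.mem_image] at hq'
    obtain ⟨d, hd, rfl⟩ := hq'
    rw [Finset.mem_filter, Finset.mem_filter] at hd
    refine ⟨hd.1.2, ?_, ?_⟩
    · have := Nat.mul_le_mul hd.2 hj0
      omega
    · rw [Nat.add_sub_cancel]
      exact Nat.mul_dvd_mul_right ((Nat.dvd_of_mem_divisors hd.1.1).trans
        (pow_dvd_pow_of_dvd hm a)) j
  · rw [Finset.card_image_of_injective]
    · have h1 : (D.filter (fun d => (d * j + 1).Prime)).card ≤
          ((D.filter (fun d => (d * j + 1).Prime)).filter (fun d => 7 ≤ d)).card + 6 := by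
        have h2 := Finset.card_filter_add_card_filter_not
          (s := D.filter (fun d => (d * j + 1).Prime)) (fun d => 7 ≤ d)
        have h3 : ((D.filter (fun d => (d * j + 1).Prime)).filter (fun d => ¬ 7 ≤ d)).card ≤ 6 := by
          calc _ ≤ (Finset.Icc 1 6).card := by
                apply Finset.card_le_card
                intro d hd
                rw [Finset.mem_filter, Finset.mem_filter] at hd
                have := Nat.pos_of_mem_divisors hd.1.1
                rw [Finset.mem_Icc]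
                omega
            _ = 6 := by simp
        omega
      have h1' : ((D.filter (fun d => (d * j + 1).Prime)).card : ℝ) ≤
          (((D.filter (fun d => (d * j + 1).Prime)).filter (fun d => 7 ≤ d)).card : ℝ) + 6 := by
        exact_mod_cast h1
      have hDc : (D.card : ℝ) = (a + 1) ^ 3 := by
        rw [hD, hmc]; push_cast; ring
      rw [hDc, hlogx] at hjc
      have h4 : ((a : ℝ) + 1) ^ 3 * c / (2 * (a * W / δ)) =
          ((a : ℝ) + 1) ^ 3 / a * (c * δ / (2 * W)) := by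
        field_simp
      have h5 : (a : ℝ) ^ 2 + 3 * a ≤ ((a : ℝ) + 1) ^ 3 / a := by
        rw [le_div_iff₀ (by linarith)]
        nlinarith
      have h6 : 24 * W / (c * δ) ≤ a := ha₂.trans (by exact_mod_cast ha2)
      rw [div_le_iff₀ (by positivity)] at h6
      have h7 : ((a : ℝ) ^ 2 + 3 * a) * (c * δ / (2 * W)) ≤
          ((a : ℝ) + 1) ^ 3 * c / (2 * (a * W / δ)) := by
        rw [h4]; gcongr
      have h8 : 6 ≤ 3 * a * (c * δ / (2 * W)) := by
        rw [mul_div_assoc', le_div_iff₀ (by positivity)]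
        nlinarith
      have h9 : c * δ / (4 * W) * (a : ℝ) ^ 2 ≤ (a : ℝ) ^ 2 * (c * δ / (2 * W)) := by
        have : c * δ / (2 * W) = 2 * (c * δ / (4 * W)) := by field_simp; ring
        rw [this]
        have : 0 ≤ c * δ / (4 * W) * (a : ℝ) ^ 2 := by positivity
        linarith
      linarith
    · intro d₁ d₂ h12
      have h13 : d₁ * j + 1 = d₂ * j + 1 := h12
      exact Nat.eq_of_mul_eq_mul_right hj0 (by omega)

end Lnk
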