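import Pool.Agent.Lib.Linnik.Assembly

/-!
# II8: the Linnik type theorem for non exceptional moduli
-/

set_option autoImplicit false

namespace Lnk

open Finset Real Filter Topology Hoh

/-- A long sum over the primes of a residue class bounded by a count. -/
theorem ST_prim_rs_le {φ : ℝ → ℝ} (hφ : Bump φ) {s z x : ℝ} (hs : 0 ≤ s) (hz : 1 ≤ z)
    (hx : z * Real.exp 4 = x) (q : ℕ) (b : ZMod q) :
    ST φ s (1 / 4) z (rs q b primeInd) ≤ 1 / 4 / z * (pc q b x : ℝ) := by
  have hT0 : (0 : ℝ) < 1 / 4 := by norm_num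
  have h4 : (1 : ℝ) / (1 / 4) = 4 := by norm_num
  have hN := Nat.le_ceil (z * Real.exp (1 / (1 / 4)))
  have hnn : ∀ n : ℕ, 0 ≤ rs q b primeInd n := by
    intro n
    rw [rs_apply, primeInd_apply]
    split_ifs <;> norm_num
  refine (ST_le_sum hφ hs hT0 hz hN (fun n _ _ => hnn n)).trans ?_
  apply mul_le_mul_of_nonneg_left _ (by positivity)
  rw [h4, hx]
  have h1 : ∀ n : ℕ, rs q b primeInd n = if n.Prime ∧ ((n : ℕ) : ZMod q) = b then 1 else 0 := by
    intro n
    rw [rs_apply, primeInd_apply]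
    by_cases h1 : (n : ZMod q) = b <;> by_cases h2 : n.Prime <;> simp [h1, h2]
  simp_rw [h1]
  rw [← Finset.sum_filter, Finset.sum_const, nsmul_eq_mul, mul_one, pc, Finset.filter_filter]
  norm_cast
  apply Finset.card_le_card
  intro n hn
  rw [Finset.mem_filter, Finset.mem_Icc] at hn ⊢
  exact ⟨⟨hn.1.1, Nat.le_floor hn.2.1.2.le⟩, hn.2.2⟩

theorem linnik_of {φ : ℝ → ℝ} (hφ : Bump φ) (hTri : TriQ φ) (hGd : GdiffQ φ)
    (hGt : GtgtQ φ) (hN : NsqQ φ) (hCh : ChebStmt φ) (hR : RecipPrimes) : LinnikStmt := by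
  intro C hC
  obtain ⟨c₀, x₁, hc₀, hcheb⟩ := hCh
  obtain ⟨C₁, c₁, hC₁, hc₁, hgd⟩ := hGd
  obtain ⟨C₂, hC₂, hrec⟩ := hR
  obtain ⟨C₃, hC₃, x₃, hgt⟩ := hGt
  obtain ⟨C₄, hC₄, hdec⟩ := decompQ hφ hN
  obtain ⟨η, hη0, hη1, hηκ⟩ := exists_eta C₁ c₁ C₂ (c₀ / 8) hC₁ hc₁ hC₂ (by positivity)
  have hη2 : (0 : ℝ) < η ^ 2 := by positivity
  obtain ⟨G, hG⟩ := exists_cut hη2
  obtain ⟨x₂, hgd'⟩ := hgd η hη0 hη1 G hG
  set S := C₂ * (Real.log (1 / (2 * η)) + 1) with hS
  have hlogη : 0 ≤ Real.log (1 / (2 * η)) := by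
    apply Real.log_nonneg
    rw [le_div_iff₀ (by positivity)]
    linarith
  have hS0 : 0 ≤ S := by positivity
  set κ := C₁ * (η + Real.exp (-c₁ / η) / η) with hκ
  have hκ0 : 0 ≤ κ := by positivity
  set K := ⌈2 / η⌉₊ with hK
  have hKη : 2 ≤ (K : ℝ) * η := by
    have := Nat.le_ceil (2 / η)
    rwa [div_le_iff₀ hη0] at this
  have hK2 : 2 ≤ K := by
    have h1 : (2 : ℝ) < K := by
      by_contra hcon
      push Not at hcon
      nlinarith
    exact_mod_cast h1.le
  set ε' := c₀ / (16 * (K + 1)) with hε'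
  have hε'0 : 0 < ε' := by positivity
  -- choose d
  have hev1 : ∀ k ∈ Finset.Icc 2 K, ∀ᶠ d : ℝ in 𝓝[>] (0 : ℝ), ∀ᶠ x : ℝ in atTop,
      ∀ Q : ℝ, x ^ (d / 3) ≤ Q → Q ≤ x ^ d →
        ∀ q : ℕ, 0 < q → (q : ℝ) ^ 2 ≤ Q → NE C Q q → ∀ b : ZMod q, IsUnit b →
          ∀ β : ArithmeticFunction ℝ, (∀ n, |β n| ≤ 1) → (∀ n, β n ≠ 0 → n.Prime ∧ x ^ η < n) →
            |(Nat.totient q : ℝ) * ST φ (1 / Real.log x) (1 / 4) x
                (rs q b (β * g1 G (η * Real.log x) ^ k)) -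
              ST φ (1 / Real.log x) (1 / 4) x (β * g1 G (η * Real.log x) ^ k)| ≤
              ε' / Real.log x := by
    intro k hk
    obtain ⟨d₀, hd₀, h⟩ := hTri η (η ^ 2) G hη0 (by linarith) hη2 hG k
      (Finset.mem_Icc.mp hk).1 C hC ε' hε'0
    filter_upwards [Ioc_mem_nhdsGT hd₀] with d hd
    obtain ⟨x₀, hx₀⟩ := h d hd.1 hd.2
    filter_upwards [eventually_ge_atTop x₀] with x hx
    exact hx₀ x hx
  have hev2 := (Finset.eventually_all (Finset.Icc 2 K)).mpr hev1
  have hev3 : ∀ᶠ d in 𝓝[>] (0 : ℝ), 0 < d ∧ d ≤ 1 / 8 := by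
    filter_upwards [Ioc_mem_nhdsGT (show (0 : ℝ) < 1 / 8 by norm_num)] with d hd
    exact hd
  have hev4 : ∀ᶠ d in 𝓝[>] (0 : ℝ), d ≤ η := by
    filter_upwards [Ioc_mem_nhdsGT hη0] with d hd
    exact hd.2
  obtain ⟨d, ⟨hdK, hd0, hd8⟩, hdη⟩ := ((hev2.and hev3).and hev4).exists
  have hxK := (Finset.eventually_all (Finset.Icc 2 K)).mpr hdK
  -- elementary limits
  have hlog := Real.tendsto_log_atTop
  have hpow : ∀ a : ℝ, 0 < a → Tendsto (fun x : ℝ => Real.log x / x ^ a) atTop (𝓝 0) := fun a ha =>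
    (isLittleO_log_rpow_atTop ha).tendsto_div_nhds_zero
  have hsmall : ∀ B κ' : ℝ, 0 < κ' → ∀ᶠ x : ℝ in atTop,
      B * (1 / x ^ η + 1 / x ^ (1 / 8 : ℝ)) ≤ κ' / Real.log x := by
    intro B κ' hκ'
    have h1 : Tendsto (fun x : ℝ => B * (Real.log x / x ^ η + Real.log x / x ^ (1 / 8 : ℝ)))
        atTop (𝓝 (B * (0 + 0))) :=
      ((hpow η hη0).add (hpow (1 / 8) (by norm_num))).const_mul B
    rw [add_zero, mul_zero] at h1
    filter_upwards [h1.eventually_lt_const hκ', eventually_gt_atTop 1] with x hx hx1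
    have hlx : 0 < Real.log x := Real.log_pos hx1
    rw [le_div_iff₀ hlx]
    calc B * (1 / x ^ η + 1 / x ^ (1 / 8 : ℝ)) * Real.log x =
        B * (Real.log x / x ^ η + Real.log x / x ^ (1 / 8 : ℝ)) := by ring
      _ ≤ κ' := hx.le
  have hev : ∀ᶠ x : ℝ in atTop, ∀ Q : ℝ, x ^ (d / 3) ≤ Q → Q ≤ x ^ d →
      ∀ q : ℕ, 0 < q → (q : ℝ) ^ 2 ≤ Q → NE C Q q → ∀ b : ZMod q, IsUnit b →
      c₀ / 2 / Real.log x ≤ (Nat.totient q : ℝ) *
        ST φ (1 / Real.log x) (1 / 4) x (rs q b primeInd) := by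
    filter_upwards [hxK, eventually_ge_atTop x₁, eventually_ge_atTop x₂, eventually_ge_atTop x₃,
      eventually_gt_atTop 1, hlog.eventually_ge_atTop 4, hlog.eventually_ge_atTop (1 / η),
      hsmall (C₄ * (1 + S)) (c₀ / 32) (by positivity),
      hlog.eventually_ge_atTop (64 * C₃ / c₀)] with
      x hxK' hx₁ hx₂ hx₃ hx1 hl4 hlη hsm hlC₃
    intro Q hQ1 hQ2 q hq hqQ hNE b hb
    have hx0 : 0 < x := by linarith
    have hlx : 0 < Real.log x := by linarith
    set s := 1 / Real.log x with hs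
    have hs0 : 0 < s := by positivity
    have hs1 : s ≤ 1 := by rw [hs, div_le_one hlx]; linarith
    set L := η * Real.log x with hLdef
    have hL1 : 1 ≤ L := by
      rw [hLdef]
      rw [div_le_iff₀ hη0] at hlη
      linarith
    have hL0 : 0 < L := by linarith
    have hexpL : Real.exp L = x ^ η := by
      rw [Real.rpow_def_of_pos hx0, hLdef]; congr 1; ring
    set P := g1 G L with hP
    set l := cutLo (Real.sqrt x) P with hl
    set h := cutHi (Real.sqrt x) P with hh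
    -- size of q
    have hqx : (q : ℝ) ≤ x ^ (d / 2) := by
      have h1 : (q : ℝ) ^ 2 ≤ (x ^ (d / 2)) ^ 2 := by
        rw [← Real.rpow_natCast (x ^ (d / 2)) 2, ← Real.rpow_mul hx0.le]
        have : d / 2 * (2 : ℕ) = d := by push_cast; ring
        rw [this]
        exact hqQ.trans hQ2
      exact le_of_sq_le_sq h1 (by positivity)
    have hq16 : (q : ℝ) ≤ x ^ (1 / 16 : ℝ) :=
      hqx.trans (Real.rpow_le_rpow_of_exponent_le hx1.le (by linarith))
    have hqη : (q : ℝ) ≤ x ^ η :=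
      hqx.trans (Real.rpow_le_rpow_of_exponent_le hx1.le (by linarith))
    obtain ⟨hP1, hP2⟩ := g1_props hG hx0 hL0
    have hl1 : ∀ n, |l n| ≤ 1 := by
      intro n
      rw [hl, cutLo_apply]
      split_ifs
      · exact hP1 n
      · simp
    have hl2 : ∀ n, l n ≠ 0 → n.Prime ∧ x ^ η < n := by
      intro n hn
      rw [hl, cutLo_apply] at hn
      by_cases hc : (n : ℝ) ≤ Real.sqrt x
      · rw [if_pos hc] at hn; exact hP2 n hn
      · rw [if_neg hc] at hn; exact absurd rfl hn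
    have hh1 : ∀ n, |h n| ≤ 1 := by
      intro n
      rw [hh, cutHi_apply]
      split_ifs
      · simp
      · exact hP1 n
    have hh2 : ∀ n, h n ≠ 0 → n.Prime ∧ Real.sqrt x < n := by
      intro n hn
      rw [hh, cutHi_apply] at hn
      by_cases hc : (n : ℝ) ≤ Real.sqrt x
      · rw [if_pos hc] at hn; exact absurd rfl hn
      · rw [if_neg hc] at hn
        exact ⟨(hP2 n hn).1, by linarith [not_le.mp hc]⟩
    have hl0 : ∀ n, 0 ≤ l n := by
      intro n
      rw [hl, cutLo_apply]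
      split_ifs
      · rw [hP, g1_apply]
        split_ifs
        · exact hG.nonneg _
        · exact le_rfl
      · exact le_rfl
    have hsum0 : 0 ≤ 1 + ∑ d ∈ Finset.Icc 1 ⌊Real.sqrt x⌋₊, l d / d := by
      have : 0 ≤ ∑ d ∈ Finset.Icc 1 ⌊Real.sqrt x⌋₊, l d / d :=
        Finset.sum_nonneg fun d _ => div_nonneg (hl0 d) (Nat.cast_nonneg d)
      linarith
    have hSb : ∑ d ∈ Finset.Icc 1 ⌊Real.sqrt x⌋₊, l d / d ≤ S :=
      S_bound hrec hC₂ hG hx1 hη0 hη1 hL1
    -- the remainder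
    have hq8 : ∀ m : ℕ, (m : ℝ) ≤ x ^ (1 / 16 : ℝ) → (m : ℝ) ^ 8 ≤ x := by
      intro m hm
      calc (m : ℝ) ^ 8 ≤ (x ^ (1 / 16 : ℝ)) ^ 8 := by gcongr
        _ = x ^ (1 / 2 : ℝ) := by
          rw [← Real.rpow_natCast (x ^ (1 / 16 : ℝ)) 8, ← Real.rpow_mul hx0.le]
          norm_num
        _ ≤ x ^ (1 : ℝ) := Real.rpow_le_rpow_of_exponent_le hx1.le (by norm_num)
        _ = x := Real.rpow_one x
    have hrem : ∀ m : ℕ, 0 < m → (m : ℝ) ≤ x ^ (1 / 16 : ℝ) → (m : ℝ) ≤ x ^ η →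
        ∀ c : ZMod m, IsUnit c →
        |(Nat.totient m : ℝ) * ST φ s (1 / 4) x (rs m c primeInd) -
          ((Nat.totient m : ℝ) * ST φ s (1 / 4) x (rs m c (gg G L)) -
            (Nat.totient m : ℝ) * ST φ s (1 / 4) x (rs m c (l * gg G L)) +
          ∑ k ∈ Finset.Icc 2 K, (1 / (k.factorial : ℝ)) *
            ((Nat.totient m : ℝ) * ST φ s (1 / 4) x (rs m c (l * P ^ k))) -
          ∑ k ∈ Finset.Icc 3 K, (1 / (k.factorial : ℝ)) *
            ((Nat.totient m : ℝ) * ST φ s (1 / 4) x (rs m c (P ^ k))))| ≤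
        c₀ / 32 / Real.log x + c₀ / 64 / Real.log x := by
      intro m hm hm1 hm2 c hc
      refine (hdec (η ^ 2) G hG L s x K hL0 hs0 hs1 hx1.le hK2 ?_ ?_ m hm
        (by rw [hexpL]; exact hm2) c hc).trans ?_
      · rw [hLdef]
        have : (1 + η ^ 2) * η ≤ 1 / 2 := by nlinarith
        nlinarith
      · have h2 : 2 * Real.log x ≤ (K + 1) * L := by
          rw [hLdef]
          nlinarith
        linarith
      · have hqq : (m : ℝ) / x ^ (1 / 4 : ℝ) ≤ 1 / x ^ (1 / 8 : ℝ) := by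
          rw [div_le_div_iff₀ (by positivity) (by positivity), one_mul]
          calc (m : ℝ) * x ^ (1 / 8 : ℝ) ≤ x ^ (1 / 16 : ℝ) * x ^ (1 / 8 : ℝ) := by gcongr
            _ = x ^ (3 / 16 : ℝ) := by rw [← Real.rpow_add hx0]; norm_num
            _ ≤ x ^ (1 / 4 : ℝ) := Real.rpow_le_rpow_of_exponent_le hx1.le (by norm_num)
        have h1 : C₄ * (1 / Real.exp L + (m : ℝ) / x ^ (1 / 4 : ℝ)) *
            (1 + ∑ d ∈ Finset.Icc 1 ⌊Real.sqrt x⌋₊, l d / d) ≤ c₀ / 32 / Real.log x := by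
          rw [hexpL]
          calc C₄ * (1 / x ^ η + (m : ℝ) / x ^ (1 / 4 : ℝ)) *
              (1 + ∑ d ∈ Finset.Icc 1 ⌊Real.sqrt x⌋₊, l d / d)
              ≤ C₄ * (1 / x ^ η + 1 / x ^ (1 / 8 : ℝ)) * (1 + S) := by gcongr
            _ = C₄ * (1 + S) * (1 / x ^ η + 1 / x ^ (1 / 8 : ℝ)) := by ring
            _ ≤ _ := hsm
        have h2 : (Nat.totient m : ℝ) * |ST φ s (1 / 4) x (rs m c (h * h))| ≤
            c₀ / 64 / Real.log x := by
          refine (hgt x hx₃ m hm (hq8 m hm1) c hc h hh1 hh2).trans ?_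
          rw [div_div, div_le_div_iff₀ (by positivity) (by positivity)]
          rw [div_le_iff₀ hc₀] at hlC₃
          have : C₃ * (64 * Real.log x) = (64 * C₃) * Real.log x := by ring
          rw [this, pow_two, ← mul_assoc]
          apply mul_le_mul_of_nonneg_right _ hlx.le
          linarith
        linarith
    have hremQ := hrem q hq hq16 hqη b hb
    have hrem1 := hrem 1 one_pos (by
      rw [Nat.cast_one]; exact Real.one_le_rpow hx1.le (by norm_num)) (by
      rw [Nat.cast_one]; exact Real.one_le_rpow hx1.le hη0.le) 1 isUnit_one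
    simp only [rs_one, Nat.totient_one, Nat.cast_one, one_mul] at hrem1
    set F : ℝ := (Nat.totient q : ℝ) with hF
    have hF0 : 0 ≤ F := Nat.cast_nonneg _
    -- differences
    have hsq : Real.sqrt x ≤ x := by
      rw [Real.sqrt_le_left (by linarith)]
      nlinarith
    have hDg : |F * ST φ s (1 / 4) x (rs q b (gg G L)) - ST φ s (1 / 4) x (gg G L)| ≤
        κ / Real.log x :=
      hgd' x hx₂ q hq (hq8 q hq16) hqη b hb x hsq le_rfl
    have hlunit : ∀ n, l n ≠ 0 → IsUnit (n : ZMod q) := by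
      intro n hn
      obtain ⟨hp, hgt⟩ := hl2 n hn
      rw [ZMod.isUnit_iff_coprime]
      apply (Nat.Prime.coprime_iff_not_dvd hp).mpr
      intro hdvd
      have h2 : (n : ℝ) ≤ q := by exact_mod_cast Nat.le_of_dvd hq hdvd
      linarith
    have hDlg : |F * ST φ s (1 / 4) x (rs q b (l * gg G L)) - ST φ s (1 / 4) x (l * gg G L)| ≤
        κ / Real.log x * S := by
      have hlM : ∀ n, ⌊Real.sqrt x⌋₊ < n → l n = 0 := by
        intro n hn
        rw [hl, cutLo_apply, if_neg]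
        push Not
        exact (Nat.floor_lt (Real.sqrt_nonneg x)).mp hn
      rw [ST_rs_conv hφ (by norm_num : (0 : ℝ) < 1 / 4) hx0 b l _ _ hlM hlunit,
        ST_conv hφ (by norm_num : (0 : ℝ) < 1 / 4) hx0 l _ _ hlM, Finset.mul_sum,
        ← Finset.sum_sub_distrib]
      refine (Finset.abs_sum_le_sum_abs _ _).trans ?_
      calc ∑ d ∈ Finset.Icc 1 ⌊Real.sqrt x⌋₊,
          |F * (l d * (d : ℝ) ^ (-(1 + s)) *
              ST φ s (1 / 4) (x / d) (rs q (b * (d : ZMod q)⁻¹) (gg G L))) -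
            l d * (d : ℝ) ^ (-(1 + s)) * ST φ s (1 / 4) (x / d) (gg G L)|
          ≤ ∑ d ∈ Finset.Icc 1 ⌊Real.sqrt x⌋₊, κ / Real.log x * (l d / d) := by
            apply Finset.sum_le_sum
            intro e he
            by_cases hle0 : l e = 0
            · rw [hle0]; simp
            rw [Finset.mem_Icc] at he
            have he1 : (1 : ℝ) ≤ e := by exact_mod_cast he.1
            have he2 : (e : ℝ) ≤ Real.sqrt x :=
              le_trans (by exact_mod_cast he.2) (Nat.floor_le (Real.sqrt_nonneg x))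
            have hXe1 : Real.sqrt x ≤ x / e := by
              rw [le_div_iff₀ (by linarith)]
              calc Real.sqrt x * e ≤ Real.sqrt x * Real.sqrt x := by gcongr
                _ = x := Real.mul_self_sqrt hx0.le
            have hXe2 : x / e ≤ x := div_le_self hx0.le he1
            have hun : IsUnit (b * (e : ZMod q)⁻¹) :=
              hb.mul (IsUnit.of_mul_eq_one (e : ZMod q) (ZMod.inv_mul_of_unit _ (hlunit e hle0)))
            have h3 : |F * ST φ s (1 / 4) (x / e) (rs q (b * (e : ZMod q)⁻¹) (gg G L)) -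
                ST φ s (1 / 4) (x / e) (gg G L)| ≤ κ / Real.log x :=
              hgd' x hx₂ q hq (hq8 q hq16) hqη _ hun (x / e) hXe1 hXe2
            have h4 : (e : ℝ) ^ (-(1 + s)) ≤ 1 / e := by
              rw [Real.rpow_neg (by positivity), one_div]
              apply inv_anti₀ (by positivity)
              calc (e : ℝ) = (e : ℝ) ^ (1 : ℝ) := (Real.rpow_one _).symm
                _ ≤ (e : ℝ) ^ (1 + s) := by
                  apply Real.rpow_le_rpow_of_exponent_le he1 (by linarith)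
            have h5 : F * (l e * (e : ℝ) ^ (-(1 + s)) *
                ST φ s (1 / 4) (x / e) (rs q (b * (e : ZMod q)⁻¹) (gg G L))) -
                l e * (e : ℝ) ^ (-(1 + s)) * ST φ s (1 / 4) (x / e) (gg G L) =
                l e * (e : ℝ) ^ (-(1 + s)) *
                  (F * ST φ s (1 / 4) (x / e) (rs q (b * (e : ZMod q)⁻¹) (gg G L)) -
                    ST φ s (1 / 4) (x / e) (gg G L)) := by ring
            rw [h5, abs_mul, abs_mul, abs_of_nonneg (hl0 e),
              abs_of_nonneg (by positivity : (0 : ℝ) ≤ (e : ℝ) ^ (-(1 + s)))]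
            have hle := hl0 e
            calc l e * (e : ℝ) ^ (-(1 + s)) *
                |F * ST φ s (1 / 4) (x / e) (rs q (b * (e : ZMod q)⁻¹) (gg G L)) -
                ST φ s (1 / 4) (x / e) (gg G L)| ≤ l e * (1 / e) * (κ / Real.log x) := by
                  gcongr
              _ = κ / Real.log x * (l e / e) := by ring
        _ = κ / Real.log x * ∑ d ∈ Finset.Icc 1 ⌊Real.sqrt x⌋₊, (l d / d) := by
            rw [Finset.mul_sum]
        _ ≤ κ / Real.log x * S := by gcongr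
    have hfac : ∀ k : ℕ, (1 / (k.factorial : ℝ)) ≤ 1 := by
      intro k
      rw [div_le_one (by positivity)]
      exact_mod_cast Nat.one_le_iff_ne_zero.mpr (Nat.factorial_ne_zero k)
    have hcard : ∀ a : ℕ, 1 ≤ a → ((Finset.Icc a K).card : ℝ) ≤ K := by
      intro a ha
      rw [Nat.card_Icc]
      exact_mod_cast (by omega : K + 1 - a ≤ K)
    have hKε : (K : ℝ) * (ε' / Real.log x) ≤ c₀ / 16 / Real.log x := by
      rw [hε']
      have : (K : ℝ) * (c₀ / (16 * (K + 1)) / Real.log x) =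
          (K / (K + 1)) * (c₀ / 16 / Real.log x) := by field_simp
      rw [this]
      have h1 : (K : ℝ) / (K + 1) ≤ 1 := by
        rw [div_le_one (by positivity)]; linarith
      calc (K : ℝ) / (K + 1) * (c₀ / 16 / Real.log x) ≤ 1 * (c₀ / 16 / Real.log x) := by gcongr
        _ = _ := one_mul _
    have hDl : |∑ k ∈ Finset.Icc 2 K, (1 / (k.factorial : ℝ)) *
          (F * ST φ s (1 / 4) x (rs q b (l * P ^ k))) -
        ∑ k ∈ Finset.Icc 2 K, (1 / (k.factorial : ℝ)) * ST φ s (1 / 4) x (l * P ^ k)| ≤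
        c₀ / 16 / Real.log x := by
      rw [← Finset.sum_sub_distrib]
      refine (Finset.abs_sum_le_sum_abs _ _).trans ?_
      have h1 : ∀ k ∈ Finset.Icc 2 K, |(1 / (k.factorial : ℝ)) *
            (F * ST φ s (1 / 4) x (rs q b (l * P ^ k))) -
          (1 / (k.factorial : ℝ)) * ST φ s (1 / 4) x (l * P ^ k)| ≤ ε' / Real.log x := by
        intro k hk
        rw [← mul_sub, abs_mul, abs_of_nonneg (by positivity : (0 : ℝ) ≤ 1 / (k.factorial : ℝ))]
        have h2 := hxK' k hk Q hQ1 hQ2 q hq hqQ hNE b hb l hl1 hl2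
        calc (1 / (k.factorial : ℝ)) *
            |F * ST φ s (1 / 4) x (rs q b (l * P ^ k)) - ST φ s (1 / 4) x (l * P ^ k)|
            ≤ 1 * (ε' / Real.log x) := mul_le_mul (hfac k) h2 (abs_nonneg _) zero_le_one
          _ = _ := one_mul _
      refine (Finset.sum_le_sum h1).trans ?_
      rw [Finset.sum_const, nsmul_eq_mul]
      refine le_trans ?_ hKε
      have := hcard 2 (by norm_num)
      gcongr
    have hDP : |∑ k ∈ Finset.Icc 3 K, (1 / (k.factorial : ℝ)) *
          (F * ST φ s (1 / 4) x (rs q b (P ^ k))) -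
        ∑ k ∈ Finset.Icc 3 K, (1 / (k.factorial : ℝ)) * ST φ s (1 / 4) x (P ^ k)| ≤
        c₀ / 16 / Real.log x := by
      rw [← Finset.sum_sub_distrib]
      refine (Finset.abs_sum_le_sum_abs _ _).trans ?_
      have h1 : ∀ k ∈ Finset.Icc 3 K, |(1 / (k.factorial : ℝ)) *
            (F * ST φ s (1 / 4) x (rs q b (P ^ k))) -
          (1 / (k.factorial : ℝ)) * ST φ s (1 / 4) x (P ^ k)| ≤ ε' / Real.log x := by
        intro k hk
        rw [Finset.mem_Icc] at hk
        rw [← mul_sub, abs_mul, abs_of_nonneg (by positivity : (0 : ℝ) ≤ 1 / (k.factorial : ℝ))]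
        have h2 := hxK' (k - 1) (Finset.mem_Icc.mpr ⟨by omega, by omega⟩) Q hQ1 hQ2 q hq hqQ hNE
          b hb P hP1 hP2
        have h3 : P * P ^ (k - 1) = P ^ k := by
          rw [← pow_succ']; congr 1; omega
        rw [h3] at h2
        calc (1 / (k.factorial : ℝ)) *
            |F * ST φ s (1 / 4) x (rs q b (P ^ k)) - ST φ s (1 / 4) x (P ^ k)|
            ≤ 1 * (ε' / Real.log x) := mul_le_mul (hfac k) h2 (abs_nonneg _) zero_le_one
          _ = _ := one_mul _
      refine (Finset.sum_le_sum h1).trans ?_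
      rw [Finset.sum_const, nsmul_eq_mul]
      refine le_trans ?_ hKε
      have := hcard 3 (by norm_num)
      gcongr
    have hκS : κ / Real.log x + κ / Real.log x * S ≤ c₀ / 8 / Real.log x := by
      have : κ / Real.log x + κ / Real.log x * S = κ * (1 + S) / Real.log x := by ring
      rw [this]
      gcongr
    have hch := hcheb x hx₁
    rw [← hs] at hch
    -- lower bound for the sum
    have hq' : 0 < c₀ / Real.log x := by positivity
    have e0 : c₀ / 2 / Real.log x = (1 / 2) * (c₀ / Real.log x) := by ring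
    have e1 : c₀ / 8 / Real.log x = (1 / 8) * (c₀ / Real.log x) := by ring
    have e2 : c₀ / 16 / Real.log x = (1 / 16) * (c₀ / Real.log x) := by ring
    have e3 : c₀ / 32 / Real.log x = (1 / 32) * (c₀ / Real.log x) := by ring
    have e4 : c₀ / 64 / Real.log x = (1 / 64) * (c₀ / Real.log x) := by ring
    rw [e1] at hκS
    rw [e2] at hDl hDP
    rw [e3, e4] at hremQ hrem1
    rw [e0]
    have a1 := abs_le.mp hremQ
    have a2 := abs_le.mp hrem1
    have a3 := abs_le.mp hDg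
    have a4 := abs_le.mp hDlg
    have a5 := abs_le.mp hDl
    have a6 := abs_le.mp hDP
    linarith [a1.1, a2.2, a3.1, a4.2, a5.1, a6.2]
  obtain ⟨X₀, hX₀⟩ := eventually_atTop.mp hev
  -- final step
  have he4 : 0 < Real.exp 4 := Real.exp_pos 4
  refine ⟨3 * d / 4, 2 * c₀ * Real.exp (-4), max (X₀ * Real.exp 4) (Real.exp 16), by positivity,
    by linarith, by positivity,
    lt_of_lt_of_le (by rw [Real.one_lt_exp_iff]; norm_num) (le_max_right _ _), ?_⟩
  intro x hx Q hQ1 hQ2 q hq hqQ hNE b hb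
  have hx1 : X₀ * Real.exp 4 ≤ x := (le_max_left _ _).trans hx
  have hx2 : Real.exp 16 ≤ x := (le_max_right _ _).trans hx
  have hx0 : 0 < x := lt_of_lt_of_le (Real.exp_pos _) hx2
  set z := x * Real.exp (-4) with hz
  have hz0 : 0 < z := by positivity
  have hzx : z * Real.exp 4 = x := by
    rw [hz, mul_assoc, ← Real.exp_add]; norm_num
  have hzX : X₀ ≤ z := by
    have : X₀ * Real.exp 4 ≤ z * Real.exp 4 := by rw [hzx]; exact hx1
    exact le_of_mul_le_mul_right this he4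
  have hz12 : Real.exp 12 ≤ z := by
    have : Real.exp 12 * Real.exp 4 ≤ z * Real.exp 4 := by
      rw [hzx, ← Real.exp_add]; norm_num; exact hx2
    exact le_of_mul_le_mul_right this he4
  have hz1 : 1 < z := lt_of_lt_of_le (by rw [Real.one_lt_exp_iff]; norm_num) hz12
  have hzlex : z ≤ x := by
    have h1 : (1 : ℝ) ≤ Real.exp 4 := Real.one_le_exp (by norm_num)
    rw [← hzx]
    nlinarith
  have hQ1' : z ^ (d / 3) ≤ Q := by
    refine le_trans ?_ hQ1
    calc z ^ (d / 3) ≤ z ^ (3 * d / 4 / 2) := Real.rpow_le_rpow_of_exponent_le hz1.le (by linarith)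
      _ ≤ x ^ (3 * d / 4 / 2) := Real.rpow_le_rpow hz0.le hzlex (by positivity)
  have hQ2' : Q ≤ z ^ d := by
    refine hQ2.trans ?_
    have h1 : x ^ (3 * d / 4) = z ^ (3 * d / 4) * Real.exp (3 * d) := by
      rw [← hzx, Real.mul_rpow hz0.le he4.le, ← Real.exp_mul]
      congr 2
      ring
    have h2 : Real.exp (3 * d) ≤ z ^ (d / 4) := by
      calc Real.exp (3 * d) = (Real.exp 12) ^ (d / 4) := by
            rw [← Real.exp_mul]; congr 1; ring
        _ ≤ z ^ (d / 4) := Real.rpow_le_rpow (Real.exp_pos _).le hz12 (by positivity)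
    calc x ^ (3 * d / 4) = z ^ (3 * d / 4) * Real.exp (3 * d) := h1
      _ ≤ z ^ (3 * d / 4) * z ^ (d / 4) := by gcongr
      _ = z ^ d := by rw [← Real.rpow_add hz0]; congr 1; ring
  have hmain := hX₀ z hzX Q hQ1' hQ2' q hq hqQ hNE b hb
  have hlz : 0 < Real.log z := Real.log_pos hz1
  have hlzx : Real.log z ≤ Real.log x := Real.log_le_log hz0 hzlex
  have hup := ST_prim_rs_le hφ (s := 1 / Real.log z) (by positivity) hz1.le hzx q b
  have hF : (0 : ℝ) < (Nat.totient q : ℝ) := by exact_mod_cast Nat.totient_pos.mpr hq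
  have h1 : c₀ / 2 / Real.log z ≤ (Nat.totient q : ℝ) * (1 / 4 / z * (pc q b x : ℝ)) :=
    hmain.trans (mul_le_mul_of_nonneg_left hup hF.le)
  have h2 : 2 * c₀ * z / ((Nat.totient q : ℝ) * Real.log z) ≤ (pc q b x : ℝ) := by
    rw [div_le_iff₀ (by positivity)]
    rw [div_le_iff₀ hlz] at h1
    have h3 : (Nat.totient q : ℝ) * (1 / 4 / z * (pc q b x : ℝ)) * Real.log z =
        (Nat.totient q : ℝ) * (pc q b x : ℝ) * Real.log z / (4 * z) := by
      field_simp
    rw [h3, le_div_iff₀ (by positivity)] at h1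
    linarith
  refine le_trans ?_ h2
  have h4 : 2 * c₀ * Real.exp (-4) * x = 2 * c₀ * z := by rw [hz]; ring
  rw [h4]
  gcongr

end Lnk
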