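import Pool.Agent.Lib.Linnik.Defs
import Pool.Agent.Lib.MP_0bb3d8_nt.HohMeanSquare

/-!
# Mean square of prime Dirichlet series over all characters modulo `q`

From Brun-Titchmarsh in progressions (`BTq`) to `MSq`.
-/

set_option autoImplicit false

namespace Lnk

open Finset Real MeasureTheory Hoh

/-- Orthogonality of characters, with the complex conjugate. -/
lemma char_orth {q : ℕ} (hq : 0 < q) {p r : ℕ} (hr : r.Coprime q) :
    ∑ χ : DirichletCharacter ℂ q, χ p * (starRingEnd ℂ) (χ r) =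
      if (r : ZMod q) = (p : ZMod q) then (q.totient : ℂ) else 0 := by
  have : NeZero q := ⟨hq.ne'⟩
  have hu : IsUnit ((r : ℕ) : ZMod q) := (ZMod.isUnit_iff_coprime r q).mpr hr
  have h1 : ∀ χ : DirichletCharacter ℂ q, (starRingEnd ℂ) (χ r) = χ ((r : ZMod q)⁻¹) := by
    intro χ
    have h2 : χ ((r : ZMod q)⁻¹) * χ r = 1 := by
      rw [← map_mul, ZMod.inv_mul_of_unit _ hu, map_one]
    have h3 : (starRingEnd ℂ) (χ r) * χ r = 1 := by
      have h4 : ‖χ r‖ = 1 := by
        obtain ⟨w, hw⟩ := hu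
        rw [← hw]
        exact χ.unit_norm_eq_one w
      rw [mul_comm, Complex.mul_conj, Complex.normSq_eq_norm_sq, h4]
      norm_num
    have h5 : χ r ≠ 0 := by
      intro h6
      rw [h6, mul_zero] at h2
      exact zero_ne_one h2
    exact mul_right_cancel₀ h5 (h3.trans h2.symm)
  have h2 := DirichletCharacter.sum_char_inv_mul_char_eq ℂ hu (p : ZMod q)
  rw [← h2]
  refine Finset.sum_congr rfl fun χ _ => ?_
  rw [h1, mul_comm]

/-- The exact formula for the smoothed mean square. -/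
lemma ms_double_eq {U : ℝ} (hU : 0 < U) (F : Finset ℕ) (c : ℕ → ℂ) :
    ((∫ t : ℝ, Real.exp (-(1 / U ^ 2) * t ^ 2) * ‖msP F c t‖ ^ 2 : ℝ) : ℂ) =
      ∑ p ∈ F, ∑ q ∈ F, (c p * (starRingEnd ℂ) (c q)) *
      ∫ t : ℝ, Complex.exp (Complex.I * ((Real.log q - Real.log p : ℝ) : ℂ) * t) *
        Complex.exp (-((1 / U ^ 2 : ℝ) : ℂ) * (t : ℂ) ^ 2) := by
  rw [← integral_complex_ofReal]
  have h2 : ∀ t : ℝ, ((Real.exp (-(1 / U ^ 2) * t ^ 2) * ‖msP F c t‖ ^ 2 : ℝ) : ℂ) =
      ∑ p ∈ F, ∑ q ∈ F, (c p * (starRingEnd ℂ) (c q)) *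
        (Complex.exp (Complex.I * ((Real.log q - Real.log p : ℝ) : ℂ) * t) *
        Complex.exp (-((1 / U ^ 2 : ℝ) : ℂ) * (t : ℂ) ^ 2)) := by
    intro t
    rw [Complex.ofReal_mul, msP_sq, Complex.ofReal_exp, Finset.mul_sum]
    refine Finset.sum_congr rfl fun p _ => ?_
    rw [Finset.mul_sum]
    refine Finset.sum_congr rfl fun q _ => ?_
    have h3 : ((-(1 / U ^ 2) * t ^ 2 : ℝ) : ℂ) = -((1 / U ^ 2 : ℝ) : ℂ) * (t : ℂ) ^ 2 := by
      push_cast; ring
    rw [h3]
    ring
  simp_rw [h2]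
  rw [integral_finsetSum _ fun p _ => integrable_finsetSum _ fun q _ =>
    (ms_integrable hU _).const_mul _]
  refine Finset.sum_congr rfl fun p _ => ?_
  rw [integral_finsetSum _ fun q _ => (ms_integrable hU _).const_mul _]
  refine Finset.sum_congr rfl fun q _ => ?_
  rw [integral_const_mul]

lemma ms_doubleq {q : ℕ} (hq : 0 < q) {U : ℝ} (hU : 0 < U) (F : Finset ℕ)
    (hF : ∀ p ∈ F, p.Coprime q) (c : ℕ → ℂ) :
    ∑ χ : DirichletCharacter ℂ q,
      ∫ t : ℝ, Real.exp (-(1 / U ^ 2) * t ^ 2) * ‖msP F (fun n => χ n * c n) t‖ ^ 2 ≤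
      (q.totient : ℝ) * ∑ p ∈ F, ∑ r ∈ F.filter (fun r : ℕ => (r : ZMod q) = (p : ZMod q)),
        ‖c p‖ * ‖c r‖ * (2 * U * Real.exp (-(U ^ 2 * (Real.log r - Real.log p) ^ 2 / 4))) := by
  set K : ℕ → ℕ → ℂ := fun p r =>
    ∫ t : ℝ, Complex.exp (Complex.I * ((Real.log r - Real.log p : ℝ) : ℂ) * t) *
        Complex.exp (-((1 / U ^ 2 : ℝ) : ℂ) * (t : ℂ) ^ 2) with hK
  set J := ∑ χ : DirichletCharacter ℂ q,
      ∫ t : ℝ, Real.exp (-(1 / U ^ 2) * t ^ 2) * ‖msP F (fun n => χ n * c n) t‖ ^ 2 with hJ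
  have h1 : (J : ℂ) = ∑ p ∈ F, ∑ r ∈ F, (c p * (starRingEnd ℂ) (c r) * K p r) *
      (if (r : ZMod q) = (p : ZMod q) then (q.totient : ℂ) else 0) := by
    rw [hJ, Complex.ofReal_sum]
    simp_rw [ms_double_eq hU]
    rw [Finset.sum_comm]
    refine Finset.sum_congr rfl fun p _ => ?_
    rw [Finset.sum_comm]
    refine Finset.sum_congr rfl fun r hr => ?_
    rw [← char_orth hq (hF r hr), Finset.mul_sum]
    refine Finset.sum_congr rfl fun χ _ => ?_
    rw [map_mul]
    ring
  have h2 : J ≤ ‖(J : ℂ)‖ := by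
    rw [Complex.norm_real]
    exact le_abs_self J
  refine h2.trans ?_
  rw [h1, Finset.mul_sum]
  refine (norm_sum_le _ _).trans (Finset.sum_le_sum fun p _ => ?_)
  refine (norm_sum_le _ _).trans ?_
  rw [Finset.sum_filter, Finset.mul_sum]
  refine Finset.sum_le_sum fun r _ => ?_
  split_ifs with h
  · rw [norm_mul, norm_mul, norm_mul, RCLike.norm_conj, Complex.norm_natCast, mul_comm]
    have := ms_gauss hU (Real.log r - Real.log p)
    gcongr
  · simp

lemma ms_innerq {q : ℕ} (hq : 0 < q) {C : ℝ} (hC : 0 < C)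
    (hBT : ∀ (a : ZMod q) (u v : ℝ), IsUnit a → 0 ≤ u → 2 ≤ v → (q : ℝ) ^ 2 ≤ v →
      (((Finset.Ioc ⌊u⌋₊ ⌊u + v⌋₊).filter
        (fun p : ℕ => p.Prime ∧ ((p : ℕ) : ZMod q) = a)).card : ℝ) ≤
        C * v / (Nat.totient q * Real.log v))
    {y U : ℝ} (hy : 2 ≤ y) (hU1 : 1 ≤ U) (hU2 : (q : ℝ) ^ 2 * U ≤ Real.sqrt y)
    {p : ℕ} (hp : y < p) (hpq : p.Coprime q)
    (F : Finset ℕ) (hF : ∀ r ∈ F, r.Prime ∧ p < r ∧ (r : ZMod q) = (p : ZMod q)) :
    ∑ r ∈ F, 1 / (r : ℝ) * Real.exp (-(U ^ 2 * (Real.log r - Real.log p) ^ 2 / 4)) ≤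
      20 * C / (Nat.totient q * (U * Real.log p)) := by
  classical
  have hq1 : (1 : ℝ) ≤ q := by exact_mod_cast hq
  have hφ : (0 : ℝ) < Nat.totient q := by exact_mod_cast Nat.totient_pos.mpr hq
  have hu : IsUnit ((p : ℕ) : ZMod q) := (ZMod.isUnit_iff_coprime p q).mpr hpq
  have hp0 : (0 : ℝ) < p := by linarith
  have hp1 : (1 : ℝ) < p := by linarith
  have hU0 : 0 < U := by linarith
  have hlp : 0 < Real.log p := Real.log_pos hp1
  have hsp : 0 < Real.sqrt p := Real.sqrt_pos.mpr hp0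
  have hspp : Real.sqrt p * Real.sqrt p = p := Real.mul_self_sqrt hp0.le
  have hUq : (q : ℝ) ^ 2 * U ≤ Real.sqrt p := hU2.trans (Real.sqrt_le_sqrt hp.le)
  have hq2 : (1 : ℝ) ≤ (q : ℝ) ^ 2 := one_le_pow₀ hq1
  have hUp : U ≤ Real.sqrt p := (le_mul_of_one_le_left hU0.le hq2).trans hUq
  have hsp1 : 1 ≤ Real.sqrt p := hU1.trans hUp
  set κ : ℕ → ℕ := fun r => ⌈U * (Real.log r - Real.log p)⌉₊ - 1 with hκ
  have hκ' : ∀ r ∈ F, (κ r : ℝ) < U * (Real.log r - Real.log p) ∧
      U * (Real.log r - Real.log p) ≤ κ r + 1 := by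
    intro r hr
    have h1 : (p : ℝ) < r := by exact_mod_cast (hF r hr).2.1
    have h2 : 0 < U * (Real.log r - Real.log p) := by
      have := Real.log_lt_log hp0 h1
      exact mul_pos hU0 (by linarith)
    have h3 : 0 < ⌈U * (Real.log r - Real.log p)⌉₊ := Nat.ceil_pos.mpr h2
    have h4 : ((κ r : ℕ) : ℝ) = (⌈U * (Real.log r - Real.log p)⌉₊ : ℝ) - 1 := by
      rw [hκ]
      simp only
      rw [Nat.cast_sub (by omega), Nat.cast_one]
    rw [h4]
    constructor
    · have := Nat.ceil_lt_add_one h2.le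
      linarith
    · have := Nat.le_ceil (U * (Real.log r - Real.log p))
      linarith
  set N := F.sup κ + 1 with hN
  have hmaps : ∀ r ∈ F, κ r ∈ Finset.range N := by
    intro r hr
    rw [Finset.mem_range, hN]
    exact Nat.lt_succ_of_le (Finset.le_sup (f := κ) hr)
  rw [← Finset.sum_fiberwise_of_maps_to hmaps]
  have hk : ∀ k ∈ Finset.range N, ∑ r ∈ F with κ r = k,
      1 / (r : ℝ) * Real.exp (-(U ^ 2 * (Real.log r - Real.log p) ^ 2 / 4)) ≤
      4 * C / (Nat.totient q * (U * Real.log p)) * (4 / 5 : ℝ) ^ k := by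
    intro k _
    set a := (p : ℝ) * Real.exp (k / U) with ha
    have ha1 : (p : ℝ) ≤ a := by
      rw [ha]
      refine le_mul_of_one_le_right hp0.le ?_
      rw [Real.one_le_exp_iff]
      positivity
    have ha0 : 0 < a := by linarith
    have hla : Real.log a = Real.log p + k / U := by
      rw [ha, Real.log_mul hp0.ne' (Real.exp_pos _).ne', Real.log_exp]
    -- each term
    have hterm : ∀ r ∈ F.filter (fun r => κ r = k),
        1 / (r : ℝ) * Real.exp (-(U ^ 2 * (Real.log r - Real.log p) ^ 2 / 4)) ≤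
          1 / a * (4 / 5 : ℝ) ^ k := by
      intro r hr
      rw [Finset.mem_filter] at hr
      obtain ⟨hrF, hrk⟩ := hr
      obtain ⟨h1, h2⟩ := hκ' r hrF
      rw [hrk] at h1 h2
      have hr0 : (0 : ℝ) < r := by exact_mod_cast (hF r hrF).1.pos
      have h3 : a ≤ r := by
        rw [← Real.log_le_log_iff ha0 hr0, hla]
        have : (k : ℝ) / U ≤ Real.log r - Real.log p := by
          rw [div_le_iff₀ hU0, mul_comm]; exact h1.le
        linarith
      have h4 : Real.exp (-(U ^ 2 * (Real.log r - Real.log p) ^ 2 / 4)) ≤ (4 / 5 : ℝ) ^ k := by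
        have h5 : (k : ℝ) ≤ U ^ 2 * (Real.log r - Real.log p) ^ 2 := by
          rw [← mul_pow]
          have h6 : (k : ℝ) ^ 2 ≤ (U * (Real.log r - Real.log p)) ^ 2 :=
            pow_le_pow_left₀ (Nat.cast_nonneg k) h1.le 2
          have h7 : (k : ℝ) ≤ (k : ℝ) ^ 2 := by exact_mod_cast Nat.le_self_pow (by norm_num) k
          linarith
        calc Real.exp (-(U ^ 2 * (Real.log r - Real.log p) ^ 2 / 4)) ≤ Real.exp (k * (-(1 / 4))) := by
              apply Real.exp_le_exp.mpr; linarith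
          _ = Real.exp (-(1 / 4)) ^ k := by rw [← Real.exp_nat_mul]
          _ ≤ (4 / 5 : ℝ) ^ k := by
              apply pow_le_pow_left₀ (Real.exp_pos _).le
              rw [Real.exp_neg, inv_le_comm₀ (Real.exp_pos _) (by norm_num)]
              have := Real.add_one_le_exp (1 / 4 : ℝ)
              linarith
      gcongr
    -- number of terms
    set v := 2 * a / U with hv
    have hv3 : v = 2 * (a / U) := by rw [hv]; ring
    have hv1 : (q : ℝ) ^ 2 * Real.sqrt p ≤ a / U := by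
      rw [le_div_iff₀ hU0]
      calc (q : ℝ) ^ 2 * Real.sqrt p * U = (q : ℝ) ^ 2 * U * Real.sqrt p := by ring
        _ ≤ Real.sqrt p * Real.sqrt p := by gcongr
        _ = p := hspp
        _ ≤ a := ha1
    have hv4 : Real.sqrt p ≤ a / U := (le_mul_of_one_le_left hsp.le hq2).trans hv1
    have hv5 : (q : ℝ) ^ 2 ≤ a / U := (le_mul_of_one_le_right (by positivity) hsp1).trans hv1
    have hv2 : 2 ≤ v := by rw [hv3]; linarith
    have hvs : Real.sqrt p ≤ v := by rw [hv3]; linarith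
    have hvq : (q : ℝ) ^ 2 ≤ v := by rw [hv3]; linarith
    have hlv : Real.log p / 2 ≤ Real.log v := by
      have h1 : Real.log (Real.sqrt p) = Real.log p / 2 := Real.log_sqrt hp0.le
      rw [← h1]
      exact Real.log_le_log hsp hvs
    have hcard : ((F.filter (fun r => κ r = k)).card : ℝ) ≤ C * v / (Nat.totient q * Real.log v) := by
      refine le_trans ?_ (hBT ((p : ℕ) : ZMod q) a v hu ha0.le hv2 hvq)
      have hsub : F.filter (fun r => κ r = k) ⊆ (Finset.Ioc ⌊a⌋₊ ⌊a + v⌋₊).filter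
          (fun r : ℕ => r.Prime ∧ ((r : ℕ) : ZMod q) = ((p : ℕ) : ZMod q)) := by
        intro r hr
        rw [Finset.mem_filter] at hr
        obtain ⟨hrF, hrk⟩ := hr
        obtain ⟨h1, h2⟩ := hκ' r hrF
        rw [hrk] at h1 h2
        have hr0 : (0 : ℝ) < r := by exact_mod_cast (hF r hrF).1.pos
        rw [Finset.mem_filter, Finset.mem_Ioc]
        refine ⟨⟨?_, ?_⟩, (hF r hrF).1, (hF r hrF).2.2⟩
        · rw [Nat.floor_lt ha0.le, ← Real.log_lt_log_iff ha0 hr0, hla]
          have : (k : ℝ) / U < Real.log r - Real.log p := by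
            rw [div_lt_iff₀ hU0, mul_comm]; exact h1
          linarith
        · apply Nat.le_floor
          have h3 : Real.log r ≤ Real.log a + 1 / U := by
            rw [hla]
            have : Real.log r - Real.log p ≤ (k + 1) / U := by
              rw [le_div_iff₀ hU0, mul_comm]; exact h2
            rw [add_div] at this
            linarith
          have h4 : (r : ℝ) ≤ a * Real.exp (1 / U) := by
            rw [← Real.log_le_log_iff hr0 (by positivity),
              Real.log_mul ha0.ne' (Real.exp_pos _).ne', Real.log_exp]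
            exact h3
          have h5 : Real.exp (1 / U) ≤ 1 + 2 * (1 / U) := by
            have hU' : 1 / U ≤ 1 := by rw [div_le_one hU0]; exact hU1
            have hU'' : 0 ≤ 1 / U := by positivity
            have h6 := Real.abs_exp_sub_one_sub_id_le (x := 1 / U) (by rw [abs_of_nonneg hU'']; exact hU')
            have h7 := (abs_le.mp h6).2
            nlinarith
          calc (r : ℝ) ≤ a * Real.exp (1 / U) := h4
            _ ≤ a * (1 + 2 * (1 / U)) := by gcongr
            _ = a + v := by rw [hv]; ring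
      exact_mod_cast Finset.card_le_card hsub
    have hlv0 : 0 < Real.log v := by linarith
    calc ∑ r ∈ F with κ r = k, 1 / (r : ℝ) * Real.exp (-(U ^ 2 * (Real.log r - Real.log p) ^ 2 / 4))
        ≤ (F.filter (fun r => κ r = k)).card • (1 / a * (4 / 5 : ℝ) ^ k) :=
          Finset.sum_le_card_nsmul _ _ _ hterm
      _ = ((F.filter (fun r => κ r = k)).card : ℝ) * (1 / a * (4 / 5 : ℝ) ^ k) := nsmul_eq_mul _ _
      _ ≤ C * v / (Nat.totient q * Real.log v) * (1 / a * (4 / 5 : ℝ) ^ k) := by gcongr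
      _ ≤ C * v / (Nat.totient q * (Real.log p / 2)) * (1 / a * (4 / 5 : ℝ) ^ k) := by
          gcongr
      _ = 4 * C / (Nat.totient q * (U * Real.log p)) * (4 / 5 : ℝ) ^ k := by
          rw [hv]; field_simp; ring
  refine (Finset.sum_le_sum hk).trans ?_
  rw [← Finset.mul_sum]
  have hgeom : ∑ k ∈ Finset.range N, (4 / 5 : ℝ) ^ k ≤ 5 := by
    have h1 := (summable_geometric_of_lt_one (r := (4 / 5 : ℝ)) (by norm_num)
      (by norm_num)).sum_le_tsum (Finset.range N) (fun i _ => by positivity)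
    rw [tsum_geometric_of_lt_one (by norm_num) (by norm_num)] at h1
    norm_num at h1
    exact h1
  calc 4 * C / (Nat.totient q * (U * Real.log p)) * ∑ k ∈ Finset.range N, (4 / 5 : ℝ) ^ k ≤
        4 * C / (Nat.totient q * (U * Real.log p)) * 5 := by gcongr
    _ = 20 * C / (Nat.totient q * (U * Real.log p)) := by ring

lemma ms_sumq {q : ℕ} (hq : 0 < q) {C : ℝ} (hC : 0 < C)
    (hBT : ∀ (a : ZMod q) (u v : ℝ), IsUnit a → 0 ≤ u → 2 ≤ v → (q : ℝ) ^ 2 ≤ v →
      (((Finset.Ioc ⌊u⌋₊ ⌊u + v⌋₊).filter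
        (fun p : ℕ => p.Prime ∧ ((p : ℕ) : ZMod q) = a)).card : ℝ) ≤
        C * v / (Nat.totient q * Real.log v))
    {y U : ℝ} (hy : 2 ≤ y) (hU1 : 1 ≤ U) (hU2 : (q : ℝ) ^ 2 * U ≤ Real.sqrt y)
    (F : Finset ℕ) (hF : ∀ r ∈ F, r.Prime ∧ y < r) (hFq : ∀ r ∈ F, r.Coprime q) :
    (Nat.totient q : ℝ) * ∑ p ∈ F, ∑ r ∈ F.filter (fun r : ℕ => (r : ZMod q) = (p : ZMod q)),
      1 / (p : ℝ) * (1 / (r : ℝ)) *
      (2 * U * Real.exp (-(U ^ 2 * (Real.log r - Real.log p) ^ 2 / 4))) ≤
      (64 + 640 * C) / Real.log y := by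
  classical
  have hq1 : (1 : ℝ) ≤ q := by exact_mod_cast hq
  have hφ : (0 : ℝ) < Nat.totient q := by exact_mod_cast Nat.totient_pos.mpr hq
  have hφq : (Nat.totient q : ℝ) ≤ q := by exact_mod_cast Nat.totient_le q
  have hU0 : 0 < U := by linarith
  set f : ℕ → ℕ → ℝ := fun p r => if (r : ZMod q) = (p : ZMod q) then 1 / (p : ℝ) * (1 / (r : ℝ)) *
      (2 * U * Real.exp (-(U ^ 2 * (Real.log r - Real.log p) ^ 2 / 4))) else 0 with hf
  have hf0 : ∀ p r, 0 ≤ f p r := by
    intro p r; rw [hf]; simp only; split_ifs <;> positivity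
  have hfsymm : ∀ p r, f p r = f r p := by
    intro p r
    simp only [hf]
    have : (Real.log r - Real.log p) ^ 2 = (Real.log p - Real.log r) ^ 2 := by ring
    rw [this]
    by_cases h : (r : ZMod q) = (p : ZMod q)
    · rw [if_pos h, if_pos h.symm]; ring
    · rw [if_neg h, if_neg (fun h' => h h'.symm)]
  have h0 : ∑ p ∈ F, ∑ r ∈ F.filter (fun r : ℕ => (r : ZMod q) = (p : ZMod q)),
      1 / (p : ℝ) * (1 / (r : ℝ)) *
      (2 * U * Real.exp (-(U ^ 2 * (Real.log r - Real.log p) ^ 2 / 4))) =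
      ∑ p ∈ F, ∑ r ∈ F, f p r := by
    refine Finset.sum_congr rfl fun p _ => ?_
    rw [Finset.sum_filter]
  rw [h0]
  have h1 : ∑ p ∈ F, ∑ r ∈ F, f p r ≤
      ∑ p ∈ F, ∑ r ∈ F, (if p ≤ r then f p r else 0) +
      ∑ p ∈ F, ∑ r ∈ F, (if r ≤ p then f p r else 0) := by
    rw [← Finset.sum_add_distrib]
    refine Finset.sum_le_sum fun p _ => ?_
    rw [← Finset.sum_add_distrib]
    refine Finset.sum_le_sum fun r _ => ?_
    have h0 := hf0 p r
    rcases le_total p r with h | h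
    · rw [if_pos h]
      split_ifs <;> linarith
    · rw [if_pos h]
      split_ifs <;> linarith
  have h2 : ∑ p ∈ F, ∑ r ∈ F, (if r ≤ p then f p r else 0) =
      ∑ p ∈ F, ∑ r ∈ F, (if p ≤ r then f p r else 0) := by
    rw [Finset.sum_comm]
    refine Finset.sum_congr rfl fun p _ => Finset.sum_congr rfl fun r _ => ?_
    rw [hfsymm r p]
  have h3 : ∀ p ∈ F, ∑ r ∈ F, (if p ≤ r then f p r else 0) ≤
      (4 + 40 * C) * (1 / (Nat.totient q * (p * Real.log p))) := by
    intro p hp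
    obtain ⟨hpp, hyp⟩ := hF p hp
    have hp0 : (0 : ℝ) < p := by exact_mod_cast hpp.pos
    have hp1 : (1 : ℝ) < p := by exact_mod_cast hpp.one_lt
    have hlp : 0 < Real.log p := Real.log_pos hp1
    have h4 : ∑ r ∈ F, (if p ≤ r then f p r else 0) =
        f p p + ∑ r ∈ F.filter (fun r => p < r), f p r := by
      rw [← Finset.sum_filter]
      have h5 : F.filter (fun r => p ≤ r) = insert p (F.filter (fun r => p < r)) := by
        ext r
        simp only [Finset.mem_filter, Finset.mem_insert]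
        constructor
        · rintro ⟨h6, h7⟩
          rcases h7.eq_or_lt with h8 | h8
          · exact Or.inl h8.symm
          · exact Or.inr ⟨h6, h8⟩
        · rintro (h6 | ⟨h6, h7⟩)
          · rw [h6]; exact ⟨hp, le_rfl⟩
          · exact ⟨h6, h7.le⟩
      rw [h5, Finset.sum_insert]
      simp
    rw [h4]
    have h5 : f p p ≤ 4 * (1 / (Nat.totient q * (p * Real.log p))) := by
      have h6 : (q : ℝ) ^ 2 * U ≤ Real.sqrt p := hU2.trans (Real.sqrt_le_sqrt hyp.le)
      have h7 : Real.sqrt p * Real.sqrt p = p := Real.mul_self_sqrt hp0.le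
      have hsp : 0 < Real.sqrt p := Real.sqrt_pos.mpr hp0
      have h8 : Real.log p ≤ 2 * Real.sqrt p := by
        have h9 : Real.log (Real.sqrt p) = Real.log p / 2 := Real.log_sqrt hp0.le
        have h10 := Real.log_le_sub_one_of_pos hsp
        linarith
      have h11 : f p p = 2 * U / (p * p) := by
        simp only [hf, sub_self, if_true]
        rw [show -(U ^ 2 * (0 : ℝ) ^ 2 / 4) = 0 by ring, Real.exp_zero]
        field_simp
      rw [h11, mul_one_div, div_le_div_iff₀ (by positivity) (by positivity)]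
      have h9 : (Nat.totient q : ℝ) ≤ (q : ℝ) ^ 2 := by nlinarith
      have h12 : Nat.totient q * (U * Real.log p) ≤ 2 * p := by
        calc Nat.totient q * (U * Real.log p) ≤ (q : ℝ) ^ 2 * (U * Real.log p) := by gcongr
          _ = ((q : ℝ) ^ 2 * U) * Real.log p := by ring
          _ ≤ Real.sqrt p * (2 * Real.sqrt p) := by gcongr
          _ = 2 * (Real.sqrt p * Real.sqrt p) := by ring
          _ = 2 * p := by rw [h7]
      calc 2 * U * (Nat.totient q * (p * Real.log p)) =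
          2 * p * (Nat.totient q * (U * Real.log p)) := by ring
        _ ≤ 2 * p * (2 * p) := by gcongr
        _ = 4 * (p * p) := by ring
    have h6 : ∑ r ∈ F.filter (fun r => p < r), f p r ≤
        40 * C * (1 / (Nat.totient q * (p * Real.log p))) := by
      have h7 := ms_innerq hq hC hBT hy hU1 hU2 hyp (hFq p hp)
        ((F.filter (fun r => p < r)).filter (fun r : ℕ => (r : ZMod q) = (p : ZMod q)))
        (fun r hr => by
          rw [Finset.mem_filter, Finset.mem_filter] at hr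
          exact ⟨(hF r hr.1.1).1, hr.1.2, hr.2⟩)
      have h8 : ∑ r ∈ F.filter (fun r => p < r), f p r = 2 * U / p *
          ∑ r ∈ (F.filter (fun r => p < r)).filter (fun r : ℕ => (r : ZMod q) = (p : ZMod q)),
            1 / (r : ℝ) * Real.exp (-(U ^ 2 * (Real.log r - Real.log p) ^ 2 / 4)) := by
        rw [Finset.mul_sum, Finset.sum_filter (p := fun r : ℕ => (r : ZMod q) = (p : ZMod q))]
        refine Finset.sum_congr rfl fun r _ => ?_
        simp only [hf]
        split_ifs <;> ring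
      rw [h8]
      calc 2 * U / p * _ ≤ 2 * U / p * (20 * C / (Nat.totient q * (U * Real.log p))) := by gcongr
        _ = 40 * C * (1 / (Nat.totient q * (p * Real.log p))) := by field_simp; ring
    calc f p p + ∑ r ∈ F.filter (fun r => p < r), f p r ≤
          4 * (1 / (Nat.totient q * (p * Real.log p))) +
            40 * C * (1 / (Nat.totient q * (p * Real.log p))) := add_le_add h5 h6
      _ = (4 + 40 * C) * (1 / (Nat.totient q * (p * Real.log p))) := by ring
  have h4 : (Nat.totient q : ℝ) * ∑ p ∈ F, ∑ r ∈ F, (if p ≤ r then f p r else 0) ≤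
      (4 + 40 * C) * (8 / Real.log y) := by
    refine (mul_le_mul_of_nonneg_left (Finset.sum_le_sum h3) hφ.le).trans ?_
    have h5 := sum_recip_log_finset hy F hF
    have h6 : (Nat.totient q : ℝ) *
        ∑ p ∈ F, (4 + 40 * C) * (1 / ((Nat.totient q : ℝ) * (p * Real.log p))) =
        (4 + 40 * C) * ∑ p ∈ F, (1 / ((p : ℝ) * Real.log p)) := by
      rw [Finset.mul_sum, Finset.mul_sum]
      refine Finset.sum_congr rfl fun p _ => ?_
      field_simp
    rw [h6]
    gcongr
  calc (Nat.totient q : ℝ) * ∑ p ∈ F, ∑ r ∈ F, f p r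
      ≤ (Nat.totient q : ℝ) * (∑ p ∈ F, ∑ r ∈ F, (if p ≤ r then f p r else 0) +
        ∑ p ∈ F, ∑ r ∈ F, (if p ≤ r then f p r else 0)) := by
        rw [h2] at h1; gcongr
    _ ≤ (4 + 40 * C) * (8 / Real.log y) + (4 + 40 * C) * (8 / Real.log y) := by
        rw [mul_add]; linarith
    _ = (64 + 640 * C) / Real.log y := by ring

lemma ms_finiteq {q : ℕ} (hq : 0 < q) {C : ℝ} (hC : 0 < C)
    (hBT : ∀ (a : ZMod q) (u v : ℝ), IsUnit a → 0 ≤ u → 2 ≤ v → (q : ℝ) ^ 2 ≤ v →
      (((Finset.Ioc ⌊u⌋₊ ⌊u + v⌋₊).filter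
        (fun p : ℕ => p.Prime ∧ ((p : ℕ) : ZMod q) = a)).card : ℝ) ≤
        C * v / (Nat.totient q * Real.log v))
    {y U : ℝ} (hy : 2 ≤ y) (hU1 : 1 ≤ U) (hU2 : (q : ℝ) ^ 2 * U ≤ Real.sqrt y)
    (F : Finset ℕ) (hF : ∀ r ∈ F, r.Prime ∧ y < r) (hFq : ∀ r ∈ F, r.Coprime q)
    (c : ℕ → ℂ) (hc : ∀ r ∈ F, ‖c r‖ ≤ 1 / (r : ℝ)) :
    ∑ χ : DirichletCharacter ℂ q, ∫ t in (-U)..U, ‖msP F (fun n => χ n * c n) t‖ ^ 2 ≤
      Real.exp 1 * (64 + 640 * C) / Real.log y := by
  have hU0 : 0 < U := by linarith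
  refine (Finset.sum_le_sum fun χ _ => ms_interval hU0 F (fun n => χ n * c n)).trans ?_
  rw [← Finset.mul_sum, mul_div_assoc]
  refine mul_le_mul_of_nonneg_left ?_ (Real.exp_pos 1).le
  refine (ms_doubleq hq hU0 F hFq c).trans ?_
  refine le_trans ?_ (ms_sumq hq hC hBT hy hU1 hU2 F hF hFq)
  refine mul_le_mul_of_nonneg_left ?_ (Nat.cast_nonneg _)
  refine Finset.sum_le_sum fun p hp => Finset.sum_le_sum fun r hr => ?_
  have h1 := hc p hp
  have h2 := hc r (Finset.mem_filter.mp hr).1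
  gcongr

theorem msq (h : BTq) : MSq := by
  obtain ⟨C, hC, hBT⟩ := h
  refine ⟨Real.exp 1 * (64 + 640 * C), by positivity,
    fun q hq y U s hy hU1 hU2 hs b hb1 hb2 => ?_⟩
  have hq1 : (1 : ℝ) ≤ q := by exact_mod_cast hq
  set c : ℕ → ℂ := fun n => b n * Complex.exp ((-((1 + s) * Real.log n) : ℝ) : ℂ) with hcdef
  set F : ℕ → Finset ℕ := fun N => (Finset.range N).filter (fun n => b n ≠ 0) with hFdef
  have hFp : ∀ N, ∀ r ∈ F N, r.Prime ∧ y < r := by
    intro N r hr
    exact hb2 r (Finset.mem_filter.mp hr).2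
  have hqy : (q : ℝ) ≤ y := by
    have h1 : (q : ℝ) ≤ Real.sqrt y := by
      refine le_trans ?_ hU2
      calc (q : ℝ) = q * 1 * 1 := by ring
        _ ≤ q * q * U := by gcongr
        _ = (q : ℝ) ^ 2 * U := by ring
    have h2 : Real.sqrt y * Real.sqrt y = y := Real.mul_self_sqrt (by linarith)
    have h3 : Real.sqrt y ≤ y := by
      have h4 : 1 ≤ Real.sqrt y := hq1.trans h1
      nlinarith
    linarith
  have hFq : ∀ N, ∀ r ∈ F N, r.Coprime q := by
    intro N r hr
    obtain ⟨h1, h2⟩ := hFp N r hr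
    rw [Nat.Prime.coprime_iff_not_dvd h1]
    intro h3
    have h4 : r ≤ q := Nat.le_of_dvd hq h3
    have h5 : (r : ℝ) ≤ q := by exact_mod_cast h4
    linarith
  have hcn : ∀ r : ℕ, r.Prime → ‖c r‖ ≤ (r : ℝ) ^ (-(1 + s)) := by
    intro r hr
    have hr0 : (0 : ℝ) < r := by exact_mod_cast hr.pos
    rw [hcdef]
    simp only
    rw [norm_mul, Complex.norm_exp, Complex.ofReal_re, Real.rpow_def_of_pos hr0]
    have h1 : Real.log r * -(1 + s) = -((1 + s) * Real.log r) := by ring
    rw [h1]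
    exact mul_le_of_le_one_left (Real.exp_pos _).le (hb1 r)
  have hcn' : ∀ N, ∀ r ∈ F N, ‖c r‖ ≤ 1 / (r : ℝ) := by
    intro N r hr
    have hrp := (hFp N r hr).1
    have hr1 : (1 : ℝ) ≤ r := by exact_mod_cast hrp.one_lt.le
    refine (hcn r hrp).trans ?_
    rw [one_div, ← Real.rpow_neg_one]
    exact Real.rpow_le_rpow_of_exponent_le hr1 (by linarith)
  have hfin : ∀ N, ∑ χ : DirichletCharacter ℂ q,
      ∫ t in (-U)..U, ‖msP (F N) (fun n => χ n * c n) t‖ ^ 2 ≤
      Real.exp 1 * (64 + 640 * C) / Real.log y :=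
    fun N => ms_finiteq hq hC (fun a u v => hBT q a u v hq) hy hU1 hU2 (F N) (hFp N) (hFq N) c
      (hcn' N)
  have hterm : ∀ (χ : DirichletCharacter ℂ q) N (t : ℝ), msP (F N) (fun n => χ n * c n) t =
      ∑ n ∈ Finset.range N, LSeries.term (fun n => χ n * b n) (1 + s + t * Complex.I) n := by
    intro χ N t
    unfold msP
    rw [hFdef]
    simp only
    rw [Finset.sum_filter]
    refine Finset.sum_congr rfl fun n _ => ?_
    by_cases hbn : b n = 0
    · rw [if_neg (by simpa using hbn)]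
      by_cases hn : n = 0
      · rw [hn, LSeries.term_zero]
      · rw [LSeries.term_of_ne_zero hn, hbn, mul_zero, zero_div]
    · rw [if_pos hbn]
      have hn : n ≠ 0 := (hb2 n hbn).1.ne_zero
      have hn' : (n : ℂ) ≠ 0 := by exact_mod_cast hn
      rw [LSeries.term_of_ne_zero hn, Complex.cpow_def_of_ne_zero hn', div_eq_mul_inv,
        ← Complex.exp_neg]
      simp only [hcdef]
      rw [← mul_assoc, mul_assoc, ← Complex.exp_add]
      congr 2
      rw [Complex.ofReal_neg, Complex.ofReal_mul, Complex.ofReal_add, Complex.ofReal_one,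
        Complex.natCast_log]
      ring
  have hχ1 : ∀ (χ : DirichletCharacter ℂ q) (n : ℕ), ‖χ n * b n‖ ≤ 1 := by
    intro χ n
    rw [norm_mul]
    exact mul_le_one₀ (χ.norm_le_one _) (norm_nonneg _) (hb1 n)
  have hsum : ∀ (χ : DirichletCharacter ℂ q) (t : ℝ),
      LSeriesSummable (fun n => χ n * b n) (1 + s + t * Complex.I) := by
    intro χ t
    refine LSeriesSummable_of_bounded_of_one_lt_re (m := 1) (fun n _ => hχ1 χ n) ?_
    have h1 : (1 + (s : ℂ) + t * Complex.I).re = 1 + s := by simp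
    rw [h1]; linarith
  have htend : ∀ (χ : DirichletCharacter ℂ q) (t : ℝ),
      Filter.Tendsto (fun N => msP (F N) (fun n => χ n * c n) t) Filter.atTop
      (nhds (LSeries (fun n => χ n * b n) (1 + s + t * Complex.I))) := by
    intro χ t
    simp_rw [hterm]
    exact (hsum χ t).hasSum.tendsto_sum_nat
  set M := ∑' n : ℕ, (n : ℝ) ^ (-(1 + s)) with hM
  have hMs : Summable (fun n : ℕ => (n : ℝ) ^ (-(1 + s))) :=
    Real.summable_nat_rpow.mpr (by linarith)
  have hbound : ∀ (χ : DirichletCharacter ℂ q) N (t : ℝ),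
      ‖msP (F N) (fun n => χ n * c n) t‖ ≤ M := by
    intro χ N t
    refine (msP_norm_le _ _ _).trans ?_
    refine (Finset.sum_le_sum fun r hr => ?_ : _ ≤ ∑ r ∈ F N, (r : ℝ) ^ (-(1 + s))).trans ?_
    · rw [norm_mul]
      exact (mul_le_of_le_one_left (norm_nonneg _) (χ.norm_le_one _)).trans
        (hcn r (hFp N r hr).1)
    · exact hMs.sum_le_tsum _ fun n _ => by positivity
  have hlim : ∀ χ : DirichletCharacter ℂ q, Filter.Tendsto
      (fun N => ∫ t in (-U)..U, ‖msP (F N) (fun n => χ n * c n) t‖ ^ 2) Filter.atTop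
      (nhds (∫ t in (-U)..U, ‖LSeries (fun n => χ n * b n) (1 + s + t * Complex.I)‖ ^ 2)) := by
    intro χ
    exact intervalIntegral.tendsto_integral_filter_of_dominated_convergence
      (μ := volume) (a := -U) (b := U) (l := Filter.atTop)
      (F := fun N t => ‖msP (F N) (fun n => χ n * c n) t‖ ^ 2)
      (f := fun t : ℝ => ‖LSeries (fun n => χ n * b n) (1 + s + t * Complex.I)‖ ^ 2)
      (fun _ => M ^ 2)
      (Filter.Eventually.of_forall fun N => by
        have := msP_continuous (F N) (fun n => χ n * c n)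
        exact (by fun_prop : Continuous fun t =>
          ‖msP (F N) (fun n => χ n * c n) t‖ ^ 2).aestronglyMeasurable)
      (Filter.Eventually.of_forall fun N => Filter.Eventually.of_forall fun t _ => by
        rw [norm_pow, norm_norm]
        exact pow_le_pow_left₀ (norm_nonneg _) (hbound χ N t) 2)
      (by simp)
      (Filter.Eventually.of_forall fun t _ => ((htend χ t).norm.pow 2))
  exact le_of_tendsto (tendsto_finsetSum _ fun χ _ => hlim χ) (Filter.Eventually.of_forall hfin)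

end Lnk
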