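import Pool.Agent.Lib.Linnik.ZTools
import Pool.Agent.Lib.MP_0bb3d8_nt.HohPointwise

/-!
# Module I3: no exceptional character implies the bound for `L'/L`
-/

set_option autoImplicit false

namespace Lnk

open Complex Hoh

/-- The contribution of the primes up to `y` to `L'/L`. -/
lemma twist_sub_le : ∃ C : ℝ, 0 < C ∧ ∀ (q : ℕ) (χ : DirichletCharacter ℂ q) (y : ℝ), 2 ≤ y →
    ∀ σ u : ℝ, 0 < σ →
    ‖LSeries (fun n => χ n * (ArithmeticFunction.vonMangoldt n : ℂ)) (1 + σ + u * I)‖ ≤
      ‖LSeries (fun n => sft χ y (n : ZMod (lvl q y)) * (ArithmeticFunction.vonMangoldt n : ℂ))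
        (1 + σ + u * I)‖ + C * Real.log y := by
  have hsumm := summable_nonprime
  set B : ℝ := ∑' n : ℕ, (if n.Prime then 0 else ArithmeticFunction.vonMangoldt n) / (n : ℝ)
    with hB
  have hB0 : 0 ≤ B := by
    refine tsum_nonneg fun n => ?_
    split_ifs
    · simp
    · exact div_nonneg ArithmeticFunction.vonMangoldt_nonneg (Nat.cast_nonneg n)
  refine ⟨3 + 2 * B, by positivity, fun q χ y hy σ u hσ => ?_⟩
  have hs : 1 < (1 + σ + u * I : ℂ).re := by simp; exact hσ
  have hlog2 : 1 / 2 ≤ Real.log y := by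
    have h1 : Real.log 2 ≤ Real.log y := Real.log_le_log (by norm_num) hy
    have := Real.log_two_gt_d9
    linarith
  have hsa := DirichletCharacter.LSeriesSummable_twist_vonMangoldt χ hs
  have hsb := DirichletCharacter.LSeriesSummable_twist_vonMangoldt (sft χ y) hs
  have hsub := LSeries_sub hsa hsb
  set s : ℂ := 1 + σ + u * I with hsdef
  have key : ‖LSeries ((fun n : ℕ => χ (n : ZMod q)) * (fun n => (ArithmeticFunction.vonMangoldt n : ℂ)) -
      (fun n : ℕ => sft χ y (n : ZMod (lvl q y))) *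
        (fun n => (ArithmeticFunction.vonMangoldt n : ℂ))) s‖ ≤
      (Real.log y + Real.log 4) + B := by
    have hg1 : HasSum (fun n : ℕ => if n ∈ (Finset.Ioc 0 ⌊y⌋₊).filter Nat.Prime then
        Real.log n / n else 0)
        (∑ p ∈ (Finset.Ioc 0 ⌊y⌋₊).filter Nat.Prime, Real.log p / p) := by
      have h : HasSum (fun n : ℕ => if n ∈ (Finset.Ioc 0 ⌊y⌋₊).filter Nat.Prime then
          Real.log n / (n : ℝ) else 0)
          (∑ b ∈ (Finset.Ioc 0 ⌊y⌋₊).filter Nat.Prime,
            if b ∈ (Finset.Ioc 0 ⌊y⌋₊).filter Nat.Prime then Real.log b / (b : ℝ) else 0) :=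
        hasSum_sum_of_ne_finset_zero (fun b hb => if_neg hb)
      rwa [Finset.sum_congr rfl (fun b hb => if_pos hb)] at h
    have hbound := tsum_of_norm_bounded (hg1.add hsumm.hasSum)
      (f := fun n => LSeries.term ((fun n : ℕ => χ (n : ZMod q)) *
        (fun n => (ArithmeticFunction.vonMangoldt n : ℂ)) -
      (fun n : ℕ => sft χ y (n : ZMod (lvl q y))) *
        (fun n => (ArithmeticFunction.vonMangoldt n : ℂ))) s n) ?_
    · refine hbound.trans ?_
      have := sum_log_div_le' (x := y) (by linarith)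
      linarith
    · intro n
      rw [LSeries.norm_term_eq]
      by_cases hn : n = 0
      · rw [if_pos hn]
        refine add_nonneg ?_ ?_
        · split_ifs
          · rw [hn]; simp
          · exact le_rfl
        · refine div_nonneg ?_ (Nat.cast_nonneg n)
          split_ifs
          · exact le_rfl
          · exact ArithmeticFunction.vonMangoldt_nonneg
      rw [if_neg hn]
      have hn1 : (1 : ℝ) ≤ n := by exact_mod_cast Nat.one_le_iff_ne_zero.mpr hn
      have hpow : (n : ℝ) ≤ (n : ℝ) ^ s.re := by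
        calc (n : ℝ) = (n : ℝ) ^ (1 : ℝ) := (Real.rpow_one _).symm
          _ ≤ _ := Real.rpow_le_rpow_of_exponent_le hn1 hs.le
      have hval : ((fun n : ℕ => χ (n : ZMod q)) * (fun n => (ArithmeticFunction.vonMangoldt n : ℂ)) -
          (fun n : ℕ => sft χ y (n : ZMod (lvl q y))) *
            (fun n => (ArithmeticFunction.vonMangoldt n : ℂ))) n =
          χ (n : ZMod q) * ((1 - rough y n : ℝ) : ℂ) * (ArithmeticFunction.vonMangoldt n : ℂ) := by
        simp only [Pi.sub_apply, Pi.mul_apply]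
        rw [sft_apply χ y hn]
        push_cast
        ring
      rw [hval, norm_mul, norm_mul, Complex.norm_real, Complex.norm_real,
        Real.norm_of_nonneg (sub_nonneg.mpr (rough_le_one y n)),
        Real.norm_of_nonneg ArithmeticFunction.vonMangoldt_nonneg]
      have hχ1 := DirichletCharacter.norm_le_one χ (n : ZMod q)
      have hr0 : 0 ≤ 1 - rough y n := sub_nonneg.mpr (rough_le_one y n)
      have hΛ : 0 ≤ ArithmeticFunction.vonMangoldt n := ArithmeticFunction.vonMangoldt_nonneg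
      have h1 : ‖χ (n : ZMod q)‖ * (1 - rough y n) * ArithmeticFunction.vonMangoldt n /
          (n : ℝ) ^ s.re ≤ (1 - rough y n) * ArithmeticFunction.vonMangoldt n / n := by
        have h2 : ‖χ (n : ZMod q)‖ * (1 - rough y n) * ArithmeticFunction.vonMangoldt n ≤
            (1 - rough y n) * ArithmeticFunction.vonMangoldt n := by
          have := mul_le_mul_of_nonneg_right hχ1 (mul_nonneg hr0 hΛ)
          rw [one_mul] at this
          rw [mul_assoc]
          exact this
        exact div_le_div₀ (mul_nonneg hr0 hΛ) h2 (by linarith) hpow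
      refine h1.trans ?_
      by_cases hp : n.Prime
      · rw [if_pos hp]
        simp only [zero_div, add_zero]
        by_cases hny : (n : ℝ) ≤ y
        · rw [if_pos (by
            rw [Finset.mem_filter, Finset.mem_Ioc]
            exact ⟨⟨hp.pos, Nat.le_floor hny⟩, hp⟩)]
          rw [ArithmeticFunction.vonMangoldt_apply_prime hp]
          have hl : 0 ≤ Real.log n := Real.log_nonneg hn1
          have : (1 - rough y n) * Real.log n ≤ 1 * Real.log n := by
            refine mul_le_mul_of_nonneg_right ?_ hl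
            linarith [rough_nonneg y n]
          rw [one_mul] at this
          exact div_le_div_of_nonneg_right this (by linarith)
        · have hr : rough y n = 1 := by
            rw [rough_apply, if_pos]
            refine ⟨hn, fun p hpp hpn => ?_⟩
            rw [(Nat.prime_dvd_prime_iff_eq hpp hp).mp hpn]
            exact not_le.mp hny
          rw [hr]
          simp only [sub_self, zero_mul, zero_div]
          split_ifs
          · exact div_nonneg (Real.log_nonneg hn1) (by linarith)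
          · exact le_rfl
      · rw [if_neg hp]
        have h3 : (1 - rough y n) * ArithmeticFunction.vonMangoldt n ≤
            1 * ArithmeticFunction.vonMangoldt n := by
          refine mul_le_mul_of_nonneg_right ?_ hΛ
          linarith [rough_nonneg y n]
        rw [one_mul] at h3
        rw [if_neg (fun h => hp (Finset.mem_filter.mp h).2), zero_add]
        exact div_le_div_of_nonneg_right h3 (by linarith)
  rw [hsub] at key
  have hlog4 : Real.log 4 ≤ 2 * Real.log y := by
    have h1 : Real.log 4 = 2 * Real.log 2 := by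
      rw [show (4 : ℝ) = 2 ^ 2 by norm_num, Real.log_pow]; norm_num
    have h2 : Real.log 2 ≤ Real.log y := Real.log_le_log (by norm_num) hy
    linarith
  have hfin : (Real.log y + Real.log 4) + B ≤ (3 + 2 * B) * Real.log y := by
    nlinarith
  have htri := norm_le_norm_add_norm_sub' 
    (LSeries ((fun n : ℕ => χ (n : ZMod q)) * (fun n => (ArithmeticFunction.vonMangoldt n : ℂ))) s)
    (LSeries ((fun n : ℕ => sft χ y (n : ZMod (lvl q y))) *
            (fun n => (ArithmeticFunction.vonMangoldt n : ℂ))) s)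
  exact htri.trans (add_le_add le_rfl (key.trans hfin))

lemma seg_vert {σ u : ℝ} {z : ℂ} (hz : z ∈ segment ℝ (1 + σ : ℂ) (1 + σ + u * I)) :
    ∃ v : ℝ, |v| ≤ |u| ∧ z = 1 + σ + v * I := by
  rw [segment_eq_image'] at hz
  obtain ⟨θ, hθ, rfl⟩ := hz
  refine ⟨θ * u, ?_, ?_⟩
  · rw [abs_mul, abs_of_nonneg hθ.1]
    exact mul_le_of_le_one_left (abs_nonneg u) hθ.2
  · simp only [Complex.real_smul]
    push_cast
    ring

lemma seg_horiz {σ σ' u : ℝ} (h : σ ≤ σ') {z : ℂ}
    (hz : z ∈ segment ℝ (1 + σ + u * I : ℂ) (1 + σ' + u * I)) :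
    ∃ τ : ℝ, σ ≤ τ ∧ τ ≤ σ' ∧ z = 1 + τ + u * I := by
  rw [segment_eq_image'] at hz
  obtain ⟨θ, hθ, rfl⟩ := hz
  refine ⟨σ + θ * (σ' - σ), ?_, ?_, ?_⟩
  · nlinarith [hθ.1, mul_nonneg hθ.1 (sub_nonneg.mpr h)]
  · nlinarith [hθ.2, mul_nonneg (sub_nonneg.mpr hθ.2) (sub_nonneg.mpr h)]
  · simp only [Complex.real_smul]
    push_cast
    ring

/-- `|b| ≥ |a| - K |b - a|` -/
lemma Zs_ge {q : ℕ} (hq : 0 < q) (χ : DirichletCharacter ℂ q) (y : ℝ) {K : ℝ}
    {a b : ℂ} (ha : 1 < a.re) (hb : 1 < b.re)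
    (h : ∀ z ∈ segment ℝ a b, ‖deriv (Zs χ y) z‖ ≤ K) :
    ‖Zs χ y a‖ - K * ‖b - a‖ ≤ ‖Zs χ y b‖ := by
  have h1 := Zs_sub_le hq χ y ha hb h
  have h2 := norm_le_norm_add_norm_sub' (Zs χ y a) (Zs χ y b)
  rw [norm_sub_rev] at h2
  linarith

/-- 3-4-1 inequality for the sifted series. -/
lemma h341 {q : ℕ} (hq : 0 < q) (χ : DirichletCharacter ℂ q) {y : ℝ} (hy : (q : ℝ) ≤ y) {σ : ℝ}
    (hσ : 0 < σ) (u : ℝ) :
    1 ≤ ‖LSeries (fun n => (rough y n : ℂ)) (1 + σ)‖ ^ 3 * ‖Zs χ y (1 + σ + u * I)‖ ^ 4 *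
      ‖Zs (χ ^ 2) y (1 + σ + ((2 * u : ℝ) : ℂ) * I)‖ := by
  have h := DirichletCharacter.norm_LSeries_product_ge_one (sft χ y) hσ u
  have e1 : LSeries (fun n : ℕ => (1 : DirichletCharacter ℂ (lvl q y)) (n : ZMod (lvl q y)))
      (1 + σ : ℂ) = LSeries (fun n => (rough y n : ℂ)) (1 + σ) := by
    rw [← Zs_one_eq hq hy, Zs_eq, sft_one]
  rw [← sft_pow, e1] at h
  rw [norm_mul, norm_mul, norm_pow, norm_pow] at h
  rw [Zs_eq χ, Zs_eq (χ ^ 2)]
  have e2 : (1 + σ + u * I : ℂ) = 1 + σ + I * u := by ring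
  have e3 : (1 + σ + ((2 * u : ℝ) : ℂ) * I : ℂ) = 1 + σ + 2 * I * u := by push_cast; ring
  rw [e2, e3]
  exact h

/-- I3. -/
theorem neOfNonExc (h1 : ZBound) (h2 : ZOne) : NEofNonExc := by
  obtain ⟨A1, hA1, hZ⟩ := h1
  obtain ⟨A2, hA2, hO⟩ := h2
  obtain ⟨C3, hC3, hT⟩ := twist_sub_le
  intro ε₀ hε
  obtain ⟨A, hA, hAA1, hAA2⟩ : ∃ A : ℝ, 1 ≤ A ∧ A1 ≤ A ∧ A2 ≤ A :=
    ⟨max 1 (max A1 A2), le_max_left _ _, (le_max_left _ _).trans (le_max_right _ _),
      (le_max_right _ _).trans (le_max_right _ _)⟩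
  have hA0 : 0 < A := by linarith
  set a : ℝ := ε₀ / (2 * A) with ha
  have ha0 : 0 < a := by positivity
  set B : ℝ := A * (1 + 1 / (2 * a)) with hB
  have hBA : A ≤ B := by
    rw [hB]
    have : 0 < 1 / (2 * a) := by positivity
    nlinarith
  have hB0 : 0 < B := by linarith
  set κ : ℝ := 1 / (128 * A ^ 7 * B) with hκ
  have hκ0 : 0 < κ := by positivity
  have hκ1 : κ ≤ 1 := by
    rw [hκ, div_le_one (by positivity)]
    have h7 : 1 ≤ A ^ 7 := one_le_pow₀ hA
    nlinarith
  refine ⟨8 * (1 / κ + 2 * A / ε₀ + C3), by positivity,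
    fun Q hQ q hq hne χ hχ σ u hσ0 hσ1 hQu => ?_⟩
  set y : ℝ := Q ^ 8 with hy
  set l : ℝ := Real.log y with hl
  have hlQ : l = 8 * Real.log Q := by
    rw [hl, hy, Real.log_pow]; norm_num
  have hlog2 : 1 / 2 ≤ Real.log Q := by
    have h1 : Real.log 2 ≤ Real.log Q := Real.log_le_log (by norm_num) hQ
    have := Real.log_two_gt_d9
    linarith
  have hl1 : 1 ≤ l := by rw [hlQ]; linarith
  have hl0 : 0 < l := by linarith
  have hQ1 : 1 ≤ Q := by linarith
  have hQy : Q ≤ y := by
    rw [hy]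
    calc Q = Q ^ 1 := (pow_one Q).symm
      _ ≤ Q ^ 8 := pow_le_pow_right₀ hQ1 (by norm_num)
  have hy2 : 2 ≤ y := hQ.trans hQy
  have hq1 : (1 : ℝ) ≤ q := by exact_mod_cast hq
  have hu0 := abs_nonneg u
  have hqQ : (q : ℝ) ≤ Q := by nlinarith
  have hqy : (q : ℝ) ≤ y := hqQ.trans hQy
  set U : ℝ := max 1 (2 * |u|) with hU
  have hU1 : 1 ≤ U := le_max_left _ _
  have hqU : (q : ℝ) * (4 + U) ≤ Q ^ 2 := by
    have h3 : (q : ℝ) * (4 + U) ≤ 2 * Q := by
      rcases le_total 1 (2 * |u|) with h | h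
      · rw [hU, max_eq_right h]; nlinarith
      · rw [hU, max_eq_left h]; nlinarith
    nlinarith
  have hqU4 : ((q : ℝ) * (4 + U)) ^ 4 ≤ y := by
    calc ((q : ℝ) * (4 + U)) ^ 4 ≤ (Q ^ 2) ^ 4 := by gcongr
      _ = y := by rw [hy]; ring
  have hU4 : (4 + U) ^ 4 ≤ y := by
    refine le_trans ?_ hqU4
    gcongr
    nlinarith
  have hF : ∀ ψ : DirichletCharacter ℂ q, ψ ≠ 1 → ∀ τ v : ℝ, 0 < τ → τ ≤ 1 → |v| ≤ U →
      ‖Zs ψ y (1 + τ + v * I)‖ ≤ A ∧ ‖deriv (Zs ψ y) (1 + τ + v * I)‖ ≤ A * l := by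
    intro ψ hψ τ v h0 h1 hv
    obtain ⟨h3, h4⟩ := hZ q ψ hq hψ U y hU1 hqU4 τ v h0 h1 hv
    exact ⟨h3.trans hAA1, h4.trans (by gcongr)⟩
  have hG : ∀ τ v : ℝ, 0 < τ → τ ≤ 1 → |v| ≤ U →
      ‖LSeries (fun n => (rough y n : ℂ)) (1 + τ + v * I)‖ ≤
        A * (1 + 1 / (‖(τ : ℂ) + v * I‖ * l)) := by
    intro τ v h0 h1 hv
    refine (hO U y hU1 hU4 τ v h0 h1 hv).trans ?_
    have : 0 ≤ 1 / (‖(τ : ℂ) + v * I‖ * Real.log y) := by positivity
    gcongr
  have huU : |u| ≤ U := by
    rcases le_total 1 (2 * |u|) with h | h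
    · rw [hU, max_eq_right h]; linarith
    · rw [hU, max_eq_left h]; linarith
  have h2uU : |2 * u| ≤ U := by
    rw [abs_mul, abs_of_pos (by norm_num : (0:ℝ) < 2)]; exact le_max_right _ _
  have hs : 1 < (1 + σ + u * I : ℂ).re := by simp; exact hσ0
  -- lower bound
  obtain ⟨m, hm0, hmF, hmb⟩ : ∃ m : ℝ, 0 < m ∧ m ≤ ‖Zs χ y (1 + σ + u * I)‖ ∧
      A / m ≤ 1 / κ + 2 * A / ε₀ := by
    by_cases hc : χ ^ 2 = 1 ∧ |u| < a / l
    · refine ⟨ε₀ / 2, by positivity, ?_, ?_⟩
      · have h3 : ε₀ ≤ ‖Zs χ y (1 + σ)‖ := by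
          by_contra hcon
          push Not at hcon
          exact hne χ ⟨hc.1, hχ, σ, hσ0, hσ1, hcon⟩
        have h4 := Zs_ge hq χ y (K := A * l) (a := 1 + σ) (b := 1 + σ + u * I)
          (by simp; exact hσ0) hs (fun z hz => by
            obtain ⟨v, hv, rfl⟩ := seg_vert hz
            exact (hF χ hχ σ v hσ0 hσ1 (hv.trans huU)).2)
        have h5 : ‖(1 + σ + u * I : ℂ) - (1 + σ)‖ = |u| := by
          rw [add_sub_cancel_left, norm_mul, Complex.norm_I, mul_one, Complex.norm_real,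
            Real.norm_eq_abs]
        rw [h5] at h4
        have h6 : A * l * |u| ≤ ε₀ / 2 := by
          have h7 : l * |u| ≤ a := by
            have := hc.2.le
            rw [le_div_iff₀ hl0] at this
            linarith
          calc A * l * |u| = A * (l * |u|) := by ring
            _ ≤ A * a := by gcongr
            _ = ε₀ / 2 := by rw [ha]; field_simp
        linarith
      · have : A / (ε₀ / 2) = 2 * A / ε₀ := by field_simp
        rw [this]
        have : 0 < 1 / κ := by positivity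
        linarith
    · -- 3-4-1
      have hZ2 : ∀ τ : ℝ, 0 < τ → τ ≤ 1 →
          ‖Zs (χ ^ 2) y (1 + τ + ((2 * u : ℝ) : ℂ) * I)‖ ≤ B := by
        intro τ h0 h1
        by_cases h2 : χ ^ 2 = 1
        · have hu : a / l ≤ |u| := by
            by_contra hcon
            push Not at hcon
            exact hc ⟨h2, hcon⟩
          rw [h2, Zs_one_eq hq hqy]
          refine (hG τ (2 * u) h0 h1 h2uU).trans ?_
          rw [hB]
          have h3 : 2 * a ≤ ‖(τ : ℂ) + ((2 * u : ℝ) : ℂ) * I‖ * l := by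
            have h4 : |2 * u| ≤ ‖(τ : ℂ) + ((2 * u : ℝ) : ℂ) * I‖ := by
              have := Complex.abs_im_le_norm ((τ : ℂ) + ((2 * u : ℝ) : ℂ) * I)
              simpa using this
            have h5 : |2 * u| = 2 * |u| := by
              rw [abs_mul, abs_of_pos (by norm_num : (0:ℝ) < 2)]
            rw [div_le_iff₀ hl0] at hu
            rw [h5] at h4
            nlinarith
          gcongr
        · exact ((hF (χ ^ 2) h2 τ (2 * u) h0 h1 h2uU).1).trans hBA
      have hbig : ∀ τ : ℝ, κ / l ≤ τ → τ ≤ 1 → 2 * A * κ ≤ ‖Zs χ y (1 + τ + u * I)‖ := by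
        intro τ h0 h1
        have hτ0 : 0 < τ := lt_of_lt_of_le (by positivity) h0
        have h3 := h341 hq χ hqy hτ0 u
        have h4 := hG τ 0 hτ0 h1 (by rw [abs_zero]; linarith)
        rw [Complex.ofReal_zero, zero_mul, add_zero, add_zero, Complex.norm_real,
          Real.norm_of_nonneg hτ0.le] at h4
        have h5 : κ ≤ τ * l := by rwa [div_le_iff₀ hl0] at h0
        have h6 : A * (1 + 1 / (τ * l)) ≤ 2 * A / κ := by
          have h7 : 1 / (τ * l) ≤ 1 / κ := by gcongr
          have h8 : 1 ≤ 1 / κ := by rw [le_div_iff₀ hκ0]; linarith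
          calc A * (1 + 1 / (τ * l)) ≤ A * (1 / κ + 1 / κ) := by gcongr
            _ = 2 * A / κ := by ring
        set F : ℝ := ‖Zs χ y (1 + τ + u * I)‖ with hFdef
        have hF0 : 0 ≤ F := norm_nonneg _
        have h9 : 1 ≤ (2 * A / κ) ^ 3 * F ^ 4 * B := by
          refine h3.trans ?_
          have := hZ2 τ hτ0 h1
          have h10 := h4.trans h6
          gcongr
        have h11 : (2 * A * κ) ^ 4 ≤ F ^ 4 := by
          have h12 : (2 * A / κ) ^ 3 * (2 * A * κ) ^ 4 * B = 1 := by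
            rw [hκ]
            field_simp
            ring
          have h13 : 0 < (2 * A / κ) ^ 3 * B := by positivity
          have h14 : (2 * A / κ) ^ 3 * B * (2 * A * κ) ^ 4 ≤ (2 * A / κ) ^ 3 * B * F ^ 4 := by
            nlinarith
          exact le_of_mul_le_mul_left h14 h13
        exact le_of_pow_le_pow_left₀ (by norm_num) hF0 h11
      refine ⟨A * κ, by positivity, ?_, ?_⟩
      · rcases le_total (κ / l) σ with h | h
        · have := hbig σ h hσ1
          nlinarith [mul_pos hA0 hκ0]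
        · have hκl1 : κ / l ≤ 1 := by rw [div_le_one hl0]; linarith
          have h3 := hbig (κ / l) le_rfl hκl1
          have hκl0 : 0 < κ / l := by positivity
          have h4 := Zs_sub_le hq χ y (K := A * l) (a := 1 + σ + u * I)
            (b := 1 + (κ / l : ℝ) + u * I) hs (by simp; exact hκl0) (fun z hz => by
              obtain ⟨τ, h5, h6, rfl⟩ := seg_horiz h hz
              exact (hF χ hχ τ u (by linarith) (by linarith) huU).2)
          have h5 : ‖(1 + (κ / l : ℝ) + u * I : ℂ) - (1 + σ + u * I)‖ ≤ κ / l := by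
            have : (1 + (κ / l : ℝ) + u * I : ℂ) - (1 + σ + u * I) = ((κ / l - σ : ℝ) : ℂ) := by
              push_cast; ring
            rw [this, Complex.norm_real, Real.norm_of_nonneg (by linarith)]
            linarith
          have h6 : A * l * ‖(1 + (κ / l : ℝ) + u * I : ℂ) - (1 + σ + u * I)‖ ≤ A * κ := by
            calc A * l * ‖(1 + (κ / l : ℝ) + u * I : ℂ) - (1 + σ + u * I)‖ ≤
                A * l * (κ / l) := by gcongr
              _ = A * κ := by field_simp
          have h7 := norm_le_norm_add_norm_sub' (Zs χ y (1 + (κ / l : ℝ) + u * I))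
            (Zs χ y (1 + σ + u * I))
          linarith
      · have h3 : A / (A * κ) = 1 / κ := by field_simp
        rw [h3]
        have : 0 < 2 * A / ε₀ := by positivity
        linarith
  -- conclusion
  have h3 := hT q χ y hy2 σ u hσ0
  have h4 := DirichletCharacter.LSeries_twist_vonMangoldt_eq (sft χ y) hs
  have h5 : ‖LSeries (fun n => sft χ y (n : ZMod (lvl q y)) *
      (ArithmeticFunction.vonMangoldt n : ℂ)) (1 + σ + u * I)‖ ≤ l * (1 / κ + 2 * A / ε₀) := by
    have h6 : LSeries (fun n => sft χ y (n : ZMod (lvl q y)) *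
      (ArithmeticFunction.vonMangoldt n : ℂ)) (1 + σ + u * I) =
        -deriv (Zs χ y) (1 + σ + u * I) / Zs χ y (1 + σ + u * I) := by
      rw [Zs_eq]
      exact h4
    rw [h6, norm_div, norm_neg]
    have h7 := (hF χ hχ σ u hσ0 hσ1 huU).2
    calc ‖deriv (Zs χ y) (1 + σ + u * I)‖ / ‖Zs χ y (1 + σ + u * I)‖ ≤ A * l / m := by
          gcongr
      _ = l * (A / m) := by ring
      _ ≤ _ := by gcongr
  rw [hlQ] at h5
  have h6 : C3 * Real.log y = 8 * C3 * Real.log Q := by
    rw [← hl, hlQ]; ring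
  rw [h6] at h3
  calc _ ≤ _ := h3
    _ ≤ 8 * Real.log Q * (1 / κ + 2 * A / ε₀) + 8 * C3 * Real.log Q := by linarith
    _ = _ := by ring

end Lnk
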