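import Pool.Agent.Lib.Linnik.Defs

/-!
# I6: removing one odd prime from the modulus leaves only non exceptional moduli
-/

set_option autoImplicit false

namespace Lnk

open Complex Hoh

/-- A rough number is coprime to all small moduli. -/
lemma coprime_of_rough {N : ℕ} {y : ℝ} {n : ℕ} (hN : 0 < N) (hNy : (N : ℝ) ≤ y)
    (hn : Rough y n) : Nat.Coprime n N := by
  refine Nat.Coprime.symm (Nat.coprime_of_dvd fun p hp hpN hpn => ?_)
  have h1 := hn p hp hpn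
  have h2 : (p : ℝ) ≤ N := by exact_mod_cast Nat.le_of_dvd hN hpN
  linarith

lemma changeLevel_mul_rough {q N : ℕ} (h : q ∣ N) (hN : 0 < N) {y : ℝ} (hy : (N : ℝ) ≤ y)
    (χ : DirichletCharacter ℂ q) (n : ℕ) :
    DirichletCharacter.changeLevel h χ n * (rough y n : ℂ) = χ n * (rough y n : ℂ) := by
  rw [rough_apply]
  split_ifs with hn
  · have hc := coprime_of_rough hN hy hn.2
    have h1 := DirichletCharacter.changeLevel_eq_cast_of_dvd' χ h (a := (n : ℤ))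
      (Nat.isCoprime_iff_coprime.2 hc)
    simp only [Int.cast_natCast] at h1
    rw [h1]
  · simp

lemma Zs_changeLevel {q N : ℕ} (h : q ∣ N) (hN : 0 < N) {y : ℝ} (hy : (N : ℝ) ≤ y)
    (χ : DirichletCharacter ℂ q) (s : ℂ) :
    Zs (DirichletCharacter.changeLevel h χ) y s = Zs χ y s := by
  unfold Zs
  exact congrArg (fun f => LSeries f s) (funext fun n => changeLevel_mul_rough h hN hy χ n)

lemma exc_changeLevel {q N : ℕ} (h : q ∣ N) (hN : 0 < N) {ε y : ℝ} (hy : (N : ℝ) ≤ y)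
    (χ : DirichletCharacter ℂ q) :
    Exc ε y (DirichletCharacter.changeLevel h χ) ↔ Exc ε y χ := by
  have : NeZero N := ⟨hN.ne'⟩
  unfold Exc
  rw [← map_pow, DirichletCharacter.changeLevel_eq_one_iff, ne_eq,
    DirichletCharacter.changeLevel_eq_one_iff]
  simp only [Zs_changeLevel h hN hy]

lemma exc_mono {q : ℕ} {ε ε' y : ℝ} (h : ε ≤ ε') {χ : DirichletCharacter ℂ q}
    (hχ : Exc ε y χ) : Exc ε' y χ := by
  obtain ⟨h1, h2, σ, h3, h4, h5⟩ := hχ
  exact ⟨h1, h2, σ, h3, h4, h5.trans_le h⟩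

/-- A natural number without odd prime factor which is not divisible by `8` divides `4`. -/
lemma dvd_four_of {f : ℕ} (hf : f ≠ 0) (h8 : ¬ 8 ∣ f) (h : ∀ l : ℕ, l.Prime → l ∣ f → l = 2) :
    f ∣ 4 := by
  have h1 : f = 2 ^ f.primeFactorsList.length :=
    Nat.eq_prime_pow_of_unique_prime_dvd hf (fun {d} hd hdf => h d hd hdf)
  have h2 : f.primeFactorsList.length ≤ 2 := by
    by_contra h3
    push Not at h3
    apply h8
    rw [h1, show (8 : ℕ) = 2 ^ 3 by norm_num]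
    exact pow_dvd_pow 2 h3
  rw [h1, show (4 : ℕ) = 2 ^ 2 by norm_num]
  exact pow_dvd_pow 2 h2

theorem neStmt (h3 : NEofNonExc) (h4 : ExcUnique) (h5 : NotExcFour) : NEStmt := by
  obtain ⟨ε₀, hε0, hε1, hu⟩ := h4
  obtain ⟨C, hC, hne⟩ := h3 ε₀ hε0
  obtain ⟨y₁, hy₁⟩ := h5
  refine ⟨C, max 2 y₁, hC, le_max_left _ _, fun Q hQ N hN hNQ h8 => ?_⟩
  have hQ2 : 2 ≤ Q := (le_max_left _ _).trans hQ
  have hQ1 : y₁ ≤ Q := (le_max_right _ _).trans hQ
  have : NeZero N := ⟨hN.ne'⟩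
  have hN1 : (1 : ℝ) ≤ N := by exact_mod_cast hN
  have hQ8 : Q ≤ Q ^ 8 := by
    calc Q = Q ^ 1 := (pow_one Q).symm
      _ ≤ Q ^ 8 := pow_le_pow_right₀ (by linarith) (by norm_num)
  have hNy : (N : ℝ) ≤ Q ^ 8 := by linarith
  by_contra hcon
  push Not at hcon
  -- exceptional characters for every odd prime
  have key : ∀ l : ℕ, l.Prime → l ≠ 2 → ∃ q : ℕ, ∃ h : q ∣ N, ¬ l ∣ q ∧
      ∃ χ : DirichletCharacter ℂ q,
        Exc ε₀ (Q ^ 8) (DirichletCharacter.changeLevel h χ) := by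
    intro l hl hl2
    obtain ⟨q, hqN, hlq, hnot⟩ := hcon l hl hl2
    have hq0 : 0 < q := Nat.pos_of_dvd_of_pos hqN hN
    have h6 : ∃ χ : DirichletCharacter ℂ q, Exc ε₀ (Q ^ 8) χ := by
      by_contra h7
      push Not at h7
      exact hnot (hne Q hQ2 q hq0 h7)
    obtain ⟨χ, hχ⟩ := h6
    exact ⟨q, hqN, hlq, χ, (exc_changeLevel hqN hN hNy χ).2 hχ⟩
  obtain ⟨q₃, hq₃, -, χ₃, hχ₃⟩ := key 3 (by norm_num) (by norm_num)
  set ψ := DirichletCharacter.changeLevel hq₃ χ₃ with hψ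
  have hcond : ψ.conductor ∣ 4 := by
    refine dvd_four_of (DirichletCharacter.conductor_ne_zero ψ)
      (fun h => h8 (h.trans (DirichletCharacter.conductor_dvd_level ψ))) fun l hl hlc => ?_
    by_contra hl2
    obtain ⟨q, hqN, hlq, χ, hχ⟩ := key l hl hl2
    have h6 : DirichletCharacter.changeLevel hqN χ = ψ := hu Q hQ2 N hN hNQ _ _ hχ hχ₃
    have h7 : q ∈ ψ.conductorSet := ⟨hqN, χ, h6.symm⟩
    exact hlq (hlc.trans (DirichletCharacter.conductor_dvd_of_mem_conductorSet ψ h7))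
  have hy4 : ((4 : ℕ) : ℝ) ≤ Q ^ 8 := by
    have : (2 : ℝ) ^ 8 ≤ Q ^ 8 := pow_le_pow_left₀ (by norm_num) hQ2 8
    norm_num at this ⊢
    linarith
  have h9 : Exc ε₀ (Q ^ 8) ψ.primitiveCharacter := by
    rw [← exc_changeLevel (DirichletCharacter.conductor_dvd_level ψ) hN hNy,
      DirichletCharacter.changeLevel_primitiveCharacter]
    exact hχ₃
  have h10 : Exc ε₀ (Q ^ 8)
      (DirichletCharacter.changeLevel hcond ψ.primitiveCharacter) :=
    (exc_changeLevel hcond (by norm_num) hy4 _).2 h9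
  exact hy₁ (Q ^ 8) (hQ1.trans hQ8) _ (exc_mono hε1 h10)

end Lnk
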