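import Pool.Agent.Lib.Linnik.Defs
import Pool.Agent.Lib.MP_0bb3d8_nt.HohPointwise

/-!
# Linnik, module II3: pointwise bound for the prime polynomial twisted by a character
-/

set_option autoImplicit false

namespace Lnk

open Complex MeasureTheory Hoh

section twist

variable {q : ℕ} (χ : DirichletCharacter ℂ q)

/-- The function `χ Λ`. -/
noncomputable def cvm (n : ℕ) : ℂ := χ n * (ArithmeticFunction.vonMangoldt n : ℂ)

lemma norm_cvm_le (n : ℕ) :
    ‖cvm χ n‖ ≤ ‖((ArithmeticFunction.vonMangoldt n : ℝ) : ℂ)‖ := by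
  unfold cvm
  rw [norm_mul]
  exact mul_le_of_le_one_left (norm_nonneg _) (χ.norm_le_one _)

lemma norm_term_cvm_le (s : ℂ) (n : ℕ) :
    ‖LSeries.term (cvm χ) s n‖ ≤
      ‖LSeries.term (fun n : ℕ => ((ArithmeticFunction.vonMangoldt n : ℝ) : ℂ)) s n‖ := by
  rw [LSeries.norm_term_eq, LSeries.norm_term_eq]
  split_ifs
  · exact le_refl _
  · gcongr
    exact norm_cvm_le χ n

lemma norm_LSeries_cvm_le {C σ : ℝ}
    (hC : ∑' n, ‖LSeries.term (fun n : ℕ => ((ArithmeticFunction.vonMangoldt n : ℝ) : ℂ))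
      (1 + σ : ℝ) n‖ ≤ C / σ) (h0 : 0 < σ) (u : ℝ) :
    ‖LSeries (cvm χ) ((1 + σ : ℝ) + u * I)‖ ≤ C / σ := by
  have hn : ∀ n, ‖LSeries.term (cvm χ) (((1 + σ : ℝ) : ℂ) + u * I) n‖ ≤
      ‖LSeries.term (fun n : ℕ => ((ArithmeticFunction.vonMangoldt n : ℝ) : ℂ)) (1 + σ : ℝ) n‖ := by
    intro n
    refine (norm_term_cvm_le χ _ n).trans (le_of_eq ?_)
    rw [LSeries.norm_term_eq, LSeries.norm_term_eq]
    simp
  have hs : 1 < ((1 + σ : ℝ) : ℂ).re := by
    rw [Complex.ofReal_re]; linarith
  have hsum := (ArithmeticFunction.LSeriesSummable_vonMangoldt hs).norm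
  have hsum' : Summable fun n => ‖LSeries.term (cvm χ) (((1 + σ : ℝ) : ℂ) + u * I) n‖ :=
    Summable.of_nonneg_of_le (fun n => norm_nonneg _) hn hsum
  rw [LSeries]
  refine (norm_tsum_le_tsum_norm hsum').trans ?_
  exact (hsum'.tsum_le_tsum hn hsum).trans hC

end twist

theorem pbq : PBq := by
  intro η ε G hη hη1 hε hG C hC
  obtain ⟨C1, hC1, hvm⟩ := vonMangoldt_bound
  obtain ⟨h, hh, hh1, hker⟩ := exists_kernel hG (a := η / 2) (by positivity)
  set D : ℝ := ∫ ξ, (1 + |ξ|) * ‖h ξ‖ with hD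
  have hD0 : 0 ≤ D := integral_nonneg fun ξ => by positivity
  set B : ℝ := ∑' n : ℕ, (if n.Prime then 0 else ArithmeticFunction.vonMangoldt n) / (n : ℝ) with hB
  have hB0 : 0 ≤ B := tsum_nonneg fun n => by
    split_ifs
    · simp
    · exact div_nonneg ArithmeticFunction.vonMangoldt_nonneg (Nat.cast_nonneg n)
  set M : ℝ := C + 4 * Real.pi * C1 / η with hM
  have hM0 : 0 < M := by positivity
  refine ⟨(M * D + B) / η + 1, by positivity, fun x Q hx hL hQ q hq hNE χ hχ t ht => ?_⟩
  have hx0 : 0 < x := lt_of_lt_of_le (Real.exp_pos 1) hx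
  have hlx : 1 ≤ Real.log x := by
    rw [← Real.log_exp 1]
    exact Real.log_le_log (Real.exp_pos 1) hx
  have hlx0 : 0 < Real.log x := by linarith
  have hQ0 : 0 < Q := by linarith
  have hlQ : 1 ≤ Real.log Q := by
    rw [Real.le_log_iff_exp_le hQ0]
    have := Real.exp_one_lt_d9
    linarith
  set L : ℝ := η * Real.log x with hLdef
  have hL0 : 0 < L := by linarith
  set σ : ℝ := 1 / (2 * Real.log x) with hσ
  have hσ0 : 0 < σ := by positivity
  have hσ1 : σ ≤ 1 := by
    rw [hσ, div_le_one (by positivity)]; linarith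
  have hs1 : 1 < ((1 + σ : ℝ) : ℂ).re := by
    rw [Complex.ofReal_re]; linarith
  have hsumm0 := ArithmeticFunction.LSeriesSummable_vonMangoldt hs1
  have hsumm : LSeriesSummable (cvm χ) ((1 + σ : ℝ) : ℂ) :=
    Summable.of_norm_bounded hsumm0.norm (norm_term_cvm_le χ _)
  have hvmσ := hvm σ hσ0 hσ1
  -- the smoothed sum
  have hT : ∀ t : ℝ, ∑' n, LSeries.term (cvm χ) (((1 + σ : ℝ) : ℂ) + t * I) n *
      ((G (Real.log n / L) * (Real.log n / L)⁻¹ * Real.exp (-(η / 2) * (Real.log n / L)) : ℝ) : ℂ) =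
      ∫ ξ : ℝ, h ξ * LSeries (cvm χ)
        (((1 + σ : ℝ) : ℂ) + ((t + -(2 * Real.pi / L) * ξ : ℝ) : ℂ) * I) := by
    intro t
    rw [integral_kernel_LSeries h hh (cvm χ) (1 + σ) t (-(2 * Real.pi / L)) hsumm]
    congr 1
    funext n
    congr 1
    rw [← hker]
    congr 1
    funext ξ
    congr 2
    have : (L : ℂ) ≠ 0 := by exact_mod_cast hL0.ne'
    push_cast
    field_simp
  -- termwise comparison
  have hk1 : ∀ w : ℝ, |G w * w⁻¹ * Real.exp (-(η / 2) * w)| ≤ 1 := by
    intro w
    by_cases hw : w ≤ 1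
    · rw [hG.zero w hw]; simp
    · push Not at hw
      rw [abs_mul, abs_mul, abs_of_nonneg (hG.nonneg w), abs_of_pos (Real.exp_pos _),
        abs_of_pos (by positivity : 0 < w⁻¹)]
      have h1 := hG.le_one w
      have h2 : w⁻¹ ≤ 1 := inv_le_one_of_one_le₀ hw.le
      have h3 : Real.exp (-(η / 2) * w) ≤ 1 := by
        rw [Real.exp_le_one_iff]
        nlinarith
      calc G w * w⁻¹ * Real.exp (-(η / 2) * w) ≤ 1 * 1 * 1 := by
            have := hG.nonneg w
            gcongr
        _ = 1 := by ring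
  set T : ℝ → ℕ → ℂ := fun t n => LSeries.term (cvm χ) (((1 + σ : ℝ) : ℂ) + t * I) n *
      ((G (Real.log n / L) * (Real.log n / L)⁻¹ * Real.exp (-(η / 2) * (Real.log n / L)) : ℝ) : ℂ)
    with hTdef
  have hTn : ∀ t n, ‖T t n‖ ≤ ‖LSeries.term (fun n : ℕ =>
      ((ArithmeticFunction.vonMangoldt n : ℝ) : ℂ)) (1 + σ : ℝ) n‖ := by
    intro t n
    rw [hTdef]
    simp only
    rw [norm_mul, Complex.norm_real, Real.norm_eq_abs]
    have h1 : ‖LSeries.term (cvm χ) (((1 + σ : ℝ) : ℂ) + t * I) n‖ ≤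
        ‖LSeries.term (fun n : ℕ => ((ArithmeticFunction.vonMangoldt n : ℝ) : ℂ)) (1 + σ : ℝ) n‖ := by
      refine (norm_term_cvm_le χ _ n).trans (le_of_eq ?_)
      rw [LSeries.norm_term_eq, LSeries.norm_term_eq]
      simp
    exact (mul_le_of_le_one_right (norm_nonneg _) (hk1 _)).trans h1
  have hTs : ∀ t, Summable (T t) := fun t =>
    Summable.of_norm_bounded hsumm0.norm (hTn t)
  -- identification of the prime part
  have hprime : ∀ t : ℝ, ∀ n : ℕ, LSeries.term (fun n => χ n * (g1 G L n : ℂ))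
      (1 + 1 / Real.log x + t * I) n = (1 / L : ℝ) * (if n.Prime then T t n else 0) := by
    intro t n
    by_cases hn : n.Prime
    · rw [if_pos hn, LSeries.term_def, if_neg hn.ne_zero]
      rw [hTdef]
      simp only
      rw [LSeries.term_def, if_neg hn.ne_zero, cvm]
      have hg : (g1 G L n : ℝ) = G (Real.log n / L) := by
        simp only [g1, ArithmeticFunction.coe_mk]
        rw [if_pos hn]
      rw [hg, ArithmeticFunction.vonMangoldt_apply_prime hn]
      have hn0 : (n : ℂ) ≠ 0 := by exact_mod_cast hn.ne_zero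
      have hln : 0 < Real.log n := Real.log_pos (by exact_mod_cast hn.one_lt)
      have h1 : (1 + 1 / (Real.log x : ℂ) + t * I) = (((1 + σ : ℝ) : ℂ) + t * I) + (σ : ℂ) := by
        rw [hσ]
        push_cast
        have : (Real.log x : ℂ) ≠ 0 := by exact_mod_cast hlx0.ne'
        field_simp
        ring
      have h2 : (n : ℂ) ^ (σ : ℂ) = ((Real.exp (σ * Real.log n) : ℝ) : ℂ) := by
        rw [Complex.cpow_def_of_ne_zero hn0, ← Complex.natCast_log, Complex.ofReal_exp]
        congr 1
        push_cast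
        ring
      have h3 : Real.exp (-(η / 2) * (Real.log n / L)) = (Real.exp (σ * Real.log n))⁻¹ := by
        rw [← Real.exp_neg]
        congr 1
        rw [hσ, hLdef]
        field_simp
      have h4 : (Real.exp (σ * Real.log n)) ≠ 0 := (Real.exp_pos _).ne'
      have h4' : ((Real.exp (σ * Real.log n) : ℝ) : ℂ) ≠ 0 := by exact_mod_cast h4
      have h5 : (n : ℂ) ^ (((1 + σ : ℝ) : ℂ) + t * I) ≠ 0 := by
        rw [Complex.cpow_ne_zero_iff]; left; exact hn0
      rw [h1, Complex.cpow_add _ _ hn0, h2, h3]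
      have hLC : (L : ℂ) ≠ 0 := by exact_mod_cast hL0.ne'
      have hlnC : (Real.log n : ℂ) ≠ 0 := by exact_mod_cast hln.ne'
      push_cast
      push_cast at h4' hlnC
      field_simp
    · rw [if_neg hn, mul_zero, LSeries.term_def]
      have hg : (g1 G L n : ℝ) = 0 := by
        simp only [g1, ArithmeticFunction.coe_mk]
        rw [if_neg hn]
      rw [hg]
      simp
  have hdecomp : ∀ t : ℝ, LSeries (fun n => χ n * (g1 G L n : ℂ))
      (1 + 1 / Real.log x + t * I) =
      (1 / L : ℝ) * (∑' n, T t n - ∑' n : ℕ, if n.Prime then 0 else T t n) := by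
    intro t
    rw [LSeries]
    simp only [hprime t]
    rw [tsum_mul_left]
    congr 1
    have hs2 : Summable (fun n : ℕ => if n.Prime then 0 else T t n) := by
      refine Summable.of_norm_bounded hsumm0.norm fun n => ?_
      split_ifs
      · simp
      · exact hTn t n
    rw [← (hTs t).tsum_sub hs2]
    congr 1
    funext n
    split_ifs <;> simp
  have hnp : ∀ t : ℝ, ‖∑' n : ℕ, if n.Prime then 0 else T t n‖ ≤ B := by
    intro t
    have hb : ∀ n : ℕ, ‖if n.Prime then (0 : ℂ) else T t n‖ ≤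
        (if n.Prime then 0 else ArithmeticFunction.vonMangoldt n) / (n : ℝ) := by
      intro n
      split_ifs with hn
      · simp
      · refine (hTn t n).trans ?_
        rw [LSeries.norm_term_eq]
        by_cases h0 : n = 0
        · simp [h0]
        · rw [if_neg h0, Complex.norm_real, Real.norm_of_nonneg ArithmeticFunction.vonMangoldt_nonneg,
            Complex.ofReal_re]
          have h1n : (1 : ℝ) ≤ n := by exact_mod_cast Nat.one_le_iff_ne_zero.mpr h0
          apply div_le_div_of_nonneg_left ArithmeticFunction.vonMangoldt_nonneg (by linarith)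
          calc (n : ℝ) = (n : ℝ) ^ (1 : ℝ) := (Real.rpow_one _).symm
            _ ≤ (n : ℝ) ^ (1 + σ) := Real.rpow_le_rpow_of_exponent_le h1n (by linarith)
    exact tsum_of_norm_bounded summable_nonprime.hasSum hb
  have hbase : ∀ (t A : ℝ), (∀ ξ : ℝ, ‖LSeries (cvm χ) (((1 + σ : ℝ) : ℂ) +
      ((t + -(2 * Real.pi / L) * ξ : ℝ) : ℂ) * I)‖ ≤ A * (1 + |ξ|)) →
      ‖LSeries (fun n => χ n * (g1 G L n : ℂ)) (1 + 1 / Real.log x + t * I)‖ ≤ (A * D + B) / L := by
    intro t A hA
    rw [hdecomp, norm_mul, Complex.norm_real, Real.norm_of_nonneg (by positivity),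
      div_eq_inv_mul (A * D + B) L, ← one_div]
    gcongr
    refine (norm_sub_le _ _).trans ?_
    refine add_le_add ?_ (hnp t)
    rw [hTdef]
    simp only
    rw [hT t]
    have h1 : Integrable (fun ξ : ℝ => A * ((1 + |ξ|) * ‖h ξ‖)) := hh1.const_mul A
    refine (norm_integral_le_of_norm_le h1 (Filter.Eventually.of_forall fun ξ => ?_)).trans
      (le_of_eq ?_)
    · have hξ := hA ξ
      rw [norm_mul]
      calc ‖h ξ‖ * _ ≤ ‖h ξ‖ * (A * (1 + |ξ|)) := by gcongr
        _ = _ := by ring
    · rw [integral_const_mul]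
  have h1 := hbase t (M * Real.log Q) (fun ξ => by
    set u : ℝ := t + -(2 * Real.pi / L) * ξ with hu
    by_cases hcase : |2 * Real.pi / L * ξ| ≤ |t| + 1
    · -- near
      have hu2 : |u| ≤ 2 * |t| + 1 := by
        have := abs_sub t (2 * Real.pi / L * ξ)
        have e : t - 2 * Real.pi / L * ξ = u := by rw [hu]; ring
        rw [e] at this
        linarith
      have hqu : (q : ℝ) * (4 + |u|) ≤ Q := by
        refine le_trans ?_ ht
        have : (0 : ℝ) ≤ q := Nat.cast_nonneg q
        gcongr ?_ * ?_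
        linarith
      have hz := hNE χ hχ σ u hσ0 hσ1 hqu
      have e2 : (((1 + σ : ℝ) : ℂ) + (u : ℂ) * I) = 1 + σ + u * I := by push_cast; ring
      rw [e2]
      refine hz.trans ?_
      have h3 : C ≤ M := by
        have : 0 ≤ 4 * Real.pi * C1 / η := by positivity
        rw [hM]; linarith
      calc C * Real.log Q ≤ M * Real.log Q * 1 := by rw [mul_one]; gcongr
        _ ≤ M * Real.log Q * (1 + |ξ|) := by
          gcongr
          linarith [abs_nonneg ξ]
    · -- far
      push Not at hcase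
      refine (norm_LSeries_cvm_le χ hvmσ hσ0 _).trans ?_
      rw [abs_mul, abs_of_pos (by positivity : 0 < 2 * Real.pi / L)] at hcase
      have h3 : L ≤ 2 * Real.pi * |ξ| := by
        have h4 : 1 * L ≤ 2 * Real.pi / L * |ξ| * L := by
          gcongr
          linarith [abs_nonneg t]
        have h5 : 2 * Real.pi / L * |ξ| * L = 2 * Real.pi * |ξ| := by field_simp
        rw [h5] at h4
        linarith
      have h6 : C1 / σ = 2 * C1 / η * L := by
        rw [hσ, hLdef]
        field_simp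
      rw [h6]
      have h7 : 2 * C1 / η * L ≤ 4 * Real.pi * C1 / η * |ξ| := by
        calc 2 * C1 / η * L ≤ 2 * C1 / η * (2 * Real.pi * |ξ|) := by gcongr
          _ = _ := by ring
      have h8 : 4 * Real.pi * C1 / η ≤ M := by rw [hM]; linarith
      have h9 : 4 * Real.pi * C1 / η * |ξ| ≤ M * Real.log Q * (1 + |ξ|) := by
        have h10 : |ξ| ≤ 1 + |ξ| := by linarith
        calc 4 * Real.pi * C1 / η * |ξ| ≤ M * |ξ| := by gcongr
          _ = M * 1 * |ξ| := by ring
          _ ≤ M * Real.log Q * (1 + |ξ|) := by gcongr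
      linarith)
  refine h1.trans ?_
  have e1 : (M * Real.log Q * D + B) / L = (M * D / η * Real.log Q + B / η) / Real.log x := by
    rw [hLdef]
    field_simp
  rw [e1]
  gcongr
  have h2 : B / η ≤ B / η * Real.log Q := by
    have : 0 ≤ B / η := by positivity
    nlinarith
  calc M * D / η * Real.log Q + B / η ≤ M * D / η * Real.log Q + B / η * Real.log Q := by linarith
    _ = (M * D + B) / η * Real.log Q := by ring
    _ ≤ ((M * D + B) / η + 1) * Real.log Q := by
      gcongr
      linarith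

end Lnk
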