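import Pool.Agent.Lib.Linnik.Defs
import Pool.Agent.Lib.MP_0bb3d8_nt.HohPointwise
import Pool.Agent.Lib.MP_0bb3d8_nt.HohZetaBound
import Pool.Agent.Lib.MP_0bb3d8_nt.HohTrilinear

/-!
# Linnik, module II4: the trilinear estimate for progressions
-/

set_option autoImplicit false

namespace Lnk

open Complex MeasureTheory Hoh Hoh.T33 Filter Topology

/-- The real analysis core. -/
lemma tri_core_q (B P K : ℝ → ℂ) (hBc : Continuous B) (hPc : Continuous P)
    (C CB C1 q τ U : ℝ) (k : ℕ) (hk : 2 ≤ k) (hC : 0 ≤ C) (hCB : 0 ≤ CB) (hC1 : 0 ≤ C1)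
    (hq : 0 ≤ q) (hτ : 0 ≤ τ) (hU : 1 ≤ U)
    (hB : ∀ t, ‖B t‖ ≤ CB) (hP : ∀ t, ‖P t‖ ≤ C1)
    (hPq : ∀ t, |t| ≤ U → ‖P t‖ ≤ q)
    (hK1 : ∀ t, ‖K t‖ ≤ C) (hK3 : ∀ t, U ≤ |t| → ‖K t‖ ≤ C * τ / t ^ 2) :
    ‖∫ t, K t * (B t * P t ^ k)‖ ≤
      C * C1 ^ (k - 2) * q / 2 * ((∫ t in (-U)..U, ‖B t‖ ^ 2) + ∫ t in (-U)..U, ‖P t‖ ^ 2)
        + 2 * C * CB * C1 ^ k * τ * Real.pi := by
  let h2 : ℝ → ℝ := Set.indicator (Set.Ioc (-U) U)
    (fun t => C * C1 ^ (k - 2) * q / 2 * (‖B t‖ ^ 2 + ‖P t‖ ^ 2))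
  let h3 : ℝ → ℝ := fun t => 2 * C * CB * C1 ^ k * τ * (1 + t ^ 2)⁻¹
  have hkk : k = (k - 2) + 2 := by omega
  have hpow : ∀ t, ‖P t‖ ^ k = ‖P t‖ ^ (k - 2) * ‖P t‖ ^ 2 := by
    intro t; rw [← pow_add, ← hkk]
  have hn2 : ∀ t, 0 ≤ h2 t := by
    intro t; apply Set.indicator_nonneg; intro u _; positivity
  have hn3 : ∀ t, 0 ≤ h3 t := by intro t; simp only [h3]; positivity
  have hpt : ∀ᵐ t, ‖K t * (B t * P t ^ k)‖ ≤ h2 t + h3 t := by
    have hnull : ∀ᵐ t : ℝ, t ≠ -U := by simp [ae_iff, measure_singleton]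
    filter_upwards [hnull] with t ht
    rw [norm_mul, norm_mul, norm_pow]
    rcases le_or_gt |t| U with hcase2 | hcase2
    · have hmem : t ∈ Set.Ioc (-U : ℝ) U := by
        have := abs_le.mp hcase2
        exact ⟨lt_of_le_of_ne this.1 (Ne.symm ht), this.2⟩
      have hv : h2 t = C * C1 ^ (k - 2) * q / 2 * (‖B t‖ ^ 2 + ‖P t‖ ^ 2) :=
        Set.indicator_of_mem hmem _
      have step : ‖K t‖ * (‖B t‖ * ‖P t‖ ^ k) ≤ h2 t := by
        rw [hv, hpow t]
        have hamgm : ‖B t‖ * ‖P t‖ ≤ (‖B t‖ ^ 2 + ‖P t‖ ^ 2) / 2 := by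
          nlinarith [sq_nonneg (‖B t‖ - ‖P t‖)]
        calc ‖K t‖ * (‖B t‖ * (‖P t‖ ^ (k - 2) * ‖P t‖ ^ 2))
            ≤ C * (‖B t‖ * (C1 ^ (k - 2) * ‖P t‖ ^ 2)) := by
              gcongr
              · exact hK1 t
              · exact hP t
          _ = C * C1 ^ (k - 2) * ‖P t‖ * (‖B t‖ * ‖P t‖) := by ring
          _ ≤ C * C1 ^ (k - 2) * q * ((‖B t‖ ^ 2 + ‖P t‖ ^ 2) / 2) := by
              gcongr
              exact hPq t hcase2
          _ = C * C1 ^ (k - 2) * q / 2 * (‖B t‖ ^ 2 + ‖P t‖ ^ 2) := by ring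
      linarith [hn3 t]
    · have step : ‖K t‖ * (‖B t‖ * ‖P t‖ ^ k) ≤ h3 t := by
        have ht2 : 1 ≤ t ^ 2 := by
          rw [← sq_abs]; nlinarith [abs_nonneg t]
        have hinv : 1 / t ^ 2 ≤ 2 * (1 + t ^ 2)⁻¹ := by
          rw [← one_div, mul_one_div, div_le_div_iff₀ (by linarith) (by linarith)]
          linarith
        calc ‖K t‖ * (‖B t‖ * ‖P t‖ ^ k) ≤ (C * τ / t ^ 2) * (CB * C1 ^ k) := by
              gcongr
              · exact hK3 t hcase2.le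
              · exact hB t
              · exact hP t
          _ = C * τ * CB * C1 ^ k * (1 / t ^ 2) := by ring
          _ ≤ C * τ * CB * C1 ^ k * (2 * (1 + t ^ 2)⁻¹) := by gcongr
          _ = h3 t := by simp only [h3]; ring
      linarith [hn2 t]
  have hi2 : Integrable h2 := by
    rw [integrable_indicator_iff measurableSet_Ioc]
    apply IntegrableOn.mono_set (t := Set.Icc (-U) U) _ Set.Ioc_subset_Icc_self
    apply Continuous.integrableOn_Icc
    fun_prop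
  have hi3 : Integrable h3 := integrable_inv_one_add_sq.const_mul _
  have hmaj : Integrable (fun t => h2 t + h3 t) := hi2.add hi3
  have hle : ‖∫ t, K t * (B t * P t ^ k)‖ ≤ ∫ t, (h2 t + h3 t) :=
    norm_integral_le_of_norm_le hmaj hpt
  have hI2 : ∫ t, h2 t = C * C1 ^ (k - 2) * q / 2 *
      ((∫ t in (-U)..U, ‖B t‖ ^ 2) + ∫ t in (-U)..U, ‖P t‖ ^ 2) := by
    have e1 : ∫ t, h2 t = ∫ t in (-U : ℝ)..U,
        C * C1 ^ (k - 2) * q / 2 * (‖B t‖ ^ 2 + ‖P t‖ ^ 2) := by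
      rw [intervalIntegral.integral_of_le (by linarith)]
      exact integral_indicator measurableSet_Ioc
    rw [e1, intervalIntegral.integral_const_mul,
      intervalIntegral.integral_add (Continuous.intervalIntegrable (by fun_prop) _ _)
        (Continuous.intervalIntegrable (by fun_prop) _ _)]
  have hI3 : ∫ t, h3 t = 2 * C * CB * C1 ^ k * τ * Real.pi := by
    simp only [h3]
    rw [integral_const_mul, integral_univ_inv_one_add_sq]
  calc ‖∫ t, K t * (B t * P t ^ k)‖ ≤ ∫ t, (h2 t + h3 t) := hle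
    _ = (∫ t, h2 t) + ∫ t, h3 t := integral_add hi2 hi3
    _ ≤ _ := by rw [hI3, hI2]

section twist

variable {q : ℕ} (χ : DirichletCharacter ℂ q)

/-- Twist of an arithmetic function by a character. -/
noncomputable def twA (f : ArithmeticFunction ℂ) : ArithmeticFunction ℂ :=
  ⟨fun n => χ n * f n, by simp⟩

lemma twA_apply (f : ArithmeticFunction ℂ) (n : ℕ) : twA χ f n = χ n * f n := rfl

lemma twA_mul (f g : ArithmeticFunction ℂ) : twA χ (f * g) = twA χ f * twA χ g := by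
  ext n
  rw [twA_apply, ArithmeticFunction.mul_apply, ArithmeticFunction.mul_apply, Finset.mul_sum]
  apply Finset.sum_congr rfl
  intro p hp
  have hn : p.1 * p.2 = n := (Nat.mem_divisorsAntidiagonal.mp hp).1
  rw [twA_apply, twA_apply, ← hn]
  push_cast
  rw [map_mul]
  ring

lemma twA_one : twA χ 1 = 1 := by
  ext n
  rw [twA_apply, ArithmeticFunction.one_apply]
  split_ifs with h
  · subst h; simp
  · simp

lemma twA_pow (f : ArithmeticFunction ℂ) (k : ℕ) : twA χ (f ^ k) = twA χ f ^ k := by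
  induction k with
  | zero => simp [twA_one]
  | succ k ih => rw [pow_succ, pow_succ, twA_mul, ih]

/-- Twisted coefficients of a real arithmetic function. -/
noncomputable def tw (a : ArithmeticFunction ℝ) (n : ℕ) : ℂ := χ n * (a n : ℂ)

lemma tw_eq (a : ArithmeticFunction ℝ) : tw χ a = ⇑(twA χ (T33.toC a)) := rfl

lemma tw_norm_le (a : ArithmeticFunction ℝ) (n : ℕ) : ‖tw χ a n‖ ≤ |a n| := by
  unfold tw
  rw [norm_mul, Complex.norm_real, Real.norm_eq_abs]
  exact mul_le_of_le_one_left (abs_nonneg _) (χ.norm_le_one _)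

lemma tw_summable (a : ArithmeticFunction ℝ) (ha : ∀ n, |a n| ≤ 1) (s : ℂ) (hs : 1 < s.re) :
    LSeriesSummable (tw χ a) s :=
  LSeriesSummable_of_bounded_of_one_lt_re (m := 1)
    (fun n _ => (tw_norm_le χ a n).trans (ha n)) hs

lemma twA_lser_pow (f : ArithmeticFunction ℂ) (k : ℕ) (s : ℂ) (hf : LSeriesSummable (⇑f) s) :
    LSeriesSummable (⇑(f ^ k)) s ∧ LSeries (⇑(f ^ k)) s = (LSeries (⇑f) s) ^ k := by
  induction k with
  | zero =>
    rw [pow_zero, pow_zero]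
    exact ⟨T33.summable_one s, T33.lser_one s⟩
  | succ k ih =>
    rw [pow_succ, pow_succ]
    exact ⟨ArithmeticFunction.LSeriesSummable_mul ih.1 hf, by
      rw [ArithmeticFunction.LSeries_mul' ih.1 hf, ih.2]⟩

lemma tw_mul_pow (b a : ArithmeticFunction ℝ) (k : ℕ) (s : ℂ)
    (hb : LSeriesSummable (tw χ b) s) (ha : LSeriesSummable (tw χ a) s) :
    LSeriesSummable (tw χ (b * a ^ k)) s ∧
      LSeries (tw χ (b * a ^ k)) s = LSeries (tw χ b) s * (LSeries (tw χ a) s) ^ k := by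
  rw [tw_eq] at hb ha ⊢
  rw [tw_eq, T33.toC_mul, T33.toC_pow, twA_mul, twA_pow, tw_eq]
  obtain ⟨h1, h2⟩ := twA_lser_pow (twA χ (T33.toC a)) k s ha
  exact ⟨ArithmeticFunction.LSeriesSummable_mul hb h1, by
    rw [ArithmeticFunction.LSeries_mul' hb h1, h2]⟩

end twist

/-- Orthogonality. -/
lemma rs_orth {q : ℕ} (hq : 0 < q) {b : ZMod q} (hb : IsUnit b) (f : ArithmeticFunction ℝ) (n : ℕ) :
    (Nat.totient q : ℂ) * ((rs q b f n : ℝ) : ℂ) =
      ∑ χ : DirichletCharacter ℂ q, χ b⁻¹ * tw χ f n := by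
  have : NeZero q := ⟨hq.ne'⟩
  unfold tw
  simp_rw [← mul_assoc]
  rw [← Finset.sum_mul, DirichletCharacter.sum_char_inv_mul_char_eq ℂ hb]
  show _ * (((if (n : ZMod q) = b then f n else 0 : ℝ)) : ℂ) = _
  by_cases h : (n : ZMod q) = b
  · rw [if_pos h, if_pos h.symm]
  · rw [if_neg h, if_neg (fun h' => h h'.symm)]; simp

lemma rs_lser {q : ℕ} (hq : 0 < q) {b : ZMod q} (hb : IsUnit b) (f : ArithmeticFunction ℝ) (s : ℂ)
    (hf : ∀ χ : DirichletCharacter ℂ q, LSeriesSummable (tw χ f) s) :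
    LSeriesSummable (fun n => ((rs q b f n : ℝ) : ℂ)) s ∧
    (Nat.totient q : ℂ) * LSeries (fun n => ((rs q b f n : ℝ) : ℂ)) s =
      ∑ χ : DirichletCharacter ℂ q, χ b⁻¹ * LSeries (tw χ f) s := by
  have hq' : (Nat.totient q : ℂ) ≠ 0 := by
    exact_mod_cast (Nat.totient_pos.mpr hq).ne'
  have hsm : ∀ χ : DirichletCharacter ℂ q, LSeriesSummable (χ b⁻¹ • tw χ f) s := fun χ =>
    (hf χ).smul _
  have e1 : (fun n => ((rs q b f n : ℝ) : ℂ)) =
      (Nat.totient q : ℂ)⁻¹ • ∑ χ : DirichletCharacter ℂ q, χ b⁻¹ • tw χ f := by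
    funext n
    have := rs_orth hq hb f n
    rw [Pi.smul_apply, Finset.sum_apply]
    simp only [Pi.smul_apply, smul_eq_mul]
    rw [← this, ← mul_assoc, inv_mul_cancel₀ hq', one_mul]
  have hsum : LSeriesSummable (∑ χ : DirichletCharacter ℂ q, χ b⁻¹ • tw χ f) s :=
    LSeriesSummable.sum (fun χ _ => hsm χ)
  constructor
  · rw [e1]
    exact hsum.smul _
  · rw [e1, LSeries_smul, ← mul_assoc, mul_inv_cancel₀ hq', one_mul, LSeries_sum (fun χ _ => hsm χ)]
    apply Finset.sum_congr rfl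
    intro χ _
    rw [LSeries_smul]

/-- support on integers coprime to `q` -/
lemma cop_mul {q : ℕ} {f g : ArithmeticFunction ℝ} (hf : ∀ n, f n ≠ 0 → n.Coprime q)
    (hg : ∀ n, g n ≠ 0 → n.Coprime q) : ∀ n, (f * g) n ≠ 0 → n.Coprime q := by
  intro n hn
  rw [ArithmeticFunction.mul_apply] at hn
  obtain ⟨p, hp, hne⟩ := Finset.exists_ne_zero_of_sum_ne_zero hn
  have h1 := hf _ (left_ne_zero_of_mul hne)
  have h2 := hg _ (right_ne_zero_of_mul hne)
  rw [← (Nat.mem_divisorsAntidiagonal.mp hp).1]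
  exact Nat.Coprime.mul_left h1 h2

lemma cop_pow {q : ℕ} {f : ArithmeticFunction ℝ} (hf : ∀ n, f n ≠ 0 → n.Coprime q) (k : ℕ) :
    ∀ n, (f ^ k) n ≠ 0 → n.Coprime q := by
  induction k with
  | zero =>
    intro n hn
    rw [pow_zero, ArithmeticFunction.one_apply] at hn
    by_cases h : n = 1
    · subst h; exact Nat.coprime_one_left q
    · rw [if_neg h] at hn; exact absurd rfl hn
  | succ k ih =>
    rw [pow_succ]
    exact cop_mul ih hf

lemma tw_one_eq {q : ℕ} (f : ArithmeticFunction ℝ) (hf : ∀ n, f n ≠ 0 → n.Coprime q) :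
    tw (1 : DirichletCharacter ℂ q) f = fun n => (f n : ℂ) := by
  funext n
  unfold tw
  by_cases h : f n = 0
  · rw [h]; simp
  · have hc := hf n h
    have hu : IsUnit (n : ZMod q) := (ZMod.isUnit_iff_coprime n q).mpr hc
    rw [MulChar.one_apply hu, one_mul]

/-- The difference as a sum over nonprincipal characters. -/
lemma diff_eq_sum (φ : ℝ → ℝ) (hφ : Bump φ) {s X : ℝ} (hs : 0 < s) (hX : 0 < X)
    {q : ℕ} [DecidableEq (DirichletCharacter ℂ q)] (hq : 0 < q) {b : ZMod q} (hb : IsUnit b) (β a : ArithmeticFunction ℝ) (k : ℕ)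
    (hβ : ∀ n, |β n| ≤ 1) (ha : ∀ n, |a n| ≤ 1)
    (hβc : ∀ n, β n ≠ 0 → n.Coprime q) (hac : ∀ n, a n ≠ 0 → n.Coprime q)
    (hint : ∀ χ : DirichletCharacter ℂ q, Integrable (fun t : ℝ => Kern φ (t / (1 / 4)) *
      ((Complex.exp (I * t * Real.log X) * LSeries (tw χ β) (1 + s + t * I)) *
        LSeries (tw χ a) (1 + s + t * I) ^ k))) :
    (((Nat.totient q : ℝ) * ST φ s (1 / 4) X (rs q b (β * a ^ k)) -
        ST φ s (1 / 4) X (β * a ^ k) : ℝ) : ℂ) =
      ((1 / (2 * Real.pi) : ℝ) : ℂ) *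
        ∑ χ ∈ (Finset.univ : Finset (DirichletCharacter ℂ q)).erase 1, χ b⁻¹ *
          ∫ t : ℝ, Kern φ (t / (1 / 4)) *
            ((Complex.exp (I * t * Real.log X) * LSeries (tw χ β) (1 + s + t * I)) *
              LSeries (tw χ a) (1 + s + t * I) ^ k) := by
  set f := β * a ^ k with hf
  have hfc : ∀ n, f n ≠ 0 → n.Coprime q := cop_mul hβc (cop_pow hac k)
  have hre : ∀ t : ℝ, 1 < (1 + (s : ℂ) + t * I).re := by intro t; simp; exact hs
  have htw : ∀ (χ : DirichletCharacter ℂ q) (z : ℂ), 1 < z.re →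
      LSeriesSummable (tw χ f) z ∧
      LSeries (tw χ f) z = LSeries (tw χ β) z * LSeries (tw χ a) z ^ k := fun χ z hz =>
    tw_mul_pow χ β a k z (tw_summable χ β hβ z hz) (tw_summable χ a ha z hz)
  have h1s : 1 < ((1 + s : ℝ) : ℂ).re := by rw [Complex.ofReal_re]; linarith
  have hq' : (Nat.totient q : ℂ) ≠ 0 := by
    exact_mod_cast (Nat.totient_pos.mpr hq).ne'
  -- Perron for both
  have p1 := perron φ hφ s (1 / 4) X hs (by norm_num) hX (rs q b f)
    (rs_lser hq hb f _ (fun χ => (htw χ _ h1s).1)).1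
  have hf1 : LSeriesSummable (fun n => (f n : ℂ)) (1 + s : ℝ) := by
    have := (htw 1 _ h1s).1
    rwa [tw_one_eq f hfc] at this
  have p2 := perron φ hφ s (1 / 4) X hs (by norm_num) hX f hf1
  set J : DirichletCharacter ℂ q → ℂ := fun χ => ∫ t : ℝ, Kern φ (t / (1 / 4)) *
            ((Complex.exp (I * t * Real.log X) * LSeries (tw χ β) (1 + s + t * I)) *
              LSeries (tw χ a) (1 + s + t * I) ^ k) with hJ
  have e2 : (∫ t : ℝ, Kern φ (t / (1 / 4)) * Complex.exp (I * t * Real.log X) *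
      LSeries (fun n => (f n : ℂ)) (1 + s + t * I)) = J 1 := by
    rw [hJ]
    simp only
    congr 1
    funext t
    rw [← tw_one_eq f hfc, (htw 1 _ (hre t)).2]
    ring
  have e1 : (Nat.totient q : ℂ) * (∫ t : ℝ, Kern φ (t / (1 / 4)) * Complex.exp (I * t * Real.log X) *
      LSeries (fun n => ((rs q b f n : ℝ) : ℂ)) (1 + s + t * I)) = ∑ χ, χ b⁻¹ * J χ := by
    have h3 : ∀ t : ℝ, Kern φ (t / (1 / 4)) * Complex.exp (I * t * Real.log X) *
        LSeries (fun n => ((rs q b f n : ℝ) : ℂ)) (1 + s + t * I) =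
        (Nat.totient q : ℂ)⁻¹ * ∑ χ : DirichletCharacter ℂ q, χ b⁻¹ * (Kern φ (t / (1 / 4)) *
            ((Complex.exp (I * t * Real.log X) * LSeries (tw χ β) (1 + s + t * I)) *
              LSeries (tw χ a) (1 + s + t * I) ^ k)) := by
      intro t
      have h4 := (rs_lser hq hb f _ (fun χ => (htw χ _ (hre t)).1)).2
      have h5 : LSeries (fun n => ((rs q b f n : ℝ) : ℂ)) (1 + s + t * I) =
          (Nat.totient q : ℂ)⁻¹ * ∑ χ : DirichletCharacter ℂ q,
            χ b⁻¹ * LSeries (tw χ f) (1 + s + t * I) := by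
        rw [← h4, ← mul_assoc, inv_mul_cancel₀ hq', one_mul]
      rw [h5, Finset.mul_sum, Finset.mul_sum, Finset.mul_sum]
      apply Finset.sum_congr rfl
      intro χ _
      rw [(htw χ _ (hre t)).2]
      ring
    simp_rw [h3]
    rw [integral_const_mul, ← mul_assoc, mul_inv_cancel₀ hq', one_mul,
      integral_finsetSum _ (fun χ _ => (hint χ).const_mul _)]
    apply Finset.sum_congr rfl
    intro χ _
    rw [integral_const_mul]
  rw [Complex.ofReal_sub, Complex.ofReal_mul, Complex.ofReal_natCast, p1, p2, e2]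
  have h6 : (Nat.totient q : ℂ) * (((1 / (2 * Real.pi) : ℝ) : ℂ) *
      ∫ t : ℝ, Kern φ (t / (1 / 4)) * Complex.exp (I * t * Real.log X) *
        LSeries (fun n => ((rs q b f n : ℝ) : ℂ)) (1 + s + t * I)) =
      ((1 / (2 * Real.pi) : ℝ) : ℂ) * ∑ χ, χ b⁻¹ * J χ := by
    rw [← e1]; ring
  rw [h6, ← Finset.add_sum_erase Finset.univ (fun χ => χ b⁻¹ * J χ) (Finset.mem_univ 1)]
  have hbu : IsUnit (b⁻¹ : ZMod q) := by
    have : b * b⁻¹ = 1 := ZMod.mul_inv_of_unit b hb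
    exact IsUnit.of_mul_eq_one b (by rw [mul_comm]; exact this)
  rw [MulChar.one_apply hbu, one_mul]
  ring

/-- A Dirichlet series dominated by a nonnegative one. -/
lemma norm_lser_le_of_le (m : ArithmeticFunction ℝ) (hm : ∀ n, |m n| ≤ 1) (c : ℕ → ℂ)
    (hc : ∀ n, ‖c n‖ ≤ m n) (s t : ℝ) (hs : 0 < s) :
    ‖LSeries c (1 + s + t * I)‖ ≤
      ‖LSeries (fun n => (m n : ℂ)) (1 + s + (0 : ℝ) * I)‖ := by
  have hre : ∀ u : ℝ, (1 + s + u * I : ℂ).re = 1 + s := by intro u; simp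
  have hsum := summable_of_abs_le_one m hm (1 + s + (0 : ℝ) * I)
    (by rw [hre]; linarith)
  have hterm : ∀ n : ℕ, ‖LSeries.term c (1 + s + t * I) n‖ ≤
      (LSeries.term (fun n => (m n : ℂ)) (1 + s + (0 : ℝ) * I) n).re := by
    intro n
    rw [LSeries.norm_term_eq]
    split_ifs with h
    · simp [h]
    · rw [LSeries.term_of_ne_zero h, hre]
      have e4 : ((n : ℂ) ^ (1 + s + (0 : ℝ) * I : ℂ)) = (((n : ℝ) ^ (1 + s) : ℝ) : ℂ) := by
        rw [Complex.ofReal_cpow (by positivity)]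
        push_cast
        simp
      rw [e4, ← Complex.ofReal_div, Complex.ofReal_re]
      gcongr
      exact hc n
  have hsumre := Complex.hasSum_re hsum.hasSum
  have hsn : Summable (fun n : ℕ => ‖LSeries.term c (1 + s + t * I) n‖) :=
    Summable.of_nonneg_of_le (fun n => norm_nonneg _) hterm hsumre.summable
  calc ‖LSeries c (1 + s + t * I)‖
      ≤ ∑' n : ℕ, ‖LSeries.term c (1 + s + t * I) n‖ :=
        norm_tsum_le_tsum_norm hsn
    _ ≤ ∑' n : ℕ, (LSeries.term (fun n => (m n : ℂ)) (1 + s + (0 : ℝ) * I) n).re :=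
        hsn.tsum_le_tsum hterm hsumre.summable
    _ = (LSeries (fun n => (m n : ℂ)) (1 + s + (0 : ℝ) * I)).re := (Complex.re_tsum hsum).symm
    _ ≤ _ := Complex.re_le_norm _

/-- **II4** -/
theorem triQ (hP : PBq) (hM : MSq) (φ : ℝ → ℝ) (hφ : Bump φ) : TriQ φ := by
  classical
  intro η ε G hη hη1 hε hG k hk C hC ε' hε'
  obtain ⟨CK, hCK0, hK1, hK2, -, hKc⟩ := kernBound φ hφ
  obtain ⟨CM, hCM0, hCM⟩ := hM
  obtain ⟨C1, hC10, hC1⟩ := pointwiseBound zetaBound η ε G hη hη1 hε hG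
  have hη' : 0 < η / (1 + ε) := by positivity
  have hη'1 : η / (1 + ε) ≤ 1 := by rw [div_le_one (by positivity)]; linarith
  obtain ⟨CB, hCB0, hCB⟩ := pointwiseBound zetaBound (η / (1 + ε)) ε G hη' hη'1 hε hG
  obtain ⟨C', hC'0, hC'⟩ := hP η ε G hη hη1 hε hG C hC
  set m0 : ℝ := CM / η with hm0
  have hm0pos : 0 < m0 := by positivity
  set k2 : ℝ := CK * C1 ^ (k - 2) * C' * m0 with hk2
  set k3 : ℝ := 2 * CK * CB * C1 ^ k * 4096 * Real.pi with hk3
  have hk2p : 0 < k2 := by positivity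
  have hk3p : 0 < k3 := by positivity
  refine ⟨min (η / 3) (ε' / (2 * k2)), by positivity, fun d hd hdle => ?_⟩
  have hd1 : d ≤ η / 3 := hdle.trans (min_le_left _ _)
  have hd2 : d ≤ ε' / (2 * k2) := hdle.trans (min_le_right _ _)
  -- conditions on x
  have ev1 : ∀ᶠ x : ℝ in atTop, Real.exp 1 ≤ x := eventually_ge_atTop _
  have ev2 : ∀ᶠ x : ℝ in atTop, 1 / (η / (1 + ε)) ≤ Real.log x :=
    Real.tendsto_log_atTop.eventually_ge_atTop _
  have ev5 : ∀ᶠ x : ℝ in atTop, 2 / η ≤ Real.log x :=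
    Real.tendsto_log_atTop.eventually_ge_atTop _
  have ev4 : ∀ᶠ x : ℝ in atTop, 64 ≤ x ^ (d / 3) :=
    (tendsto_rpow_atTop (by positivity : 0 < d / 3)).eventually_ge_atTop _
  have ev6 : ∀ᶠ x : ℝ in atTop, k3 * (1 / x ^ (d / 3)) ≤ ε' / 2 / Real.log x := by
    have h1 : Tendsto (fun x : ℝ => Real.log x / x ^ (d / 3)) atTop (𝓝 0) :=
      (isLittleO_log_rpow_atTop (by positivity : 0 < d / 3)).tendsto_div_nhds_zero
    have h2 := h1.eventually (gt_mem_nhds (show (0 : ℝ) < ε' / 2 / k3 by positivity))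
    filter_upwards [h2, eventually_gt_atTop 1] with x hx hx1
    have hx0 : 0 < x := by linarith
    have hlog : 0 < Real.log x := Real.log_pos hx1
    have hp : 0 < x ^ (d / 3) := by positivity
    rw [div_lt_div_iff₀ hp hk3p] at hx
    rw [mul_one_div, div_le_div_iff₀ hp hlog]
    nlinarith
  obtain ⟨x0, hx0⟩ := eventually_atTop.mp
    (ev1.and (ev2.and (ev4.and (ev5.and ev6))))
  refine ⟨x0, fun x hx Q hQ1 hQ2 q hq hqQ hNE b hb β hβ hβs => ?_⟩
  have : NeZero q := ⟨hq.ne'⟩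
  obtain ⟨c1, c2, c4, c5, c6⟩ := hx0 x hx
  have hxpos : 0 < x := lt_of_lt_of_le (Real.exp_pos 1) c1
  have hlog1 : 1 ≤ Real.log x := by
    rw [Real.le_log_iff_exp_le hxpos]; exact c1
  have hlog0 : 0 < Real.log x := by linarith
  have hx1 : 1 < x := lt_of_lt_of_le (by simp) c1
  have hQ64 : 64 ≤ Q := c4.trans hQ1
  have hQ0 : 0 < Q := by linarith
  set s : ℝ := 1 / Real.log x with hs
  have hs0 : 0 < s := by positivity
  set L : ℝ := η * Real.log x with hL
  have hL0 : 0 < L := by positivity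
  have hL2 : 2 ≤ L := by
    rw [hL]
    rw [div_le_iff₀ hη] at c5
    linarith
  have hL1 : 1 ≤ η * Real.log x := by linarith
  set L' : ℝ := η / (1 + ε) * Real.log x with hL'
  have hL'1 : 1 ≤ η / (1 + ε) * Real.log x := by
    rw [div_le_iff₀ hη'] at c2; linarith
  have hL'0 : 0 < L' := by linarith
  have hLL' : (1 + ε) * L' = L := by rw [hL', hL]; field_simp
  have hxη : x ^ η = Real.exp L := by
    rw [Real.rpow_def_of_pos hxpos, hL]; ring_nf
  -- the parameters Q, U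
  set R : ℝ := Real.sqrt Q with hR
  have hRR : R * R = Q := Real.mul_self_sqrt hQ0.le
  have hR8 : 8 ≤ R := by
    rw [hR, Real.le_sqrt' (by norm_num)]; linarith
  have hR0 : 0 < R := by linarith
  set U : ℝ := R / 8 with hU
  have hU1 : 1 ≤ U := by rw [hU]; linarith
  have hU0 : 0 < U := by linarith
  have hqR : (q : ℝ) ≤ R := by
    rw [hR]; exact Real.le_sqrt_of_sq_le hqQ
  have hq0 : (0 : ℝ) < q := by exact_mod_cast hq
  have hqU : ∀ t : ℝ, |t| ≤ U → (q : ℝ) * (5 + 2 * |t|) ≤ Q := by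
    intro t ht
    calc (q : ℝ) * (5 + 2 * |t|) ≤ R * (5 + 2 * U) := by gcongr
      _ ≤ R * R := by
        apply mul_le_mul_of_nonneg_left _ hR0.le
        rw [hU]; linarith
      _ = Q := hRR
  have hQd : Real.log Q ≤ d * Real.log x := by
    rw [← Real.log_rpow hxpos]
    exact Real.log_le_log hQ0 hQ2
  -- coprimality
  have hRx : R ≤ x ^ η := by
    have h1 : R ≤ Q := by nlinarith
    refine h1.trans (hQ2.trans ?_)
    exact Real.rpow_le_rpow_of_exponent_le hx1.le (by linarith)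
  have hcop : ∀ n : ℕ, n.Prime → x ^ η < n → n.Coprime q := by
    intro n hn hlt
    rw [Nat.Prime.coprime_iff_not_dvd hn]
    intro hdvd
    have h1 : n ≤ q := Nat.le_of_dvd hq hdvd
    have h2 : (n : ℝ) ≤ q := by exact_mod_cast h1
    linarith
  have hβc : ∀ n, β n ≠ 0 → n.Coprime q := fun n hn => hcop n (hβs n hn).1 (hβs n hn).2
  set a := g1 G L with ha
  have hac : ∀ n, a n ≠ 0 → n.Coprime q := fun n hn => by
    obtain ⟨h1, h2⟩ := g1_supp hG L hL0 n hn
    exact hcop n h1 (by rw [hxη]; exact h2)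
  obtain ⟨hPC, -⟩ := hC1 x c1 hL1
  obtain ⟨hBC, -⟩ := hCB x c1 hL'1
  let Pf : DirichletCharacter ℂ q → ℝ → ℂ := fun χ t => LSeries (tw χ a) (1 + s + t * I)
  let Bf : DirichletCharacter ℂ q → ℝ → ℂ := fun χ t => LSeries (tw χ β) (1 + s + t * I)
  let Ef : ℝ → ℂ := fun t => Complex.exp (I * t * Real.log x)
  have hsC : ((s : ℝ) : ℂ) = 1 / ((Real.log x : ℝ) : ℂ) := by rw [hs]; push_cast; rfl
  have hPf : ∀ χ t, ‖Pf χ t‖ ≤ C1 := by
    intro χ t
    refine (norm_lser_le_of_le a (g1_abs_le hG L) (tw χ a) (fun n => ?_) s t hs0).trans ?_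
    · refine (tw_norm_le χ a n).trans (le_of_eq ?_)
      exact abs_of_nonneg (g1_bounds hG L n).1
    · rw [hsC]
      exact hPC 0
  have hBf : ∀ χ t, ‖Bf χ t‖ ≤ CB := by
    intro χ t
    refine (norm_lser_le_of_le (g1 G L') (g1_abs_le hG L') (tw χ β) (fun n => ?_) s t hs0).trans ?_
    · refine (tw_norm_le χ β n).trans ?_
      by_cases h : β n = 0
      · rw [h, abs_zero]; exact (g1_bounds hG L' n).1
      · obtain ⟨hp, hlt⟩ := hβs n h
        have : g1 G L' n = 1 := by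
          show (if n.Prime then G (Real.log n / L') else 0) = 1
          rw [if_pos hp]
          apply hG.one
          rw [le_div_iff₀ hL'0, hLL']
          rw [hxη] at hlt
          calc L = Real.log (Real.exp L) := (Real.log_exp _).symm
            _ ≤ Real.log n := Real.log_le_log (Real.exp_pos _) hlt.le
        rw [this]; exact hβ n
    · rw [hsC]
      exact hBC 0
  have hPq : ∀ χ : DirichletCharacter ℂ q, χ ≠ 1 → ∀ t, |t| ≤ U → ‖Pf χ t‖ ≤ C' * d := by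
    intro χ hχ t ht
    have h1 := hC' x Q c1 hL1 (by linarith) q hq hNE χ hχ t (hqU t ht)
    simp only [Pf]
    rw [hsC]
    refine h1.trans ?_
    rw [div_le_iff₀ hlog0]
    calc C' * Real.log Q ≤ C' * (d * Real.log x) := by gcongr
      _ = C' * d * Real.log x := by ring
  have hPc : ∀ χ, Continuous (Pf χ) := fun χ => lser_continuous _ (fun n =>
    (tw_norm_le χ a n).trans (g1_abs_le hG L n)) s hs0
  have hBc : ∀ χ, Continuous (Bf χ) := fun χ => lser_continuous _ (fun n =>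
    (tw_norm_le χ β n).trans (hβ n)) s hs0
  have hEc : Continuous Ef := by simp only [Ef]; fun_prop
  have hEn : ∀ t, ‖Ef t‖ = 1 := by
    intro t
    simp only [Ef]
    have : I * (t : ℂ) * ((Real.log x : ℝ) : ℂ) = ((t * Real.log x : ℝ) : ℂ) * I := by
      push_cast; ring
    rw [this, Complex.norm_exp_ofReal_mul_I]
  have hBE : ∀ χ t, ‖Ef t * Bf χ t‖ = ‖Bf χ t‖ := by intro χ t; rw [norm_mul, hEn, one_mul]
  -- mean squares
  have hy2 : 2 ≤ Real.exp L := by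
    have := Real.add_one_le_exp L
    linarith
  have hyU : (q : ℝ) ^ 2 * U ≤ Real.sqrt (Real.exp L) := by
    rw [Real.le_sqrt' (by positivity)]
    have h1 : ((q : ℝ) ^ 2 * U) ^ 2 ≤ Q ^ 3 := by
      have h2 : (q : ℝ) ^ 2 * U ≤ Q * R := by
        have : U ≤ R := by rw [hU]; linarith
        gcongr
      calc ((q : ℝ) ^ 2 * U) ^ 2 ≤ (Q * R) ^ 2 := by gcongr
        _ = Q ^ 2 * (R * R) := by ring
        _ = Q ^ 3 := by rw [hRR]; ring
    refine h1.trans ?_
    calc Q ^ 3 ≤ (x ^ d) ^ 3 := by gcongr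
      _ = x ^ (3 * d) := by
        rw [← Real.rpow_natCast, ← Real.rpow_mul hxpos.le]; congr 1; push_cast; ring
      _ ≤ x ^ η := Real.rpow_le_rpow_of_exponent_le hx1.le (by linarith)
      _ = Real.exp L := hxη
  have hm : CM / Real.log (Real.exp L) = m0 / Real.log x := by
    rw [Real.log_exp, hL, hm0]; field_simp
  have hmB : ∑ χ : DirichletCharacter ℂ q, ∫ t in (-U)..U, ‖Bf χ t‖ ^ 2 ≤ m0 / Real.log x := by
    rw [← hm]
    exact hCM q hq (Real.exp L) U s hy2 hU1 hyU hs0 (fun n => (β n : ℂ))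
      (fun n => by rw [Complex.norm_real]; exact hβ n)
      (fun n hn => by rw [← hxη]; exact hβs n (by simpa using hn))
  have hmP : ∑ χ : DirichletCharacter ℂ q, ∫ t in (-U)..U, ‖Pf χ t‖ ^ 2 ≤ m0 / Real.log x := by
    rw [← hm]
    exact hCM q hq (Real.exp L) U s hy2 hU1 hyU hs0 (fun n => (a n : ℂ))
      (fun n => by rw [Complex.norm_real]; exact g1_abs_le hG L n)
      (fun n hn => g1_supp hG L hL0 n (by simpa using hn))
  -- the kernel
  have hK3 : ∀ t : ℝ, U ≤ |t| → ‖Kern φ (t / (1 / 4))‖ ≤ CK * (1 / U ^ 4) / t ^ 2 := by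
    intro t ht
    have ht0 : 0 < |t| := by linarith
    have h1 := hK2 (t / (1 / 4))
    have e1 : |t / (1 / 4)| = 4 * |t| := by
      rw [abs_div, abs_of_pos (by norm_num : (0 : ℝ) < 1 / 4)]; ring
    rw [e1] at h1
    have h2 : ‖Kern φ (t / (1 / 4))‖ ≤ CK / (4 * |t|) ^ 6 := by
      rw [le_div_iff₀ (by positivity)]; exact h1
    refine h2.trans ?_
    rw [← sq_abs t]
    have h3 : U ^ 4 * |t| ^ 2 ≤ (4 * |t|) ^ 6 := by
      calc U ^ 4 * |t| ^ 2 ≤ |t| ^ 4 * |t| ^ 2 := by gcongr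
        _ = |t| ^ 6 := by ring
        _ ≤ (4 * |t|) ^ 6 := by
          apply pow_le_pow_left₀ ht0.le
          linarith
    calc CK / (4 * |t|) ^ 6 ≤ CK / (U ^ 4 * |t| ^ 2) := by gcongr
      _ = CK * (1 / U ^ 4) / |t| ^ 2 := by field_simp
  have hint : ∀ χ : DirichletCharacter ℂ q, Integrable (fun t : ℝ => Kern φ (t / (1 / 4)) *
      ((Ef t * Bf χ t) * Pf χ t ^ k)) := by
    intro χ
    apply kern_int φ CK (1 / 4) (by norm_num) hK1 hK2 hCK0.le hKc _
      ((hEc.mul (hBc χ)).mul ((hPc χ).pow k)) (CB * C1 ^ k)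
    intro t
    show ‖(Ef t * Bf χ t) * Pf χ t ^ k‖ ≤ _
    rw [norm_mul, norm_pow, hBE]
    gcongr
    · exact hBf χ t
    · exact hPf χ t
  have hid := diff_eq_sum φ hφ hs0 hxpos hq hb β a k hβ (g1_abs_le hG L) hβc hac hint
  have hnorm : |(Nat.totient q : ℝ) * ST φ s (1 / 4) x (rs q b (β * a ^ k)) -
      ST φ s (1 / 4) x (β * a ^ k)| =
      ‖(((Nat.totient q : ℝ) * ST φ s (1 / 4) x (rs q b (β * a ^ k)) -
        ST φ s (1 / 4) x (β * a ^ k) : ℝ) : ℂ)‖ := by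
    rw [Complex.norm_real, Real.norm_eq_abs]
  rw [hnorm, hid, norm_mul, Complex.norm_real, Real.norm_eq_abs]
  have hpi : |1 / (2 * Real.pi)| ≤ 1 := by
    rw [abs_of_pos (by positivity), div_le_one (by positivity)]
    linarith [Real.pi_gt_three]
  set S := (Finset.univ : Finset (DirichletCharacter ℂ q)).erase 1 with hS
  have hcore : ∀ χ ∈ S, ‖χ b⁻¹ * ∫ t : ℝ, Kern φ (t / (1 / 4)) *
      ((Ef t * Bf χ t) * Pf χ t ^ k)‖ ≤
      CK * C1 ^ (k - 2) * (C' * d) / 2 *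
        ((∫ t in (-U)..U, ‖Bf χ t‖ ^ 2) + ∫ t in (-U)..U, ‖Pf χ t‖ ^ 2) +
      2 * CK * CB * C1 ^ k * (1 / U ^ 4) * Real.pi := by
    intro χ hχ
    have hχ1 : χ ≠ 1 := (Finset.mem_erase.mp hχ).1
    rw [norm_mul]
    refine (mul_le_of_le_one_left (norm_nonneg _) (χ.norm_le_one _)).trans ?_
    have := tri_core_q (fun t => Ef t * Bf χ t) (Pf χ) (fun t => Kern φ (t / (1 / 4)))
      (hEc.mul (hBc χ)) (hPc χ) CK CB C1 (C' * d) (1 / U ^ 4) U k hk hCK0.le hCB0.le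
      hC10.le (by positivity) (by positivity) hU1 (fun t => by rw [hBE]; exact hBf χ t)
      (hPf χ) (hPq χ hχ1) (fun t => hK1 _) hK3
    simp_rw [hBE] at this
    exact this
  have hnn : ∀ (F : ℝ → ℂ), 0 ≤ ∫ t in (-U)..U, ‖F t‖ ^ 2 := fun F =>
    intervalIntegral.integral_nonneg (by linarith) (fun t _ => by positivity)
  have hcard : (S.card : ℝ) ≤ R := by
    have h1 : S.card ≤ Fintype.card (DirichletCharacter ℂ q) := Finset.card_le_univ _
    have h2 : Fintype.card (DirichletCharacter ℂ q) = q.totient := by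
      rw [← Nat.card_eq_fintype_card]
      exact DirichletCharacter.card_eq_totient_of_hasEnoughRootsOfUnity ℂ q
    have h3 : S.card ≤ q := by
      rw [h2] at h1
      exact h1.trans (Nat.totient_le q)
    have h4 : (S.card : ℝ) ≤ q := by exact_mod_cast h3
    linarith
  have hsum : ‖∑ χ ∈ S, χ b⁻¹ * ∫ t : ℝ, Kern φ (t / (1 / 4)) *
      ((Ef t * Bf χ t) * Pf χ t ^ k)‖ ≤ k2 * d / Real.log x + k3 * (1 / x ^ (d / 3)) := by
    refine (_root_.norm_sum_le _ _).trans ((Finset.sum_le_sum hcore).trans ?_)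
    rw [Finset.sum_add_distrib, ← Finset.mul_sum, Finset.sum_add_distrib, Finset.sum_const,
      nsmul_eq_mul]
    have h1 : ∑ χ ∈ S, ∫ t in (-U)..U, ‖Bf χ t‖ ^ 2 ≤ m0 / Real.log x :=
      (Finset.sum_le_sum_of_subset_of_nonneg (Finset.subset_univ _)
        (fun χ _ _ => hnn (Bf χ))).trans hmB
    have h2 : ∑ χ ∈ S, ∫ t in (-U)..U, ‖Pf χ t‖ ^ 2 ≤ m0 / Real.log x :=
      (Finset.sum_le_sum_of_subset_of_nonneg (Finset.subset_univ _)
        (fun χ _ _ => hnn (Pf χ))).trans hmP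
    have h3 : CK * C1 ^ (k - 2) * (C' * d) / 2 * ((∑ χ ∈ S, ∫ t in (-U)..U, ‖Bf χ t‖ ^ 2) +
        ∑ χ ∈ S, ∫ t in (-U)..U, ‖Pf χ t‖ ^ 2) ≤ k2 * d / Real.log x := by
      calc CK * C1 ^ (k - 2) * (C' * d) / 2 * ((∑ χ ∈ S, ∫ t in (-U)..U, ‖Bf χ t‖ ^ 2) +
          ∑ χ ∈ S, ∫ t in (-U)..U, ‖Pf χ t‖ ^ 2) ≤
          CK * C1 ^ (k - 2) * (C' * d) / 2 * (m0 / Real.log x + m0 / Real.log x) := by gcongr
        _ = k2 * d / Real.log x := by rw [hk2]; ring
    have h4 : (S.card : ℝ) * (2 * CK * CB * C1 ^ k * (1 / U ^ 4) * Real.pi) ≤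
        k3 * (1 / x ^ (d / 3)) := by
      have h5 : (S.card : ℝ) * (1 / U ^ 4) ≤ 4096 * (1 / x ^ (d / 3)) := by
        have h6 : R * (1 / U ^ 4) = 4096 * (1 / R ^ 3) := by
          rw [hU]; field_simp; norm_num
        have h7 : x ^ (d / 3) ≤ R ^ 3 := by
          refine hQ1.trans ?_
          calc Q = R * R := hRR.symm
            _ = R * R * 1 := by ring
            _ ≤ R * R * R := by gcongr; linarith
            _ = R ^ 3 := by ring
        calc (S.card : ℝ) * (1 / U ^ 4) ≤ R * (1 / U ^ 4) := by gcongr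
          _ = 4096 * (1 / R ^ 3) := h6
          _ ≤ 4096 * (1 / x ^ (d / 3)) := by gcongr
      calc (S.card : ℝ) * (2 * CK * CB * C1 ^ k * (1 / U ^ 4) * Real.pi) =
          2 * CK * CB * C1 ^ k * Real.pi * ((S.card : ℝ) * (1 / U ^ 4)) := by ring
        _ ≤ 2 * CK * CB * C1 ^ k * Real.pi * (4096 * (1 / x ^ (d / 3))) := by gcongr
        _ = k3 * (1 / x ^ (d / 3)) := by rw [hk3]; ring
    linarith
  have hk2d : k2 * d / Real.log x ≤ ε' / 2 / Real.log x := by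
    gcongr
    rw [le_div_iff₀ (by positivity)] at hd2
    linarith
  calc |1 / (2 * Real.pi)| * ‖∑ χ ∈ S, χ b⁻¹ * ∫ t : ℝ, Kern φ (t / (1 / 4)) *
        ((Ef t * Bf χ t) * Pf χ t ^ k)‖
      ≤ 1 * ‖∑ χ ∈ S, χ b⁻¹ * ∫ t : ℝ, Kern φ (t / (1 / 4)) *
        ((Ef t * Bf χ t) * Pf χ t ^ k)‖ := by gcongr
    _ ≤ k2 * d / Real.log x + k3 * (1 / x ^ (d / 3)) := by rw [one_mul]; exact hsum
    _ ≤ ε' / 2 / Real.log x + ε' / 2 / Real.log x := by gcongr
    _ = ε' / Real.log x := by ring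

end Lnk
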