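import Pool.Agent.Lib.MP_0bb3d8_nt.HohMain
import Pool.Agent.Lib.Linnik.I1
import Pool.Agent.Lib.Linnik.NENonExc
import Pool.Agent.Lib.Linnik.ExcUniq
import Pool.Agent.Lib.Linnik.NotExcFour
import Pool.Agent.Lib.Linnik.NEStmt
import Pool.Agent.Lib.Linnik.BTq
import Pool.Agent.Lib.Linnik.MSq
import Pool.Agent.Lib.Linnik.PBound
import Pool.Agent.Lib.Linnik.TriQ
import Pool.Agent.Lib.Linnik.GdiffQ
import Pool.Agent.Lib.Linnik.II67
import Pool.Agent.Lib.Linnik.LinnikOf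
import Pool.Agent.Lib.Linnik.Final

/-!
# Primes in arithmetic progressions to large moduli; strong pseudoprimes to many bases
-/

set_option autoImplicit false

namespace Lnk

open Hoh

theorem neStmt' : NEStmt := neStmt (neOfNonExc zBound zOne) (excUnique zBound zOne) notExcFour

theorem linnikStmt : LinnikStmt := by
  obtain ⟨φ, hφ⟩ := exists_bump
  exact linnik_of hφ (triQ pbq (msq btq) φ hφ) (gdiffQ copStmt fundLemma vUpper recipPrimes φ hφ)
    (gtgtQ btq φ hφ) (nsqQ φ hφ) (cheb φ hφ) recipPrimes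

/-- A Linnik type theorem: primes in progressions to the moduli `q ∣ N` away from one prime. -/
theorem primesAP : PrimesAP := by
  obtain ⟨C, Q₀, hC, hQ₀, hNE⟩ := neStmt'
  obtain ⟨δ, c, x₀, hδ0, hδ1, hc, hx₀, hL⟩ := linnikStmt C hC
  have hev : ∀ᶠ x : ℝ in Filter.atTop, Q₀ ≤ x ^ δ ∧ 8 ≤ x ^ (3 * δ / 4) :=
    ((tendsto_rpow_atTop hδ0).eventually_ge_atTop Q₀).and
      ((tendsto_rpow_atTop (by positivity : 0 < 3 * δ / 4)).eventually_ge_atTop 8)
  obtain ⟨x₁, hx₁⟩ := Filter.eventually_atTop.1 hev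
  refine ⟨δ / 4, c, max x₀ x₁, by positivity, by linarith, hc, lt_max_of_lt_left hx₀, ?_⟩
  intro x hx N hN0 hN h8
  have hxx₀ : x₀ ≤ x := (le_max_left _ _).trans hx
  have hx1 : 1 < x := lt_of_lt_of_le hx₀ hxx₀
  have hx0 : 0 < x := by linarith
  obtain ⟨g1, g2⟩ := hx₁ x ((le_max_right _ _).trans hx)
  have h8N : 8 * (N : ℝ) ≤ x ^ δ := by
    calc 8 * (N : ℝ) ≤ x ^ (3 * δ / 4) * x ^ (δ / 4) := by gcongr
      _ = x ^ δ := by rw [← Real.rpow_add hx0]; congr 1; ring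
  obtain ⟨l, hl, hl2, hq⟩ := hNE (x ^ δ) g1 N hN0 h8N h8
  refine ⟨l, hl, hl2, ?_⟩
  intro q hqN hlq b hb x' hx' hx'2
  have hx'0 : 0 < x' := by linarith
  have hq0 : 0 < q := Nat.pos_of_dvd_of_pos hqN hN0
  refine hL x' (hxx₀.trans hx') (x ^ δ) ?_ ?_ q hq0 ?_ (hq q hqN hlq) b hb
  · calc x' ^ (δ / 2) ≤ (x ^ 2) ^ (δ / 2) := Real.rpow_le_rpow hx'0.le hx'2 (by positivity)
      _ = x ^ δ := by
        rw [← Real.rpow_natCast x 2, ← Real.rpow_mul hx0.le]; congr 1; push_cast; ring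
  · exact Real.rpow_le_rpow hx0.le hx' hδ0.le
  · have h1 : (q : ℝ) ≤ x ^ (δ / 4) := by
      refine le_trans ?_ hN
      exact_mod_cast Nat.le_of_dvd hN0 hqN
    calc (q : ℝ) ^ 2 ≤ (x ^ (δ / 4)) ^ 2 := by gcongr
      _ = x ^ (δ / 2) := by
        rw [← Real.rpow_natCast (x ^ (δ / 4)) 2, ← Real.rpow_mul hx0.le]; congr 1; push_cast; ring
      _ ≤ x ^ δ := Real.rpow_le_rpow_of_exponent_le hx1.le (by linarith)

end Lnk
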