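import Pool.Agent.Lib.Linnik.Abel
import Pool.Agent.Lib.MP_0bb3d8_nt.HohBrunTitchmarsh

/-!
# Sieve weights over a block
-/

set_option autoImplicit false

namespace Lnk

open MeasureTheory Set

/-- Change of the order of summation. -/
lemma switch {D : ℝ} {w : ℕ → ℝ} (hsupp : ∀ d, w d ≠ 0 → 1 ≤ d ∧ (d : ℝ) ≤ D) (a b : ℕ)
    (g : ℕ → ℂ) :
    ∑ n ∈ Finset.Ioc a b, g n * ((∑ d ∈ n.divisors, w d : ℝ) : ℂ) =
      ∑ d ∈ Finset.Icc 1 ⌊D⌋₊, (w d : ℂ) * ∑ m ∈ Finset.Ioc (a / d) (b / d), g (d * m) := by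
  have h1 : ∀ n ∈ Finset.Ioc a b, g n * ((∑ d ∈ n.divisors, w d : ℝ) : ℂ) =
      ∑ d ∈ Finset.Icc 1 ⌊D⌋₊, if d ∣ n then (w d : ℂ) * g n else 0 := by
    intro n hn
    rw [Finset.mem_Ioc] at hn
    rw [Hoh.sum_divisors_eq hsupp (by omega : n ≠ 0), Complex.ofReal_sum, Finset.mul_sum]
    refine Finset.sum_congr rfl fun d _ => ?_
    split_ifs
    · ring
    · simp
  rw [Finset.sum_congr rfl h1, Finset.sum_comm]
  refine Finset.sum_congr rfl fun d hd => ?_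
  have hd1 : 0 < d := (Finset.mem_Icc.1 hd).1
  rw [← Finset.sum_filter, ← Finset.mul_sum]
  congr 1
  symm
  apply Finset.sum_bij (fun m _ => d * m)
  · intro m hm
    rw [Finset.mem_Ioc] at hm
    rw [Finset.mem_filter, Finset.mem_Ioc]
    refine ⟨⟨?_, ?_⟩, dvd_mul_right _ _⟩
    · have := (Nat.div_lt_iff_lt_mul hd1).1 hm.1
      linarith
    · have := (Nat.le_div_iff_mul_le hd1).1 hm.2
      linarith
  · intro m _ m' _ h
    exact Nat.eq_of_mul_eq_mul_left hd1 h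
  · intro n hn
    rw [Finset.mem_filter, Finset.mem_Ioc] at hn
    obtain ⟨⟨h2, h3⟩, m, rfl⟩ := hn
    refine ⟨m, ?_, rfl⟩
    rw [Finset.mem_Ioc]
    constructor
    · rw [Nat.div_lt_iff_lt_mul hd1]
      linarith
    · rw [Nat.le_div_iff_mul_le hd1]
      linarith
  · intro m _
    rfl

/-- Sieve weights times a completely multiplicative function over a block. -/
theorem sieve_block {ψ : ℕ → ℂ} (hψ : ∀ n, ‖ψ n‖ ≤ 1) (hmul : ∀ m n, ψ (m * n) = ψ m * ψ n)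
    (κ : ℂ) {P : ℝ} (hP : ∀ t : ℝ, 0 ≤ t → ‖∑ k ∈ Finset.Icc 0 ⌊t⌋₊, ψ k - κ * t‖ ≤ P)
    {D W : ℝ} (hD : 0 ≤ D) (hW : 0 ≤ W) {w : ℕ → ℝ} (hw : ∀ d, |w d| ≤ W)
    (hsupp : ∀ d, w d ≠ 0 → 1 ≤ d ∧ (d : ℝ) ≤ D)
    {Y Y' B K : ℝ} (hY : 0 < Y) (hYY' : Y ≤ Y') {f f' : ℝ → ℂ}
    (hf : ∀ t ∈ Icc Y Y', HasDerivAt f (f' t) t) (hf' : ContinuousOn f' (Icc Y Y'))
    (hB0 : 0 ≤ B) (hK0 : 0 ≤ K)
    (hB : ∀ t ∈ Icc Y Y', ‖f t‖ ≤ B / t) (hK : ∀ t ∈ Icc Y Y', ‖f' t‖ ≤ B * K / t ^ 2) :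
    ‖∑ n ∈ Finset.Ioc ⌊Y⌋₊ ⌊Y'⌋₊, f n * ψ n * ((∑ d ∈ n.divisors, w d : ℝ) : ℂ) -
      κ * (∑ d ∈ Finset.Icc 1 ⌊D⌋₊, (w d : ℂ) * ψ d / d) * ∫ t in Y..Y', f t‖ ≤
      D * (W * (P * (B * (2 + K) / Y))) := by
  have hP0 : 0 ≤ P := (norm_nonneg _).trans (hP 0 le_rfl)
  rw [switch hsupp, Finset.mul_sum, Finset.sum_mul, ← Finset.sum_sub_distrib]
  have hterm : ∀ d ∈ Finset.Icc 1 ⌊D⌋₊,
      ‖(w d : ℂ) * ∑ m ∈ Finset.Ioc (⌊Y⌋₊ / d) (⌊Y'⌋₊ / d), f ((d * m : ℕ) : ℝ) * ψ (d * m) -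
        κ * ((w d : ℂ) * ψ d / d) * ∫ t in Y..Y', f t‖ ≤ W * (P * (B * (2 + K) / Y)) := by
    intro d hd
    have hd1 : 1 ≤ d := (Finset.mem_Icc.1 hd).1
    have hd0 : (0 : ℝ) < d := by exact_mod_cast hd1
    have hmem : ∀ t ∈ Icc (Y / d) (Y' / d), (d : ℝ) * t ∈ Icc Y Y' := by
      intro t ht
      constructor
      · have := (div_le_iff₀ hd0).1 ht.1
        linarith
      · have := (le_div_iff₀ hd0).1 ht.2
        linarith
    have h1 := abel_block ψ κ hP (a := Y / d) (b := Y' / d) (B := B / d) (K := K)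
      (f := fun t => f (d * t)) (f' := fun t => d * f' (d * t)) (by positivity) (by gcongr)
      (fun t ht => by
        have h2 := (hf _ (hmem t ht)).scomp t ((hasDerivAt_id t).const_mul (d : ℝ))
        have h3 : ((d : ℝ) * 1) • f' (d * t) = (d : ℂ) * f' (d * t) := by
          rw [mul_one, Complex.real_smul]
          simp
        rw [← h3]
        exact h2)
      (continuousOn_const.mul (hf'.comp (by fun_prop) hmem)) (by positivity) hK0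
      (fun t ht => by
        refine (hB _ (hmem t ht)).trans (le_of_eq ?_)
        rw [div_div])
      (fun t ht => by
        have ht0 : 0 < t := lt_of_lt_of_le (by positivity) ht.1
        rw [norm_mul]
        calc ‖(d : ℂ)‖ * ‖f' (d * t)‖ ≤ d * (B * K / (d * t) ^ 2) := by
              rw [Complex.norm_natCast]
              gcongr
              exact hK _ (hmem t ht)
          _ = B / d * K / t ^ 2 := by field_simp)
    rw [Nat.floor_div_natCast, Nat.floor_div_natCast] at h1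
    have h4 : ∫ t in (Y / d)..(Y' / d), f (d * t) = (1 / d : ℂ) * ∫ t in Y..Y', f t := by
      rw [intervalIntegral.integral_comp_mul_left _ hd0.ne', mul_div_cancel₀ _ hd0.ne',
        mul_div_cancel₀ _ hd0.ne', Complex.real_smul]
      simp
    rw [h4] at h1
    have h5 : (w d : ℂ) * ∑ m ∈ Finset.Ioc (⌊Y⌋₊ / d) (⌊Y'⌋₊ / d),
        f ((d * m : ℕ) : ℝ) * ψ (d * m) - κ * ((w d : ℂ) * ψ d / d) * ∫ t in Y..Y', f t =
        (w d : ℂ) * ψ d * (∑ m ∈ Finset.Ioc (⌊Y⌋₊ / d) (⌊Y'⌋₊ / d), f (d * m) * ψ m -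
          κ * ((1 / d : ℂ) * ∫ t in Y..Y', f t)) := by
      have h6 : ∑ m ∈ Finset.Ioc (⌊Y⌋₊ / d) (⌊Y'⌋₊ / d), f ((d * m : ℕ) : ℝ) * ψ (d * m) =
          ψ d * ∑ m ∈ Finset.Ioc (⌊Y⌋₊ / d) (⌊Y'⌋₊ / d), f (d * m) * ψ m := by
        rw [Finset.mul_sum]
        refine Finset.sum_congr rfl fun m _ => ?_
        rw [hmul]
        push_cast
        ring
      rw [h6]
      ring
    rw [h5, norm_mul, norm_mul]
    have h7 : P * (B / d * (2 + K) / (Y / d)) = P * (B * (2 + K) / Y) := by field_simp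
    rw [h7] at h1
    calc ‖(w d : ℂ)‖ * ‖ψ d‖ * _ ≤ W * 1 * (P * (B * (2 + K) / Y)) := by
          gcongr
          · rw [Complex.norm_real]
            exact hw d
          · exact hψ d
      _ = W * (P * (B * (2 + K) / Y)) := by ring
  refine (norm_sum_le _ _).trans ((Finset.sum_le_sum hterm).trans ?_)
  rw [Finset.sum_const, Nat.card_Icc, Nat.add_sub_cancel, nsmul_eq_mul]
  gcongr
  exact Nat.floor_le hD

end Lnk
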