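import Pool.Agent.Lib.Linnik.Defs
import Pool.Agent.Lib.MP_0bb3d8_nt.HohMertens

/-!
# Tools for the sifted L-series: they are L-series of characters of a higher level
-/

set_option autoImplicit false

namespace Lnk

open Complex Hoh

/-- The level `q · ∏_{p ≤ y} p`. -/
noncomputable def lvl (q : ℕ) (y : ℝ) : ℕ := q * primorial ⌊y⌋₊

lemma lvl_pos {q : ℕ} (hq : 0 < q) (y : ℝ) : 0 < lvl q y :=
  Nat.mul_pos hq (primorial_pos _)

lemma dvd_lvl (q : ℕ) (y : ℝ) : q ∣ lvl q y := Dvd.intro _ rfl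

/-- The sifted character. -/
noncomputable def sft {q : ℕ} (χ : DirichletCharacter ℂ q) (y : ℝ) :
    DirichletCharacter ℂ (lvl q y) :=
  DirichletCharacter.changeLevel (dvd_lvl q y) χ

lemma prime_dvd_primorial {p n : ℕ} (hp : p.Prime) : p ∣ primorial n ↔ p ≤ n := by
  rw [primorial, Prime.dvd_finsetProd_iff hp.prime]
  constructor
  · rintro ⟨a, ha, hpa⟩
    rw [Finset.mem_filter, Finset.mem_range] at ha
    rw [(Nat.prime_dvd_prime_iff_eq hp ha.2).mp hpa]
    omega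
  · intro h
    exact ⟨p, by rw [Finset.mem_filter, Finset.mem_range]; exact ⟨by omega, hp⟩, dvd_rfl⟩

lemma coprime_primorial {y : ℝ} {n : ℕ} (_hn : n ≠ 0) :
    n.Coprime (primorial ⌊y⌋₊) ↔ Rough y n := by
  constructor
  · intro h p hp hpn
    by_contra hy
    push Not at hy
    have h1 : p ∣ primorial ⌊y⌋₊ := (prime_dvd_primorial hp).mpr (Nat.le_floor hy)
    exact hp.one_lt.ne' (Nat.dvd_one.mp (h ▸ Nat.dvd_gcd hpn h1))
  · intro h
    by_contra hc
    obtain ⟨p, hp, hpn, hpp⟩ := Nat.Prime.not_coprime_iff_dvd.mp hc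
    have h1 := (prime_dvd_primorial hp).mp hpp
    have h2 := h p hp hpn
    have h3 : p ≤ ⌊y⌋₊ := h1
    have h4 : ⌊y⌋₊ < p := (Nat.floor_lt' hp.ne_zero).mpr h2
    omega

lemma sft_apply {q : ℕ} (χ : DirichletCharacter ℂ q) (y : ℝ) {n : ℕ} (hn : n ≠ 0) :
    sft χ y (n : ZMod (lvl q y)) = χ (n : ZMod q) * (rough y n : ℂ) := by
  rw [rough_apply]
  by_cases hc : n.Coprime (lvl q y)
  · have hc1 : n.Coprime q := Nat.Coprime.coprime_mul_right_right hc
    have hc2 : n.Coprime (primorial ⌊y⌋₊) := Nat.Coprime.coprime_mul_left_right hc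
    have hr : Rough y n := (coprime_primorial hn).mp hc2
    rw [if_pos ⟨hn, hr⟩]
    have h1 : IsCoprime (n : ℤ) (lvl q y : ℤ) := Nat.isCoprime_iff_coprime.mpr hc
    have h2 := DirichletCharacter.changeLevel_eq_cast_of_dvd' χ (dvd_lvl q y) h1
    rw [Int.cast_natCast, Int.cast_natCast] at h2
    rw [sft, h2]
    simp
  · have h1 : ¬ IsUnit ((n : ℕ) : ZMod (lvl q y)) := by
      rw [ZMod.isUnit_iff_coprime]; exact hc
    rw [MulChar.map_nonunit _ h1]
    by_cases hc1 : n.Coprime q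
    · have hc2 : ¬ n.Coprime (primorial ⌊y⌋₊) := fun h => hc (Nat.Coprime.mul_right hc1 h)
      rw [coprime_primorial hn] at hc2
      rw [if_neg (fun h => hc2 h.2)]
      simp
    · have h2 : ¬ IsUnit ((n : ℕ) : ZMod q) := by
        rw [ZMod.isUnit_iff_coprime]; exact hc1
      rw [MulChar.map_nonunit _ h2, zero_mul]

lemma Zs_eq {q : ℕ} (χ : DirichletCharacter ℂ q) (y : ℝ) :
    Zs χ y = LSeries (fun n => sft χ y (n : ZMod (lvl q y))) := by
  funext s
  unfold Zs
  exact LSeries_congr (fun {n} hn => (sft_apply χ y hn).symm) s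

lemma sft_one (q : ℕ) (y : ℝ) : sft (1 : DirichletCharacter ℂ q) y = 1 := by
  rw [sft, map_one]

lemma sft_mul {q : ℕ} (χ χ' : DirichletCharacter ℂ q) (y : ℝ) :
    sft (χ * χ') y = sft χ y * sft χ' y := by
  rw [sft, map_mul]; rfl

lemma sft_pow {q : ℕ} (χ : DirichletCharacter ℂ q) (y : ℝ) (k : ℕ) :
    sft (χ ^ k) y = sft χ y ^ k := by
  rw [sft, map_pow]; rfl

/-- The sifted principal character gives the sifted zeta function. -/
lemma Zs_one_eq {q : ℕ} (hq : 0 < q) {y : ℝ} (hy : (q : ℝ) ≤ y) (s : ℂ) :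
    Zs (1 : DirichletCharacter ℂ q) y s = LSeries (fun n => (rough y n : ℂ)) s := by
  unfold Zs
  refine LSeries_congr (fun {n} hn => ?_) s
  rw [rough_apply]
  by_cases h : Rough y n
  · rw [if_pos ⟨hn, h⟩]
    have hc : n.Coprime q := by
      by_contra hc
      obtain ⟨p, hp, hpn, hpq⟩ := Nat.Prime.not_coprime_iff_dvd.mp hc
      have h1 := h p hp hpn
      have h2 : (p : ℝ) ≤ q := by exact_mod_cast Nat.le_of_dvd hq hpq
      linarith
    rw [MulChar.one_apply ((ZMod.isUnit_iff_coprime n q).mpr hc)]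
    simp
  · rw [if_neg (fun h' => h h'.2)]
    simp

lemma Zs_differentiableAt {q : ℕ} (hq : 0 < q) (χ : DirichletCharacter ℂ q) (y : ℝ) {s : ℂ}
    (hs : 1 < s.re) : DifferentiableAt ℂ (Zs χ y) s := by
  rw [Zs_eq]
  have h := DirichletCharacter.absicssaOfAbsConv_eq_one (lvl_pos hq y).ne' (sft χ y)
  refine (LSeries_hasDerivAt (s := s) ?_).differentiableAt
  rw [h]
  exact_mod_cast hs

/-- Movement of `Zs` along a segment. -/
lemma Zs_sub_le {q : ℕ} (hq : 0 < q) (χ : DirichletCharacter ℂ q) (y : ℝ) {K : ℝ}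
    {a b : ℂ} (ha : 1 < a.re) (hb : 1 < b.re)
    (h : ∀ z ∈ segment ℝ a b, ‖deriv (Zs χ y) z‖ ≤ K) :
    ‖Zs χ y b - Zs χ y a‖ ≤ K * ‖b - a‖ := by
  have hseg : ∀ z ∈ segment ℝ a b, 1 < z.re := by
    intro z hz
    have hconv : Convex ℝ {z : ℂ | 1 < z.re} := convex_halfSpace_re_gt 1
    exact hconv.segment_subset (by simpa using ha) (by simpa using hb) hz
  exact (convex_segment a b).norm_image_sub_le_of_norm_deriv_le
    (fun z hz => Zs_differentiableAt hq χ y (hseg z hz)) h (left_mem_segment ℝ a b)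
    (right_mem_segment ℝ a b)

end Lnk
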